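import Pool.Agent.Work.MP_c6c039_lc.Defs

/-!
# Instances of SSAP: rational points of the plane in two lists
-/

set_option autoImplicit false

namespace Pool.Agent.Work.MP_c6c039_lc.FP

/-- the point of the plane with the rational coordinates `p` -/
noncomputable def toR (p : ℚ × ℚ) : ℝ × ℝ := ((p.1 : ℝ), (p.2 : ℝ))

open Classical in
/-- the points of a list -/
noncomputable def pts (l : List (ℚ × ℚ)) : Finset (ℝ × ℝ) := (l.map toR).toFinset

/-- all points of an instance (the list of the red points, the list of the blue points) -/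
noncomputable def allPts (I : List (ℚ × ℚ) × List (ℚ × ℚ)) : Finset (ℝ × ℝ) := pts (I.1 ++ I.2)

/-- General position: the listed points are distinct and no three of them are collinear. -/
def GenPos (I : List (ℚ × ℚ) × List (ℚ × ℚ)) : Prop :=
  (I.1 ++ I.2).Nodup ∧ ∀ p ∈ allPts I, ∀ q ∈ allPts I, ∀ r ∈ allPts I, p ≠ q → q ≠ r → p ≠ r →
    ¬ Collinear ℝ ({p, q, r} : Set (ℝ × ℝ))

/-- The number of points which are not vertices of the convex hull of the point set, that is,
which lie in the convex hull of the other points. -/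
noncomputable def inner (I : List (ℚ × ℚ) × List (ℚ × ℚ)) : ℕ :=
  {p : ℝ × ℝ | p ∈ allPts I ∧ p ∈ convexHull ℝ ((↑(allPts I) : Set (ℝ × ℝ)) \ {p})}.ncard

end Pool.Agent.Work.MP_c6c039_lc.FP
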