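import Pool.Agent.Work.MP_c6c039_lc.FP.Defs
import Pool.Agent.Work.MP_c6c039_lc.FP.Inst
import Pool.Agent.Work.MP_5296b6_lc.QF
import Pool.Agent.Work.MP_5296b6_lc.Bd.B02

/-!
# Block FP: instances of the plane, the input of the machine
-/

set_option autoImplicit false

namespace Pool.Agent.Work.MP_c6c039_lc.FP

open Pool.Agent.PT

/-! ## Reading an instance -/

/-- points with coordinates in binary -/
abbrev PQ := MP_5296b6_lc.BQ × MP_5296b6_lc.BQ

/-- read a point -/
def pPt (x : List Bool) : PQ :=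
  (MP_5296b6_lc.pQ (MP_5296b6_lc.pPair x).1, MP_5296b6_lc.pQ (MP_5296b6_lc.pPair x).2)

/-- read an instance -/
def pIn (x : List Bool) : List PQ × List PQ :=
  ((MP_5296b6_lc.pList (MP_5296b6_lc.pPair x).1).map pPt,
    (MP_5296b6_lc.pList (MP_5296b6_lc.pPair x).2).map pPt)

/-- first coordinates -/
def xq (l : List PQ) (i : ℕ) : ℚ :=
  MP_5296b6_lc.A4.qv (l.getD i ((([], []), []), (([], []), []))).1

/-- second coordinates -/
def yq (l : List PQ) (i : ℕ) : ℚ :=
  MP_5296b6_lc.A4.qv (l.getD i ((([], []), []), (([], []), []))).2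

/-- twice the area of a triangle -/
def arq (l : List PQ) (a b c : ℕ) : ℚ :=
  (xq l b - xq l a) * (yq l c - yq l a) - (yq l b - yq l a) * (xq l c - xq l a)

/-- the table of orientations -/
def orT (l : List PQ) : List (List (List Bool)) :=
  (List.range l.length).map fun a => (List.range l.length).map fun b =>
    (List.range l.length).map fun c => decide (0 < arq l a b c)

/-- the instance read from the input -/
def full (x : List Bool) : In :=
  mkIn (orT ((pIn x).1 ++ (pIn x).2),
    List.replicate (pIn x).1.length true ++ List.replicate (pIn x).2.length false)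

/-- the point with the number `i` -/
noncomputable def pnt (I : List (ℚ × ℚ) × List (ℚ × ℚ)) (i : ℕ) : ℝ × ℝ :=
  toR ((I.1 ++ I.2).getD i (0, 0))

/-! ## Sizes of states -/

/-- a bound for the numbers in states -/
def bd (I : In) : ℕ := 2 * mm I + nn I + (it I).sum

/-- bounds for the components of a state after `t` steps -/
def Inv (I : In) (t : ℕ) (s : St) : Prop :=
  s.1.1 ≤ 2 * mm I ∧ s.1.2 ≤ 2 * mm I + t ∧ (∀ v, s.2.1 = some v → v.2 ≤ bd I) ∧
  s.2.2.1.length ≤ t ∧ (∀ a ∈ s.2.2.1, a ≤ bd I) ∧ s.2.2.2.1.length ≤ t ∧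
  ∀ r ∈ s.2.2.2.1, r.1 ≤ bd I ∧ r.2.1 ≤ bd I + 1 ∧ r.2.2.1.length ≤ (prs I).length ∧
    r.2.2.2.1.length ≤ (prs I).length ∧ r.2.2.2.2.length ≤ (prs I).length

end Pool.Agent.Work.MP_c6c039_lc.FP
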