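import Pool.Agent.Work.MP_c6c039_lc.FP.Defs

/-!
# Polynomial time for the functions of the search (block FP, helper87)
-/

set_option autoImplicit false

namespace Pool.Agent.Work.MP_c6c039_lc.FP

open Pool.Agent.PT

variable {α : Type} [Enc α]

@[fun_prop]
theorem ptf_chi {f : α → In} {a b c : α → ℕ} (hf : PTF f) (ha : PTF a) (hb : PTF b) (hc : PTF c) :
    PTF (fun x => chi (f x) (a x) (b x) (c x)) := by
  unfold chi
  fun_prop

@[fun_prop]
theorem ptf_nn {f : α → In} (hf : PTF f) : PTF (fun x => nn (f x)) := by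
  unfold nn
  fun_prop

@[fun_prop]
theorem ptf_co {f : α → In} {a : α → ℕ} (hf : PTF f) (ha : PTF a) :
    PTF (fun x => co (f x) (a x)) := by
  unfold co
  fun_prop

@[fun_prop]
theorem ptf_hu {f : α → In} (hf : PTF f) : PTF (fun x => hu (f x)) := by
  unfold hu
  fun_prop

@[fun_prop]
theorem ptf_it {f : α → In} (hf : PTF f) : PTF (fun x => it (f x)) := by
  unfold it
  fun_prop

@[fun_prop]
theorem ptf_mm {f : α → In} (hf : PTF f) : PTF (fun x => mm (f x)) := by
  unfold mm
  fun_prop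

@[fun_prop]
theorem ptf_hp {f : α → In} {a : α → ℕ} (hf : PTF f) (ha : PTF a) :
    PTF (fun x => hp (f x) (a x)) := by
  unfold hp
  fun_prop

@[fun_prop]
theorem ptf_pt {f : α → In} {v : α → V} (hf : PTF f) (hv : PTF v) :
    PTF (fun x => pt (f x) (v x)) := by
  unfold pt
  fun_prop

@[fun_prop]
theorem ptf_cr {f : α → In} {a b c d : α → ℕ} (hf : PTF f) (ha : PTF a) (hb : PTF b) (hc : PTF c)
    (hd : PTF d) : PTF (fun x => cr (f x) (a x) (b x) (c x) (d x)) := by
  unfold cr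
  fun_prop

@[fun_prop]
theorem ptf_inT {f : α → In} {a b c d : α → ℕ} (hf : PTF f) (ha : PTF a) (hb : PTF b) (hc : PTF c)
    (hd : PTF d) : PTF (fun x => inT (f x) (a x) (b x) (c x) (d x)) := by
  unfold inT
  fun_prop

@[fun_prop]
theorem ptf_ext {f : α → In} {a : α → ℕ} (hf : PTF f) (ha : PTF a) :
    PTF (fun x => ext (f x) (a x)) := by
  unfold ext
  fun_prop

@[fun_prop]
theorem ptf_exL {f : α → In} (hf : PTF f) : PTF (fun x => exL (f x)) := by
  unfold exL
  fun_prop

@[fun_prop]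
theorem ptf_inL {f : α → In} (hf : PTF f) : PTF (fun x => inL (f x)) := by
  unfold inL
  fun_prop

@[fun_prop]
theorem ptf_rk {f : α → In} {a : α → ℕ} (hf : PTF f) (ha : PTF a) :
    PTF (fun x => rk (f x) (a x)) := by
  unfold rk
  fun_prop

@[fun_prop]
theorem ptf_hullOf {f : α → In} (hf : PTF f) : PTF (fun x => hullOf (f x)) := by
  unfold hullOf
  fun_prop

@[fun_prop]
theorem ptf_mkIn {f : α → List (List (List Bool)) × List Bool} (hf : PTF f) :
    PTF (fun x => mkIn (f x)) := by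
  unfold mkIn
  fun_prop

@[fun_prop]
theorem ptf_allEq {f : α → List Bool} (hf : PTF f) : PTF (fun x => allEq (f x)) := by
  unfold allEq
  fun_prop

@[fun_prop]
theorem ptf_nA {q : α → ℕ × ℕ} {v : α → V} (hq : PTF q) (hv : PTF v) :
    PTF (fun x => nA (q x) (v x)) := by
  unfold nA
  fun_prop

@[fun_prop]
theorem ptf_prs {f : α → In} (hf : PTF f) : PTF (fun x => prs (f x)) := by
  unfold prs
  fun_prop

@[fun_prop]
theorem ptf_look {f : α → In} {t : α → List Bool} {p q : α → ℕ} (hf : PTF f) (ht : PTF t)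
    (hp : PTF p) (hq : PTF q) : PTF (fun x => look (f x) (t x) (p x) (q x)) := by
  unfold look
  fun_prop

@[fun_prop]
theorem ptf_stR {f : α → In} {q : α → ℕ × ℕ} {a b : α → ℕ} (hf : PTF f) (hq : PTF q)
    (ha : PTF a) (hb : PTF b) : PTF (fun x => stR (f x) (q x) (a x) (b x)) := by
  unfold stR
  fun_prop

@[fun_prop]
theorem ptf_stL {f : α → In} {q : α → ℕ × ℕ} {a b : α → ℕ} (hf : PTF f) (hq : PTF q)
    (ha : PTF a) (hb : PTF b) : PTF (fun x => stL (f x) (q x) (a x) (b x)) := by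
  unfold stL
  fun_prop

@[fun_prop]
theorem ptf_recH {f : α → In} {q : α → ℕ × ℕ} {a b : α → ℕ} (hf : PTF f) (hq : PTF q)
    (ha : PTF a) (hb : PTF b) : PTF (fun x => recH (f x) (q x) (a x) (b x)) := by
  unfold recH
  fun_prop

@[fun_prop]
theorem ptf_recI {a b : α → ℕ} (ha : PTF a) (hb : PTF b) : PTF (fun x => recI (a x) (b x)) := by
  unfold recI
  fun_prop

@[fun_prop]
theorem ptf_recOf {f : α → In} {q : α → ℕ × ℕ} {e : α → V × V} (hf : PTF f) (hq : PTF q)
    (he : PTF e) : PTF (fun x => recOf (f x) (q x) (e x)) := by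
  unfold recOf
  fun_prop

@[fun_prop]
theorem ptf_visC {f : α → In} {q : α → ℕ × ℕ} {vs : α → List ℕ} {j : α → ℕ} (hf : PTF f)
    (hq : PTF q) (hv : PTF vs) (hj : PTF j) : PTF (fun x => visC (f x) (q x) (vs x) (j x)) := by
  unfold visC
  fun_prop

@[fun_prop]
theorem ptf_crC {f : α → In} {B : α → ℕ} {v w : α → V} {r : α → Rec} (hf : PTF f) (hB : PTF B)
    (hv : PTF v) (hw : PTF w) (hr : PTF r) :
    PTF (fun x => crC (f x) (B x) (v x) (w x) (r x)) := by
  unfold crC
  fun_prop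

@[fun_prop]
theorem ptf_okW {f : α → In} {s : α → St} {v w : α → V} (hf : PTF f) (hs : PTF s) (hw : PTF w)
    (hv : PTF v) : PTF (fun x => okW (f x) (s x) (w x) (v x)) := by
  unfold okW
  fun_prop

@[fun_prop]
theorem ptf_okC {f : α → In} {s : α → St} {v : α → V} (hf : PTF f) (hs : PTF s)
    (hv : PTF v) : PTF (fun x => okC (f x) (s x) (v x)) := by
  unfold okC
  fun_prop

@[fun_prop]
theorem ptf_cand {f : α → In} {s : α → St} (hf : PTF f) (hs : PTF s) :
    PTF (fun x => cand (f x) (s x)) := by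
  unfold cand
  fun_prop

@[fun_prop]
theorem ptf_updR {f : α → In} {b : α → Bool} {y : α → ℕ} {r : α → Rec} (hf : PTF f) (hb : PTF b)
    (hy : PTF y) (hr : PTF r) : PTF (fun x => updR (f x) (b x) (y x) (r x)) := by
  unfold updR
  fun_prop

@[fun_prop]
theorem ptf_upd {f : α → In} {s : α → St} {v : α → V} (hf : PTF f) (hs : PTF s)
    (hv : PTF v) : PTF (fun x => upd (f x) (s x) (v x)) := by
  unfold upd
  fun_prop

@[fun_prop]
theorem ptf_nx {f : α → In} {s : α → St} (hf : PTF f) (hs : PTF s) :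
    PTF (fun x => nx (f x) (s x)) := by
  unfold nx
  fun_prop

@[fun_prop]
theorem ptf_L0 {f : α → In} (hf : PTF f) : PTF (fun x => L0 (f x)) := by
  unfold L0
  fun_prop

@[fun_prop]
theorem ptf_cap {f : α → In} {M : α → ℕ} (hf : PTF f) (hM : PTF M) :
    PTF (fun x => cap (f x) (M x)) := by
  unfold cap
  fun_prop

@[fun_prop]
theorem ptf_ee {f : α → In} (hf : PTF f) : PTF (fun x => ee (f x)) := by
  unfold ee
  fun_prop

end Pool.Agent.Work.MP_c6c039_lc.FP
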