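import Pool.Agent.Work.MP_c6c039_lc.FP.StmtsC
import Pool.Agent.Work.MP_c6c039_lc.FP.P1
import Pool.Agent.Work.MP_c6c039_lc.FP.DefsE
import Pool.Agent.Work.MP_c6c039_lc.Geo
import Pool.Agent.Work.PT.Fpt
import Pool.Agent.Work.PT.Bridge

/-!
# Block FP, part E: running times, the input, the plane (captain helper87)

Every docstring is the complete proof.  Item `X`: statement `St_X`, file `FP/I_X.lean`, theorem
`pr_X`, with the statements named after USES as hypotheses `(hA : St_A)`; namespace as here, auxiliary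
lemmas in the NEW sub-namespace `IX`.  The file P1.lean contains the running times (`PTF`, found by
`fun_prop`) of all functions of Defs.lean except `dd`, `layB`, `ans`.
-/

set_option autoImplicit false

namespace Pool.Agent.Work.MP_c6c039_lc.FP

open Pool.Agent.PT Turing N487b59b3

/-! ## Running times -/

/-- Pd (EASY).  `PTF.foldl` (PT/List.lean) with the size bound `sz acc ≤ sz l`: after the prefix `l1` of `l` the
accumulator `acc` has no duplicates and its elements are in `l1` (Dd), or simply: by induction the size of the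
accumulator is at most `sz l1` (each step adds at most `sz s + 1`, as `sz_cons` does for `l1`; prove
`sz (foldl .. acc l1) + 1 ≤ sz acc + sz l1`).  The step is `if s ∈ acc then acc else s :: acc`, `fun_prop`
(`PTF.mem`, `PTF.ite`; unfold `dd`). -/
def St_Pd : Prop := PTF (fun l : List St => dd l)

/-- Iv (EASY-MEDIUM).  Induction on `t`.  `t = 0`: `L0 I`: the arcs `(mm + i, mm + i)`, `i < mm I`, no vertex, no records.
Step: `s ∈ take` of `dd` of the `flatMap`: `s = upd I s' v`, `v ∈ cand I s'`, `s' ∈ layB I M t` (`List.mem_of_mem_take`,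
Dd).  `v = (true, s'.1.2)`, `(true, s'.1.1 - 1)` or `(false, a)` with `a ∈ it I`, so `a ≤ (it I).sum`
(`List.le_sum_of_mem` or by induction); in all cases `v.2 ≤ bd I` because `2 mm I + t ≤ bd I` (`t ≤ nn I`).  `nA`:
the cases of its definition.  New record: `recH I q p x` (with `p = v.2` or the number of the old vertex) or
`recI`; tables are maps of `prs I`, or empty; `updR` keeps the numbers and the lengths of the tables below
`(prs I).length`.  USES Dd. -/
def St_Iv : Prop := ∀ (I : In) (M t : ℕ) (s : St), t ≤ nn I → s ∈ layB I M t → Inv I t s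

/-- Sz (EASY-MEDIUM).  Let `z = sz I`.  `mm I ≤ z`, `nn I ≤ z`, `(it I).sum ≤ z` (`length_le_sz`, `sz_nat`, `sz_cons`),
so `bd I ≤ 4 z`; `(prs I).length = (it I).length ^ 2 ≤ z ^ 2`; a list of at most `K` Booleans has size at most
`4 K + 1`; a list of at most `t` elements of size at most `W` has size at most `1 + t (W + 1)` (`sz_cons`).  So a
polynomial in `z` bounds `sz s`; `S` = that polynomial in `sz I`, `PB` by `PB.add`, `PB.mul`, `PB.const`, `PB.sz`. -/
def St_Sz : Prop := ∃ S : In → ℕ, PB S ∧ ∀ (I : In) (t : ℕ) (s : St), t ≤ nn I → Inv I t s → sz s ≤ S I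

/-- PL (EASY-MEDIUM).  `PTF.nat_iterate` (PT/List.lean) with `n p = nn p.1`, `init p = (L0 p.1).take (cap p.1 p.2)`,
`step (p, L) = (dd (L.flatMap fun s => nx p.1 s)).take (cap p.1 p.2)` (Pd by `PTF.comp`, the rest by
`fun_prop` with P1).  Size: `layB I M t` has at most `cap I M` elements (`List.length_take`), each of size at most
`S I` (Iv, Sz), so its size is at most `1 + cap I M * (S I + 1)`; `PB` of `p ↦ cap p.1 p.2`: `cap I M ≤
(3 sz I + 3)^3 * sz M`; `PB.fst` of PT/Fpt.lean for `S p.1`.  USES Pd Iv Sz. -/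
def St_PL : Prop := PTF (fun p : In × ℕ => layB p.1 p.2 (nn p.1))

/-- PA (EASY).  Unfold `ans`; PL; `PTF.eq`, `PTF.or`, `PTF.not`, `PTF.isEmpty`.  USES PL. -/
def St_PA : Prop := PTF (fun p : In × ℕ => ans p.1 p.2)

/-- PP (EASY).  As in the proof of `claimParse` in MP_5296b6_lc/Bd/B02.lean: `pPair`, `pList`, `pQ` are `PTF`
(`MP_5296b6_lc.claimUndelimit`), so `pPt` is, and `PTF.map'`. -/
def St_PP : Prop := PTF (fun x : List Bool => pIn x)

/-- PO (EASY-MEDIUM).  The functions `(l, i) ↦ xq l i`, `yq l i` are `QF` (MP_5296b6_lc/QF.lean) by `QF.of_BQ`, so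
`((l, a), b), c) ↦ arq l a b c` is `QF` (`QF.comp`, `QF.sub`, `QF.mul`); `QF.lt` with `QF.const 0` gives that
`decide (0 < arq l a b c)` is `PTF` (`PTP.ptf`; `PTF.congr` for the decidability instance), then `PTF.map'` three
times over `List.range l.length`. -/
def St_PO : Prop := PTF (fun l : List PQ => orT l)

/-- PF (EASY).  `ptf_mkIn`, PP, PO, `PTF.replicate`, `PTF.append`.  USES PP PO. -/
def St_PF : Prop := PTF (fun x : List Bool => full x)

/-- TB (EASY-MEDIUM).  THE MACHINE.  `TimeF.fpt` (PT/Fpt.lean) for `f (x, M) = [ans (full x) M]` and `e x = ee (full x)`: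
`B` with `PB B` and `TimeF (fun x => [ans (full x) (2 ^ e x)]) (fun x => B (x, 2 ^ e x))`; then `TimeF.tm2_raw`
(PT/Bridge.lean): a machine with time `20 B (x, N) + 100 sz x + 100`, `N = 2 ^ (20 (κ + 1)^3)`,
`κ = (it (full x)).length`.  `B (x, N) ≤ (sz (x, N) + 2)^k`, `sz (x, N) = sz x + 2 N + 2` (`sz_pair`, `sz_nat`),
`sz x ≤ 4 x.length + 1`.  So the time is at most `1000 (11 N (x.length + 1))^(k + 1) ≤
2^(10 + 4 (k + 1) + 20 (k + 1) (κ + 1)^3) (x.length + 1)^(k + 1)`: take `c = 10 + 24 (k + 1)`.
USES PA PF. -/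
def St_TB : Prop := ∃ (M : TM2ComputableAux Bool Bool) (c : ℕ), ∀ x : List Bool,
  Nonempty (TM2OutputsInTime M.tm (x.map M.inputAlphabet.invFun)
    (some (([ans (full x) (2 ^ ee (full x))] : List Bool).map M.outputAlphabet.invFun))
    (2 ^ (c * ((it (full x)).length + 1) ^ 3) * (x.length + 1) ^ c))

/-! ## The input -/

/-- PE (EASY).  `pPair_eq`, `pList_eq`, `pQ_eq` (MP_5296b6_lc/Bd/B02.lean), `List.map_map`. -/
def St_PE : Prop := ∀ I : List (ℚ × ℚ) × List (ℚ × ℚ), pIn (bitEncode I) =
  (I.1.map (fun p => (MP_5296b6_lc.repQ p.1, MP_5296b6_lc.repQ p.2)),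
    I.2.map (fun p => (MP_5296b6_lc.repQ p.1, MP_5296b6_lc.repQ p.2)))

/-- CT (EASY-MEDIUM).  `F = full (bitEncode I)`.  By PE and `A4.qv_repQ` (with `claimBadd.2.2`), for `i < (I.1 ++ I.2).length`
the coordinates `xq .. i`, `yq .. i` are those of `(I.1 ++ I.2).getD i (0, 0)`, the first component of `pnt I i` is
their cast to `ℝ`; so `arq` is `area` (cast), and `chi F a b c` is the entry of the table `orT`
(`List.getD_eq_getElem`, `List.getElem_map`, `List.getElem_range`).  Colours: `List.replicate`, `List.getD_append`.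
USES PE. -/
def St_CT : Prop := ∀ I : List (ℚ × ℚ) × List (ℚ × ℚ),
  nn (full (bitEncode I)) = (I.1 ++ I.2).length ∧
  (∀ a b c, a < (I.1 ++ I.2).length → b < (I.1 ++ I.2).length → c < (I.1 ++ I.2).length →
    (chi (full (bitEncode I)) a b c = true ↔ 0 < area (pnt I a) (pnt I b) (pnt I c))) ∧
  ∀ i, i < (I.1 ++ I.2).length → (co (full (bitEncode I)) i = true ↔ i < I.1.length)

/-- PI (EASY-MEDIUM).  `toR` is injective (`Rat.cast_injective`), `I.1 ++ I.2` has no duplicates; so the points are
distinct; `q ∈ allPts I` iff `q = toR p` with `p ∈ I.1 ++ I.2`, i.e. `q = pnt I i`, `i < n`.  A point with number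
`i < I.1.length` is in `pts I.1`, the others are in `pts I.2`; the lists are disjoint.  Three distinct numbers: distinct points
of `allPts I`; `area = 0` would make them collinear (`collinear_of_area`). -/
def St_PI : Prop := ∀ I : List (ℚ × ℚ) × List (ℚ × ℚ), GenPos I →
  (∀ i j, i < (I.1 ++ I.2).length → j < (I.1 ++ I.2).length → pnt I i = pnt I j → i = j) ∧
  (∀ q, q ∈ pts I.1 ∪ pts I.2 ↔ ∃ i, i < (I.1 ++ I.2).length ∧ pnt I i = q) ∧
  (∀ q, q ∈ allPts I ↔ ∃ i, i < (I.1 ++ I.2).length ∧ pnt I i = q) ∧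
  (∀ i, i < (I.1 ++ I.2).length → (pnt I i ∈ pts I.1 ↔ i < I.1.length)) ∧
  (∀ i, i < (I.1 ++ I.2).length → (pnt I i ∈ pts I.2 ↔ ¬ i < I.1.length)) ∧
  ∀ i j k, i < (I.1 ++ I.2).length → j < (I.1 ++ I.2).length → k < (I.1 ++ I.2).length →
    i ≠ j → j ≠ k → i ≠ k → area (pnt I i) (pnt I j) (pnt I k) ≠ 0

/-! ## The plane -/

/-- SX (EASY-MEDIUM).  TWO SEGMENTS.  Let `z` be in both segments, `z = (1 - t) c + t d`, `0 ≤ t ≤ 1`: `area a b z = 0`
(as `z` is on `a b`), and it is `(1 - t) area a b c + t area a b d`, so these two numbers, not zero, have opposite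
signs; the same with the roles exchanged.  Conversely let `u = area a b c`, `v = area a b d` have opposite signs and
`u' = area c d a`, `v' = area c d b` too.  Put `t = u / (u - v)`, `s = u' / (u' - v')`, both in `(0, 1)`; then
`(1 - t) c + t d = (1 - s) a + s b` (both coordinates: `field_simp`, `ring` after writing the areas; note
`u - v = - (u' - v')` up to sign: `u - v = area a b c - area a b d`, `u' - v' = area c d a - area c d b`, and
`u - v = -(u' - v')`), a common point. -/
def St_SX : Prop := ∀ a b c d : ℝ × ℝ, area a b c ≠ 0 → area a b d ≠ 0 → area c d a ≠ 0 →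
  area c d b ≠ 0 → (segment ℝ a b ∩ segment ℝ c d = ∅ ↔
    ¬ ((¬ (0 < area a b c ↔ 0 < area a b d)) ∧ ¬ (0 < area c d a ↔ 0 < area c d b)))

/-- GD (EASY).  `X i = (pnt I i).1`, `Y i = (pnt I i).2`; `ar X Y a b c = area (pnt I a) (pnt I b) (pnt I c)` by unfolding;
CT, PI.  The fields `hull`, `inte` of `Good (mkIn ..)`: `rfl` (`hullOf` and `inL` use only the table and the colours).
USES CT PI. -/
def St_GD : Prop := ∀ I : List (ℚ × ℚ) × List (ℚ × ℚ), GenPos I → Good (full (bitEncode I))

/-- SI (MEDIUM).  PATHS OF NUMBERS AND PATHS OF POINTS.  `F = full (bitEncode I)`, `n = (I.1 ++ I.2).length`, `nn F = n`.  `pnt I` is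
injective on the numbers `< n` (PI), so `nodup` and `span` correspond (`List.nodup_map_iff_inj_on`,
`List.mem_map`).  `alt`: `co F i ≠ co F j` iff exactly one of `i, j` is `< I.1.length` (CT) iff one of the points
is in `pts I.1` and the other in `pts I.2` (PI).  `simp` for `j = i + 1`: always true, `step_consecutive` (Geo.lean) because
three numbers of `p` at different places are different (`nodup`), so the area is not 0.  `i + 1 < j`: four
different numbers, SX with CT: `cr F a b c d = F` iff the segments are disjoint (`Bool.beq_eq_decide_eq` or cases of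
the four values of `chi`).  So `NC` is `simp` for `i + 1 < j`.  `(p.map f)[i] = f p[i]`, `p.getD i 0 = p[i]`.
USES CT PI SX. -/
def St_SI : Prop := ∀ I : List (ℚ × ℚ) × List (ℚ × ℚ), GenPos I → ∀ p : List ℕ,
  (∀ i ∈ p, i < (I.1 ++ I.2).length) →
  (SP (full (bitEncode I)) p ↔ IsPath (pts I.1) (pts I.2) (p.map (pnt I)))

/-- EX (EASY).  `SP F p` gives that the elements of `p` are `< n` (`span`, CT), so SI.  Conversely all elements of `l` are in
`pts I.1 ∪ pts I.2`, so `l = p.map (pnt I)` for a list `p` of numbers `< n` (PI; induction on `l`), SI.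
USES CT PI SI. -/
def St_EX : Prop := ∀ I : List (ℚ × ℚ) × List (ℚ × ℚ), GenPos I →
  ((∃ p, SP (full (bitEncode I)) p) ↔ ∃ l, IsPath (pts I.1) (pts I.2) l)

/-- NM (MEDIUM).  `F = full (bitEncode I)`.  `it F = inL F = (range n).filter (!ext F ·)`.  Let `p` be in it: there are
`a, b, c < n`, pairwise distinct and distinct from `p`, with `inT F a b c p = T`: `chi a b p = chi b c p = chi c a p`.
Put `u = area b c p`, `v = area c a p`, `w = area a b p` (points `pnt I a`, ..): by CT, PI they are all positive or all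
negative, and `pnt p = (u a + v b + w c) / (u + v + w)` (identity of coordinates, `u + v + w = area a b c`), so
`pnt I p` is in the convex hull of `pnt a, pnt b, pnt c`, points of `allPts I` different from `pnt p`
(`convexHull_mono`; `convex_convexHull` and `Convex.sum_mem`, or `mem_convexHull` via segments).  So `pnt I` maps
`(it F).toFinset` injectively into the set of `inner I`, which is finite; `it F` has no duplicates
(`List.nodup_range.filter`): `Set.ncard_le_ncard`, `Set.ncard_image_of_injOn`.  USES CT PI. -/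
def St_NM : Prop := ∀ I : List (ℚ × ℚ) × List (ℚ × ℚ), GenPos I →
  (it (full (bitEncode I))).length ≤ inner I

end Pool.Agent.Work.MP_c6c039_lc.FP
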