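import Pool.Agent.Work.MP_c6c039_lc.FP.StmtsE

/-!
# Block FP: the theorem from the statements
-/

set_option autoImplicit false

namespace Pool.Agent.Work.MP_c6c039_lc.FP

open Pool.Agent.PT Turing N487b59b3

/-- The theorem, from the correctness of the search, the running time and the geometry. -/
theorem final (hAn : St_An) (hTB : St_TB) (hGD : St_GD) (hEX : St_EX) (hNM : St_NM) :
    ∃ (M : TM2ComputableAux Bool Bool) (c : ℕ), ∀ I : List (ℚ × ℚ) × List (ℚ × ℚ), GenPos I →
      ∀ b : Bool, (b = true ↔ ∃ l : List (ℝ × ℝ), IsPath (pts I.1) (pts I.2) l) →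
        Nonempty (TM2OutputsInTime M.tm ((bitEncode I).map M.inputAlphabet.invFun)
          (some ((bitEncode b).map M.outputAlphabet.invFun))
          (2 ^ (c * (inner I + 1) ^ 3) * ((bitEncode I).length + 1) ^ c)) := by
  obtain ⟨M, c, hM⟩ := hTB
  refine ⟨M, c, fun I hI b hb => ?_⟩
  have h1 := hAn (full (bitEncode I)) (hGD I hI)
  have h2 : ans (full (bitEncode I)) (2 ^ ee (full (bitEncode I))) = b := by
    rw [Bool.eq_iff_iff, h1, hEX I hI, hb]
  have h5 := hM (bitEncode I)
  rw [h2] at h5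
  obtain ⟨⟨h3, h4⟩⟩ := h5
  refine ⟨⟨h3, h4.trans (Nat.mul_le_mul_right _ (Nat.pow_le_pow_right (by norm_num)
    (Nat.mul_le_mul_left _ (Nat.pow_le_pow_left ?_ _))))⟩⟩
  have := hNM I hI
  omega

end Pool.Agent.Work.MP_c6c039_lc.FP
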