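import Pool.Agent.Work.MP_c6c039_lc.FP.StmtsD

/-!
Item Aq (helper59): the list function `allEq`.
-/

set_option autoImplicit false

namespace Pool.Agent.Work.MP_c6c039_lc.FP

theorem pr_Aq : St_Aq := by
  intro b
  unfold allEq
  cases b with
  | nil => simp
  | cons a t =>
    simp only [List.headD_cons, List.all_eq_true, beq_iff_eq]
    constructor
    · intro h x hx y hy
      rw [h x hx, h y hy]
    · intro h x hx
      exact h x hx a List.mem_cons_self

end Pool.Agent.Work.MP_c6c039_lc.FP
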