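import Pool.Agent.Work.MP_c6c039_lc.FP.StmtsG

/-!
# Block FP, item Ar: the visited extreme points are an arc
-/

set_option autoImplicit false

namespace Pool.Agent.Work.MP_c6c039_lc.FP

open Pool.Agent.PT

namespace IAr

theorem getD_part (p : List ℕ) (m n i : ℕ) (h : m + i < n) :
    ((p.take n).drop m).getD i 0 = p.getD (m + i) 0 := by
  rw [List.getD_eq_getElem?_getD, List.getD_eq_getElem?_getD, List.getElem?_drop,
    List.getElem?_take_of_lt h]

theorem length_part (p : List ℕ) (m n : ℕ) (h : n ≤ p.length) :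
    ((p.take n).drop m).length = n - m := by
  rw [List.length_drop, List.length_take, min_eq_left h]

/-- the general statement for two disjoint parts of the path -/
theorem core (hNI : St_NI) (I : In) (hC : CH I) (p : List ℕ) (hp : p.Nodup)
    (hlt : ∀ a ∈ p, a < nn I) (hNC : NC I p) (i1 i2 j1 j2 : ℕ) (h1 : i1 < i2) (h2 : i2 < j1)
    (h3 : j1 < j2) (h4 : j2 < p.length) (e1 : ext I (p.getD i1 0) = true)
    (e2 : ext I (p.getD i2 0) = true) (e3 : ext I (p.getD j1 0) = true)
    (e4 : ext I (p.getD j2 0) = true)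
    (hne : chi I (p.getD i1 0) (p.getD i2 0) (p.getD j1 0) ≠
      chi I (p.getD i1 0) (p.getD i2 0) (p.getD j2 0)) : False := by
  have lk : ((p.take (i2 + 1)).drop i1).length = i2 + 1 - i1 := length_part p i1 (i2 + 1) (by omega)
  have ll : ((p.take (j2 + 1)).drop j1).length = j2 + 1 - j1 := length_part p j1 (j2 + 1) (by omega)
  have k0 : ((p.take (i2 + 1)).drop i1).getD 0 0 = p.getD i1 0 := by
    rw [getD_part p i1 (i2 + 1) 0 (by omega)]
    rfl
  have k1 : ((p.take (i2 + 1)).drop i1).getD (((p.take (i2 + 1)).drop i1).length - 1) 0 =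
      p.getD i2 0 := by
    rw [lk, getD_part p i1 (i2 + 1) _ (by omega)]
    congr 1
    omega
  have l0 : ((p.take (j2 + 1)).drop j1).getD 0 0 = p.getD j1 0 := by
    rw [getD_part p j1 (j2 + 1) 0 (by omega)]
    rfl
  have l1 : ((p.take (j2 + 1)).drop j1).getD (((p.take (j2 + 1)).drop j1).length - 1) 0 =
      p.getD j2 0 := by
    rw [ll, getD_part p j1 (j2 + 1) _ (by omega)]
    congr 1
    omega
  have hsub : List.Sublist ((p.take (i2 + 1)).drop i1 ++ (p.take (j2 + 1)).drop j1) p := by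
    have s1 : List.Sublist ((p.take (i2 + 1)).drop i1) (p.take (i2 + 1)) := List.drop_sublist _ _
    have s2 : List.Sublist ((p.take (j2 + 1)).drop j1) (p.drop (i2 + 1)) := by
      rw [List.drop_take]
      refine (List.take_sublist _ _).trans ?_
      have e : j1 = (i2 + 1) + (j1 - (i2 + 1)) := by omega
      rw [e, ← List.drop_drop]
      exact List.drop_sublist _ _
    have s3 := s1.append s2
    rwa [List.take_append_drop] at s3
  have hDs : Ds I ((p.take (i2 + 1)).drop i1 ++ (p.take (j2 + 1)).drop j1) :=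
    ⟨hp.sublist hsub, fun a ha => hlt a (hsub.subset ha)⟩
  obtain ⟨i, j, hi, hj, hcr⟩ := hNI I hC _ _ (by rw [lk]; omega) (by rw [ll]; omega) hDs
    (by rw [k0]; exact e1) (by rw [k1]; exact e2) (by rw [l0]; exact e3) (by rw [l1]; exact e4)
    (by rw [k0, k1, l0, l1]; exact hne)
  rw [lk] at hi
  rw [ll] at hj
  rw [getD_part p i1 (i2 + 1) i (by omega), getD_part p i1 (i2 + 1) (i + 1) (by omega),
    getD_part p j1 (j2 + 1) j (by omega), getD_part p j1 (j2 + 1) (j + 1) (by omega)] at hcr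
  have hf := hNC (i1 + i) (j1 + j) (by omega) (by omega)
  rw [show i1 + i + 1 = i1 + (i + 1) by ring, show j1 + j + 1 = j1 + (j + 1) by ring, hcr] at hf
  exact Bool.noConfusion hf

theorem idx_take {p : List ℕ} {t a : ℕ} (h : a ∈ p.take t) :
    ∃ i, i < t ∧ i < p.length ∧ p.getD i 0 = a := by
  obtain ⟨i, hi, he⟩ := List.mem_iff_getElem.mp h
  rw [List.length_take] at hi
  refine ⟨i, by omega, by omega, ?_⟩
  rw [List.getElem_take] at he
  rw [List.getD_eq_getElem _ _ (by omega)]
  exact he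

theorem idx_drop {p : List ℕ} {t a : ℕ} (h : a ∈ p.drop t) :
    ∃ i, t ≤ i ∧ i < p.length ∧ p.getD i 0 = a := by
  obtain ⟨i, hi, he⟩ := List.mem_iff_getElem.mp h
  rw [List.length_drop] at hi
  refine ⟨t + i, by omega, by omega, ?_⟩
  rw [List.getElem_drop] at he
  rw [List.getD_eq_getElem _ _ (by omega)]
  exact he

end IAr

open IAr in
theorem pr_Ar (hSy : St_Sy) (hNI : St_NI) : St_Ar := by
  intro I hG hH p hnd hlt hNC t x y z w hxy hyz hzw hwx
  rintro ⟨hx, hy, hz, hw⟩
  have hC : CH I := hSy I hG.real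
  have nxy : hp I x ≠ hp I y := hH.inj x y hxy (by omega)
  have nxz : hp I x ≠ hp I z := hH.inj x z (by omega) (by omega)
  have nxw : hp I x ≠ hp I w := hH.inj x w (by omega) (by omega)
  have nyz : hp I y ≠ hp I z := hH.inj y z (by omega) (by omega)
  have nyw : hp I y ≠ hp I w := hH.inj y w (by omega) (by omega)
  have nzw : hp I z ≠ hp I w := hH.inj z w (by omega) (by omega)
  have ds3 : ∀ a b c, a ≠ b → a ≠ c → b ≠ c → a < nn I → b < nn I → c < nn I →
      Ds I [a, b, c] := by
    intro a b c hab hac hbc ha hb hc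
    refine ⟨by simp [hab, hac, hbc], ?_⟩
    intro v hv
    simp only [List.mem_cons, List.not_mem_nil, or_false] at hv
    rcases hv with rfl | rfl | rfl <;> assumption
  have lx := hH.lt x
  have ly := hH.lt y
  have lz := hH.lt z
  have lw := hH.lt w
  -- orientations
  have c1 : chi I (hp I x) (hp I y) (hp I z) = true := hH.cyc x y z hxy hyz (by omega)
  have c2 : chi I (hp I x) (hp I z) (hp I w) = true := hH.cyc x z w (by omega) hzw hwx
  have c3 : chi I (hp I y) (hp I z) (hp I x) = true := by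
    rw [hC.cyc (hp I x) (hp I y) (hp I z) (ds3 _ _ _ nxy nxz nyz lx ly lz), c1]
  have c4 : chi I (hp I z) (hp I x) (hp I y) = true := by
    rw [hC.cyc (hp I y) (hp I z) (hp I x) (ds3 _ _ _ nyz nxy.symm nxz.symm ly lz lx), c3]
  have c5 : chi I (hp I x) (hp I z) (hp I y) = false := by
    rw [hC.anti (hp I z) (hp I x) (hp I y) (ds3 _ _ _ nxz.symm nyz.symm nxy lz lx ly), c4]
    rfl
  have c6 : chi I (hp I z) (hp I x) (hp I w) = false := by
    rw [hC.anti (hp I x) (hp I z) (hp I w) (ds3 _ _ _ nxz nxw nzw lx lz lw), c2]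
    rfl
  obtain ⟨i, hi1, hi2, hi3⟩ := idx_take hx
  obtain ⟨i', hi1', hi2', hi3'⟩ := idx_take hz
  obtain ⟨j, hj1, hj2, hj3⟩ := idx_drop hy
  obtain ⟨j', hj1', hj2', hj3'⟩ := idx_drop hw
  have hii : i ≠ i' := by
    rintro rfl
    exact nxz (hi3.symm.trans hi3')
  have hjj : j ≠ j' := by
    rintro rfl
    exact nyw (hj3.symm.trans hj3')
  have ex := hH.ex x
  have ey := hH.ex y
  have ez := hH.ex z
  have ew := hH.ex w
  rcases lt_or_gt_of_ne hii with h1 | h1 <;> rcases lt_or_gt_of_ne hjj with h2 | h2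
  · exact core hNI I hC p hnd hlt hNC i i' j j' h1 (by omega) h2 hj2' (by rw [hi3]; exact ex)
      (by rw [hi3']; exact ez) (by rw [hj3]; exact ey) (by rw [hj3']; exact ew)
      (by rw [hi3, hi3', hj3, hj3', c5, c2]; exact Bool.false_ne_true)
  · exact core hNI I hC p hnd hlt hNC i i' j' j h1 (by omega) h2 hj2 (by rw [hi3]; exact ex)
      (by rw [hi3']; exact ez) (by rw [hj3']; exact ew) (by rw [hj3]; exact ey)
      (by rw [hi3, hi3', hj3, hj3', c5, c2]; exact Bool.false_ne_true.symm)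
  · exact core hNI I hC p hnd hlt hNC i' i j j' h1 (by omega) h2 hj2' (by rw [hi3']; exact ez)
      (by rw [hi3]; exact ex) (by rw [hj3]; exact ey) (by rw [hj3']; exact ew)
      (by rw [hi3, hi3', hj3, hj3', c4, c6]; exact Bool.false_ne_true.symm)
  · exact core hNI I hC p hnd hlt hNC i' i j' j h1 (by omega) h2 hj2 (by rw [hi3']; exact ez)
      (by rw [hi3]; exact ex) (by rw [hj3']; exact ew) (by rw [hj3]; exact ey)
      (by rw [hi3, hi3', hj3, hj3', c4, c6]; exact Bool.false_ne_true)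

end Pool.Agent.Work.MP_c6c039_lc.FP
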