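import Pool.Agent.Work.MP_c6c039_lc.FP.StmtsG

/-!
Item CA of the block FP: the crossing rule for two edges from interior points to extreme points.
-/

set_option autoImplicit false

namespace Pool.Agent.Work.MP_c6c039_lc.FP

open Pool.Agent.PT

namespace ICA

lemma ne_ext {I : In} (hH : HC I) {p : ℕ} (hp' : p ∈ it I) (x : ℕ) : p ≠ hp I x := by
  intro h
  have h1 := ((hH.int p).1 hp').2
  rw [h, hH.ex x] at h1
  exact Bool.noConfusion h1

lemma ds3 {I : In} {a b c : ℕ} (h1 : a ≠ b) (h2 : a ≠ c) (h3 : b ≠ c) (ha : a < nn I)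
    (hb : b < nn I) (hc : c < nn I) : Ds I [a, b, c] := by
  refine ⟨by simp [h1, h2, h3], ?_⟩
  intro d hd
  simp only [List.mem_cons, List.not_mem_nil, or_false] at hd
  rcases hd with rfl | rfl | rfl
  · exact ha
  · exact hb
  · exact hc

lemma ds4 {I : In} {a b c d : ℕ} (h1 : a ≠ b) (h2 : a ≠ c) (h3 : a ≠ d) (h4 : b ≠ c) (h5 : b ≠ d)
    (h6 : c ≠ d) (ha : a < nn I) (hb : b < nn I) (hc : c < nn I) (hd : d < nn I) :
    Ds I [a, b, c, d] := by
  refine ⟨by simp [h1, h2, h3, h4, h5, h6], ?_⟩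
  intro e he
  simp only [List.mem_cons, List.not_mem_nil, or_false] at he
  rcases he with rfl | rfl | rfl | rfl
  · exact ha
  · exact hb
  · exact hc
  · exact hd

/-- the other side of the line -/
lemma flip {I : In} (hC : CH I) (hH : HC I) {p q : ℕ} (hp' : p ∈ it I) (hq : q ∈ it I)
    (hpq : p ≠ q) (z : ℕ) : chi I q p (hp I z) = !chi I p q (hp I z) :=
  hC.anti p q (hp I z) (ds3 hpq (ne_ext hH hp' z) (ne_ext hH hq z) ((hH.int p).1 hp').1
    ((hH.int q).1 hq).1 (hH.lt z))

lemma beq_not (a b : Bool) : ((!a) == (!b)) = (a == b) := by cases a <;> cases b <;> rfl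

lemma stR_flip {I : In} (hC : CH I) (hH : HC I) {p q : ℕ} (hp' : p ∈ it I) (hq : q ∈ it I)
    (hpq : p ≠ q) (x B : ℕ) : stR I (q, p) x B = stR I (p, q) x B := by
  unfold stR
  congr 1
  funext i
  dsimp only
  rw [flip hC hH hp' hq hpq, flip hC hH hp' hq hpq, beq_not]

lemma stL_eq {I : In} (hC : CH I) (hH : HC I) {p q : ℕ} (hp' : p ∈ it I) (hq : q ∈ it I)
    (hpq : p ≠ q) (x y : ℕ) (hxy : y < x) (h : chi I p q (hp I x) = chi I p q (hp I y)) :
    stR I (q, p) y (x + 1) = stL I (p, q) y x := by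
  rw [stR_flip hC hH hp' hq hpq]
  unfold stR stL
  rw [Bool.eq_iff_iff, List.all_eq_true, List.all_eq_true]
  dsimp only
  rw [h]
  constructor
  · intro h1 i hi
    refine h1 i ?_
    rw [List.mem_range] at hi ⊢
    omega
  · intro h1 i hi
    rw [List.mem_range] at hi
    by_cases h2 : i < x - y
    · exact h1 i (List.mem_range.2 h2)
    · have h3 : y + i = x := by omega
      rw [h3, h]
      exact beq_self_eq_true _

theorem first {I : In} (hC : CH I) (hCq : St_Cq) (hF2 : St_F2) (hG : Good I) (hH : HC I)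
    {p q : ℕ} (hp' : p ∈ it I) (hq : q ∈ it I) (hpq : p ≠ q) (x y : ℕ) (hxy : x < y)
    (hyx : y < x + mm I) : cr I q (hp I y) p (hp I x) =
    ((chi I p q (hp I x) == chi I p q (hp I y)) &&
      (stR I (p, q) x (y + 1) == chi I p q (hp I x))) := by
  have hpl := ((hH.int p).1 hp').1
  have hql := ((hH.int q).1 hq).1
  have hxl := hH.lt x
  have hyl := hH.lt y
  have hab : hp I x ≠ hp I y := hH.inj x y hxy hyx
  have hpx := ne_ext hH hp' x
  have hpy := ne_ext hH hp' y
  have hqx := ne_ext hH hq x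
  have hqy := ne_ext hH hq y
  -- the four orientations
  have e1 : chi I q (hp I y) p = chi I p q (hp I y) :=
    hC.cyc p q (hp I y) (ds3 hpq hpy hqy hpl hql hyl)
  have e2 : chi I q (hp I y) (hp I x) = !chi I q (hp I x) (hp I y) := by
    rw [← hC.anti q (hp I x) (hp I y) (ds3 hqx hqy hab hql hxl hyl)]
    exact hC.cyc (hp I x) q (hp I y) (ds3 hqx.symm hab hqy hxl hql hyl)
  have e3 : chi I p (hp I x) q = !chi I p q (hp I x) := by
    rw [← hC.anti p q (hp I x) (ds3 hpq hpx hqx hpl hql hxl)]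
    exact hC.cyc q p (hp I x) (ds3 hpq.symm hqx hpx hql hpl hxl)
  by_cases hs : chi I p q (hp I x) = chi I p q (hp I y)
  · have f1 := hF2 I hG hH p q x y hp' hq hpq hxy hyx hs
    have f2 := hF2 I hG hH q p x y hq hp' hpq.symm hxy hyx (by
      rw [flip hC hH hp' hq hpq, flip hC hH hp' hq hpq, hs])
    rw [stR_flip hC hH hp' hq hpq] at f2
    have g1 : chi I p (hp I x) (hp I y) = stR I (p, q) x (y + 1) := by
      rw [Bool.eq_iff_iff]; exact f1.symm
    have g2 : chi I q (hp I x) (hp I y) = stR I (p, q) x (y + 1) := by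
      rw [Bool.eq_iff_iff]; exact f2.symm
    unfold cr
    rw [e1, e2, e3, g1, g2, ← hs]
    generalize stR I (p, q) x (y + 1) = c
    generalize chi I p q (hp I x) = s
    cases c <;> cases s <;> rfl
  · have h1 : cr I q (hp I y) p (hp I x) = false := by
      by_contra h2
      have h3 : cr I q (hp I y) p (hp I x) = true := by
        cases h4 : cr I q (hp I y) p (hp I x)
        · exact absurd h4 h2
        · rfl
      have h4 := hCq I hC q (hp I y) p (hp I x)
        (ds4 hqy hpq.symm hqx hpy.symm hab.symm hpx hql hyl hpl hxl) h3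
      rw [flip hC hH hp' hq hpq, flip hC hH hp' hq hpq] at h4
      apply hs
      revert h4
      generalize chi I p q (hp I x) = s
      generalize chi I p q (hp I y) = t
      cases s <;> cases t <;> simp
    rw [h1]
    revert hs
    generalize chi I p q (hp I x) = s
    generalize chi I p q (hp I y) = t
    cases s <;> cases t <;> simp

end ICA

/-- item CA -/
theorem pr_CA (hSy : St_Sy) (hCs : St_Cs) (hCq : St_Cq) (hF2 : St_F2) : St_CA := by
  intro I hG hH p q x y hp' hq hpq
  have hC := hSy I hG.real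
  refine ⟨ICA.first hC hCq hF2 hG hH hp' hq hpq x y, fun h1 h2 => ?_⟩
  have hpl := ((hH.int p).1 hp').1
  have hql := ((hH.int q).1 hq).1
  have hab : hp I y ≠ hp I x := hH.inj y x h1 h2
  have k1 := ICA.first hC hCq hF2 hG hH hq hp' hpq.symm y x h1 h2
  have k2 := (hCs I hC p (hp I x) q (hp I y) (ICA.ds4 (ICA.ne_ext hH hp' x) hpq
    (ICA.ne_ext hH hp' y) (ICA.ne_ext hH hq x).symm hab.symm (ICA.ne_ext hH hq y) hpl
    (hH.lt x) hql (hH.lt y))).2.2
  rw [k2, k1, ICA.flip hC hH hp' hq hpq, ICA.flip hC hH hp' hq hpq]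
  by_cases hs : chi I p q (hp I x) = chi I p q (hp I y)
  · rw [ICA.stL_eq hC hH hp' hq hpq x y h1 hs, ← hs]
    generalize stL I (p, q) y x = c
    generalize chi I p q (hp I x) = s
    cases c <;> cases s <;> rfl
  · revert hs
    generalize chi I p q (hp I x) = s
    generalize chi I p q (hp I y) = t
    cases s <;> cases t <;> simp

end Pool.Agent.Work.MP_c6c039_lc.FP
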