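import Pool.Agent.Work.MP_c6c039_lc.FP.StmtsE

/-!
# Block FP, item CT: the table of orientations of the input

The instance read from the encoding of a list of red and a list of blue points has the right number of
points, the right orientations and the right colours.
-/

set_option autoImplicit false

namespace Pool.Agent.Work.MP_c6c039_lc.FP

open Pool.Agent.PT Turing N487b59b3

namespace ICT

/-- the code of a point -/
def rp (p : ℚ × ℚ) : PQ := (MP_5296b6_lc.repQ p.1, MP_5296b6_lc.repQ p.2)

theorem xq_map (L : List (ℚ × ℚ)) (i : ℕ) (hi : i < L.length) :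
    xq (L.map rp) i = (L.getD i (0, 0)).1 := by
  unfold xq
  rw [List.getD_eq_getElem _ _ (by rw [List.length_map]; exact hi), List.getElem_map,
    List.getD_eq_getElem _ _ hi]
  exact MP_5296b6_lc.A4.qv_repQ MP_5296b6_lc.claimBadd.2.2 _

theorem yq_map (L : List (ℚ × ℚ)) (i : ℕ) (hi : i < L.length) :
    yq (L.map rp) i = (L.getD i (0, 0)).2 := by
  unfold yq
  rw [List.getD_eq_getElem _ _ (by rw [List.length_map]; exact hi), List.getElem_map,
    List.getD_eq_getElem _ _ hi]
  exact MP_5296b6_lc.A4.qv_repQ MP_5296b6_lc.claimBadd.2.2 _

theorem getD_range_map {α : Type} (n : ℕ) (f : ℕ → α) (i : ℕ) (hi : i < n) (d : α) :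
    ((List.range n).map f).getD i d = f i := by
  rw [List.getD_eq_getElem _ _ (by rw [List.length_map, List.length_range]; exact hi),
    List.getElem_map, List.getElem_range]

theorem orT_get (l : List PQ) (a b c : ℕ) (ha : a < l.length) (hb : b < l.length)
    (hc : c < l.length) :
    (((orT l).getD a []).getD b []).getD c false = decide (0 < arq l a b c) := by
  unfold orT
  rw [getD_range_map _ _ a ha, getD_range_map _ _ b hb, getD_range_map _ _ c hc]

theorem area_eq (I : List (ℚ × ℚ) × List (ℚ × ℚ)) (a b c : ℕ) (ha : a < (I.1 ++ I.2).length)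
    (hb : b < (I.1 ++ I.2).length) (hc : c < (I.1 ++ I.2).length) :
    area (pnt I a) (pnt I b) (pnt I c) = ((arq ((I.1 ++ I.2).map rp) a b c : ℚ) : ℝ) := by
  unfold area pnt toR arq
  rw [xq_map _ a ha, xq_map _ b hb, xq_map _ c hc, yq_map _ a ha, yq_map _ b hb, yq_map _ c hc]
  push_cast
  ring

theorem full_eq (hPE : St_PE) (I : List (ℚ × ℚ) × List (ℚ × ℚ)) :
    full (bitEncode I) = mkIn (orT ((I.1 ++ I.2).map rp),
      List.replicate I.1.length true ++ List.replicate I.2.length false) := by
  unfold full
  rw [hPE I, List.map_append]
  simp only [List.length_map]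
  rfl

end ICT

open ICT in
theorem pr_CT (hPE : St_PE) : St_CT := by
  intro I
  rw [full_eq hPE I]
  refine ⟨?_, ?_, ?_⟩
  · show (List.replicate I.1.length true ++ List.replicate I.2.length false).length = _
    rw [List.length_append, List.length_append, List.length_replicate, List.length_replicate]
  · intro a b c ha hb hc
    show (((orT ((I.1 ++ I.2).map rp)).getD a []).getD b []).getD c false = true ↔ _
    rw [orT_get _ a b c (by rw [List.length_map]; exact ha) (by rw [List.length_map]; exact hb)
      (by rw [List.length_map]; exact hc), area_eq I a b c ha hb hc, decide_eq_true_iff]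
    exact_mod_cast Iff.rfl
  · intro i hi
    show (List.replicate I.1.length true ++ List.replicate I.2.length false).getD i false = true ↔ _
    by_cases h : i < I.1.length
    · rw [List.getD_append _ _ _ _ (by rw [List.length_replicate]; exact h),
        List.getD_eq_getElem _ _ (by rw [List.length_replicate]; exact h), List.getElem_replicate]
      exact ⟨fun _ => h, fun _ => rfl⟩
    · have h' : I.1.length ≤ i := not_lt.1 h
      rw [List.length_append] at hi
      rw [List.getD_append_right _ _ _ _ (by rw [List.length_replicate]; exact h'),
        List.length_replicate, List.getD_eq_getElem _ _ (by rw [List.length_replicate]; omega),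
        List.getElem_replicate]
      exact ⟨fun h0 => absurd h0 (by decide), fun h0 => absurd h0 h⟩

end Pool.Agent.Work.MP_c6c039_lc.FP
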