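import Pool.Agent.Work.MP_c6c039_lc.FP.StmtsC

/-!
# Block FP, item CW: the crossing test on records (helper57)
-/

set_option autoImplicit false

namespace Pool.Agent.Work.MP_c6c039_lc.FP

open Pool.Agent.PT

namespace ICW

theorem mk3 {I : In} {a b c : ℕ} (hab : a ≠ b) (hac : a ≠ c) (hbc : b ≠ c) (ha : a < nn I)
    (hb : b < nn I) (hc : c < nn I) : Ds I [a, b, c] := by
  refine ⟨?_, ?_⟩
  · simp [hab, hac, hbc]
  · simp [ha, hb, hc]

theorem mk4 {I : In} {a b c d : ℕ} (hab : a ≠ b) (hac : a ≠ c) (had : a ≠ d) (hbc : b ≠ c)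
    (hbd : b ≠ d) (hcd : c ≠ d) (ha : a < nn I) (hb : b < nn I) (hc : c < nn I) (hd : d < nn I) :
    Ds I [a, b, c, d] := by
  refine ⟨?_, ?_⟩
  · simp [hab, hac, had, hbc, hbd, hcd]
  · simp [ha, hb, hc, hd]

theorem ne_hp {I : In} (hC : HC I) {p : ℕ} (hp' : p ∈ it I) (z : ℕ) : p ≠ hp I z := by
  intro h
  have h1 := (hC.int p).1 hp'
  have h2 := hC.ex z
  rw [← h, h1.2] at h2
  exact Bool.false_ne_true h2

theorem cand_cases {I : In} {q : ℕ × ℕ} {l : List V} {v : V} (hv : v ∈ candF I q l) :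
    (q.2 - q.1 < mm I ∧ (v = (true, q.2) ∨ v = (true, q.1 - 1))) ∨
      ∃ a, v = (false, a) ∧ a ∈ it I ∧ a ∉ vis l := by
  unfold candF at hv
  rw [List.mem_append] at hv
  rcases hv with hv | hv
  · left
    by_cases h : q.2 - q.1 < mm I
    · rw [if_pos h] at hv
      simp only [List.mem_cons, List.not_mem_nil, or_false] at hv
      exact ⟨h, hv⟩
    · rw [if_neg h] at hv
      simp at hv
  · right
    rw [List.mem_map] at hv
    obtain ⟨a, ha, rfl⟩ := hv
    rw [List.mem_filter] at ha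
    exact ⟨a, rfl, ha.1, by simpa using ha.2⟩

/-- the new vertex gives a new point -/
theorem new_pt {I : In} (hC : HC I) {q : ℕ × ℕ} {l : List V} (R : RI I q l) {v : V}
    (hv : v ∈ candF I q l) : (∀ u ∈ l, pt I v ≠ pt I u) ∧ pt I v < nn I := by
  constructor
  · rintro ⟨bu, z⟩ hu heq
    cases bu with
    | true =>
      have h1 := R.hull (true, z) hu rfl
      dsimp only at h1
      change pt I v = hp I z at heq
      rcases cand_cases hv with ⟨h2, rfl | rfl⟩ | ⟨a, rfl, ha, hnv⟩
      · exact hC.inj z q.2 h1.2 (by omega) heq.symm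
      · have := R.low
        exact hC.inj (q.1 - 1) z (by omega) (by omega) heq
      · exact ne_hp hC ha z heq
    | false =>
      have h1 := R.int (false, z) hu rfl
      dsimp only at h1
      change pt I v = z at heq
      rcases cand_cases hv with ⟨h2, rfl | rfl⟩ | ⟨a, rfl, ha, hnv⟩
      · exact ne_hp hC h1 _ heq.symm
      · exact ne_hp hC h1 _ heq.symm
      · change a = z at heq
        subst heq
        apply hnv
        unfold vis
        rw [List.mem_map]
        exact ⟨(false, a), List.mem_filter.2 ⟨hu, rfl⟩, rfl⟩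
  · rcases cand_cases hv with ⟨h2, rfl | rfl⟩ | ⟨a, rfl, ha, hnv⟩
    · exact hC.lt _
    · exact hC.lt _
    · exact ((hC.int a).1 ha).1

theorem crC_T (hLk : St_Lk) {I : In} {q : ℕ × ℕ} {B p x a y : ℕ} (hp' : p ∈ it I)
    (ha : a ∈ it I) : crC I B (true, y) (false, a) (recH I q p x) =
      ((chi I p a (hp I x) == chi I p a (hp I y)) &&
        (if y = B then stR I (p, a) x q.2 == chi I p a (hp I x)
        else !(stL I (p, a) q.1 x == chi I p a (hp I x)))) := by
  have e1 := hLk I (fun c => chi I c.1 c.2 (hp I x)) p a hp' ha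
  have e2 := hLk I (fun c => stR I c x q.2) p a hp' ha
  have e3 := hLk I (fun c => stL I c q.1 x) p a hp' ha
  show ((look I ((prs I).map (fun c => chi I c.1 c.2 (hp I x))) p a == chi I p a (hp I y)) &&
    (if y = B then look I ((prs I).map (fun c => stR I c x q.2)) p a ==
      look I ((prs I).map (fun c => chi I c.1 c.2 (hp I x))) p a
    else !(look I ((prs I).map (fun c => stL I c q.1 x)) p a ==
      look I ((prs I).map (fun c => chi I c.1 c.2 (hp I x))) p a))) = _
  rw [e1, e2, e3]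

theorem crC_F (hLk : St_Lk) {I : In} {q : ℕ × ℕ} {B p x a y : ℕ} (hp' : p ∈ it I)
    (ha : a ∈ it I) : crC I B (false, a) (true, y) (recH I q p x) =
      ((chi I p a (hp I x) == chi I p a (hp I y)) &&
        (if y + 1 = B then stR I (p, a) x q.2 == chi I p a (hp I x)
        else !(stL I (p, a) q.1 x == chi I p a (hp I x)))) := by
  have e1 := hLk I (fun c => chi I c.1 c.2 (hp I x)) p a hp' ha
  have e2 := hLk I (fun c => stR I c x q.2) p a hp' ha
  have e3 := hLk I (fun c => stL I c q.1 x) p a hp' ha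
  show ((look I ((prs I).map (fun c => chi I c.1 c.2 (hp I x))) p a == chi I p a (hp I y)) &&
    (if y + 1 = B then look I ((prs I).map (fun c => stR I c x q.2)) p a ==
      look I ((prs I).map (fun c => chi I c.1 c.2 (hp I x))) p a
    else !(look I ((prs I).map (fun c => stL I c q.1 x)) p a ==
      look I ((prs I).map (fun c => chi I c.1 c.2 (hp I x))) p a))) = _
  rw [e1, e2, e3]

/-- the new edge is interior -/
theorem crC_I (hLk : St_Lk) {I : In} (hc : CH I) (hC : HC I) {q : ℕ × ℕ} {B p x a b : ℕ}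
    (hp' : p ∈ it I) (ha : a ∈ it I) (hb : b ∈ it I) (hap : a ≠ p) (hbp : b ≠ p) :
    crC I B (false, a) (false, b) (recH I q p x) = cr I a b p (hp I x) := by
  have e1 := hLk I (fun c => chi I c.1 c.2 (hp I x)) a b ha hb
  have e2 := hLk I (fun c => chi I c.1 c.2 (hp I x)) a p ha hp'
  have e3 := hLk I (fun c => chi I c.1 c.2 (hp I x)) b p hb hp'
  show (!(chi I a b p == look I ((prs I).map (fun c => chi I c.1 c.2 (hp I x))) a b) &&
    !(look I ((prs I).map (fun c => chi I c.1 c.2 (hp I x))) a p ==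
      look I ((prs I).map (fun c => chi I c.1 c.2 (hp I x))) b p)) = _
  rw [e1, e2, e3]
  have hpl := ((hC.int p).1 hp').1
  have hal := ((hC.int a).1 ha).1
  have hbl := ((hC.int b).1 hb).1
  have k1 := hc.cyc a p (hp I x) (mk3 hap (ne_hp hC ha x) (ne_hp hC hp' x) hal hpl (hC.lt x))
  have k2 := hc.cyc b p (hp I x) (mk3 hbp (ne_hp hC hb x) (ne_hp hC hp' x) hbl hpl (hC.lt x))
  unfold cr
  rw [k1, k2]

/-- records of edges with an extreme end -/
theorem main_H (hCs : St_Cs) (hCA : St_CA) (hLk : St_Lk) (hRt : St_Rt) {I : In} (hG : Good I)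
    (hc : CH I) (hC : HC I) {q : ℕ × ℕ} {w : V} {r : List V} (R : RI I q (w :: r)) {v : V}
    (hv : v ∈ candF I q (w :: r)) (hvw : ¬ (v.1 = true ∧ w.1 = true)) {p x : ℕ}
    (hp' : p ∈ it I) (hx1 : q.1 ≤ x) (hx2 : x < q.2) (hVp : pt I v ≠ p) (hWp : pt I w ≠ p)
    (hVx : pt I v ≠ hp I x) (hWx : pt I w ≠ hp I x) (hVW : pt I v ≠ pt I w) :
    crC I q.2 v w (recH I q p x) = cr I (pt I v) (pt I w) p (hp I x) := by
  have hpl := ((hC.int p).1 hp').1
  have hlen := R.len
  have hlow := R.low
  rcases w with ⟨bw, zw⟩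
  cases bw with
  | false =>
    have hw : zw ∈ it I := R.int (false, zw) (List.mem_cons_self ..) rfl
    have hwl := ((hC.int zw).1 hw).1
    change pt I v ≠ zw at hVW
    change zw ≠ p at hWp
    rcases cand_cases hv with ⟨h2, rfl | rfl⟩ | ⟨a, rfl, ha, hnv⟩
    · -- the right end
      have k := (hCs I hc zw (hp I q.2) p (hp I x) (mk4 hVW.symm hWp (ne_hp hC hw x)
        (ne_hp hC hp' q.2).symm hVx (ne_hp hC hp' x) hwl (hC.lt _) hpl (hC.lt x))).1
      change _ = cr I (hp I q.2) zw p (hp I x)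
      rw [k, (hCA I hG hC p zw x q.2 hp' hw hWp.symm).1 hx2 (by omega), crC_T hLk hp' hw,
        if_pos rfl, (hRt I (p, zw)).1 x q.2 hx2.le]
      dsimp only
      generalize stR I (p, zw) x q.2 = c
      generalize chi I p zw (hp I x) = s
      generalize chi I p zw (hp I q.2) = t
      cases c <;> cases s <;> cases t <;> rfl
    · -- the left end
      have k := (hCs I hc zw (hp I (q.1 - 1)) p (hp I x) (mk4 hVW.symm hWp (ne_hp hC hw x)
        (ne_hp hC hp' (q.1 - 1)).symm hVx (ne_hp hC hp' x) hwl (hC.lt _) hpl (hC.lt x))).1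
      change _ = cr I (hp I (q.1 - 1)) zw p (hp I x)
      rw [k, (hCA I hG hC p zw x (q.1 - 1) hp' hw hWp.symm).2 (by omega) (by omega),
        crC_T hLk hp' hw, if_neg (by omega), (hRt I (p, zw)).2 q.1 x (by omega) hx1]
      dsimp only
      generalize stL I (p, zw) q.1 x = c
      generalize chi I p zw (hp I x) = s
      generalize chi I p zw (hp I (q.1 - 1)) = t
      cases c <;> cases s <;> cases t <;> rfl
    · exact crC_I hLk hc hC hp' ha hw hVp hWp
  | true =>
    rcases cand_cases hv with ⟨h2, rfl | rfl⟩ | ⟨a, rfl, ha, hnv⟩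
    · exact absurd ⟨rfl, rfl⟩ hvw
    · exact absurd ⟨rfl, rfl⟩ hvw
    · have hhull := R.hull (true, zw) (List.mem_cons_self ..) rfl
      dsimp only at hhull
      change a ≠ p at hVp
      have hxz : x ≠ zw := by
        intro h
        apply hWx
        show hp I zw = hp I x
        rw [h]
      change _ = cr I a (hp I zw) p (hp I x)
      rw [crC_F hLk hp' ha]
      by_cases h3 : zw + 1 = q.2
      · rw [if_pos h3, (hCA I hG hC p a x zw hp' ha hVp.symm).1 (by omega) (by omega), h3]
      · have h4 : zw = q.1 := by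
          rcases R.head (true, zw) r rfl rfl with h | h
          · exact h
          · exact absurd h h3
        rw [if_neg h3, (hCA I hG hC p a x zw hp' ha hVp.symm).2 (by omega) (by omega), h4]

/-- records of edges without an extreme end -/
theorem main_I (hCs : St_Cs) {I : In} (hc : CH I) (hC : HC I) {q : ℕ × ℕ} {w : V} {r : List V}
    (R : RI I q (w :: r)) {v : V} (hv : v ∈ candF I q (w :: r))
    (hvw : ¬ (v.1 = true ∧ w.1 = true)) {p p' : ℕ} (hpl : p < nn I) (hpl' : p' < nn I)
    (hpp : p ≠ p') (hVp : pt I v ≠ p) (hWp : pt I w ≠ p) (hVp' : pt I v ≠ p')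
    (hWp' : pt I w ≠ p') (hVW : pt I v ≠ pt I w) :
    crC I q.2 v w (recI p p') = cr I (pt I v) (pt I w) p p' := by
  have hwl := R.lt w (List.mem_cons_self ..)
  have hvl := (new_pt hC R hv).2
  have k := (hCs I hc (pt I w) (pt I v) p p' (mk4 hVW.symm hWp hWp' hVp hVp' hpp hwl hvl
    hpl hpl')).1
  rcases w with ⟨bw, zw⟩
  rcases v with ⟨bv, zv⟩
  cases bw with
  | false =>
    cases bv with
    | false => rfl
    | true =>
      rw [k]
      rfl
  | true =>
    cases bv with
    | false => rfl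
    | true => exact absurd ⟨rfl, rfl⟩ hvw

end ICW

open ICW

theorem pr_CW (hSy : St_Sy) (hCs : St_Cs) (hCA : St_CA) (hRn : St_Rn) (hEd : St_Ed)
    (hLk : St_Lk) (hRt : St_Rt) : St_CW := by
  intro I hG hC q w r hrun v hv hvw e he
  have hc := hSy I hG.real
  have R := hRn I hG hC q (w :: r) hrun
  obtain ⟨i, hi, hei, hee⟩ := ((hEd r e).1).1 he
  have he1 : e.1 ∈ r := by
    rw [hei]
    exact List.getElem_mem _
  have he2 : e.2 ∈ r := by
    rw [hei]
    exact List.getElem_mem _
  have hnd := R.ptn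
  rw [List.map_cons, List.nodup_cons] at hnd
  have hWr : ∀ u ∈ r, pt I w ≠ pt I u := by
    intro u hu h
    exact hnd.1 (List.mem_map.2 ⟨u, hu, h.symm⟩)
  have hV := (new_pt hC R hv).1
  have hVr : ∀ u ∈ r, pt I v ≠ pt I u := fun u hu => hV u (List.mem_cons_of_mem _ hu)
  have hVW : pt I v ≠ pt I w := hV w (List.mem_cons_self ..)
  have h12 : pt I e.1 ≠ pt I e.2 := by
    rw [hei]
    intro h
    have h1 : (r.map (pt I))[i]'(by rw [List.length_map]; omega) =
        (r.map (pt I))[i + 1]'(by rw [List.length_map]; omega) := by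
      rw [List.getElem_map, List.getElem_map]
      exact h
    have h2 := (hnd.2.getElem_inj_iff).1 h1
    omega
  have hVl := (new_pt hC R hv).2
  have hWl := R.lt w (List.mem_cons_self ..)
  have hl1 := R.lt e.1 (List.mem_cons_of_mem _ he1)
  have hl2 := R.lt e.2 (List.mem_cons_of_mem _ he2)
  have hV1 := hVr e.1 he1
  have hV2 := hVr e.2 he2
  have hW1 := hWr e.1 he1
  have hW2 := hWr e.2 he2
  have hi1 := R.int e.1 (List.mem_cons_of_mem _ he1)
  have hi2 := R.int e.2 (List.mem_cons_of_mem _ he2)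
  have hh1 := R.hull e.1 (List.mem_cons_of_mem _ he1)
  have hh2 := R.hull e.2 (List.mem_cons_of_mem _ he2)
  clear hei he he1 he2
  rcases e with ⟨⟨b1, x1⟩, ⟨b2, x2⟩⟩
  cases b1 with
  | false =>
    cases b2 with
    | false => exact main_I hCs hc hC R hv hvw hl1 hl2 h12 hV1 hW1 hV2 hW2 hVW
    | true =>
      exact main_H hCs hCA hLk hRt hG hc hC R hv hvw (hi1 rfl) (hh2 rfl).1 (hh2 rfl).2 hV1 hW1
        hV2 hW2 hVW
  | true =>
    cases b2 with
    | false =>
      have k := (hCs I hc (pt I v) (pt I w) x2 (hp I x1) (mk4 hVW hV2 hV1 hW2 hW1 h12.symm hVl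
        hWl hl2 hl1)).2.1
      have m := main_H hCs hCA hLk hRt hG hc hC R hv hvw (hi2 rfl) (hh1 rfl).1 (hh1 rfl).2 hV2
        hW2 hV1 hW1 hVW
      exact m.trans k.symm
    | true => exact absurd ⟨rfl, rfl⟩ hee

end Pool.Agent.Work.MP_c6c039_lc.FP
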