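import Pool.Agent.Work.MP_c6c039_lc.FP.StmtsD

/-!
# Block FP, item Cd: the next vertex is a candidate
-/

set_option autoImplicit false

namespace Pool.Agent.Work.MP_c6c039_lc.FP

open Pool.Agent.PT

namespace ICd

theorem pt_true (I : In) (x : ℕ) : pt I (true, x) = hp I x := rfl

theorem pt_false (I : In) (x : ℕ) : pt I (false, x) = x := rfl

theorem not_vis (I : In) (l : List V) (c : ℕ) (h : c ∉ l.map (pt I)) : c ∉ vis l := by
  intro hc
  unfold vis at hc
  rw [List.mem_map] at hc
  obtain ⟨v, hv, hvc⟩ := hc
  rw [List.mem_filter] at hv
  apply h
  rw [List.mem_map]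
  refine ⟨v, hv.1, ?_⟩
  obtain ⟨b, a⟩ := v
  cases b with
  | true => simp at hv
  | false => exact hvc

theorem cand_int (I : In) (q : ℕ × ℕ) (l : List V) (c : ℕ) (h1 : c ∈ it I) (h2 : c ∉ vis l) :
    ((false, c) : V) ∈ candF I q l := by
  unfold candF
  rw [List.mem_append]
  right
  rw [List.mem_map]
  refine ⟨c, ?_, rfl⟩
  rw [List.mem_filter]
  refine ⟨h1, ?_⟩
  simp [h2]

theorem cand_ext (I : In) (q : ℕ × ℕ) (l : List V) (h : q.2 - q.1 < mm I) :
    ((true, q.2) : V) ∈ candF I q l ∧ ((true, q.1 - 1) : V) ∈ candF I q l := by
  unfold candF
  rw [if_pos h]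
  constructor
  · rw [List.mem_append]
    left
    simp
  · rw [List.mem_append]
    left
    simp

theorem split3 {s r : List ℕ} {c a : ℕ} (h : a ∈ s ++ c :: r) (h1 : a ≠ c) (h2 : a ∉ r) :
    a ∈ s := by
  rw [List.mem_append, List.mem_cons] at h
  rcases h with h | h | h
  · exact h
  · exact absurd h h1
  · exact absurd h h2

end ICd

theorem pr_Cd (hRn : St_Rn) (hX0 : St_X0) (hAr : St_Ar) : St_Cd := by
  intro I hG hC q l hR s c hnd hmem hnc
  have hcn : c < nn I := (hmem c).1 (by simp)
  have hcl : c ∉ l.map (pt I) := by
    have h1 := (List.nodup_append.1 hnd).2.1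
    exact (List.nodup_cons.1 h1).1
  cases hext : ext I c with
  | false =>
    exact ⟨q, (false, c), hR, ICd.cand_int I q l c ((hC.int c).2 ⟨hcn, hext⟩)
      (ICd.not_vis I l c hcl), rfl⟩
  | true =>
    have hI := hRn I hG hC q l hR
    obtain ⟨A, B⟩ := q
    have hle : A ≤ B := hI.le
    have hlow : mm I ≤ B := hI.low
    rcases Nat.eq_or_lt_of_le hle with hAB | hAB
    · subst hAB
      obtain ⟨y, hy1, hy2, hy3⟩ := hC.sur (mm I) c hcn hext
      have hRy := hX0 I hG hC A l hR y hy1 (by omega)
      refine ⟨(y, y), (true, y), hRy, ?_, hy3⟩
      have h := (ICd.cand_ext I (y, y) l (by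
        show y - y < mm I
        have := hC.pos
        omega)).1
      exact h
    · obtain ⟨x, hx1, hx2, hx3⟩ := hC.sur B c hcn hext
      have hxA : x < A + mm I := by
        by_contra hcon
        push Not at hcon
        apply hcl
        rw [List.mem_map]
        refine ⟨(true, x - mm I), hI.all (x - mm I) (by show A ≤ x - mm I; omega)
          (by show x - mm I < B; omega), ?_⟩
        rw [ICd.pt_true, ← hC.per (x - mm I), ← hx3]
        congr 1
        omega
      have hlen : B - A < mm I := by omega
      have hc := ICd.cand_ext I (A, B) l hlen
      by_cases hxB : x = B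
      · subst hxB
        exact ⟨(A, x), (true, x), hR, hc.1, hx3⟩
      · by_cases hxE : x + 1 = A + mm I
        · refine ⟨(A, B), (true, A - 1), hR, hc.2, ?_⟩
          rw [ICd.pt_true, ← hC.per (A - 1), ← hx3]
          congr 1
          omega
        · exfalso
          have hs : ∀ y, B ≤ y → y < A + mm I → y ≠ x → hp I y ∈ s := by
            intro y hy1 hy2 hyx
            refine ICd.split3 ((hmem (hp I y)).2 (hC.lt y)) ?_ ?_
            · intro h
              rw [← hx3] at h
              rcases Nat.lt_or_ge y x with h1 | h1
              · exact hC.inj y x h1 (by omega) h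
              · exact hC.inj x y (by omega) (by omega) h.symm
            · intro h
              rw [List.mem_map] at h
              obtain ⟨v, hv, hvy⟩ := h
              cases hv1 : v.1 with
              | true =>
                have h2 := hI.hull v hv hv1
                have h3 : hp I v.2 = hp I y := by
                  rw [← hvy]
                  unfold pt
                  rw [hv1]
                  rfl
                have h4 : A ≤ v.2 := h2.1
                have h5 : v.2 < B := h2.2
                exact hC.inj v.2 y (by omega) (by omega) h3
              | false =>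
                have h2 := hI.int v hv hv1
                have h3 := ((hC.int v.2).1 h2).2
                have h4 : v.2 = hp I y := by
                  rw [← hvy]
                  unfold pt
                  rw [hv1]
                  rfl
                rw [h4, hC.ex y] at h3
                exact Bool.noConfusion h3
          have htake : (s ++ c :: l.map (pt I)).take s.length = s := by simp
          have hdrop : (s ++ c :: l.map (pt I)).drop s.length = c :: l.map (pt I) := by simp
          refine hAr I hG hC (s ++ c :: l.map (pt I)) hnd (fun a ha => (hmem a).1 ha) hnc s.length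
            B x (A + mm I - 1) (A + mm I) (by omega) (by omega) (by omega) (by omega) ⟨?_, ?_, ?_, ?_⟩
          · rw [htake]
            exact hs B le_rfl (by omega) (by omega)
          · rw [hdrop, hx3]
            exact List.mem_cons_self
          · rw [htake]
            exact hs (A + mm I - 1) (by omega) (by omega) (by omega)
          · rw [hdrop, hC.per A]
            refine List.mem_cons_of_mem _ ?_
            rw [List.mem_map]
            exact ⟨(true, A), hI.all A le_rfl hAB, rfl⟩

end Pool.Agent.Work.MP_c6c039_lc.FP
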