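import Pool.Agent.Work.MP_c6c039_lc.FP.StmtsG

/-!
# Block FP, item Ch: two extreme points separate the others
-/

set_option autoImplicit false

namespace Pool.Agent.Work.MP_c6c039_lc.FP

open Pool.Agent.PT

namespace ICh

theorem ds3 (I : In) {a b c : ℕ} (h1 : a ≠ b) (h2 : a ≠ c) (h3 : b ≠ c) (ha : a < nn I)
    (hb : b < nn I) (hc : c < nn I) : Ds I [a, b, c] := by
  refine ⟨?_, ?_⟩
  · simp [h1, h2, h3]
  · intro z hz
    simp only [List.mem_cons, List.not_mem_nil, or_false] at hz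
    rcases hz with rfl | rfl | rfl <;> assumption

theorem ds4 (I : In) {a b c d : ℕ} (h1 : a ≠ b) (h2 : a ≠ c) (h3 : a ≠ d) (h4 : b ≠ c)
    (h5 : b ≠ d) (h6 : c ≠ d) (ha : a < nn I) (hb : b < nn I) (hc : c < nn I) (hd : d < nn I) :
    Ds I [a, b, c, d] := by
  refine ⟨?_, ?_⟩
  · simp [h1, h2, h3, h4, h5, h6]
  · intro z hz
    simp only [List.mem_cons, List.not_mem_nil, or_false] at hz
    rcases hz with rfl | rfl | rfl | rfl <;> assumption

end ICh

theorem pr_Ch (hXt : St_Xt) : St_Ch := by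
  intro I hI a b x y hD ha hb hne
  have hn := hD.1
  simp only [List.nodup_cons, List.mem_cons, List.not_mem_nil, or_false, not_or,
    not_false_eq_true, List.nodup_nil, and_true] at hn
  obtain ⟨⟨hab, hax, hay⟩, ⟨hbx, hby⟩, hxy⟩ := hn
  have la : a < nn I := hD.2 a (by simp)
  have lb : b < nn I := hD.2 b (by simp)
  have lx : x < nn I := hD.2 x (by simp)
  have ly : y < nn I := hD.2 y (by simp)
  have e1 : chi I b x a = chi I a b x := hI.cyc a b x (ICh.ds3 I hab hax hbx la lb lx)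
  have e2 : chi I y b a = !chi I a b y := by
    rw [hI.cyc a y b (ICh.ds3 I hay hab (Ne.symm hby) la ly lb),
      hI.cyc b a y (ICh.ds3 I (Ne.symm hab) hby hay lb la ly),
      hI.anti a b y (ICh.ds3 I hab hay hby la lb ly)]
  have e3 : chi I a x b = !chi I a b x := by
    rw [hI.cyc b a x (ICh.ds3 I (Ne.symm hab) hbx hax lb la lx),
      hI.anti a b x (ICh.ds3 I hab hax hbx la lb lx)]
  have e4 : chi I y a b = chi I a b y := by
    rw [hI.cyc b y a (ICh.ds3 I hby (Ne.symm hab) (Ne.symm hay) lb ly la),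
      hI.cyc a b y (ICh.ds3 I hab hay hby la lb ly)]
  have f1 := (hXt I a la).1 ha b x y
    (ICh.ds4 I hbx hby (Ne.symm hab) hxy (Ne.symm hax) (Ne.symm hay) lb lx ly la)
  have f2 := (hXt I b lb).1 hb a x y
    (ICh.ds4 I hax hay hab hxy (Ne.symm hbx) (Ne.symm hby) la lx ly lb)
  unfold inT at f1 f2
  rw [e1, e2] at f1
  rw [e3, e4] at f2
  unfold cr
  revert f1 f2 hne
  generalize chi I a b x = A
  generalize chi I a b y = B
  generalize chi I x y a = C
  generalize chi I x y b = D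
  revert A B C D
  decide

end Pool.Agent.Work.MP_c6c039_lc.FP
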