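import Pool.Agent.Work.MP_c6c039_lc.FP.StmtsD

/-!
# Block FP, item Co: completeness of the search
-/

set_option autoImplicit false

namespace Pool.Agent.Work.MP_c6c039_lc.FP

open Pool.Agent.PT

theorem pr_Co (hCd : St_Cd) (hOc : St_Oc) : St_Co := by
  intro I hG hH p hp
  have key : ∀ t, t ≤ p.length → ∃ q l, Run I q l ∧ l.map (pt I) = p.drop (p.length - t) := by
    intro t
    induction t with
    | zero =>
      intro _
      refine ⟨(mm I, mm I), [], Run.nil (mm I) le_rfl ?_, by simp⟩
      have := hH.pos
      omega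
    | succ t ih =>
      intro ht
      obtain ⟨q, l, hr, hl⟩ := ih (by omega)
      obtain ⟨k, hk⟩ : ∃ k, k = p.length - (t + 1) := ⟨_, rfl⟩
      have hk1 : k < p.length := by omega
      have hk2 : p.length - t = k + 1 := by omega
      rw [hk2] at hl
      have hd : p.drop k = p[k] :: l.map (pt I) := by
        rw [hl]
        exact List.drop_eq_getElem_cons hk1
      have hp' : p = p.take k ++ p[k] :: l.map (pt I) := by
        rw [← hd, List.take_append_drop]
      obtain ⟨q', v, h1, h2, h3⟩ := hCd I hG hH q l hr (p.take k) p[k]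
        (by rw [← hp']; exact hp.nodup) (by rw [← hp']; exact hp.span)
        (by rw [← hp']; exact hp.nc)
      have h4 := hOc I hG hH q' l h1 (p.take k) v h2 (by rw [h3, ← hp']; exact hp)
      refine ⟨nA q' v, v :: l, Run.cons q' l v h1 h2 h4, ?_⟩
      rw [← hk, List.map_cons, h3, hd]
  obtain ⟨q, l, h1, h2⟩ := key p.length le_rfl
  refine ⟨q, l, h1, ?_⟩
  rw [h2]
  simp

end Pool.Agent.Work.MP_c6c039_lc.FP
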