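import Pool.Agent.Work.MP_c6c039_lc.FP.StmtsG

/-!
# Block FP, item Cs: symmetries of the crossing predicate
-/

set_option autoImplicit false

namespace Pool.Agent.Work.MP_c6c039_lc.FP

open Pool.Agent.PT

namespace ICs

theorem beq_symm (x y : Bool) : (x == y) = (y == x) := by
  cases x <;> cases y <;> rfl

theorem beq_not (x y : Bool) : ((!x) == (!y)) = (x == y) := by
  cases x <;> cases y <;> rfl

end ICs

/-- **Item Cs**. -/
theorem pr_Cs : St_Cs := by
  intro I hI a b c d hD
  obtain ⟨hn, hm⟩ := hD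
  have ha : a < nn I := hm a (by simp)
  have hb : b < nn I := hm b (by simp)
  have hc : c < nn I := hm c (by simp)
  have hd : d < nn I := hm d (by simp)
  simp only [List.nodup_cons, List.mem_cons, List.not_mem_nil, or_false, not_or,
    List.nodup_nil, and_true, not_false_eq_true] at hn
  obtain ⟨⟨hab, hac, had⟩, ⟨hbc, hbd⟩, hcd⟩ := hn
  have mk : ∀ x y z : ℕ, x < nn I → y < nn I → z < nn I → x ≠ y → x ≠ z → y ≠ z →
      Ds I [x, y, z] := by
    intro x y z hx hy hz h1 h2 h3
    refine ⟨?_, ?_⟩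
    · simp only [List.nodup_cons, List.mem_cons, List.not_mem_nil, or_false, not_or,
        List.nodup_nil, and_true, not_false_eq_true]
      exact ⟨⟨h1, h2⟩, h3⟩
    · intro w hw
      simp only [List.mem_cons, List.not_mem_nil, or_false] at hw
      rcases hw with rfl | rfl | rfl <;> assumption
  have e1 := hI.anti a b c (mk a b c ha hb hc hab hac hbc)
  have e2 := hI.anti a b d (mk a b d ha hb hd hab had hbd)
  have e3 := hI.anti c d a (mk c d a hc hd ha hcd (Ne.symm hac) (Ne.symm had))
  have e4 := hI.anti c d b (mk c d b hc hd hb hcd (Ne.symm hbc) (Ne.symm hbd))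
  unfold cr
  refine ⟨?_, ?_, ?_⟩
  · rw [e1, e2, ICs.beq_not, ICs.beq_symm (chi I c d b)]
  · rw [e3, e4, ICs.beq_not, ICs.beq_symm (chi I a b d)]
  · rw [Bool.and_comm]

end Pool.Agent.Work.MP_c6c039_lc.FP
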