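import Pool.Agent.Work.MP_c6c039_lc.FP.StmtsC

/-!
# MP_c6c039_lc, block FP: item Dd (removing duplicates)
-/

set_option autoImplicit false

namespace Pool.Agent.Work.MP_c6c039_lc.FP

namespace IDd

theorem aux (l : List St) : ∀ acc : List St,
    (acc.Nodup → (l.foldl (fun acc s => if s ∈ acc then acc else s :: acc) acc).Nodup) ∧
    ∀ s, s ∈ l.foldl (fun acc s => if s ∈ acc then acc else s :: acc) acc ↔ s ∈ acc ∨ s ∈ l := by
  induction l with
  | nil => intro acc; exact ⟨fun h => h, fun s => by simp⟩
  | cons a l ih =>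
    intro acc
    rw [List.foldl_cons]
    by_cases h : a ∈ acc
    · rw [if_pos h]
      refine ⟨(ih acc).1, fun s => ?_⟩
      rw [(ih acc).2 s, List.mem_cons]
      constructor
      · rintro (h1 | h1)
        · exact Or.inl h1
        · exact Or.inr (Or.inr h1)
      · rintro (h1 | h1 | h1)
        · exact Or.inl h1
        · exact Or.inl (h1 ▸ h)
        · exact Or.inr h1
    · rw [if_neg h]
      refine ⟨fun hn => (ih (a :: acc)).1 (List.nodup_cons.2 ⟨h, hn⟩), fun s => ?_⟩
      rw [(ih (a :: acc)).2 s, List.mem_cons, List.mem_cons]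
      tauto

end IDd

theorem pr_Dd : St_Dd := by
  intro l
  refine ⟨(IDd.aux l []).1 List.nodup_nil, fun s => ?_⟩
  have h := (IDd.aux l []).2 s
  simp only [List.not_mem_nil, false_or] at h
  exact h

end Pool.Agent.Work.MP_c6c039_lc.FP
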