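import Pool.Agent.Work.MP_c6c039_lc.FP.StmtsE

/-!
# Block FP, item EX: paths of numbers and paths of points
-/

set_option autoImplicit false

namespace Pool.Agent.Work.MP_c6c039_lc.FP

open Pool.Agent.PT Turing N487b59b3

namespace IEX

/-- a list of points with numbers is the image of a list of numbers -/
lemma lift {n : ℕ} {f : ℕ → ℝ × ℝ} : ∀ l : List (ℝ × ℝ), (∀ q ∈ l, ∃ i, i < n ∧ f i = q) →
    ∃ p : List ℕ, (∀ i ∈ p, i < n) ∧ p.map f = l
  | [], _ => ⟨[], by simp, rfl⟩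
  | q :: l, h => by
    obtain ⟨i, hi, hq⟩ := h q List.mem_cons_self
    obtain ⟨p, hp, hl⟩ := lift l (fun q' hq' => h q' (List.mem_cons_of_mem _ hq'))
    refine ⟨i :: p, ?_, ?_⟩
    · intro j hj
      rcases List.mem_cons.1 hj with h1 | h1
      · rw [h1]
        exact hi
      · exact hp j h1
    · rw [List.map_cons, hq, hl]

end IEX

open IEX in
/-- item EX -/
theorem pr_EX (hCT : St_CT) (hPI : St_PI) (hSI : St_SI) : St_EX := by
  intro I hI
  constructor
  · rintro ⟨p, hp⟩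
    have h1 : ∀ i ∈ p, i < (I.1 ++ I.2).length := by
      intro i hi
      have := (hp.span i).1 hi
      rwa [(hCT I).1] at this
    exact ⟨_, (hSI I hI p h1).1 hp⟩
  · rintro ⟨l, hl⟩
    have h1 : ∀ q ∈ l, ∃ i, i < (I.1 ++ I.2).length ∧ pnt I i = q := by
      intro q hq
      exact ((hPI I hI).2.1 q).1 ((hl.span q).1 hq)
    obtain ⟨p, hp, hpl⟩ := lift l h1
    refine ⟨p, (hSI I hI p hp).2 ?_⟩
    rw [hpl]
    exact hl

end Pool.Agent.Work.MP_c6c039_lc.FP
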