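import Pool.Agent.Work.MP_c6c039_lc.FP.StmtsC

/-!
# Block FP, item Ec: the number of recorded edges

Author: helper5.
-/

set_option autoImplicit false

namespace Pool.Agent.Work.MP_c6c039_lc.FP

namespace IEc

theorem vis_true (x : ℕ) (l : List V) : vis ((true, x) :: l) = vis l := by
  simp [vis]

theorem vis_false (a : ℕ) (l : List V) : vis ((false, a) :: l) = a :: vis l := by
  simp [vis]

theorem edg_tt (x y : ℕ) (l : List V) :
    edg ((true, x) :: (true, y) :: l) = edg ((true, y) :: l) := by
  simp [edg]

theorem edg_f (a : ℕ) (w : V) (l : List V) :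
    edg ((false, a) :: w :: l) = ((false, a), w) :: edg (w :: l) := by
  simp [edg]

theorem edg_tf (x b : ℕ) (l : List V) :
    edg ((true, x) :: (false, b) :: l) = ((true, x), (false, b)) :: edg ((false, b) :: l) := by
  simp [edg]

theorem main : ∀ l : List V, (edg l).length ≤ 2 * (vis l).length ∧
    (∀ a l', l = (false, a) :: l' → (edg l).length + 1 ≤ 2 * (vis l).length)
  | [] => ⟨by simp [edg], by intro a l' h; exact absurd h (by simp)⟩
  | [v] => by
    obtain ⟨b, x⟩ := v
    constructor
    · simp [edg]
    · intro a l' h
      cases b with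
      | true => simp at h
      | false => simp [edg, vis]
  | v :: w :: l => by
    obtain ⟨h1, h2⟩ := main (w :: l)
    obtain ⟨b, x⟩ := v
    obtain ⟨c, y⟩ := w
    cases b with
    | false =>
      rw [edg_f, vis_false]
      simp only [List.length_cons]
      exact ⟨by omega, by intro _ _ _; omega⟩
    | true =>
      cases c with
      | true =>
        rw [edg_tt, vis_true]
        exact ⟨h1, by intro a l' h; simp at h⟩
      | false =>
        have h3 := h2 y l rfl
        rw [edg_tf, vis_true]
        simp only [List.length_cons]
        exact ⟨h3, by intro a l' h; simp at h⟩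

end IEc

theorem pr_Ec : St_Ec := fun l => (IEc.main l).1

end Pool.Agent.Work.MP_c6c039_lc.FP
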