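import Pool.Agent.Work.MP_c6c039_lc.FP.StmtsD

set_option autoImplicit false

namespace Pool.Agent.Work.MP_c6c039_lc.FP

namespace IEd

theorem mem_edg (e : V × V) : ∀ l : List V,
    (e ∈ edg l ↔ ∃ i, ∃ h : i + 1 < l.length,
      e = (l[i], l[i + 1]) ∧ ¬ (e.1.1 = true ∧ e.2.1 = true))
  | [] => by
    constructor
    · intro h
      simp [edg] at h
    · rintro ⟨i, h, -⟩
      simp at h
  | [v] => by
    constructor
    · intro h
      simp [edg] at h
    · rintro ⟨i, h, -⟩
      simp at h
  | v :: w :: l => by
    have ih := mem_edg e (w :: l)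
    have key : (∃ i, ∃ h : i + 1 < (v :: w :: l).length,
        e = ((v :: w :: l)[i], (v :: w :: l)[i + 1]) ∧ ¬ (e.1.1 = true ∧ e.2.1 = true)) ↔
        (e = (v, w) ∧ ¬ (e.1.1 = true ∧ e.2.1 = true)) ∨ e ∈ edg (w :: l) := by
      rw [ih]
      constructor
      · rintro ⟨i, h, h1, h2⟩
        cases i with
        | zero => exact Or.inl ⟨h1, h2⟩
        | succ i =>
          refine Or.inr ⟨i, ?_, ?_, h2⟩
          · simpa using h
          · exact h1
      · rintro (⟨h1, h2⟩ | ⟨i, h, h1, h2⟩)
        · exact ⟨0, by simp, h1, h2⟩
        · exact ⟨i + 1, by simpa using h, h1, h2⟩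
    rw [key]
    by_cases hb : (v.1 && w.1) = true
    · have : edg (v :: w :: l) = edg (w :: l) := by
        rw [edg, if_pos hb]
      rw [this]
      constructor
      · exact Or.inr
      · rintro (⟨h1, h2⟩ | h)
        · exfalso
          apply h2
          rw [h1]
          simpa using hb
        · exact h
    · have : edg (v :: w :: l) = (v, w) :: edg (w :: l) := by
        rw [edg, if_neg hb]
      rw [this, List.mem_cons]
      constructor
      · rintro (h | h)
        · refine Or.inl ⟨h, ?_⟩
          rw [h]
          simpa using hb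
        · exact Or.inr h
      · rintro (⟨h1, h2⟩ | h)
        · exact Or.inl h1
        · exact Or.inr h

theorem tail_edg (w : V) : ∀ r : List V,
    (if fresh (w :: r) then (edg (w :: r)).tail else edg (w :: r)) = edg r
  | [] => by simp [fresh, edg]
  | u :: r => by
    by_cases hb : (w.1 && u.1) = true
    · have h1 : edg (w :: u :: r) = edg (u :: r) := by
        rw [edg, if_pos hb]
      have h2 : fresh (w :: u :: r) = false := by
        simp only [fresh, hb]
        rfl
      rw [h1, h2]
      rfl
    · have h1 : edg (w :: u :: r) = (w, u) :: edg (u :: r) := by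
        rw [edg, if_neg hb]
      have h2 : fresh (w :: u :: r) = true := by
        have : (w.1 && u.1) = false := by simpa using hb
        simp only [fresh, this]
        rfl
      rw [h1, h2]
      rfl

end IEd

theorem pr_Ed : St_Ed := by
  intro l e
  exact ⟨IEd.mem_edg e l, IEd.tail_edg⟩

end Pool.Agent.Work.MP_c6c039_lc.FP
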