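import Pool.Agent.Work.MP_c6c039_lc.FP.StmtsG

/-! # Item Ex: there is an extreme point -/

set_option autoImplicit false

namespace Pool.Agent.Work.MP_c6c039_lc.FP

namespace IEx

theorem pos_case (A B C x y z : ℝ) (hA : 0 < A) (hB : 0 < B) (hC : 0 < C)
    (hx : 0 ≤ x) (hy : 0 ≤ y) (hz : 0 ≤ z) (h : A * x + B * y + C * z = 0) :
    x = 0 ∧ y = 0 ∧ z = 0 := by
  have h1 : 0 ≤ A * x := mul_nonneg hA.le hx
  have h2 : 0 ≤ B * y := mul_nonneg hB.le hy
  have h3 : 0 ≤ C * z := mul_nonneg hC.le hz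
  have e1 : A * x = 0 := by linarith
  have e2 : B * y = 0 := by linarith
  have e3 : C * z = 0 := by linarith
  refine ⟨?_, ?_, ?_⟩
  · exact (mul_eq_zero.mp e1).resolve_left hA.ne'
  · exact (mul_eq_zero.mp e2).resolve_left hB.ne'
  · exact (mul_eq_zero.mp e3).resolve_left hC.ne'

theorem neg_case (A B C x y z : ℝ) (hA : A < 0) (hB : B < 0) (hC : C < 0)
    (hx : 0 ≤ x) (hy : 0 ≤ y) (hz : 0 ≤ z) (h : A * x + B * y + C * z = 0) :
    x = 0 ∧ y = 0 ∧ z = 0 :=
  pos_case (-A) (-B) (-C) x y z (by linarith) (by linarith) (by linarith) hx hy hz (by linarith)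

theorem bary (X Y : ℕ → ℝ) (a b c h : ℕ) :
    ar X Y b c h * (X a - X h) + ar X Y c a h * (X b - X h) + ar X Y a b h * (X c - X h) = 0 := by
  unfold ar; ring

theorem key (I : In) (X Y : ℕ → ℝ)
    (h1 : ∀ a b c, a < nn I → b < nn I → c < nn I → (chi I a b c = true ↔ 0 < ar X Y a b c))
    (h2 : ∀ a b c, a < nn I → b < nn I → c < nn I → a ≠ b → b ≠ c → a ≠ c → ar X Y a b c ≠ 0)
    (h : ℕ) (hh : h < nn I) (hmin : ∀ a, a < nn I → X h ≤ X a) (a b c : ℕ)
    (hD : Ds I [a, b, c, h]) : inT I a b c h = false := by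
  obtain ⟨hnd, hlt⟩ := hD
  have ha : a < nn I := hlt a (by simp)
  have hb : b < nn I := hlt b (by simp)
  have hc : c < nn I := hlt c (by simp)
  simp only [List.nodup_cons, List.mem_cons, List.not_mem_nil, or_false, not_or,
    not_false_eq_true, List.nodup_nil, and_true] at hnd
  obtain ⟨⟨hab, hac, hah⟩, ⟨hbc, hbh⟩, hch⟩ := hnd
  by_contra hT
  have hT' : inT I a b c h = true := by
    cases hq : inT I a b c h
    · exact absurd hq hT
    · rfl
  unfold inT at hT'
  rw [Bool.and_eq_true, beq_iff_eq, beq_iff_eq] at hT'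
  obtain ⟨e1, e2⟩ := hT'
  have gx : 0 ≤ X a - X h := sub_nonneg.mpr (hmin a ha)
  have gy : 0 ≤ X b - X h := sub_nonneg.mpr (hmin b hb)
  have gz : 0 ≤ X c - X h := sub_nonneg.mpr (hmin c hc)
  have hz : X a - X h = 0 ∧ X b - X h = 0 ∧ X c - X h = 0 := by
    cases hs : chi I a b h
    · have s2 : chi I b c h = false := by rw [← e1]; exact hs
      have s3 : chi I c a h = false := by rw [← e2]; exact s2
      have n1 : ar X Y a b h < 0 := by
        have : ¬ 0 < ar X Y a b h := by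
          rw [← h1 a b h ha hb hh, hs]; simp
        exact lt_of_le_of_ne (not_lt.mp this) (h2 a b h ha hb hh hab hbh hah)
      have n2 : ar X Y b c h < 0 := by
        have : ¬ 0 < ar X Y b c h := by
          rw [← h1 b c h hb hc hh, s2]; simp
        exact lt_of_le_of_ne (not_lt.mp this) (h2 b c h hb hc hh hbc hch hbh)
      have n3 : ar X Y c a h < 0 := by
        have : ¬ 0 < ar X Y c a h := by
          rw [← h1 c a h hc ha hh, s3]; simp
        exact lt_of_le_of_ne (not_lt.mp this) (h2 c a h hc ha hh (Ne.symm hac) hah hch)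
      exact neg_case _ _ _ _ _ _ n2 n3 n1 gx gy gz (bary X Y a b c h)
    · have s2 : chi I b c h = true := by rw [← e1]; exact hs
      have s3 : chi I c a h = true := by rw [← e2]; exact s2
      have n1 : 0 < ar X Y a b h := (h1 a b h ha hb hh).mp hs
      have n2 : 0 < ar X Y b c h := (h1 b c h hb hc hh).mp s2
      have n3 : 0 < ar X Y c a h := (h1 c a h hc ha hh).mp s3
      exact pos_case _ _ _ _ _ _ n2 n3 n1 gx gy gz (bary X Y a b c h)
  obtain ⟨z1, z2, z3⟩ := hz
  apply h2 a b c ha hb hc hab hbc hac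
  unfold ar
  have w1 : X b - X a = 0 := by linarith
  have w2 : X c - X a = 0 := by linarith
  rw [w1, w2]; ring

end IEx

theorem pr_Ex (hXt : St_Xt) : St_Ex := by
  intro I hR hn
  obtain ⟨X, Y, h1, h2⟩ := hR
  obtain ⟨h, hh, hmin⟩ := Finset.exists_min_image (Finset.range (nn I)) X
    ⟨0, Finset.mem_range.mpr hn⟩
  have hh' : h < nn I := Finset.mem_range.mp hh
  refine ⟨h, hh', (hXt I h hh').mpr ?_⟩
  intro a b c hD
  exact IEx.key I X Y h1 h2 h hh' (fun a ha => hmin a (Finset.mem_range.mpr ha)) a b c hD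

end Pool.Agent.Work.MP_c6c039_lc.FP
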