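import Pool.Agent.Work.MP_c6c039_lc.FP.StmtsG

/-!
# Block FP, item F2: the sign of a line on an arc of extreme points (helper57)
-/

set_option autoImplicit false

namespace Pool.Agent.Work.MP_c6c039_lc.FP

open Pool.Agent.PT

namespace IF2

theorem mk3 {I : In} {a b c : ℕ} (hab : a ≠ b) (hac : a ≠ c) (hbc : b ≠ c) (ha : a < nn I)
    (hb : b < nn I) (hc : c < nn I) : Ds I [a, b, c] := by
  refine ⟨?_, ?_⟩
  · simp [hab, hac, hbc]
  · simp [ha, hb, hc]

theorem mk4 {I : In} {a b c d : ℕ} (hab : a ≠ b) (hac : a ≠ c) (had : a ≠ d) (hbc : b ≠ c)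
    (hbd : b ≠ d) (hcd : c ≠ d) (ha : a < nn I) (hb : b < nn I) (hc : c < nn I) (hd : d < nn I) :
    Ds I [a, b, c, d] := by
  refine ⟨?_, ?_⟩
  · simp [hab, hac, had, hbc, hbd, hcd]
  · simp [ha, hb, hc, hd]

theorem mk5 {I : In} {a b c d e : ℕ} (hab : a ≠ b) (hac : a ≠ c) (had : a ≠ d) (hae : a ≠ e)
    (hbc : b ≠ c) (hbd : b ≠ d) (hbe : b ≠ e) (hcd : c ≠ d) (hce : c ≠ e) (hde : d ≠ e)
    (ha : a < nn I) (hb : b < nn I) (hc : c < nn I) (hd : d < nn I) (he : e < nn I) :
    Ds I [a, b, c, d, e] := by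
  refine ⟨?_, ?_⟩
  · simp [hab, hac, had, hae, hbc, hbd, hbe, hcd, hce, hde]
  · simp [ha, hb, hc, hd, he]

/-- exchange of the last two points -/
theorem swap {I : In} (hc : CH I) {a b c : ℕ} (hab : a ≠ b) (hac : a ≠ c) (hbc : b ≠ c)
    (ha : a < nn I) (hb : b < nn I) (hcn : c < nn I) : chi I a c b = !chi I a b c := by
  rw [← hc.cyc a c b (mk3 hac hab hbc.symm ha hcn hb),
    hc.anti b c a (mk3 hbc hab.symm hac.symm hb hcn ha),
    hc.cyc a b c (mk3 hab hac hbc ha hb hcn)]

theorem ne_hp {I : In} (hC : HC I) {p : ℕ} (hp' : p ∈ it I) (z : ℕ) : p ≠ hp I z := by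
  intro h
  have h1 := (hC.int p).1 hp'
  have h2 := hC.ex z
  rw [← h, h1.2] at h2
  exact Bool.false_ne_true h2

/-- the first implication -/
theorem arc {I : In} (hXt : St_Xt) (hc : CH I) (hC : HC I) {p q x y : ℕ} (hpI : p ∈ it I)
    (hqI : q ∈ it I) (hpq : p ≠ q) (hy : y < x + mm I)
    (hs : chi I p q (hp I x) = chi I p q (hp I y)) (hT : chi I p (hp I x) (hp I y) = true)
    (z : ℕ) (hz1 : x < z) (hz2 : z < y) : chi I p q (hp I z) = chi I p q (hp I x) := by
  have hp1 : p < nn I := ((hC.int p).1 hpI).1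
  have hq1 : q < nn I := ((hC.int q).1 hqI).1
  have hX := hC.lt x
  have hY := hC.lt y
  have hZ := hC.lt z
  have hpX := ne_hp hC hpI x
  have hpY := ne_hp hC hpI y
  have hpZ := ne_hp hC hpI z
  have hqX := ne_hp hC hqI x
  have hqY := ne_hp hC hqI y
  have hqZ := ne_hp hC hqI z
  have hXZ : hp I x ≠ hp I z := hC.inj x z hz1 (by omega)
  have hXY : hp I x ≠ hp I y := hC.inj x y (by omega) (by omega)
  have hZY : hp I z ≠ hp I y := hC.inj z y hz2 (by omega)
  have hcyc : chi I (hp I x) (hp I z) (hp I y) = true := hC.cyc x z y hz1 hz2 (by omega)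
  have c1 : chi I p (hp I x) (hp I z) = true := by
    by_contra hF
    have hF' : chi I p (hp I x) (hp I z) = false := by simpa using hF
    have h1 := (hXt I (hp I x) hX).1 (hC.ex x) p (hp I z) (hp I y)
      (mk4 hpZ hpY hpX hZY hXZ.symm hXY.symm hp1 hZ hY hX)
    unfold inT at h1
    rw [swap hc hpX hpZ hXZ hp1 hX hZ, hF',
      hc.cyc (hp I x) (hp I z) (hp I y) (mk3 hXZ hXY hZY hX hZ hY), hcyc,
      hc.cyc (hp I x) (hp I y) p (mk3 hXY hpX.symm hpY.symm hX hY hp1),
      hc.cyc p (hp I x) (hp I y) (mk3 hpX hpY hXY hp1 hX hY), hT] at h1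
    exact absurd h1 (by decide)
  have c2 : chi I p (hp I z) (hp I y) = true := by
    by_contra hF
    have hF' : chi I p (hp I z) (hp I y) = false := by simpa using hF
    have h1 := (hXt I (hp I y) hY).1 (hC.ex y) p (hp I x) (hp I z)
      (mk4 hpX hpZ hpY hXZ hXY hZY hp1 hX hZ hY)
    unfold inT at h1
    rw [hT, hcyc, hc.anti p (hp I z) (hp I y) (mk3 hpZ hpY hZY hp1 hZ hY), hF'] at h1
    exact absurd h1 (by decide)
  have h3 := hc.gp p q (hp I x) (hp I z) (hp I y)
    (mk5 hpq hpX hpZ hpY hqX hqZ hqY hXZ hXY hZY hp1 hq1 hX hZ hY)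
  rw [c1, c2, hT, ← hs] at h3
  revert h3
  generalize chi I p q (hp I x) = s
  generalize chi I p q (hp I z) = t
  revert s t
  decide

end IF2

open IF2

theorem pr_F2 (hSy : St_Sy) (hXt : St_Xt) (hG0 : St_G0) : St_F2 := by
  intro I hG hC p q x y hpI hqI hpq hxy hy hs
  have hc : CH I := hSy I hG.real
  have hp1 := (hC.int p).1 hpI
  have hq1 := (hC.int q).1 hqI
  constructor
  · intro hst
    by_contra hF
    have hF' : chi I p (hp I x) (hp I y) = false := by simpa using hF
    unfold stR at hst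
    rw [List.all_eq_true] at hst
    have hall : ∀ z, x ≤ z → z ≤ y → chi I p q (hp I z) = chi I p q (hp I x) := by
      intro z h1 h2
      have h3 := hst (z - x) (List.mem_range.2 (by omega))
      have h4 : x + (z - x) = z := by omega
      rw [h4] at h3
      exact eq_of_beq h3
    have hXY : hp I x ≠ hp I y := hC.inj x y hxy hy
    have hT : chi I p (hp I y) (hp I (x + mm I)) = true := by
      rw [hC.per x, swap hc (ne_hp hC hpI x) (ne_hp hC hpI y) hXY hp1.1 (hC.lt x) (hC.lt y), hF']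
      rfl
    have hs' : chi I p q (hp I y) = chi I p q (hp I (x + mm I)) := by
      rw [hC.per x, hs]
    have harc := arc hXt hc hC hpI hqI hpq (by omega : x + mm I < y + mm I) hs' hT
    have hext : ∀ h, h < nn I → ext I h = true → chi I p q h = chi I p q (hp I x) := by
      intro h h1 h2
      obtain ⟨z, h3, h4, rfl⟩ := hC.sur x h h1 h2
      rcases le_or_gt z y with h5 | h5
      · exact hall z h3 h5
      · rw [harc z h5 h4, hs]
    obtain ⟨⟨h, a1, a2, -, a3⟩, ⟨h', b1, b2, -, b3⟩⟩ := hG0 I hG.real p q hp1.1 hq1.1 hpq hp1.2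
    have e1 := hext h a1 a2
    have e2 := hext h' b1 b2
    rw [a3] at e1
    rw [b3, ← e1] at e2
    exact Bool.false_ne_true e2
  · intro hT
    unfold stR
    rw [List.all_eq_true]
    intro i hi
    rw [List.mem_range] at hi
    show (chi I p q (hp I (x + i)) == chi I p q (hp I x)) = true
    rw [beq_iff_eq]
    rcases Nat.eq_zero_or_pos i with h0 | h0
    · rw [h0, Nat.add_zero]
    · rcases Nat.lt_or_ge (x + i) y with h1 | h1
      · exact arc hXt hc hC hpI hqI hpq hy hs hT (x + i) (by omega) h1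
      · have h2 : x + i = y := by omega
        rw [h2, hs]

end Pool.Agent.Work.MP_c6c039_lc.FP
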