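import Pool.Agent.Work.MP_c6c039_lc.FP.StmtsG

/-!
# Item G0 (helper44): a nonextreme point has extreme points on both sides of each line through it
-/

set_option autoImplicit false

namespace Pool.Agent.Work.MP_c6c039_lc.FP

open Pool.Agent.PT

namespace IG0

/-- the three weights of a point in a triangle have the same strict sign -/
theorem sgn (I : In) (X Y : ℕ → ℝ)
    (hc : ∀ a b c, a < nn I → b < nn I → c < nn I → (chi I a b c = true ↔ 0 < ar X Y a b c))
    (hg : ∀ a b c, a < nn I → b < nn I → c < nn I → a ≠ b → b ≠ c → a ≠ c → ar X Y a b c ≠ 0)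
    (a b c p : ℕ) (hd : Ds I [a, b, c, p]) (h : inT I a b c p = true) :
    (0 < ar X Y a b p ∧ 0 < ar X Y b c p ∧ 0 < ar X Y c a p) ∨
    (ar X Y a b p < 0 ∧ ar X Y b c p < 0 ∧ ar X Y c a p < 0) := by
  obtain ⟨hnd, hlt⟩ := hd
  have ha : a < nn I := hlt a (by simp)
  have hb : b < nn I := hlt b (by simp)
  have hcc : c < nn I := hlt c (by simp)
  have hp : p < nn I := hlt p (by simp)
  simp only [List.nodup_cons, List.mem_cons, List.not_mem_nil, or_false, not_or,
    not_false_eq_true, List.nodup_nil, and_true] at hnd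
  obtain ⟨⟨hab, hac, hap⟩, ⟨hbc, hbp⟩, hcp⟩ := hnd
  have n1 := hg a b p ha hb hp hab hbp hap
  have n2 := hg b c p hb hcc hp hbc hcp hbp
  have n3 := hg c a p hcc ha hp (Ne.symm hac) hap hcp
  have e1 := hc a b p ha hb hp
  have e2 := hc b c p hb hcc hp
  have e3 := hc c a p hcc ha hp
  unfold inT at h
  simp only [Bool.and_eq_true, beq_iff_eq] at h
  obtain ⟨h1, h2⟩ := h
  by_cases ht : chi I a b p = true
  · left
    exact ⟨e1.1 ht, e2.1 (h1 ▸ ht), e3.1 (h2 ▸ h1 ▸ ht)⟩
  · right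
    have t2 : ¬ chi I b c p = true := h1 ▸ ht
    have t3 : ¬ chi I c a p = true := h2 ▸ t2
    refine ⟨?_, ?_, ?_⟩
    · exact lt_of_le_of_ne (not_lt.1 fun h => ht (e1.2 h)) n1
    · exact lt_of_le_of_ne (not_lt.1 fun h => t2 (e2.2 h)) n2
    · exact lt_of_le_of_ne (not_lt.1 fun h => t3 (e3.2 h)) n3

/-- three nonnegative numbers with positive weights and sum zero vanish -/
theorem van (u v w a b c : ℝ) (hw : (0 < u ∧ 0 < v ∧ 0 < w) ∨ (u < 0 ∧ v < 0 ∧ w < 0))
    (ha : 0 ≤ a) (hb : 0 ≤ b) (hc : 0 ≤ c) (h : u * a + v * b + w * c = 0) :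
    a = 0 ∧ b = 0 ∧ c = 0 := by
  rcases hw with ⟨hu, hv, hw⟩ | ⟨hu, hv, hw⟩
  · have h1 := mul_nonneg hu.le ha
    have h2 := mul_nonneg hv.le hb
    have h3 := mul_nonneg hw.le hc
    have e1 : u * a = 0 := by linarith
    have e2 : v * b = 0 := by linarith
    have e3 : w * c = 0 := by linarith
    exact ⟨(mul_eq_zero.1 e1).resolve_left hu.ne', (mul_eq_zero.1 e2).resolve_left hv.ne',
      (mul_eq_zero.1 e3).resolve_left hw.ne'⟩
  · have h1 := mul_nonneg (neg_pos.2 hu).le ha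
    have h2 := mul_nonneg (neg_pos.2 hv).le hb
    have h3 := mul_nonneg (neg_pos.2 hw).le hc
    have e1 : u * a = 0 := by linarith
    have e2 : v * b = 0 := by linarith
    have e3 : w * c = 0 := by linarith
    exact ⟨(mul_eq_zero.1 e1).resolve_left hu.ne, (mul_eq_zero.1 e2).resolve_left hv.ne,
      (mul_eq_zero.1 e3).resolve_left hw.ne⟩

/-- a point with the greatest positive value of the form is extreme -/
theorem mx (hXt : St_Xt) (I : In) (X Y : ℕ → ℝ)
    (hc : ∀ a b c, a < nn I → b < nn I → c < nn I → (chi I a b c = true ↔ 0 < ar X Y a b c))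
    (hg : ∀ a b c, a < nn I → b < nn I → c < nn I → a ≠ b → b ≠ c → a ≠ c → ar X Y a b c ≠ 0)
    (p q : ℕ) (s : ℝ) (r : ℕ) (hr : r < nn I) (hpos : 0 < s * ar X Y p q r) :
    ∃ h, h < nn I ∧ ext I h = true ∧ 0 < s * ar X Y p q h := by
  obtain ⟨h, hh, hmax⟩ := Finset.exists_max_image (Finset.range (nn I))
    (fun r => s * ar X Y p q r) ⟨r, Finset.mem_range.2 hr⟩
  have hh' : h < nn I := Finset.mem_range.1 hh
  have hmax' : ∀ x, x < nn I → s * ar X Y p q x ≤ s * ar X Y p q h :=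
    fun x hx => hmax x (Finset.mem_range.2 hx)
  have hp : 0 < s * ar X Y p q h := lt_of_lt_of_le hpos (hmax' r hr)
  refine ⟨h, hh', ?_, hp⟩
  rw [hXt I h hh']
  intro d e g hD
  by_contra hT
  have hT' : inT I d e g h = true := by simpa using hT
  have hs := sgn I X Y hc hg d e g h hD hT'
  obtain ⟨hnd, hlt⟩ := hD
  have hd : d < nn I := hlt d (by simp)
  have he : e < nn I := hlt e (by simp)
  have hgg : g < nn I := hlt g (by simp)
  simp only [List.nodup_cons, List.mem_cons, List.not_mem_nil, or_false, not_or,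
    not_false_eq_true, List.nodup_nil, and_true] at hnd
  obtain ⟨⟨hde, hdg, hdh⟩, ⟨heg, heh⟩, hgh⟩ := hnd
  have hw : (0 < ar X Y e g h ∧ 0 < ar X Y g d h ∧ 0 < ar X Y d e h) ∨
      (ar X Y e g h < 0 ∧ ar X Y g d h < 0 ∧ ar X Y d e h < 0) := by
    rcases hs with ⟨h1, h2, h3⟩ | ⟨h1, h2, h3⟩
    · exact Or.inl ⟨h2, h3, h1⟩
    · exact Or.inr ⟨h2, h3, h1⟩
  obtain ⟨z1, z2, z3⟩ := van _ _ _ (s * ar X Y p q h - s * ar X Y p q d)
    (s * ar X Y p q h - s * ar X Y p q e) (s * ar X Y p q h - s * ar X Y p q g) hw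
    (sub_nonneg.2 (hmax' d hd)) (sub_nonneg.2 (hmax' e he)) (sub_nonneg.2 (hmax' g hgg))
    (by unfold ar; ring)
  have hs0 : s ≠ 0 := by
    rintro rfl
    simp at hp
  have y1 : ar X Y p q e - ar X Y p q d = 0 := by
    have : s * (ar X Y p q e - ar X Y p q d) = 0 := by linarith
    exact (mul_eq_zero.1 this).resolve_left hs0
  have y2 : ar X Y p q g - ar X Y p q d = 0 := by
    have : s * (ar X Y p q g - ar X Y p q d) = 0 := by linarith
    exact (mul_eq_zero.1 this).resolve_left hs0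
  have k1 : (X q - X p) * ar X Y d e g = 0 := by
    have : (X q - X p) * ar X Y d e g =
        (X e - X d) * (ar X Y p q g - ar X Y p q d) - (X g - X d) * (ar X Y p q e - ar X Y p q d) := by
      unfold ar; ring
    rw [this, y1, y2]; ring
  have k2 : (Y q - Y p) * ar X Y d e g = 0 := by
    have : (Y q - Y p) * ar X Y d e g =
        (Y e - Y d) * (ar X Y p q g - ar X Y p q d) - (Y g - Y d) * (ar X Y p q e - ar X Y p q d) := by
      unfold ar; ring
    rw [this, y1, y2]; ring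
  have hne := hg d e g hd he hgg hde heg hdg
  have x1 := (mul_eq_zero.1 k1).resolve_right hne
  have x2 := (mul_eq_zero.1 k2).resolve_right hne
  have : s * ar X Y p q h = 0 := by
    unfold ar
    rw [x1, x2]; ring
  rw [this] at hp
  exact lt_irrefl _ hp

/-- the form takes both signs on the vertices of a triangle with `p` -/
theorem both (hXt : St_Xt) (I : In) (X Y : ℕ → ℝ)
    (hc : ∀ a b c, a < nn I → b < nn I → c < nn I → (chi I a b c = true ↔ 0 < ar X Y a b c))
    (hg : ∀ a b c, a < nn I → b < nn I → c < nn I → a ≠ b → b ≠ c → a ≠ c → ar X Y a b c ≠ 0)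
    (p q : ℕ) (hp : p < nn I) (hq : q < nn I) (hpq : p ≠ q) (hE : ext I p = false)
    (s : ℝ) (hs : s ≠ 0) : ∃ r, r < nn I ∧ 0 < s * ar X Y p q r := by
  by_contra hno
  push Not at hno
  have hx : ¬ ∀ a b c, Ds I [a, b, c, p] → inT I a b c p = false := by
    intro h
    rw [(hXt I p hp).2 h] at hE
    exact absurd hE (by simp)
  push Not at hx
  obtain ⟨a, b, c, hD, hT⟩ := hx
  have hT' : inT I a b c p = true := by simpa using hT
  have hsg := sgn I X Y hc hg a b c p hD hT'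
  obtain ⟨hnd, hlt⟩ := hD
  have ha : a < nn I := hlt a (by simp)
  have hb : b < nn I := hlt b (by simp)
  have hcc : c < nn I := hlt c (by simp)
  simp only [List.nodup_cons, List.mem_cons, List.not_mem_nil, or_false, not_or,
    not_false_eq_true, List.nodup_nil, and_true] at hnd
  obtain ⟨⟨hab, hac, hap⟩, ⟨hbc, hbp⟩, hcp⟩ := hnd
  have hw : (0 < ar X Y b c p ∧ 0 < ar X Y c a p ∧ 0 < ar X Y a b p) ∨
      (ar X Y b c p < 0 ∧ ar X Y c a p < 0 ∧ ar X Y a b p < 0) := by
    rcases hsg with ⟨h1, h2, h3⟩ | ⟨h1, h2, h3⟩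
    · exact Or.inl ⟨h2, h3, h1⟩
    · exact Or.inr ⟨h2, h3, h1⟩
  obtain ⟨z1, z2, z3⟩ := van _ _ _ (-(s * ar X Y p q a)) (-(s * ar X Y p q b))
    (-(s * ar X Y p q c)) hw
    (neg_nonneg.2 (hno a ha)) (neg_nonneg.2 (hno b hb)) (neg_nonneg.2 (hno c hcc))
    (by unfold ar; ring)
  have f : ∀ r, r < nn I → r ≠ p → -(s * ar X Y p q r) = 0 → r = q := by
    intro r hr hrp h0
    by_contra hrq
    have h1 : s * ar X Y p q r = 0 := by linarith
    exact hg p q r hp hq hr hpq (Ne.symm hrq) (Ne.symm hrp)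
      ((mul_eq_zero.1 h1).resolve_left hs)
  exact hab ((f a ha hap z1).trans (f b hb hbp z2).symm)

end IG0

theorem pr_G0 (hXt : St_Xt) : St_G0 := by
  intro I hR p q hp hq hpq hE
  obtain ⟨X, Y, hc, hg⟩ := hR
  constructor
  · obtain ⟨r, hr, hpos⟩ := IG0.both hXt I X Y hc hg p q hp hq hpq hE 1 one_ne_zero
    obtain ⟨h, hh, hx, h0⟩ := IG0.mx hXt I X Y hc hg p q 1 r hr hpos
    rw [one_mul] at h0
    refine ⟨h, hh, hx, ?_, (hc p q h hp hq hh).2 h0⟩
    rintro rfl
    have : ar X Y p h h = 0 := by unfold ar; ring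
    rw [this] at h0
    exact lt_irrefl _ h0
  · obtain ⟨r, hr, hpos⟩ := IG0.both hXt I X Y hc hg p q hp hq hpq hE (-1) (by norm_num)
    obtain ⟨h, hh, hx, h0⟩ := IG0.mx hXt I X Y hc hg p q (-1) r hr hpos
    have h1 : ar X Y p q h < 0 := by linarith
    refine ⟨h, hh, hx, ?_, ?_⟩
    · rintro rfl
      have : ar X Y p h h = 0 := by unfold ar; ring
      rw [this] at h1
      exact lt_irrefl _ h1
    · rw [Bool.eq_false_iff]
      intro ht
      exact absurd ((hc p q h hp hq hh).1 ht) (not_lt.2 h1.le)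

end Pool.Agent.Work.MP_c6c039_lc.FP
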