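import Pool.Agent.Work.MP_c6c039_lc.FP.StmtsE

/-!
# Block FP, item GD: the instance read from the input is good
-/

set_option autoImplicit false

namespace Pool.Agent.Work.MP_c6c039_lc.FP

open Pool.Agent.PT

namespace IGD

theorem hull_mkIn (p : List (List (List Bool)) × List Bool) : hu (mkIn p) = hullOf (mkIn p) := rfl

theorem inte_mkIn (p : List (List (List Bool)) × List Bool) : it (mkIn p) = inL (mkIn p) := rfl

end IGD

open IGD in
theorem pr_GD (hCT : St_CT) (hPI : St_PI) : St_GD := by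
  intro I hI
  obtain ⟨h1, h2, -⟩ := hCT I
  obtain ⟨-, -, -, -, -, h3⟩ := hPI I hI
  refine ⟨⟨fun i => (pnt I i).1, fun i => (pnt I i).2, ?_, ?_⟩, hull_mkIn _, inte_mkIn _⟩
  · intro a b c ha hb hc
    rw [h1] at ha hb hc
    exact h2 a b c ha hb hc
  · intro a b c ha hb hc hab hbc hac
    rw [h1] at ha hb hc
    exact h3 a b c ha hb hc hab hbc hac

end Pool.Agent.Work.MP_c6c039_lc.FP
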