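import Pool.Agent.Work.MP_c6c039_lc.FP.StmtsG

/-!
# Block FP, item HC: facts about the hull and the interior points
-/

set_option autoImplicit false

namespace Pool.Agent.Work.MP_c6c039_lc.FP

open Pool.Agent.PT

namespace IHC

theorem getD_mem' {l : List ℕ} {i : ℕ} (h : i < l.length) : l.getD i 0 ∈ l := by
  rw [List.getD_eq_getElem _ _ h]
  exact List.getElem_mem h

theorem getD_inj {l : List ℕ} (hl : l.Nodup) {i j : ℕ} (hi : i < l.length) (hj : j < l.length)
    (h : l.getD i 0 = l.getD j 0) : i = j := by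
  rw [List.getD_eq_getElem _ _ hi, List.getD_eq_getElem _ _ hj] at h
  exact (List.Nodup.getElem_inj_iff hl).1 h

theorem exists_getD {l : List ℕ} {p : ℕ} (h : p ∈ l) : ∃ i, i < l.length ∧ l.getD i 0 = p := by
  obtain ⟨i, hi, e⟩ := List.getElem_of_mem h
  exact ⟨i, hi, by rw [List.getD_eq_getElem _ _ hi]; exact e⟩

theorem mod_ne {m x y : ℕ} (h1 : x < y) (h2 : y < x + m) : x % m ≠ y % m := by
  intro h
  have h3 : m ∣ y - x := (Nat.modEq_iff_dvd' h1.le).1 h
  have h4 := Nat.le_of_dvd (by omega) h3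
  omega

/-- residues of three numbers in cyclic order -/
theorem mod_cases {m x y z : ℕ} (hm : 0 < m) (h1 : x < y) (h2 : y < z) (h3 : z < x + m) :
    (x % m < y % m ∧ y % m < z % m) ∨ (z % m < x % m ∧ x % m < y % m) ∨
      (y % m < z % m ∧ z % m < x % m) := by
  have hx : x = m * (x / m) + x % m := (Nat.div_add_mod x m).symm
  have hi : x % m < m := Nat.mod_lt _ hm
  have key : ∀ w, x ≤ w → w < x + m →
      (w % m = x % m + (w - x) ∧ x % m + (w - x) < m) ∨
        (w % m = x % m + (w - x) - m ∧ m ≤ x % m + (w - x)) := by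
    intro w hw1 hw2
    have e : w % m = (x % m + (w - x)) % m := by
      have : w = x + (w - x) := by omega
      conv_lhs => rw [this]
      rw [Nat.add_mod x (w - x) m, Nat.add_mod (x % m) (w - x) m, Nat.mod_mod]
    rcases lt_or_ge (x % m + (w - x)) m with h | h
    · left
      exact ⟨by rw [e, Nat.mod_eq_of_lt h], h⟩
    · right
      refine ⟨?_, h⟩
      rw [e, Nat.mod_eq_sub_mod h, Nat.mod_eq_of_lt (by omega)]
  have ky := key y (by omega) (by omega)
  have kz := key z (by omega) (by omega)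
  omega

theorem exists_mod {m i : ℕ} (hi : i < m) (A : ℕ) : ∃ x, A ≤ x ∧ x < A + m ∧ x % m = i := by
  have hm : 0 < m := by omega
  have ha : A % m < m := Nat.mod_lt _ hm
  refine ⟨A + (i + m - A % m) % m, Nat.le_add_right _ _,
    Nat.add_lt_add_left (Nat.mod_lt _ hm) _, ?_⟩
  rw [Nat.add_mod, Nat.mod_mod, ← Nat.add_mod]
  have e : A + (i + m - A % m) = i + m * (A / m + 1) := by
    have := Nat.div_add_mod A m
    have h2 : m * (A / m + 1) = m * (A / m) + m := by ring
    omega
  rw [e, Nat.add_mul_mod_self_left, Nat.mod_eq_of_lt hi]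

end IHC

open IHC in
theorem pr_HC (hSy : St_Sy) (hEx : St_Ex) (hHl : St_Hl) : St_HC := by
  intro I hG hn
  have hCH : CH I := hSy I hG.real
  obtain ⟨hnd, hmem, hor⟩ := hHl I hCH hG.hull
  obtain ⟨h0, h0n, h0e⟩ := hEx I hG.real hn
  have hpos : 0 < mm I := List.length_pos_of_mem ((hmem h0).2 ⟨h0n, h0e⟩)
  have hlt : ∀ x, x % mm I < (hu I).length := fun x => Nat.mod_lt _ hpos
  have hin : ∀ x, hp I x ∈ hu I := fun x => getD_mem' (hlt x)
  have hLt : ∀ x, hp I x < nn I := fun x => ((hmem _).1 (hin x)).1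
  have hne : ∀ x y, x % mm I ≠ y % mm I → hp I x ≠ hp I y := fun x y h e =>
    h (getD_inj hnd (hlt x) (hlt y) e)
  have hDs : ∀ x y z, x % mm I ≠ y % mm I → x % mm I ≠ z % mm I → y % mm I ≠ z % mm I →
      Ds I [hp I x, hp I y, hp I z] := by
    intro x y z h1 h2 h3
    constructor
    · have e1 := hne _ _ h1
      have e2 := hne _ _ h2
      have e3 := hne _ _ h3
      simp [e1, e2, e3]
    · intro a ha
      simp only [List.mem_cons, List.not_mem_nil, or_false] at ha
      rcases ha with rfl | rfl | rfl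
      · exact hLt x
      · exact hLt y
      · exact hLt z
  refine ⟨hpos, hLt, fun x => ((hmem _).1 (hin x)).2, ?_, ?_, ?_, ?_, ?_, ?_, ?_⟩
  · intro x
    unfold hp
    rw [Nat.add_mod_right]
  · intro x y h1 h2
    exact hne x y (mod_ne h1 h2)
  · intro A p hp1 hp2
    obtain ⟨i, hi, e⟩ := exists_getD ((hmem p).2 ⟨hp1, hp2⟩)
    obtain ⟨x, h1, h2, h3⟩ := exists_mod (m := mm I) hi A
    refine ⟨x, h1, h2, ?_⟩
    unfold hp
    rw [h3]
    exact e
  · intro x y z h1 h2 h3
    have k1 : x % mm I ≠ y % mm I := mod_ne h1 (by omega)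
    have k2 : x % mm I ≠ z % mm I := mod_ne (by omega) h3
    have k3 : y % mm I ≠ z % mm I := mod_ne h2 (by omega)
    rcases mod_cases hpos h1 h2 h3 with h | h | h
    · exact hor _ _ _ h.1 h.2 (hlt z)
    · have e := hCH.cyc (hp I z) (hp I x) (hp I y) (hDs z x y (Ne.symm k2) (Ne.symm k3) k1)
      rw [e]
      exact hor _ _ _ h.1 h.2 (hlt y)
    · have e := hCH.cyc (hp I x) (hp I y) (hp I z) (hDs x y z k1 k2 k3)
      rw [← e]
      exact hor _ _ _ h.1 h.2 (hlt x)
  · intro a
    rw [hG.inte]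
    unfold inL
    rw [List.mem_filter, List.mem_range]
    simp
  · rw [hG.inte]
    exact List.nodup_range.filter _
  · rw [hG.inte]
    have hex : (hu I).Perm (exL I) := by
      unfold exL
      rw [List.perm_ext_iff_of_nodup hnd (List.nodup_range.filter _)]
      intro a
      rw [hmem a, List.mem_filter, List.mem_range]
    have e1 : mm I = (exL I).length := hex.length_eq
    have e2 := List.length_eq_length_filter_add (l := List.range (nn I)) (fun p => ext I p)
    rw [List.length_range] at e2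
    rw [e1]
    unfold exL inL
    exact e2.symm

end Pool.Agent.Work.MP_c6c039_lc.FP
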