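import Pool.Agent.Work.MP_c6c039_lc.FP.StmtsG

set_option autoImplicit false

namespace Pool.Agent.Work.MP_c6c039_lc.FP

open Pool.Agent.PT

namespace IHl

variable {I : In}

lemma ds3 {a b c : ℕ} (ha : a < nn I) (hb : b < nn I) (hc : c < nn I) (hab : a ≠ b) (hac : a ≠ c)
    (hbc : b ≠ c) : Ds I [a, b, c] := by
  refine ⟨by simp [hab, hac, hbc], ?_⟩
  intro x hx
  simp only [List.mem_cons, List.not_mem_nil, or_false] at hx
  rcases hx with h | h | h <;> rw [h] <;> assumption

lemma ds4 {a b c d : ℕ} (ha : a < nn I) (hb : b < nn I) (hc : c < nn I) (hd : d < nn I)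
    (hab : a ≠ b) (hac : a ≠ c) (had : a ≠ d) (hbc : b ≠ c) (hbd : b ≠ d) (hcd : c ≠ d) :
    Ds I [a, b, c, d] := by
  refine ⟨by simp [hab, hac, had, hbc, hbd, hcd], ?_⟩
  intro x hx
  simp only [List.mem_cons, List.not_mem_nil, or_false] at hx
  rcases hx with h | h | h | h <;> rw [h] <;> assumption

lemma memE {p : ℕ} : p ∈ exL I ↔ p < nn I ∧ ext I p = true := by
  simp [exL]

lemma nodE : (exL I).Nodup := List.nodup_range.filter _

lemma anti' (hI : CH I) {h a b : ℕ} (hh : h < nn I) (ha : a < nn I) (hb : b < nn I) (hha : h ≠ a)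
    (hhb : h ≠ b) (hab : a ≠ b) : chi I h b a = !chi I h a b := by
  have h1 := hI.cyc h b a (ds3 hh hb ha hhb hha hab.symm)
  have h2 := hI.anti a b h (ds3 ha hb hh hab hha.symm hhb.symm)
  have h3 := hI.cyc h a b (ds3 hh ha hb hha hhb hab)
  rw [← h1, h2, h3]

/-- the predecessors -/
def pre (I : In) (h a : ℕ) : Finset ℕ := (exL I).toFinset.filter fun b => chi I h b a = true

lemma rk_eq {h a : ℕ} (hh : (exL I).headD 0 = h) :
    rk I a = if a = h then 0 else (pre I h a).card + 1 := by
  unfold rk
  rw [hh]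
  have : ((exL I).filter fun b => chi I h b a).length = (pre I h a).card := by
    rw [← List.toFinset_card_of_nodup (nodE.filter _), List.toFinset_filter]
    rfl
  rw [this]

lemma lt_of_chi (hHo : St_Ho) (hI : CH I) {h a b : ℕ} (hhd : (exL I).headD 0 = h)
    (hh : h ∈ exL I) (ha : a ∈ exL I) (hb : b ∈ exL I) (hah : a ≠ h) (hbh : b ≠ h)
    (hc : chi I h a b = true) : rk I a < rk I b := by
  rw [rk_eq hhd, rk_eq hhd, if_neg hah, if_neg hbh]
  have hh' := memE.1 hh
  have ha' := memE.1 ha
  have hb' := memE.1 hb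
  refine Nat.add_lt_add_right (Finset.card_lt_card ?_) 1
  rw [Finset.ssubset_iff_of_subset]
  · refine ⟨a, ?_, ?_⟩
    · exact Finset.mem_filter.2 ⟨List.mem_toFinset.2 ha, hc⟩
    · intro h1
      have h2 := (Finset.mem_filter.1 h1).2
      rw [(hI.deg h a hh'.1 ha'.1).2.2] at h2
      exact absurd h2 (by simp)
  · intro c hcm
    obtain ⟨h1, h2⟩ := Finset.mem_filter.1 hcm
    have hcE := List.mem_toFinset.1 h1
    have hc' := memE.1 hcE
    refine Finset.mem_filter.2 ⟨h1, ?_⟩
    have hca : c ≠ a := by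
      rintro rfl
      rw [(hI.deg h c hh'.1 hc'.1).2.2] at h2
      exact absurd h2 (by simp)
    have hch : c ≠ h := by
      rintro rfl
      rw [(hI.deg c a hh'.1 ha'.1).1] at h2
      exact absurd h2 (by simp)
    have hab : a ≠ b := by
      rintro rfl
      rw [(hI.deg h a hh'.1 ha'.1).2.2] at hc
      exact absurd hc (by simp)
    have hcb : c ≠ b := by
      rintro rfl
      rw [anti' hI hh'.1 ha'.1 hc'.1 hah.symm hch.symm hca.symm, hc] at h2
      exact absurd h2 (by simp)
    exact (hHo I hI h c a b (ds4 hh'.1 hc'.1 ha'.1 hb'.1 hch.symm hah.symm hbh.symm hca hcb hab)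
      hh'.2 ha'.2 h2 hc).1

lemma chi_of_lt (hHo : St_Ho) (hI : CH I) {h a b : ℕ} (hhd : (exL I).headD 0 = h)
    (hh : h ∈ exL I) (ha : a ∈ exL I) (hb : b ∈ exL I) (hah : a ≠ h) (hbh : b ≠ h)
    (hlt : rk I a < rk I b) : chi I h a b = true := by
  have hh' := memE.1 hh
  have ha' := memE.1 ha
  have hb' := memE.1 hb
  have hab : a ≠ b := by rintro rfl; exact lt_irrefl _ hlt
  by_contra hc
  have hc' : chi I h a b = false := by simpa using hc
  have h1 : chi I h b a = true := by
    rw [anti' hI hh'.1 ha'.1 hb'.1 hah.symm hbh.symm hab, hc']; rfl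
  exact lt_asymm hlt (lt_of_chi hHo hI hhd hh hb ha hbh hah h1)

lemma rk_inj (hHo : St_Ho) (hI : CH I) {h a b : ℕ} (hhd : (exL I).headD 0 = h)
    (hh : h ∈ exL I) (ha : a ∈ exL I) (hb : b ∈ exL I) (heq : rk I a = rk I b) : a = b := by
  by_contra hab
  have hh' := memE.1 hh
  have ha' := memE.1 ha
  have hb' := memE.1 hb
  by_cases hah : a = h
  · have hbh : b ≠ h := by rintro rfl; exact hab hah
    rw [rk_eq hhd, rk_eq hhd, if_pos hah, if_neg hbh] at heq
    omega
  · by_cases hbh : b = h
    · rw [rk_eq hhd, rk_eq hhd, if_neg hah, if_pos hbh] at heq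
      omega
    · rcases Bool.eq_false_or_eq_true (chi I h a b) with h1 | h1
      · exact absurd heq (lt_of_chi hHo hI hhd hh ha hb hah hbh h1).ne
      · have h2 : chi I h b a = true := by
          rw [anti' hI hh'.1 ha'.1 hb'.1 (Ne.symm hah) (Ne.symm hbh) hab, h1]; rfl
        exact absurd heq.symm (lt_of_chi hHo hI hhd hh hb ha hbh hah h2).ne

lemma rk_lt (hI : CH I) {h a : ℕ} (hhd : (exL I).headD 0 = h)
    (hh : h ∈ exL I) (ha : a ∈ exL I) : rk I a < (exL I).length := by
  have hh' := memE.1 hh
  have ha' := memE.1 ha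
  rw [rk_eq hhd]
  split_ifs with h1
  · exact List.length_pos_of_mem hh
  · have hcard : ((exL I).toFinset).card = (exL I).length := List.toFinset_card_of_nodup nodE
    have h2 : pre I h a ⊆ ((exL I).toFinset.erase h).erase a := by
      intro c hc
      obtain ⟨h3, h4⟩ := Finset.mem_filter.1 hc
      refine Finset.mem_erase.2 ⟨?_, Finset.mem_erase.2 ⟨?_, h3⟩⟩
      · rintro rfl
        rw [(hI.deg h c hh'.1 ha'.1).2.2] at h4
        exact absurd h4 (by simp)
      · rintro rfl
        rw [(hI.deg c a hh'.1 ha'.1).1] at h4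
        exact absurd h4 (by simp)
    have h3 := Finset.card_le_card h2
    rw [Finset.card_erase_of_mem (Finset.mem_erase.2 ⟨h1, List.mem_toFinset.2 ha⟩),
      Finset.card_erase_of_mem (List.mem_toFinset.2 hh), hcard] at h3
    have h4 : 2 ≤ (exL I).length := by
      rw [← hcard]
      exact Finset.one_lt_card.2 ⟨h, List.mem_toFinset.2 hh, a, List.mem_toFinset.2 ha,
        Ne.symm h1⟩
    omega

/-- the element found -/
def g (I : In) (r : ℕ) : ℕ := ((exL I).find? fun a => rk I a == r).getD 0

lemma g_spec (hHo : St_Ho) (hI : CH I) {h : ℕ} (hhd : (exL I).headD 0 = h)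
    (hh : h ∈ exL I) {r : ℕ} (hr : r < (exL I).length) : g I r ∈ exL I ∧ rk I (g I r) = r := by
  have hcard : ((exL I).toFinset).card = (exL I).length := List.toFinset_card_of_nodup nodE
  have himg : (exL I).toFinset.image (rk I) = Finset.range (exL I).length := by
    refine Finset.eq_of_subset_of_card_le ?_ ?_
    · intro x hx
      obtain ⟨a, ha, rfl⟩ := Finset.mem_image.1 hx
      exact Finset.mem_range.2 (rk_lt hI hhd hh (List.mem_toFinset.1 ha))
    · rw [Finset.card_range, Finset.card_image_of_injOn, hcard]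
      intro a ha b hb hab
      exact rk_inj hHo hI hhd hh (List.mem_toFinset.1 ha) (List.mem_toFinset.1 hb) hab
  have h1 : r ∈ (exL I).toFinset.image (rk I) := by rw [himg]; exact Finset.mem_range.2 hr
  obtain ⟨a, ha, har⟩ := Finset.mem_image.1 h1
  have ha' := List.mem_toFinset.1 ha
  have h2 : ((exL I).find? fun a => rk I a == r).isSome := by
    rw [List.find?_isSome]
    exact ⟨a, ha', by simp [har]⟩
  obtain ⟨b, hb⟩ := Option.isSome_iff_exists.1 h2
  have h3 : g I r = b := by unfold g; rw [hb]; rfl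
  rw [h3]
  refine ⟨List.mem_of_find?_eq_some hb, ?_⟩
  have := List.find?_some hb
  simpa using this

end IHl

open IHl in
theorem pr_Hl (hHo : St_Ho) : St_Hl := by
  intro I hI hu_eq
  have hdef : hullOf I = (List.range (exL I).length).map (g I) := rfl
  rw [hdef] at hu_eq
  have hmm : mm I = (exL I).length := by unfold mm; rw [hu_eq]; simp
  by_cases hE : exL I = []
  · have h1 : hu I = [] := by rw [hu_eq, hE]; rfl
    rw [h1]
    refine ⟨List.nodup_nil, fun p => ?_, fun i j l _ _ hl => ?_⟩
    · constructor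
      · intro h; exact absurd h (List.not_mem_nil)
      · intro h
        have := memE.2 h
        rw [hE] at this
        exact absurd this (List.not_mem_nil)
    · rw [hmm, hE] at hl; exact absurd hl (Nat.not_lt_zero _)
  · obtain ⟨h, t, ht⟩ := List.exists_cons_of_ne_nil hE
    have hhd : (exL I).headD 0 = h := by rw [ht]; rfl
    have hh : h ∈ exL I := by rw [ht]; exact List.mem_cons_self
    have gs : ∀ r, r < (exL I).length → g I r ∈ exL I ∧ rk I (g I r) = r :=
      fun r hr => g_spec hHo hI hhd hh hr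
    refine ⟨?_, fun p => ?_, fun i j l hij hjl hl => ?_⟩
    · rw [hu_eq]
      refine List.Nodup.map_on ?_ List.nodup_range
      intro x hx y hy hxy
      rw [← (gs x (List.mem_range.1 hx)).2, ← (gs y (List.mem_range.1 hy)).2, hxy]
    · rw [hu_eq, ← memE, List.mem_map]
      constructor
      · rintro ⟨r, hr, rfl⟩
        exact (gs r (List.mem_range.1 hr)).1
      · intro hp
        have h1 := rk_lt hI hhd hh hp
        refine ⟨rk I p, List.mem_range.2 h1, ?_⟩
        exact rk_inj hHo hI hhd hh (gs _ h1).1 hp (gs _ h1).2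
    · rw [hmm] at hl
      have hget : ∀ r, r < (exL I).length → (hu I).getD r 0 = g I r := by
        intro r hr
        rw [hu_eq, List.getD_eq_getElem?_getD, List.getElem?_map, List.getElem?_range hr]
        rfl
      rw [hget i (by omega), hget j (by omega), hget l hl]
      obtain ⟨gi, ri⟩ := gs i (by omega)
      obtain ⟨gj, rj⟩ := gs j (by omega)
      obtain ⟨gl, rl⟩ := gs l hl
      have ne_h : ∀ r, 0 < r → r < (exL I).length → g I r ≠ h := by
        intro r hr hr' he
        have h1 := (gs r hr').2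
        rw [he, rk_eq hhd, if_pos rfl] at h1
        omega
      have hj0 := ne_h j (by omega) (by omega)
      have hl0 := ne_h l (by omega) hl
      have hjl' : chi I h (g I j) (g I l) = true :=
        chi_of_lt hHo hI hhd hh gj gl hj0 hl0 (by rw [rj, rl]; exact hjl)
      rcases Nat.eq_zero_or_pos i with hi | hi
      · have h1 : g I i = h := by
          by_contra hne
          rw [rk_eq hhd, if_neg hne] at ri
          omega
        rw [h1]; exact hjl'
      · have hi0 := ne_h i hi (by omega)
        have hij' : chi I h (g I i) (g I j) = true :=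
          chi_of_lt hHo hI hhd hh gi gj hi0 hj0 (by rw [ri, rj]; exact hij)
        have n1 : g I i ≠ g I j := by intro e; rw [e] at ri; omega
        have n2 : g I i ≠ g I l := by intro e; rw [e] at ri; omega
        have n3 : g I j ≠ g I l := by intro e; rw [e] at rj; omega
        exact (hHo I hI h (g I i) (g I j) (g I l)
          (ds4 (memE.1 hh).1 (memE.1 gi).1 (memE.1 gj).1 (memE.1 gl).1 hi0.symm hj0.symm hl0.symm
            n1 n2 n3) (memE.1 hh).2 (memE.1 gj).2 hij' hjl').2

end Pool.Agent.Work.MP_c6c039_lc.FP
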