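import Pool.Agent.Work.MP_c6c039_lc.FP.StmtsG

/-! # Block FP, item Ho -/

set_option autoImplicit false

namespace Pool.Agent.Work.MP_c6c039_lc.FP

namespace IHo

/-- sub-lists of three or four of the points -/
theorem ds {I : In} {h a b c : ℕ} (hD : Ds I [h, a, b, c]) :
    (h ≠ a ∧ h ≠ b ∧ h ≠ c ∧ a ≠ b ∧ a ≠ c ∧ b ≠ c) ∧
      (h < nn I ∧ a < nn I ∧ b < nn I ∧ c < nn I) := by
  obtain ⟨h1, h2⟩ := hD
  simp only [List.nodup_cons, List.mem_cons, List.not_mem_nil, or_false, not_or, not_false_eq_true,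
    List.nodup_nil, and_true] at h1
  refine ⟨⟨h1.1.1, h1.1.2.1, h1.1.2.2, h1.2.1.1, h1.2.1.2, h1.2.2⟩, h2 h (by simp), h2 a (by simp),
    h2 b (by simp), h2 c (by simp)⟩

theorem ds3 {I : In} {a b c : ℕ} (h1 : a ≠ b) (h2 : a ≠ c) (h3 : b ≠ c) (ha : a < nn I)
    (hb : b < nn I) (hc : c < nn I) : Ds I [a, b, c] := by
  refine ⟨?_, ?_⟩
  · simp [h1, h2, h3]
  · intro x hx
    simp only [List.mem_cons, List.not_mem_nil, or_false] at hx
    rcases hx with rfl | rfl | rfl <;> assumption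

theorem ds4 {I : In} {a b c d : ℕ} (h1 : a ≠ b) (h2 : a ≠ c) (h3 : a ≠ d) (h4 : b ≠ c)
    (h5 : b ≠ d) (h6 : c ≠ d) (ha : a < nn I) (hb : b < nn I) (hc : c < nn I) (hd : d < nn I) :
    Ds I [a, b, c, d] := by
  refine ⟨?_, ?_⟩
  · simp [h1, h2, h3, h4, h5, h6]
  · intro x hx
    simp only [List.mem_cons, List.not_mem_nil, or_false] at hx
    rcases hx with rfl | rfl | rfl | rfl <;> assumption

end IHo

theorem pr_Ho (hXt : St_Xt) : St_Ho := by
  intro I hC h a b c hD hh hb h1 h2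
  obtain ⟨⟨nha, nhb, nhc, nab, nac, nbc⟩, lh, la, lb, lc⟩ := IHo.ds hD
  have e1 : chi I a b h = true := by
    rw [hC.cyc h a b (IHo.ds3 nha nhb nab lh la lb)]; exact h1
  have e2 : chi I b c h = true := by
    rw [hC.cyc h b c (IHo.ds3 nhb nhc nbc lh lb lc)]; exact h2
  have e3 : chi I c h b = true := by
    rw [hC.cyc b c h (IHo.ds3 nbc nhb.symm nhc.symm lb lc lh)]; exact e2
  constructor
  · by_contra hne
    have h3 : chi I h a c = false := by simpa using hne
    have e4 : chi I a h c = true := by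
      rw [hC.anti h a c (IHo.ds3 nha nhc nac lh la lc), h3]; rfl
    have e5 : chi I c a h = true := by
      rw [← hC.cyc c a h (IHo.ds3 nac.symm nhc.symm nha.symm lc la lh)]; exact e4
    have e6 := (hXt I h lh).1 hh a b c
      (IHo.ds4 nab nac nha.symm nbc nhb.symm nhc.symm la lb lc lh)
    simp [inT, e1, e2, e5] at e6
  · by_contra hne
    have h3 : chi I a b c = false := by simpa using hne
    have e4 : chi I a c b = true := by
      rw [hC.cyc b a c (IHo.ds3 nab.symm nbc nac lb la lc),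
        hC.anti a b c (IHo.ds3 nab nac nbc la lb lc), h3]; rfl
    have e6 := (hXt I b lb).1 hb h a c
      (IHo.ds4 nha nhc nhb nac nab nbc.symm lh la lc lb)
    simp [inT, h1, e3, e4] at e6

end Pool.Agent.Work.MP_c6c039_lc.FP
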