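import Pool.Agent.Work.MP_c6c039_lc.FP.StmtsE

/-!
# Block FP, item Iv (helper37): bounds for the components of the states
-/

set_option autoImplicit false

namespace Pool.Agent.Work.MP_c6c039_lc.FP

open Pool.Agent.PT Turing N487b59b3

namespace IIv

/-- bounds for a record -/
def RB (I : In) (r : Rec) : Prop :=
  r.1 ≤ bd I ∧ r.2.1 ≤ bd I + 1 ∧ r.2.2.1.length ≤ (prs I).length ∧
    r.2.2.2.1.length ≤ (prs I).length ∧ r.2.2.2.2.length ≤ (prs I).length

theorem recH_bd (I : In) (q : ℕ × ℕ) (p x : ℕ) (hp' : p ≤ bd I) : RB I (recH I q p x) := by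
  refine ⟨hp', ?_, ?_, ?_, ?_⟩
  · exact Nat.zero_le _
  · simp [recH]
  · simp [recH]
  · simp [recH]

theorem recI_bd (I : In) (p q : ℕ) (hp' : p ≤ bd I) (hq : q ≤ bd I) : RB I (recI p q) := by
  refine ⟨hp', ?_, ?_, ?_, ?_⟩
  · exact Nat.succ_le_succ hq
  · simp [recI]
  · simp [recI]
  · simp [recI]

theorem recOf_bd (I : In) (q : ℕ × ℕ) (v w : V) (hv : v.2 ≤ bd I) (hw : w.2 ≤ bd I) :
    RB I (recOf I q (v, w)) := by
  unfold recOf
  split
  · exact recH_bd I q _ _ hw
  · split
    · exact recH_bd I q _ _ hv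
    · exact recI_bd I _ _ hv hw

theorem updR_bd (I : In) (b : Bool) (y : ℕ) (r : Rec) (h : RB I r) : RB I (updR I b y r) := by
  unfold updR
  split
  · refine ⟨h.1, ?_, h.2.2.1, ?_, ?_⟩
    · exact Nat.zero_le _
    · simp
    · simp
  · exact h

theorem it_bd (I : In) (a : ℕ) (ha : a ∈ it I) : a ≤ (it I).sum :=
  List.le_sum_of_mem ha

theorem base (I : In) (s : St) (h : s ∈ L0 I) : Inv I 0 s := by
  unfold L0 at h
  obtain ⟨i, hi, rfl⟩ := List.mem_map.1 h
  rw [List.mem_range] at hi
  refine ⟨?_, ?_, ?_, ?_, ?_, ?_, ?_⟩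
  · show mm I + i ≤ 2 * mm I
    omega
  · show mm I + i ≤ 2 * mm I + 0
    omega
  · intro v hv
    exact absurd hv (by simp)
  · simp
  · intro a ha
    exact absurd ha (by simp)
  · simp
  · intro r hr
    exact absurd hr (by simp)

/-- candidates -/
theorem cand_bd (I : In) (t : ℕ) (s : St) (ht : t ≤ nn I) (hs : Inv I t s) (v : V)
    (hv : v ∈ cand I s) : v.2 ≤ bd I ∧ (nA s.1 v).1 ≤ 2 * mm I ∧ (nA s.1 v).2 ≤ 2 * mm I + (t + 1) := by
  obtain ⟨h1, h2, -⟩ := hs
  unfold cand at hv
  rw [List.mem_append] at hv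
  rcases hv with hv | hv
  · have hv' : v = (true, s.1.2) ∨ v = (true, s.1.1 - 1) := by
      split at hv
      · simpa using hv
      · exact absurd hv (by simp)
    rcases hv' with rfl | rfl
    · refine ⟨?_, ?_, ?_⟩
      · show s.1.2 ≤ bd I
        unfold bd
        omega
      · simp only [nA, if_true]
        exact h1
      · simp only [nA, if_true]
        omega
    · refine ⟨?_, ?_, ?_⟩
      · show s.1.1 - 1 ≤ bd I
        unfold bd
        omega
      · simp only [nA, if_true]
        split
        · exact h1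
        · show s.1.1 - 1 ≤ 2 * mm I
          omega
      · simp only [nA, if_true]
        split
        · show s.1.2 + 1 ≤ _
          omega
        · show s.1.2 ≤ _
          omega
  · obtain ⟨a, ha, rfl⟩ := List.mem_map.1 hv
    have ha' : a ∈ it I := (List.mem_filter.1 ha).1
    have hb := it_bd I a ha'
    refine ⟨?_, ?_, ?_⟩
    · show a ≤ bd I
      unfold bd
      omega
    · show s.1.1 ≤ _
      exact h1
    · show s.1.2 ≤ _
      omega

theorem step (I : In) (t : ℕ) (s : St) (ht : t ≤ nn I) (hs : Inv I t s) (v : V)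
    (hv : v ∈ cand I s) : Inv I (t + 1) (upd I s v) := by
  obtain ⟨hvb, hn1, hn2⟩ := cand_bd I t s ht hs v hv
  obtain ⟨h1, h2, h3, h4, h5, h6, h7⟩ := hs
  have h7' : ∀ r ∈ s.2.2.2.1, RB I r := h7
  refine ⟨hn1, hn2, ?_, ?_, ?_, ?_, ?_⟩
  · intro w hw
    have : v = w := Option.some.inj hw
    rw [← this]
    exact hvb
  · show (if v.1 then s.2.2.1 else v.2 :: s.2.2.1).length ≤ t + 1
    split
    · omega
    · rw [List.length_cons]
      omega
  · show ∀ a ∈ (if v.1 then s.2.2.1 else v.2 :: s.2.2.1), a ≤ bd I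
    intro a ha
    split at ha
    · exact h5 a ha
    · rcases List.mem_cons.1 ha with rfl | ha
      · exact hvb
      · exact h5 a ha
  · show (((s.2.1.map fun w => if v.1 && w.1 then [] else [recOf I (nA s.1 v) (v, w)]).getD []) ++
        (if v.1 then s.2.2.2.1.map (updR I (decide (v.2 = s.1.2)) v.2) else s.2.2.2.1)).length
        ≤ t + 1
    rw [List.length_append]
    have e1 : ((s.2.1.map fun w => if v.1 && w.1 then [] else
        [recOf I (nA s.1 v) (v, w)]).getD []).length ≤ 1 := by
      cases h : s.2.1 with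
      | none => simp
      | some w =>
        simp only [Option.map_some, Option.getD_some]
        split <;> simp
    have e2 : (if v.1 then s.2.2.2.1.map (updR I (decide (v.2 = s.1.2)) v.2)
        else s.2.2.2.1).length ≤ t := by
      split
      · rw [List.length_map]
        exact h6
      · exact h6
    omega
  · show ∀ r ∈ (((s.2.1.map fun w => if v.1 && w.1 then [] else
        [recOf I (nA s.1 v) (v, w)]).getD []) ++
        (if v.1 then s.2.2.2.1.map (updR I (decide (v.2 = s.1.2)) v.2) else s.2.2.2.1)), RB I r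
    intro r hr
    rcases List.mem_append.1 hr with hr | hr
    · cases h : s.2.1 with
      | none =>
        rw [h] at hr
        exact absurd hr (by simp)
      | some w =>
        rw [h] at hr
        simp only [Option.map_some, Option.getD_some] at hr
        split at hr
        · exact absurd hr (by simp)
        · rw [List.mem_singleton] at hr
          rw [hr]
          exact recOf_bd I _ v w hvb (h3 w h)
    · split at hr
      · obtain ⟨r', hr', rfl⟩ := List.mem_map.1 hr
        exact updR_bd I _ _ r' (h7' r' hr')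
      · exact h7' r hr

end IIv

open IIv in
/-- Item Iv. -/
theorem pr_Iv (hDd : St_Dd) : St_Iv := by
  intro I M t
  induction t with
  | zero =>
    intro s _ hs
    exact base I s (List.mem_of_mem_take hs)
  | succ t ih =>
    intro s ht hs
    have e : layB I M (t + 1) =
        (dd ((layB I M t).flatMap fun s => nx I s)).take (cap I M) := by
      unfold layB
      rw [Function.iterate_succ_apply']
    rw [e] at hs
    have h1 : s ∈ (layB I M t).flatMap fun s => nx I s :=
      ((hDd _).2 s).1 (List.mem_of_mem_take hs)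
    obtain ⟨s', hs', h2⟩ := List.mem_flatMap.1 h1
    unfold nx at h2
    obtain ⟨v, hv, rfl⟩ := List.mem_map.1 h2
    exact step I t s' (by omega) (ih s' (by omega) hs') v (List.mem_filter.1 hv).1

end Pool.Agent.Work.MP_c6c039_lc.FP
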