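import Pool.Agent.Work.MP_c6c039_lc.FP.StmtsC

/-! # Block FP, item Lb -/

set_option autoImplicit false

namespace Pool.Agent.Work.MP_c6c039_lc.FP

namespace ILb

theorem layB_succ (I : In) (M t : ℕ) :
    layB I M (t + 1) = (dd ((layB I M t).flatMap fun s => nx I s)).take (cap I M) := by
  unfold layB
  rw [Function.iterate_succ_apply']

theorem lay_succ (I : In) (t : ℕ) : lay I (t + 1) = (lay I t).flatMap fun s => nx I s := by
  unfold lay
  rw [Function.iterate_succ_apply']

theorem layB_zero (I : In) (M : ℕ) : layB I M 0 = (L0 I).take (cap I M) := by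
  unfold layB
  rw [Function.iterate_zero, id]

theorem lay_zero (I : In) : lay I 0 = L0 I := by
  unfold lay
  rw [Function.iterate_zero, id]

theorem main (hDd : St_Dd) (I : In) (M : ℕ) (hM : 0 < M) (hle : mm I ≤ nn I) (F : Finset St)
    (hF : F.card ≤ cap I M) (hFm : ∀ t u, u ∈ lay I t → u ∈ F) :
    ∀ t s, s ∈ layB I M t ↔ s ∈ lay I t := by
  classical
  intro t
  induction t with
  | zero =>
    intro s
    have h1 : (L0 I).length ≤ cap I M := by
      have h2 : (L0 I).length = mm I := by rw [L0, List.length_map, List.length_range]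
      rw [h2]
      have h4 : nn I ≤ (3 * nn I + 3) ^ 3 := by
        calc nn I ≤ 3 * nn I + 3 := by omega
          _ ≤ (3 * nn I + 3) ^ 3 := Nat.le_self_pow (by norm_num) _
      calc mm I ≤ (3 * nn I + 3) ^ 3 := hle.trans h4
        _ ≤ (3 * nn I + 3) ^ 3 * M := Nat.le_mul_of_pos_right _ hM
    rw [layB_zero, lay_zero, List.take_of_length_le h1]
  | succ t ih =>
    intro s
    rw [layB_succ, lay_succ]
    have h1 : ∀ u, u ∈ dd ((layB I M t).flatMap fun s => nx I s) ↔
        u ∈ (lay I t).flatMap fun s => nx I s := by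
      intro u
      rw [(hDd _).2]
      simp only [List.mem_flatMap]
      constructor
      · rintro ⟨a, ha, hb⟩
        exact ⟨a, (ih a).1 ha, hb⟩
      · rintro ⟨a, ha, hb⟩
        exact ⟨a, (ih a).2 ha, hb⟩
    have h2 : (dd ((layB I M t).flatMap fun s => nx I s)).length ≤ cap I M := by
      rw [← List.toFinset_card_of_nodup (hDd _).1]
      refine (Finset.card_le_card ?_).trans hF
      intro u hu
      rw [List.mem_toFinset, h1, ← lay_succ] at hu
      exact hFm (t + 1) u hu
    rw [List.take_of_length_le h2]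
    exact h1 s

end ILb

theorem pr_Lb (hLy : St_Ly) (hSc : St_Sc) (hDd : St_Dd) : St_Lb := by
  intro I hG hH
  obtain ⟨F, hF, hFm⟩ := hSc I hG hH
  have hp : 0 < 2 ^ ee I := Nat.pow_pos (by norm_num)
  generalize 2 ^ ee I = M at hF hp ⊢
  refine ILb.main hDd I M hp ?_ F hF ?_
  · have := hH.tot
    omega
  · intro t u hu
    obtain ⟨q, l, hr, -, rfl⟩ := (hLy I hG hH t u).1 hu
    exact hFm q l hr

end Pool.Agent.Work.MP_c6c039_lc.FP
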