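import Pool.Agent.Work.MP_c6c039_lc.FP.StmtsC

/-! Item Lk (helper15): look up in a table. -/

set_option autoImplicit false

namespace Pool.Agent.Work.MP_c6c039_lc.FP

open Pool.Agent.PT

namespace ILk

theorem getD_map {α : Type} [DecidableEq α] (l : List α) (f : α → Bool) (a : α) (h : a ∈ l) :
    (l.map f).getD (@List.idxOf α instBEqOfDecidableEq a l) false = f a := by
  have hlt : List.idxOf a l < l.length := List.idxOf_lt_length_of_mem h
  rw [List.getD_eq_getElem _ _ (by rw [List.length_map]; exact hlt), List.getElem_map]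
  exact congrArg f (List.getElem_idxOf hlt)

end ILk

theorem pr_Lk : St_Lk := by
  intro I f p q hp hq
  exact ILk.getD_map (prs I) f (p, q) (List.mem_product.2 ⟨hp, hq⟩)

end Pool.Agent.Work.MP_c6c039_lc.FP
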