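import Pool.Agent.Work.MP_c6c039_lc.FP.StmtsC

/-!
# Lists of bounded length over a finite set (item Ll)
-/

set_option autoImplicit false

namespace Pool.Agent.Work.MP_c6c039_lc.FP

open Pool.Agent.PT

theorem pr_Ll : St_Ll := by
  intro α _ S n
  induction n with
  | zero =>
    refine ⟨{[]}, by simp, fun l hl _ => ?_⟩
    rw [List.length_eq_zero_iff.1 (Nat.le_zero.1 hl)]
    exact Finset.mem_singleton_self _
  | succ n ih =>
    obtain ⟨F, hF, hmem⟩ := ih
    refine ⟨insert [] ((S ×ˢ F).image fun p => p.1 :: p.2), ?_, fun l hl hS => ?_⟩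
    · have h1 := Finset.card_insert_le ([] : List α) ((S ×ˢ F).image fun p => p.1 :: p.2)
      have h2 : ((S ×ˢ F).image fun p => p.1 :: p.2).card ≤ S.card * F.card := by
        rw [← Finset.card_product]
        exact Finset.card_image_le
      have h3 : S.card * F.card ≤ S.card * (S.card + 1) ^ n := Nat.mul_le_mul_left _ hF
      have h4 : 1 ≤ (S.card + 1) ^ n := Nat.one_le_pow _ _ (Nat.succ_pos _)
      calc _ ≤ S.card * F.card + 1 := h1.trans (Nat.add_le_add_right h2 1)
        _ ≤ S.card * (S.card + 1) ^ n + (S.card + 1) ^ n := Nat.add_le_add h3 h4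
        _ = (S.card + 1) ^ (n + 1) := by ring
    · cases l with
      | nil => exact Finset.mem_insert_self _ _
      | cons a l =>
        refine Finset.mem_insert_of_mem (Finset.mem_image.2 ⟨(a, l), ?_, rfl⟩)
        exact Finset.mem_product.2 ⟨hS a List.mem_cons_self,
          hmem l (Nat.le_of_succ_le_succ hl) fun b hb => hS b (List.mem_cons_of_mem _ hb)⟩

end Pool.Agent.Work.MP_c6c039_lc.FP
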