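import Pool.Agent.Work.MP_c6c039_lc.FP.StmtsC

/-!
# Block FP, item Ly: the layers of the search are the states of the runs
-/

set_option autoImplicit false

namespace Pool.Agent.Work.MP_c6c039_lc.FP

open Pool.Agent.PT

namespace ILy

theorem cand_abs (I : In) (q : ℕ × ℕ) (l : List V) : cand I (abs I q l) = candF I q l := rfl

theorem mem_L0 (I : In) (s : St) :
    s ∈ L0 I ↔ ∃ q l, Run I q l ∧ l.length = 0 ∧ s = abs I q l := by
  constructor
  · intro h
    obtain ⟨i, hi, rfl⟩ := List.mem_map.1 h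
    have hi' : i < mm I := List.mem_range.1 hi
    exact ⟨(mm I + i, mm I + i), [], Run.nil (mm I + i) (Nat.le_add_right _ _) (by omega), rfl, rfl⟩
  · rintro ⟨q, l, hr, hl, rfl⟩
    cases hr with
    | nil x h1 h2 =>
      refine List.mem_map.2 ⟨x - mm I, List.mem_range.2 (by omega), ?_⟩
      have hx : mm I + (x - mm I) = x := by omega
      rw [hx]
      rfl
    | cons q l v h1 h2 h3 =>
      rw [List.length_cons] at hl
      omega

theorem mem_nx (hOW : St_OW) (hUp : St_Up) (I : In) (hG : Good I) (hH : HC I) (q : ℕ × ℕ)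
    (l : List V) (hr : Run I q l) (s : St) :
    s ∈ nx I (abs I q l) ↔
      ∃ v, v ∈ candF I q l ∧ okF I l v = true ∧ s = abs I (nA q v) (v :: l) := by
  constructor
  · intro h
    obtain ⟨v, hv, rfl⟩ := List.mem_map.1 h
    rw [List.mem_filter, cand_abs] at hv
    refine ⟨v, hv.1, ?_, (hUp I hG hH q l hr v hv.1).symm⟩
    rw [← hOW I hG hH q l hr v hv.1]
    exact hv.2
  · rintro ⟨v, hv1, hv2, rfl⟩
    refine List.mem_map.2 ⟨v, ?_, (hUp I hG hH q l hr v hv1).symm⟩
    rw [List.mem_filter, cand_abs]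
    refine ⟨hv1, ?_⟩
    rw [hOW I hG hH q l hr v hv1]
    exact hv2

theorem lay_succ (I : In) (t : ℕ) : lay I (t + 1) = (lay I t).flatMap fun s => nx I s := by
  unfold lay
  rw [Function.iterate_succ_apply']

end ILy

theorem pr_Ly (hOW : St_OW) (hUp : St_Up) : St_Ly := by
  intro I hG hH t
  induction t with
  | zero =>
    intro s
    exact ILy.mem_L0 I s
  | succ t ih =>
    intro s
    rw [ILy.lay_succ, List.mem_flatMap]
    constructor
    · rintro ⟨s', hs', hs⟩
      obtain ⟨q, l, hr, hl, rfl⟩ := (ih s').1 hs'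
      obtain ⟨v, hv1, hv2, rfl⟩ := (ILy.mem_nx hOW hUp I hG hH q l hr s).1 hs
      exact ⟨nA q v, v :: l, Run.cons q l v hr hv1 hv2, by rw [List.length_cons, hl], rfl⟩
    · rintro ⟨q, l, hr, hl, rfl⟩
      cases hr with
      | nil x h1 h2 => exact absurd hl (by simp)
      | cons q l v h1 h2 h3 =>
        rw [List.length_cons] at hl
        exact ⟨abs I q l, (ih _).2 ⟨q, l, h1, by omega, rfl⟩,
          (ILy.mem_nx hOW hUp I hG hH q l h1 _).2 ⟨v, h2, h3, rfl⟩⟩

end Pool.Agent.Work.MP_c6c039_lc.FP
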