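import Pool.Agent.Work.MP_c6c039_lc.FP.StmtsG

/-!
# Block FP, item NI
-/

set_option autoImplicit false

namespace Pool.Agent.Work.MP_c6c039_lc.FP

open Pool.Agent.PT

namespace INI

lemma getD_mem (l : List ℕ) (i : ℕ) (h : i < l.length) : l.getD i 0 ∈ l := by
  rw [List.getD_eq_getElem _ _ h]
  exact List.getElem_mem h

lemma getD_ne (l : List ℕ) (hl : l.Nodup) (i j : ℕ) (hi : i < l.length) (hj : j < l.length)
    (hij : i ≠ j) : l.getD i 0 ≠ l.getD j 0 := by
  rw [List.getD_eq_getElem _ _ hi, List.getD_eq_getElem _ _ hj]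
  intro h
  exact hij ((hl.getElem_inj_iff).mp h)

lemma crP_true (I : In) (a b : ℕ) : ∀ l : List ℕ, crP I a b l = true →
    ∃ j, j + 1 < l.length ∧ cr I a b (l.getD j 0) (l.getD (j + 1) 0) = true
  | [], h => by simp [crP] at h
  | [_], h => by simp [crP] at h
  | c :: d :: l, h => by
    by_cases h1 : cr I a b c d = true
    · exact ⟨0, by simp, by simpa using h1⟩
    · have h2 : crP I a b (d :: l) = true := by
        rw [crP] at h
        rw [Bool.not_eq_true] at h1
        rw [h1, Bool.false_xor] at h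
        exact h
      obtain ⟨j, hj, hj'⟩ := crP_true I a b (d :: l) h2
      refine ⟨j + 1, ?_, ?_⟩
      · simp only [List.length_cons] at hj ⊢
        omega
      · rw [List.getD_cons_succ, List.getD_cons_succ]
        exact hj'

lemma crPP_true (I : In) (l : List ℕ) : ∀ k : List ℕ, crPP I l k = true →
    ∃ i, i + 1 < k.length ∧ crP I (k.getD i 0) (k.getD (i + 1) 0) l = true
  | [], h => by simp [crPP] at h
  | [_], h => by simp [crPP] at h
  | a :: b :: k, h => by
    by_cases h1 : crP I a b l = true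
    · exact ⟨0, by simp, by simpa using h1⟩
    · have h2 : crPP I l (b :: k) = true := by
        rw [crPP] at h
        rw [Bool.not_eq_true] at h1
        rw [h1, Bool.false_xor] at h
        exact h
      obtain ⟨j, hj, hj'⟩ := crPP_true I l (b :: k) h2
      refine ⟨j + 1, ?_, ?_⟩
      · simp only [List.length_cons] at hj ⊢
        omega
      · rw [List.getD_cons_succ, List.getD_cons_succ]
        exact hj'

end INI

/-- Item NI. -/
theorem pr_NI (hCh : St_Ch) (hP2 : St_P2) (hP3 : St_P3) : St_NI := by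
  intro I hI k l hk hl hD e1 e2 e3 e4 hne
  have hl0 : l ≠ [] := by
    rintro rfl
    simp at hl
  obtain ⟨hnd, hlt⟩ := hD
  obtain ⟨hkn, hln, hdis⟩ := List.nodup_append.mp hnd
  have ka : k.getD 0 0 ∈ k := INI.getD_mem k 0 (by omega)
  have kc : k.getD (k.length - 1) 0 ∈ k := INI.getD_mem k _ (by omega)
  have lb : l.getD 0 0 ∈ l := INI.getD_mem l 0 (by omega)
  have ld : l.getD (l.length - 1) 0 ∈ l := INI.getD_mem l _ (by omega)
  have hac : k.getD 0 0 ≠ k.getD (k.length - 1) 0 :=
    INI.getD_ne k hkn _ _ (by omega) (by omega) (by omega)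
  have hbd : l.getD 0 0 ≠ l.getD (l.length - 1) 0 :=
    INI.getD_ne l hln _ _ (by omega) (by omega) (by omega)
  have hkl : ∀ x ∈ k, ∀ y ∈ l, x ≠ y := hdis
  have h2 := hP2 I hI k l hk hl0 ⟨hnd, hlt⟩ e3 e4
  have hD3 : Ds I (k.getD 0 0 :: k.getD (k.length - 1) 0 :: l) := by
    refine ⟨?_, ?_⟩
    · rw [List.nodup_cons, List.nodup_cons, List.mem_cons, not_or]
      exact ⟨⟨hac, fun h => hkl _ ka _ h rfl⟩, fun h => hkl _ kc _ h rfl, hln⟩
    · intro a ha
      rw [List.mem_cons, List.mem_cons] at ha
      rcases ha with rfl | rfl | ha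
      · exact hlt _ (List.mem_append_left _ ka)
      · exact hlt _ (List.mem_append_left _ kc)
      · exact hlt _ (List.mem_append_right _ ha)
  have h3 := hP3 I hI _ _ l hl hD3 e1 e2
  have hD4 : Ds I [k.getD 0 0, k.getD (k.length - 1) 0, l.getD 0 0, l.getD (l.length - 1) 0] := by
    refine ⟨?_, ?_⟩
    · rw [List.nodup_cons, List.nodup_cons, List.nodup_cons, List.mem_cons, List.mem_cons,
        List.mem_singleton, List.mem_cons, List.mem_singleton, List.mem_singleton]
      refine ⟨?_, ?_, hbd, List.nodup_singleton _⟩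
      · rintro (h | h | h)
        · exact hac h
        · exact hkl _ ka _ lb h
        · exact hkl _ ka _ ld h
      · rintro (h | h)
        · exact hkl _ kc _ lb h
        · exact hkl _ kc _ ld h
    · intro a ha
      rw [List.mem_cons, List.mem_cons, List.mem_cons, List.mem_singleton] at ha
      rcases ha with rfl | rfl | rfl | rfl
      · exact hlt _ (List.mem_append_left _ ka)
      · exact hlt _ (List.mem_append_left _ kc)
      · exact hlt _ (List.mem_append_right _ lb)
      · exact hlt _ (List.mem_append_right _ ld)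
  have h4 := hCh I hI _ _ _ _ hD4 e1 e2 hne
  rw [h3, h4] at h2
  obtain ⟨i, hi, hi'⟩ := INI.crPP_true I l k h2
  obtain ⟨j, hj, hj'⟩ := INI.crP_true I _ _ l hi'
  exact ⟨i, j, hi, hj, hj'⟩

end Pool.Agent.Work.MP_c6c039_lc.FP
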