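import Pool.Agent.Work.MP_c6c039_lc.FP.StmtsC

/-! # Item OW: the test on states is the test on paths -/

set_option autoImplicit false

namespace Pool.Agent.Work.MP_c6c039_lc.FP

open Pool.Agent.PT

namespace IOW

theorem filt1 (I : In) (q : ℕ × ℕ) (w : V) (r : List V)
    (hV : ∀ j, visC I q (vis (w :: r)) j = decide (j ∈ (w :: r).map (pt I)))
    (hN : ((w :: r).map (pt I)).Nodup) (n : ℕ) :
    (List.range n).filter (fun j => visC I q (vis (w :: r)) j && !(j == pt I w)) =
      (List.range n).filter (fun j => decide (j ∈ r.map (pt I))) := by
  apply List.filter_congr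
  intro j _
  rw [hV j]
  rw [List.map_cons, List.nodup_cons] at hN
  rw [List.map_cons]
  by_cases h : j = pt I w
  · subst h
    have h1 : decide (pt I w ∈ List.map (pt I) r) = false := decide_eq_false hN.1
    rw [h1]
    simp
  · have h2 : (j == pt I w) = false := beq_eq_false_iff_ne.mpr h
    rw [h2, Bool.not_false, Bool.and_true]
    apply decide_eq_decide.mpr
    rw [List.mem_cons]
    exact ⟨fun h3 => h3.resolve_left h, Or.inr⟩

theorem filt2 (I : In) (q : ℕ × ℕ) (v w : V) (r : List V)
    (hV : ∀ j, visC I q (vis (w :: r)) j = decide (j ∈ (w :: r).map (pt I))) (n : ℕ) :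
    (List.range n).filter (fun j => !visC I q (vis (w :: r)) j && !(j == pt I v)) =
      (List.range n).filter (fun j => !decide (j ∈ (v :: w :: r).map (pt I))) := by
  apply List.filter_congr
  intro j _
  rw [hV j]
  rw [List.map_cons (a := v)]
  by_cases h : j = pt I v
  · subst h
    simp
  · have h2 : (j == pt I v) = false := beq_eq_false_iff_ne.mpr h
    rw [h2, Bool.not_false, Bool.and_true]
    congr 1
    apply decide_eq_decide.mpr
    rw [List.mem_cons (a := j) (b := pt I v)]
    exact ⟨Or.inr, fun h3 => h3.resolve_left h⟩

theorem tail_if (f : V × V → Rec) (b : Bool) (L : List (V × V)) :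
    (if b then (L.map f).tail else L.map f) = (if b then L.tail else L).map f := by
  cases b
  · rfl
  · cases L <;> rfl

theorem all_congr' {α : Type} (f g : α → Bool) : ∀ L : List α, (∀ e ∈ L, f e = g e) →
    L.all f = L.all g := by
  intro L
  induction L with
  | nil => intro _; rfl
  | cons a L ih =>
    intro h
    rw [List.all_cons, List.all_cons, h a (List.mem_cons_self),
      ih (fun e he => h e (List.mem_cons_of_mem _ he))]

end IOW

open IOW in
theorem pr_OW (hRn : St_Rn) (hEd : St_Ed) (hVi : St_Vi) (hCW : St_CW) : St_OW := by
  intro I hG hC q l hR v hv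
  cases l with
  | nil => rfl
  | cons w r =>
    have hRI := hRn I hG hC q (w :: r) hR
    have hV := hVi I q (w :: r) hRI
    have h0 : okC I (abs I q (w :: r)) v = okW I (abs I q (w :: r)) w v := rfl
    rw [h0]
    have h1 : okW I (abs I q (w :: r)) w v =
      (!(co I (pt I v) == co I (pt I w)) &&
        (if v.1 && w.1 then
          allEq (((List.range (nn I)).filter fun j =>
            visC I q (vis (w :: r)) j && !(j == pt I w)).map
              fun j => chi I (pt I w) (pt I v) j) &&
          allEq (((List.range (nn I)).filter fun j =>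
            !visC I q (vis (w :: r)) j && !(j == pt I v)).map
              fun j => chi I (pt I w) (pt I v) j)
        else (if fresh (w :: r) then ((edg (w :: r)).map (recOf I q)).tail
          else (edg (w :: r)).map (recOf I q)).all fun e => !crC I q.2 v w e)) := rfl
    have h2 : okF I (w :: r) v =
      (!(co I (pt I v) == co I (pt I w)) &&
      (if v.1 && w.1 then
        allEq (((List.range (nn I)).filter fun j => decide (j ∈ r.map (pt I))).map fun j =>
          chi I (pt I w) (pt I v) j) &&
        allEq (((List.range (nn I)).filter fun j => !decide (j ∈ (v :: w :: r).map (pt I))).map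
          fun j => chi I (pt I w) (pt I v) j)
      else (if fresh (w :: r) then (edg (w :: r)).tail else edg (w :: r)).all fun e =>
        !cr I (pt I v) (pt I w) (pt I e.1) (pt I e.2))) := rfl
    rw [h1, h2, filt1 I q w r hV hRI.ptn, filt2 I q v w r hV, tail_if,
      (hEd [] (w, w)).2 w r, List.all_map]
    by_cases hb : (v.1 && w.1) = true
    · rw [if_pos hb, if_pos hb]
    · rw [if_neg hb, if_neg hb]
      congr 1
      apply all_congr'
      intro e he
      have hb' : ¬ (v.1 = true ∧ w.1 = true) := by
        rintro ⟨a, b⟩
        apply hb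
        rw [a, b]
        rfl
      have h3 := hCW I hG hC q w r hR v hv hb' e he
      show (!crC I q.2 v w (recOf I q e)) = _
      rw [h3]

end Pool.Agent.Work.MP_c6c039_lc.FP
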