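import Pool.Agent.Work.MP_c6c039_lc.FP.StmtsD

/-!
# Block FP, item Oc: the steps of a simple path are allowed
-/

set_option autoImplicit false

namespace Pool.Agent.Work.MP_c6c039_lc.FP

open Pool.Agent.PT

namespace IOc

theorem g0 (s t : List ℕ) (a b : ℕ) : (s ++ a :: b :: t).getD s.length 0 = a := by
  rw [List.getD_append_right _ _ _ _ (le_refl _), Nat.sub_self]
  rfl

theorem g1 (s t : List ℕ) (a b : ℕ) : (s ++ a :: b :: t).getD (s.length + 1) 0 = b := by
  rw [List.getD_append_right _ _ _ _ (Nat.le_succ _)]
  have : s.length + 1 - s.length = 1 := by omega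
  rw [this]
  rfl

theorem g2 (s t : List ℕ) (a b i : ℕ) :
    (s ++ a :: b :: t).getD (s.length + 2 + i) 0 = t.getD i 0 := by
  rw [List.getD_append_right _ _ _ _ (by omega)]
  have : s.length + 2 + i - s.length = i + 1 + 1 := by omega
  rw [this]
  rfl

theorem gs (s t : List ℕ) (i : ℕ) (h : i < s.length) : (s ++ t).getD i 0 = s.getD i 0 :=
  List.getD_append _ _ _ _ h

theorem getD_mem (l : List ℕ) (i : ℕ) (h : i < l.length) : l.getD i 0 ∈ l := by
  rw [List.getD_eq_getElem _ _ h]
  exact List.getElem_mem h

theorem getD_ne (l : List ℕ) (hl : l.Nodup) (i j : ℕ) (hi : i < l.length) (hj : j < l.length)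
    (h : i ≠ j) : l.getD i 0 ≠ l.getD j 0 := by
  rw [List.getD_eq_getElem _ _ hi, List.getD_eq_getElem _ _ hj]
  intro he
  exact h ((List.Nodup.getElem_inj_iff hl).1 he)

theorem mk4 (I : In) (a b c d : ℕ) (ha : a < nn I) (hb : b < nn I) (hc : c < nn I) (hd : d < nn I)
    (hab : a ≠ b) (hac : a ≠ c) (had : a ≠ d) (hbc : b ≠ c) (hbd : b ≠ d) (hcd : c ≠ d) :
    Ds I [a, b, c, d] := by
  refine ⟨?_, ?_⟩
  · simp only [List.nodup_cons, List.mem_cons, List.not_mem_nil, or_false, not_or,
      List.nodup_nil, and_true, not_false_eq_true]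
    exact ⟨⟨hab, hac, had⟩, ⟨hbc, hbd⟩, hcd⟩
  · intro w hw
    simp only [List.mem_cons, List.not_mem_nil, or_false] at hw
    rcases hw with rfl | rfl | rfl | rfl <;> assumption

end IOc

open IOc in
/-- **Item Oc**. -/
theorem pr_Oc (hSy : St_Sy) (hCs : St_Cs) (hOk : St_Ok) (hEd : St_Ed) (hSd : St_Sd)
    (hRn : St_Rn) : St_Oc := by
  intro I hG hH q l hR s v hv hP
  have hCH : CH I := hSy I hG.real
  cases l with
  | nil => rfl
  | cons w r =>
    have hRI := hRn I hG hH q (w :: r) hR
    have hP' : SP I (s ++ pt I v :: pt I w :: r.map (pt I)) := hP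
    obtain ⟨t, ht⟩ : ∃ t : List ℕ, t = r.map (pt I) := ⟨_, rfl⟩
    rw [← ht] at hP'
    obtain ⟨hnd, hspan, halt, hnc⟩ := hP'
    have hlen : (s ++ pt I v :: pt I w :: t).length = s.length + 2 + t.length := by
      simp only [List.length_append, List.length_cons]
      omega
    have hlt : ∀ a ∈ s ++ pt I v :: pt I w :: t, a < nn I := fun a ha => (hspan a).1 ha
    have hvm : pt I v ∈ s ++ pt I v :: pt I w :: t := by simp
    have hwm : pt I w ∈ s ++ pt I v :: pt I w :: t := by simp
    have hsm : ∀ a ∈ s, a ∈ s ++ pt I v :: pt I w :: t := fun a ha =>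
      List.mem_append_left _ ha
    have htm : ∀ a ∈ t, a ∈ s ++ pt I v :: pt I w :: t := fun a ha =>
      List.mem_append_right _ (List.mem_cons_of_mem _ (List.mem_cons_of_mem _ ha))
    have hnd' := List.nodup_append.1 hnd
    obtain ⟨hs, hvt, hdis⟩ := hnd'
    rw [List.nodup_cons, List.nodup_cons] at hvt
    obtain ⟨hv1, hw1, ht1⟩ := hvt
    have hvw : pt I v ≠ pt I w := fun h => hv1 (h ▸ List.mem_cons_self)
    have hvt' : ∀ a ∈ t, pt I v ≠ a := fun a ha h => hv1 (h ▸ List.mem_cons_of_mem _ ha)
    have hwt' : ∀ a ∈ t, pt I w ≠ a := fun a ha h => hw1 (h ▸ ha)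
    have hsv : ∀ a ∈ s, a ≠ pt I v := fun a ha => hdis a ha _ List.mem_cons_self
    have hsw : ∀ a ∈ s, a ≠ pt I w := fun a ha =>
      hdis a ha _ (List.mem_cons_of_mem _ List.mem_cons_self)
    -- crossings with the edges of `t`
    have hct : ∀ i, i + 1 < t.length →
        cr I (pt I v) (pt I w) (t.getD i 0) (t.getD (i + 1) 0) = false := by
      intro i hi
      have h := hnc s.length (s.length + 2 + i) (by omega) (by rw [hlen]; omega)
      rw [g0, g1, g2] at h
      have e : s.length + 2 + i + 1 = s.length + 2 + (i + 1) := by omega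
      rw [e, g2] at h
      exact h
    -- crossings with the edges of `s`
    have hcs : ∀ i, i + 1 < s.length →
        cr I (s.getD i 0) (s.getD (i + 1) 0) (pt I v) (pt I w) = false := by
      intro i hi
      have h := hnc i s.length hi (by rw [hlen]; omega)
      rw [g0, g1, gs _ _ _ (by omega), gs _ _ _ hi] at h
      exact h
    refine (hOk I w v r fun u hu => hRI.lt u (List.mem_cons_of_mem _ hu)).2 ⟨?_, ?_, ?_⟩
    · have h := halt s.length (by rw [hlen]; omega)
      rw [g0, g1] at h
      exact h
    · rintro ⟨hve, hwe⟩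
      have ev : ext I (pt I v) = true := by
        unfold pt
        rw [if_pos hve]
        exact hH.ex _
      have ew : ext I (pt I w) = true := by
        unfold pt
        rw [if_pos hwe]
        exact hH.ex _
      rw [← ht]
      refine ⟨?_, ?_⟩
      · refine hSd I hCH (pt I w) (pt I v) t ⟨?_, ?_⟩ ew ev ?_
        · rw [List.nodup_cons, List.nodup_cons]
          refine ⟨?_, fun h => hvt' _ h rfl, ht1⟩
          rw [List.mem_cons]
          rintro (h | h)
          · exact hvw h.symm
          · exact hwt' _ h rfl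
        · intro a ha
          rw [List.mem_cons, List.mem_cons] at ha
          rcases ha with rfl | rfl | ha
          · exact hlt _ hwm
          · exact hlt _ hvm
          · exact hlt _ (htm a ha)
        · intro i hi
          have m1 := getD_mem t i (by omega)
          have m2 := getD_mem t (i + 1) hi
          have h4 := mk4 I (pt I v) (pt I w) (t.getD i 0) (t.getD (i + 1) 0) (hlt _ hvm)
            (hlt _ hwm) (hlt _ (htm _ m1)) (hlt _ (htm _ m2)) hvw (hvt' _ m1) (hvt' _ m2)
            (hwt' _ m1) (hwt' _ m2) (getD_ne t ht1 i (i + 1) (by omega) hi (by omega))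
          rw [(hCs I hCH _ _ _ _ h4).1]
          exact hct i hi
      · intro i j hi hj hi' hj'
        have hin : ∀ a, a < nn I → a ∉ (v :: w :: r).map (pt I) → a ∈ s := by
          intro a ha ha'
          have h := (hspan a).2 ha
          rw [List.mem_append] at h
          rcases h with h | h
          · exact h
          · refine absurd ?_ ha'
            rw [List.map_cons, List.map_cons, ← ht]
            exact h
        refine hSd I hCH (pt I w) (pt I v) s ⟨?_, ?_⟩ ew ev ?_ i (hin i hi hi') j (hin j hj hj')
        · rw [List.nodup_cons, List.nodup_cons]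
          refine ⟨?_, fun h => hsv _ h rfl, hs⟩
          rw [List.mem_cons]
          rintro (h | h)
          · exact hvw h.symm
          · exact hsw _ h rfl
        · intro a ha
          rw [List.mem_cons, List.mem_cons] at ha
          rcases ha with rfl | rfl | ha
          · exact hlt _ hwm
          · exact hlt _ hvm
          · exact hlt _ (hsm a ha)
        · intro i hi
          have m1 := getD_mem s i (by omega)
          have m2 := getD_mem s (i + 1) hi
          have h4 := mk4 I (pt I v) (pt I w) (s.getD i 0) (s.getD (i + 1) 0) (hlt _ hvm)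
            (hlt _ hwm) (hlt _ (hsm _ m1)) (hlt _ (hsm _ m2)) hvw (hsv _ m1).symm (hsv _ m2).symm
            (hsw _ m1).symm (hsw _ m2).symm (getD_ne s hs i (i + 1) (by omega) hi (by omega))
          obtain ⟨c1, -, c3⟩ := hCs I hCH _ _ _ _ h4
          rw [c1, ← c3]
          exact hcs i hi
    · intro _ e he
      rw [(hEd r e).2 w r, (hEd r e).1] at he
      obtain ⟨i, hi, he1, -⟩ := he
      have h := hct i (by rw [ht, List.length_map]; exact hi)
      have hl : t.length = r.length := by rw [ht, List.length_map]
      rw [List.getD_eq_getElem _ _ (by omega), List.getD_eq_getElem _ _ (by omega)] at h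
      simp only [ht, List.getElem_map] at h
      rw [he1]
      exact h

end Pool.Agent.Work.MP_c6c039_lc.FP
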