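import Pool.Agent.Work.MP_c6c039_lc.FP.StmtsD

/-!
# Block FP, item Ok: the conditions for adding a vertex
-/

set_option autoImplicit false

namespace Pool.Agent.Work.MP_c6c039_lc.FP

namespace IOk

/-- the list of the visited points -/
theorem visited (hAq : St_Aq) (I : In) (a b : ℕ) (s : List ℕ) (hs : ∀ i ∈ s, i < nn I) :
    allEq (((List.range (nn I)).filter fun j => decide (j ∈ s)).map fun j => chi I a b j) = true ↔
      ∀ i ∈ s, ∀ j ∈ s, chi I a b i = chi I a b j := by
  rw [hAq]
  constructor
  · intro h i hi j hj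
    refine h _ ?_ _ ?_
    · exact List.mem_map.2 ⟨i, List.mem_filter.2 ⟨List.mem_range.2 (hs i hi), by simpa using hi⟩, rfl⟩
    · exact List.mem_map.2 ⟨j, List.mem_filter.2 ⟨List.mem_range.2 (hs j hj), by simpa using hj⟩, rfl⟩
  · intro h x hx y hy
    obtain ⟨i, hi, rfl⟩ := List.mem_map.1 hx
    obtain ⟨j, hj, rfl⟩ := List.mem_map.1 hy
    have hi' := (List.mem_filter.1 hi).2
    have hj' := (List.mem_filter.1 hj).2
    exact h i (of_decide_eq_true hi') j (of_decide_eq_true hj')

/-- the list of the points which are not visited -/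
theorem unvisited (hAq : St_Aq) (I : In) (a b : ℕ) (s : List ℕ) :
    allEq (((List.range (nn I)).filter fun j => !decide (j ∈ s)).map fun j => chi I a b j) = true ↔
      ∀ i j, i < nn I → j < nn I → i ∉ s → j ∉ s → chi I a b i = chi I a b j := by
  rw [hAq]
  constructor
  · intro h i j hi hj his hjs
    refine h _ ?_ _ ?_
    · exact List.mem_map.2 ⟨i, List.mem_filter.2 ⟨List.mem_range.2 hi, by simp [his]⟩, rfl⟩
    · exact List.mem_map.2 ⟨j, List.mem_filter.2 ⟨List.mem_range.2 hj, by simp [hjs]⟩, rfl⟩
  · intro h x hx y hy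
    obtain ⟨i, hi, rfl⟩ := List.mem_map.1 hx
    obtain ⟨j, hj, rfl⟩ := List.mem_map.1 hy
    have hi' := (List.mem_filter.1 hi).2
    have hj' := (List.mem_filter.1 hj).2
    have hi1 := List.mem_range.1 (List.mem_filter.1 hi).1
    have hj1 := List.mem_range.1 (List.mem_filter.1 hj).1
    refine h i j hi1 hj1 ?_ ?_
    · intro hc
      rw [decide_eq_true hc] at hi'
      exact Bool.noConfusion hi'
    · intro hc
      rw [decide_eq_true hc] at hj'
      exact Bool.noConfusion hj'

end IOk

theorem pr_Ok (hAq : St_Aq) : St_Ok := by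
  intro I w v r hr
  have hs : ∀ i ∈ r.map (pt I), i < nn I := by
    intro i hi
    obtain ⟨u, hu, rfl⟩ := List.mem_map.1 hi
    exact hr u hu
  have hA := IOk.visited hAq I (pt I w) (pt I v) (r.map (pt I)) hs
  have hB := IOk.unvisited hAq I (pt I w) (pt I v) ((v :: w :: r).map (pt I))
  unfold okF
  rw [Bool.and_eq_true]
  refine and_congr ?_ ?_
  · cases co I (pt I v) <;> cases co I (pt I w) <;> simp
  · by_cases hc : v.1 = true ∧ w.1 = true
    · have hc' : (v.1 && w.1) = true := by rw [hc.1, hc.2]; rfl
      rw [if_pos hc', Bool.and_eq_true, hA, hB]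
      constructor
      · intro h
        exact ⟨fun _ => h, fun hn => absurd hc hn⟩
      · intro h
        exact h.1 hc
    · have hc' : ¬ (v.1 && w.1) = true := by
        intro h
        rw [Bool.and_eq_true] at h
        exact hc h
      rw [if_neg hc', List.all_eq_true]
      constructor
      · intro h
        refine ⟨fun hh => absurd hh hc, fun _ e he => ?_⟩
        have := h e he
        simpa using this
      · intro h e he
        have := h.2 hc e he
        simpa using this

end Pool.Agent.Work.MP_c6c039_lc.FP
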