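import Pool.Agent.Work.MP_c6c039_lc.FP.StmtsG

/-!
# SSAP with few interior points, item P1
-/

set_option autoImplicit false

namespace Pool.Agent.Work.MP_c6c039_lc.FP

namespace IP1

/-- Boolean bookkeeping -/
theorem xor_aux : ∀ a b c a' b' c' i j k : Bool, xor (xor a b) c = xor i j →
    xor (xor a' b') c' = xor j k →
    xor (xor (xor a a') (xor b b')) (xor c c') = xor i k := by
  decide

end IP1

theorem pr_P1 (hT5 : St_T5) : St_P1 := by
  intro I hI x y z l
  induction l with
  | nil => intro h; exact absurd rfl h
  | cons c l ih =>
    intro _ hD
    match l, ih, hD with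
    | [], _, _ =>
      show xor (xor false false) false = xor (inT I x y z c) (inT I x y z c)
      cases inT I x y z c <;> rfl
    | d :: l', ih, hD =>
      have h1 := hT5 I hI x y z c d (by
        obtain ⟨ha, hb⟩ := hD
        refine ⟨?_, ?_⟩
        · refine ha.sublist ?_
          simp
        · intro a ha'
          refine hb a ?_
          simp only [List.mem_cons, List.not_mem_nil, or_false] at ha' ⊢
          tauto)
      have h2 := ih (by simp) (by
        obtain ⟨ha, hb⟩ := hD
        refine ⟨?_, ?_⟩
        · refine ha.sublist ?_
          simp
        · intro a ha'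
          refine hb a ?_
          simp only [List.mem_cons] at ha' ⊢
          tauto)
      have e0 : (c :: d :: l').getD 0 0 = c := rfl
      have e1 : (d :: l').getD 0 0 = d := rfl
      have e2 : (c :: d :: l').getD ((c :: d :: l').length - 1) 0 =
          (d :: l').getD ((d :: l').length - 1) 0 := by
        simp
      rw [e1] at h2
      rw [e0, e2]
      exact IP1.xor_aux _ _ _ _ _ _ _ _ _ h1 h2

end Pool.Agent.Work.MP_c6c039_lc.FP
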