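import Pool.Agent.Work.MP_c6c039_lc.FP.StmtsG

/-!
# Block FP, item P2: two paths, one with extreme ends
-/

set_option autoImplicit false

namespace Pool.Agent.Work.MP_c6c039_lc.FP

open Pool.Agent.PT

namespace IP2

theorem ds_sub {I : In} {l l' : List ℕ} (h : Ds I l) (hs : l'.Sublist l) : Ds I l' :=
  ⟨h.1.sublist hs, fun a ha => h.2 a (hs.subset ha)⟩

theorem getD_mem {l : List ℕ} {i : ℕ} (h : i < l.length) : l.getD i 0 ∈ l := by
  rw [List.getD_eq_getElem _ _ h]
  exact List.getElem_mem h

/-- the parity of crossings does not depend on the direction of the segment -/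
theorem crP_symm (hCs : St_Cs) {I : In} (hI : CH I) {a z : ℕ} :
    ∀ l : List ℕ, Ds I (a :: z :: l) → crP I z a l = crP I a z l
  | [], _ => rfl
  | [_], _ => rfl
  | c :: d :: l, h => by
    have h1 : crP I z a (d :: l) = crP I a z (d :: l) := by
      refine crP_symm hCs hI (d :: l) (ds_sub h ?_)
      exact ((List.sublist_cons_self c (d :: l)).cons_cons z).cons_cons a
    have h2 : Ds I [a, z, c, d] := by
      refine ds_sub h ?_
      exact ((((List.nil_sublist l).cons_cons d).cons_cons c).cons_cons z).cons_cons a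
    have h3 := (hCs I hI a z c d h2).1
    show xor (cr I z a c d) (crP I z a (d :: l)) = xor (cr I a z c d) (crP I a z (d :: l))
    rw [h1, h3]

theorem last_cons (a b : ℕ) (t : List ℕ) :
    (a :: b :: t).getD ((a :: b :: t).length - 1) 0 = (b :: t).getD ((b :: t).length - 1) 0 := rfl

theorem main (hXt : St_Xt) (hCs : St_Cs) (hP1 : St_P1) {I : In} (hI : CH I) (l : List ℕ)
    (hl : l ≠ []) (e1 : ext I (l.getD 0 0) = true)
    (e2 : ext I (l.getD (l.length - 1) 0) = true) :
    ∀ k : List ℕ, 2 ≤ k.length → Ds I (k ++ l) →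
      crPP I l k = crP I (k.getD 0 0) (k.getD (k.length - 1) 0) l
  | [], h, _ => by simp at h
  | [_], h, _ => by simp at h
  | [a, b], _, _ => by
    show xor (crP I a b l) false = crP I a b l
    rw [Bool.xor_false]
  | a :: b :: c :: k, _, hD => by
    have hlen : 0 < l.length := List.length_pos_of_ne_nil hl
    have ih := main hXt hCs hP1 hI l hl e1 e2 (b :: c :: k) (by simp)
      (ds_sub hD (List.sublist_cons_self _ _))
    rw [last_cons a b (c :: k)]
    rw [last_cons b c k] at ih ⊢
    have hz : (c :: k).getD ((c :: k).length - 1) 0 ∈ c :: k := getD_mem (by simp)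
    generalize (c :: k).getD ((c :: k).length - 1) 0 = z at ih hz ⊢
    have ih' : crPP I l (b :: c :: k) = crP I b z l := ih
    have hD1 : Ds I (a :: b :: z :: l) := by
      refine ds_sub hD ?_
      have h1 : ([z] ++ l).Sublist ((c :: k) ++ l) :=
        List.Sublist.append (List.singleton_sublist.mpr hz) (List.Sublist.refl l)
      exact (h1.cons_cons b).cons_cons a
    have hin : ∀ p ∈ l, ext I p = true → inT I a b z p = false := by
      intro p hp hpe
      have h2 : Ds I [a, b, z, p] := by
        refine ds_sub hD1 ?_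
        exact (((List.singleton_sublist.mpr hp).cons_cons z).cons_cons b).cons_cons a
      exact (hXt I p (h2.2 p (by simp))).mp hpe a b z h2
    have hp1 := hP1 I hI a b z l hl hD1
    rw [hin _ (getD_mem hlen) e1, hin _ (getD_mem (by omega)) e2] at hp1
    have hD2 : Ds I (a :: z :: l) :=
      ds_sub hD1 ((List.sublist_cons_self b (z :: l)).cons_cons a)
    rw [crP_symm hCs hI l hD2] at hp1
    show xor (crP I a b l) (crPP I l (b :: c :: k)) = crP I a z l
    rw [ih']
    revert hp1
    cases crP I a b l <;> cases crP I b z l <;> cases crP I a z l <;> simp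

end IP2

theorem pr_P2 (hXt : St_Xt) (hCs : St_Cs) (hP1 : St_P1) : St_P2 := by
  intro I hI k l hk hl hD e1 e2
  exact IP2.main hXt hCs hP1 hI l hl e1 e2 k hk hD

end Pool.Agent.Work.MP_c6c039_lc.FP
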