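import Pool.Agent.Work.MP_c6c039_lc.FP.StmtsG

/-!
# Block FP, item P3 (helper37): parity of the crossings of a segment with a polygonal path
-/

set_option autoImplicit false

namespace Pool.Agent.Work.MP_c6c039_lc.FP

open Pool.Agent.PT

namespace IP3

theorem ds_sub {I : In} {l l' : List ℕ} (h : Ds I l) (hn : l'.Nodup) (hs : ∀ a ∈ l', a ∈ l) :
    Ds I l' := ⟨hn, fun a ha => h.2 a (hs a ha)⟩

/-- one step: the triangle `b d z` and the segment `a c` -/
theorem step (hXt : St_Xt) (hCs : St_Cs) (hT5 : St_T5) (I : In) (hI : CH I) (a c b d z : ℕ)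
    (h : Ds I [a, c, b, d, z]) (ha : ext I a = true) (hc : ext I c = true) :
    xor (cr I a c b d) (cr I a c d z) = cr I a c b z := by
  obtain ⟨hn, hl⟩ := h
  have hal : a < nn I := hl a (by simp)
  have hcl : c < nn I := hl c (by simp)
  have hbl : b < nn I := hl b (by simp)
  have hdl : d < nn I := hl d (by simp)
  have hzl : z < nn I := hl z (by simp)
  simp only [List.nodup_cons, List.mem_cons, List.not_mem_nil, or_false, not_or, not_false_iff,
    List.nodup_nil, and_true] at hn
  obtain ⟨⟨hac, hab, had, haz⟩, ⟨hcb, hcd, hcz⟩, ⟨hbd, hbz⟩, hdz⟩ := hn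
  have mk4 : ∀ x y u v : ℕ, x ≠ y → x ≠ u → x ≠ v → y ≠ u → y ≠ v → u ≠ v → x < nn I → y < nn I →
      u < nn I → v < nn I → Ds I [x, y, u, v] := by
    intro x y u v h1 h2 h3 h4 h5 h6 l1 l2 l3 l4
    refine ⟨?_, ?_⟩
    · simp only [List.nodup_cons, List.mem_cons, List.not_mem_nil, or_false, not_or,
        not_false_iff, List.nodup_nil, and_true]
      exact ⟨⟨h1, h2, h3⟩, ⟨h4, h5⟩, h6⟩
    · intro w hw
      simp only [List.mem_cons, List.not_mem_nil, or_false] at hw
      rcases hw with rfl | rfl | rfl | rfl <;> assumption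
  have t5 := hT5 I hI b d z a c ⟨by
      simp only [List.nodup_cons, List.mem_cons, List.not_mem_nil, or_false, not_or,
        not_false_iff, List.nodup_nil, and_true]
      exact ⟨⟨hbd, hbz, Ne.symm hab, Ne.symm hcb⟩, ⟨hdz, Ne.symm had, Ne.symm hcd⟩,
        ⟨Ne.symm haz, Ne.symm hcz⟩, hac⟩, by
      intro w hw
      simp only [List.mem_cons, List.not_mem_nil, or_false] at hw
      rcases hw with rfl | rfl | rfl | rfl | rfl <;> assumption⟩
  have ia : inT I b d z a = false :=
    (hXt I a hal).1 ha b d z (mk4 b d z a hbd hbz (Ne.symm hab) hdz (Ne.symm had) (Ne.symm haz)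
      hbl hdl hzl hal)
  have ic : inT I b d z c = false :=
    (hXt I c hcl).1 hc b d z (mk4 b d z c hbd hbz (Ne.symm hcb) hdz (Ne.symm hcd) (Ne.symm hcz)
      hbl hdl hzl hcl)
  have e1 : cr I b d a c = cr I a c b d :=
    (hCs I hI a c b d (mk4 a c b d hac hab had hcb hcd hbd hal hcl hbl hdl)).2.2
  have e2 : cr I d z a c = cr I a c d z :=
    (hCs I hI a c d z (mk4 a c d z hac had haz hcd hcz hdz hal hcl hdl hzl)).2.2
  have e3 : cr I z b a c = cr I a c z b :=
    (hCs I hI a c z b (mk4 a c z b hac haz hab hcz hcb (Ne.symm hbz) hal hcl hzl hbl)).2.2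
  have e4 : cr I a c z b = cr I a c b z :=
    (hCs I hI a c b z (mk4 a c b z hac hab haz hcb hcz hbz hal hcl hbl hzl)).2.1
  rw [ia, ic, e1, e2, e3, e4] at t5
  revert t5
  cases cr I a c b d <;> cases cr I a c d z <;> cases cr I a c b z <;> simp

end IP3

open IP3 in
/-- Item P3. -/
theorem pr_P3 (hXt : St_Xt) (hCs : St_Cs) (hT5 : St_T5) : St_P3 := by
  intro I hI a c l
  induction l with
  | nil => intro h; simp at h
  | cons b l ih =>
    intro hl hd ha hc
    match l, hl, hd, ih with
    | [], hl, _, _ => simp at hl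
    | [d], _, _, _ => simp [crP]
    | d :: e :: l', _, hd, ih =>
      have hd' : Ds I (a :: c :: d :: e :: l') := by
        refine ds_sub hd ?_ ?_
        · have := hd.1
          simp only [List.nodup_cons, List.mem_cons, not_or] at this ⊢
          tauto
        · intro w hw
          simp only [List.mem_cons] at hw ⊢
          tauto
      have h1 := ih (by simp) hd' ha hc
      have h2 : crP I a c (b :: d :: e :: l') = xor (cr I a c b d) (crP I a c (d :: e :: l')) := rfl
      have hlast : (b :: d :: e :: l').getD ((b :: d :: e :: l').length - 1) 0 =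
          (d :: e :: l').getD ((d :: e :: l').length - 1) 0 := by
        simp only [List.length_cons]
        rfl
      rw [h2, h1, hlast]
      have hz : (d :: e :: l').getD ((d :: e :: l').length - 1) 0 ∈ e :: l' := by
        have h3 : (d :: e :: l').getD ((d :: e :: l').length - 1) 0 =
            (e :: l').getD l'.length 0 := by
          simp only [List.length_cons]
          rfl
        rw [h3, List.getD_eq_getElem _ _ (by simp)]
        exact List.getElem_mem _
      generalize (d :: e :: l').getD ((d :: e :: l').length - 1) 0 = z at hz ⊢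
      show xor (cr I a c b d) (cr I a c d z) = cr I a c b z
      refine step hXt hCs hT5 I hI a c b d z ?_ ha hc
      have hn := hd.1
      simp only [List.nodup_cons, List.mem_cons, not_or] at hn
      refine ⟨?_, ?_⟩
      · simp only [List.mem_cons] at hz
        simp only [List.nodup_cons, List.mem_cons, List.not_mem_nil, or_false, not_or,
          not_false_iff, List.nodup_nil, and_true]
        obtain ⟨⟨q1, q2, q3, q4, q5⟩, ⟨q6, q7, q8, q9⟩, ⟨q10, q11, q12⟩, ⟨q13, q14⟩, -⟩ := hn
        rcases hz with rfl | hz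
        · exact ⟨⟨q1, q2, q3, q4⟩, ⟨q6, q7, q8⟩, ⟨q10, q11⟩, q13⟩
        · exact ⟨⟨q1, q2, q3, fun h => q5 (h ▸ hz)⟩, ⟨q6, q7, fun h => q9 (h ▸ hz)⟩,
            ⟨q10, fun h => q12 (h ▸ hz)⟩, fun h => q14 (h ▸ hz)⟩
      · intro w hw
        apply hd.2
        simp only [List.mem_cons, List.not_mem_nil, or_false] at hw ⊢ hz
        rcases hw with rfl | rfl | rfl | rfl | rfl <;> tauto

end Pool.Agent.Work.MP_c6c039_lc.FP
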