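import Pool.Agent.Work.MP_c6c039_lc.FP.StmtsE

/-!
# Block FP, item PA (helper76): running time of `ans`
-/

set_option autoImplicit false

namespace Pool.Agent.Work.MP_c6c039_lc.FP

open Pool.Agent.PT Turing N487b59b3

theorem pr_PA (hPL : St_PL) : St_PA := by
  unfold St_PA St_PL at *
  unfold ans nn
  fun_prop

end Pool.Agent.Work.MP_c6c039_lc.FP
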