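import Pool.Agent.Work.MP_c6c039_lc.FP.StmtsE

/-!
# Block FP, item PE: reading the code of an instance
-/

set_option autoImplicit false

namespace Pool.Agent.Work.MP_c6c039_lc.FP

open Pool.Agent.PT Turing N487b59b3

namespace IPE

theorem pPt_eq (p : ℚ × ℚ) :
    pPt (bitEncode p) = (MP_5296b6_lc.repQ p.1, MP_5296b6_lc.repQ p.2) := by
  unfold pPt
  rw [MP_5296b6_lc.pPair_eq, MP_5296b6_lc.pQ_eq, MP_5296b6_lc.pQ_eq]

theorem map_eq (l : List (ℚ × ℚ)) : (MP_5296b6_lc.pList (bitEncode l)).map pPt =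
    l.map (fun p => (MP_5296b6_lc.repQ p.1, MP_5296b6_lc.repQ p.2)) := by
  rw [MP_5296b6_lc.pList_eq, List.map_map]
  exact List.map_congr_left fun p _ => pPt_eq p

end IPE

theorem pr_PE : St_PE := by
  intro I
  unfold pIn
  rw [MP_5296b6_lc.pPair_eq, IPE.map_eq, IPE.map_eq]

end Pool.Agent.Work.MP_c6c039_lc.FP
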