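import Pool.Agent.Work.MP_c6c039_lc.FP.StmtsE

/-!
# Block FP, item PF: the time for reading an instance
-/

set_option autoImplicit false

namespace Pool.Agent.Work.MP_c6c039_lc.FP

open Pool.Agent.PT Turing N487b59b3

theorem pr_PF (hPP : St_PP) (hPO : St_PO) : St_PF := by
  have h1 : PTF (fun x : List Bool => (pIn x).1) := PTF.fst.comp hPP
  have h2 : PTF (fun x : List Bool => (pIn x).2) := PTF.snd.comp hPP
  have h3 : PTF (fun x : List Bool => orT ((pIn x).1 ++ (pIn x).2)) := by
    have h : PTF (fun x : List Bool => (pIn x).1 ++ (pIn x).2) := by fun_prop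
    exact PTF.comp hPO h
  have h4 : PTF (fun x : List Bool =>
      List.replicate (pIn x).1.length true ++ List.replicate (pIn x).2.length false) := by
    fun_prop
  exact ptf_mkIn (f := fun x : List Bool => (orT ((pIn x).1 ++ (pIn x).2),
    List.replicate (pIn x).1.length true ++ List.replicate (pIn x).2.length false)) (by fun_prop)

end Pool.Agent.Work.MP_c6c039_lc.FP
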