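import Pool.Agent.Work.MP_c6c039_lc.FP.StmtsE

/-!
# Block FP, item PL: the bounded layers are computed in polynomial time
-/

set_option autoImplicit false

namespace Pool.Agent.Work.MP_c6c039_lc.FP

open Pool.Agent.PT

namespace IPL

/-- one step of the bounded search -/
def stp (p : (In × ℕ) × List St) : List St :=
  (dd (p.2.flatMap fun s => nx p.1.1 s)).take (cap p.1.1 p.1.2)

theorem ptf_stp (hPd : St_Pd) : PTF stp := by
  have h1 : PTF (fun p : (In × ℕ) × List St => p.2.flatMap fun s => nx p.1.1 s) := by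
    fun_prop
  have h2 : PTF (fun p : (In × ℕ) × List St => dd (p.2.flatMap fun s => nx p.1.1 s)) :=
    PTF.comp (f := fun l : List St => dd l) hPd h1
  have h3 : PTF (fun p : (In × ℕ) × List St => cap p.1.1 p.1.2) := by
    fun_prop
  exact PTF.take h2 h3

theorem size_le {β : Type} [Enc β] (W : ℕ) : ∀ l : List β, (∀ s ∈ l, sz s ≤ W) →
    sz l ≤ 1 + l.length * (W + 1) := by
  intro l
  induction l with
  | nil => intro _; rw [sz_nil]; omega
  | cons a l ih =>
    intro h
    have h1 := ih (fun s hs => h s (List.mem_cons_of_mem _ hs))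
    have h2 := h a List.mem_cons_self
    rw [sz_cons, List.length_cons, Nat.succ_mul]
    omega

theorem iter_eq (p : In × ℕ) (t : ℕ) :
    (fun s => stp (p, s))^[t] ((L0 p.1).take (cap p.1 p.2)) = layB p.1 p.2 t := rfl

theorem length_layB (I : In) (M t : ℕ) : (layB I M t).length ≤ cap I M := by
  cases t with
  | zero =>
    change ((L0 I).take (cap I M)).length ≤ _
    rw [List.length_take]
    exact min_le_left _ _
  | succ t =>
    unfold layB
    rw [Function.iterate_succ_apply', List.length_take]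
    exact min_le_left _ _

end IPL

theorem pr_PL (hPd : St_Pd) (hIv : St_Iv) (hSz : St_Sz) : St_PL := by
  obtain ⟨S, hS, hSz⟩ := hSz
  have hn : PTF (fun p : In × ℕ => nn p.1) := by fun_prop
  have hi : PTF (fun p : In × ℕ => (L0 p.1).take (cap p.1 p.2)) := by
    have h1 : PTF (fun p : In × ℕ => L0 p.1) := by fun_prop
    have h2 : PTF (fun p : In × ℕ => cap p.1 p.2) := by fun_prop
    exact PTF.take h1 h2
  have hc : PB (fun p : In × ℕ => cap p.1 p.2) := by
    have h2 : PTF (fun p : In × ℕ => cap p.1 p.2) := by fun_prop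
    refine h2.size.mono (fun p => ?_)
    rw [sz_nat]
    omega
  have hB : PB (fun p : In × ℕ => 1 + cap p.1 p.2 * (S p.1 + 1)) :=
    (PB.const 1).add (hc.mul ((PB.fst hS).add (PB.const 1)))
  refine PTF.congr (PTF.nat_iterate (n := fun p : In × ℕ => nn p.1)
    (init := fun p : In × ℕ => (L0 p.1).take (cap p.1 p.2)) (step := IPL.stp) hn hi
    (IPL.ptf_stp hPd) _ hB (fun p t ht => ?_)) (fun p => IPL.iter_eq p _)
  rw [IPL.iter_eq p t]
  refine (IPL.size_le (S p.1) _ (fun s hs => hSz p.1 t s ht (hIv p.1 p.2 t s ht hs))).trans ?_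
  exact Nat.add_le_add_left (Nat.mul_le_mul_right _ (IPL.length_layB p.1 p.2 t)) 1

end Pool.Agent.Work.MP_c6c039_lc.FP
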