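import Pool.Agent.Work.MP_c6c039_lc.FP.StmtsE

/-!
# Block FP, item PO: the table of orientations is computable in polynomial time
-/

set_option autoImplicit false

namespace Pool.Agent.Work.MP_c6c039_lc.FP

open Pool.Agent.PT

namespace IPO

variable {α : Type} [Enc α]

lemma qx {L : α → List PQ} {i : α → ℕ} (hL : PTF L) (hi : PTF i) :
    MP_5296b6_lc.QF (fun p => xq (L p) (i p)) :=
  MP_5296b6_lc.QF.of_BQ
    (φ := fun p => ((L p).getD (i p) ((([], []), []), (([], []), []))).1)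
    (PTF.fst.comp (PTF.getD hL hi (PTF.const _)))

lemma qy {L : α → List PQ} {i : α → ℕ} (hL : PTF L) (hi : PTF i) :
    MP_5296b6_lc.QF (fun p => yq (L p) (i p)) :=
  MP_5296b6_lc.QF.of_BQ
    (φ := fun p => ((L p).getD (i p) ((([], []), []), (([], []), []))).2)
    (PTF.snd.comp (PTF.getD hL hi (PTF.const _)))

lemma qar {L : α → List PQ} {i j k : α → ℕ} (hL : PTF L) (hi : PTF i) (hj : PTF j)
    (hk : PTF k) : MP_5296b6_lc.QF (fun p => arq (L p) (i p) (j p) (k p)) :=
  (((qx hL hj).sub (qx hL hi)).mul ((qy hL hk).sub (qy hL hi))).sub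
    (((qy hL hj).sub (qy hL hi)).mul ((qx hL hk).sub (qx hL hi)))

lemma dec : PTF (fun p : ((List PQ × ℕ) × ℕ) × ℕ =>
    decide (0 < arq p.1.1.1 p.1.1.2 p.1.2 p.2)) := by
  have hL : PTF (fun p : ((List PQ × ℕ) × ℕ) × ℕ => p.1.1.1) :=
    PTF.fst.comp (PTF.fst.comp PTF.fst)
  have hi : PTF (fun p : ((List PQ × ℕ) × ℕ) × ℕ => p.1.1.2) :=
    PTF.snd.comp (PTF.fst.comp PTF.fst)
  have hj : PTF (fun p : ((List PQ × ℕ) × ℕ) × ℕ => p.1.2) := PTF.snd.comp PTF.fst
  have hk : PTF (fun p : ((List PQ × ℕ) × ℕ) × ℕ => p.2) := PTF.snd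
  have h1 := qar hL hi hj hk
  have h2 := (MP_5296b6_lc.QF.const 0).lt h1
  exact h2.ptf

end IPO

theorem pr_PO : St_PO := by
  have h3 : PTF (fun p : (List PQ × ℕ) × ℕ => (List.range p.1.1.length).map fun c =>
      decide (0 < arq p.1.1 p.1.2 p.2 c)) :=
    PTF.map' (f := fun (p : (List PQ × ℕ) × ℕ) (c : ℕ) => decide (0 < arq p.1.1 p.1.2 p.2 c))
      (l := fun p : (List PQ × ℕ) × ℕ => List.range p.1.1.length) IPO.dec (by fun_prop)
  have h2 : PTF (fun p : List PQ × ℕ => (List.range p.1.length).map fun b =>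
      (List.range p.1.length).map fun c => decide (0 < arq p.1 p.2 b c)) :=
    PTF.map' (f := fun (p : List PQ × ℕ) (b : ℕ) =>
        (List.range p.1.length).map fun c => decide (0 < arq p.1 p.2 b c))
      (l := fun p : List PQ × ℕ => List.range p.1.length) h3 (by fun_prop)
  exact PTF.map' (f := fun (l : List PQ) (a : ℕ) => (List.range l.length).map fun b =>
      (List.range l.length).map fun c => decide (0 < arq l a b c))
    (l := fun l : List PQ => List.range l.length) h2 (by fun_prop)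

end Pool.Agent.Work.MP_c6c039_lc.FP
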