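import Pool.Agent.Work.MP_c6c039_lc.FP.StmtsE

/-!
MP_c6c039_lc, block FP, item PP: reading an instance in polynomial time.
-/

set_option autoImplicit false

namespace Pool.Agent.Work.MP_c6c039_lc.FP

open Pool.Agent.PT Turing N487b59b3

/-- **PP.** -/
theorem pr_PP : St_PP := by
  have hP : PTF MP_5296b6_lc.pPair :=
    PTF.optionGetD MP_5296b6_lc.claimUndelimit.1 (PTF.const _)
  have hL : PTF MP_5296b6_lc.pList :=
    PTF.optionGetD MP_5296b6_lc.claimUndelimit.2 (PTF.const _)
  have hP1 : PTF (fun x : List Bool => (MP_5296b6_lc.pPair x).1) := PTF.fst.comp hP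
  have hP2 : PTF (fun x : List Bool => (MP_5296b6_lc.pPair x).2) := PTF.snd.comp hP
  have hQ : PTF MP_5296b6_lc.pQ := (hP.comp hP1).pair hP2
  have hPt : PTF pPt := (hQ.comp hP1).pair (hQ.comp hP2)
  have hLP : PTF (fun x : List Bool => (MP_5296b6_lc.pList x).map pPt) :=
    PTF.map' (f := fun (_ : List Bool) y => pPt y) (hPt.comp PTF.snd) hL
  exact (hLP.comp hP1).pair (hLP.comp hP2)

end Pool.Agent.Work.MP_c6c039_lc.FP
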