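import Pool.Agent.Work.MP_c6c039_lc.FP.StmtsE

/-! # Block FP, item Pd -/

set_option autoImplicit false

namespace Pool.Agent.Work.MP_c6c039_lc.FP

open Pool.Agent.PT

namespace IPd

theorem size {β : Type} [Enc β] [DecidableEq β] (l : List β) : ∀ acc : List β,
    sz (l.foldl (fun s b => if b ∈ s then s else b :: s) acc) + 1 ≤ sz acc + sz l := by
  induction l with
  | nil => intro acc; rw [List.foldl_nil, sz_nil]
  | cons b l ih =>
    intro acc
    rw [List.foldl_cons, sz_cons]
    have h1 := ih (if b ∈ acc then acc else b :: acc)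
    have h2 : sz (if b ∈ acc then acc else b :: acc) ≤ sz acc + sz b + 1 := by
      split_ifs
      · omega
      · rw [sz_cons]; omega
    omega

theorem gen {β : Type} [Enc β] [DecidableEq β] :
    PTF (fun l : List β => l.foldl (fun s b => if b ∈ s then s else b :: s) []) := by
  refine PTF.foldl (α := List β) (β := β) (σ := List β) (l := fun l => l)
    (init := fun _ => []) (step := fun p => if p.2.2 ∈ p.2.1 then p.2.1 else p.2.2 :: p.2.1)
    PTF.id (PTF.const _) (by fun_prop) (fun l => sz l) PTF.id.size ?_
  intro a l1 l2 hl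
  have h1 := size l1 []
  have h2 := sz_append l1 l2
  have h3 := sz_pos l2
  rw [sz_nil] at h1
  rw [← hl] at h2
  simp only
  omega

end IPd

theorem pr_Pd : St_Pd := by
  have h := @IPd.gen FP.St _ (Classical.decEq _)
  refine h.congr (fun l => ?_)
  unfold dd
  congr 1
  funext s b
  by_cases hb : b ∈ s
  · rw [if_pos hb, if_pos hb]
  · rw [if_neg hb, if_neg hb]

end Pool.Agent.Work.MP_c6c039_lc.FP
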