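import Pool.Agent.Work.MP_c6c039_lc.FP.StmtsD

/-!
# Block FP, item Rn: invariants of a run
-/

set_option autoImplicit false

namespace Pool.Agent.Work.MP_c6c039_lc.FP

open Pool.Agent.PT

namespace IRn

theorem mem_vis (l : List V) (a : ℕ) (h : ((false, a) : V) ∈ l) : a ∈ vis l := by
  unfold vis
  rw [List.mem_map]
  exact ⟨(false, a), by rw [List.mem_filter]; exact ⟨h, rfl⟩, rfl⟩

theorem pt_true (I : In) (x : ℕ) : pt I (true, x) = hp I x := by simp [pt]

theorem pt_false (I : In) (a : ℕ) : pt I (false, a) = a := by simp [pt]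

theorem pt_of_true (I : In) (v : V) (h : v.1 = true) : pt I v = hp I v.2 := by simp [pt, h]

theorem pt_of_false (I : In) (v : V) (h : v.1 = false) : pt I v = v.2 := by simp [pt, h]

theorem mem_cand (I : In) (q : ℕ × ℕ) (l : List V) (v : V) (h : v ∈ candF I q l) :
    (q.2 - q.1 < mm I ∧ (v = (true, q.2) ∨ v = (true, q.1 - 1))) ∨
      ∃ a, a ∈ it I ∧ a ∉ vis l ∧ v = (false, a) := by
  unfold candF at h
  rw [List.mem_append] at h
  rcases h with h | h
  · left
    split at h
    · rename_i hlt
      refine ⟨hlt, ?_⟩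
      simp only [List.mem_cons, List.not_mem_nil, or_false] at h
      exact h
    · simp at h
  · right
    rw [List.mem_map] at h
    obtain ⟨a, ha, hv⟩ := h
    rw [List.mem_filter] at ha
    refine ⟨a, ha.1, ?_, hv.symm⟩
    have := ha.2
    simpa using this

theorem int_ne (I : In) (hC : HC I) (a x : ℕ) (ha : a ∈ it I) : hp I x ≠ a := by
  intro h
  have h1 := hC.ex x
  rw [h, ((hC.int a).1 ha).2] at h1
  exact absurd h1 (by simp)

theorem step_hull (I : In) (hC : HC I) (q : ℕ × ℕ) (l : List V) (h : RI I q l) (y : ℕ)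
    (q' : ℕ × ℕ) (hlt : q.2 - q.1 < mm I)
    (hy : (y = q.2 ∧ q' = (q.1, q.2 + 1)) ∨ (y + 1 = q.1 ∧ q' = (y, q.2))) :
    RI I q' ((true, y) :: l) := by
  have hle := h.le
  have hlow := h.low
  have hhigh := h.high
  have hnm : ((true, y) : V) ∉ l := by
    intro hm
    have h1 := h.hull _ hm rfl
    simp only at h1
    omega
  have hpn : pt I (true, y) ∉ l.map (pt I) := by
    rw [List.mem_map]
    rintro ⟨u, hu, he⟩
    rw [pt_true] at he
    rcases hb : u.1 with _ | _
    · rw [pt_of_false I u hb] at he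
      exact int_ne I hC u.2 y (h.int u hu hb) he.symm
    · rw [pt_of_true I u hb] at he
      have h1 := h.hull u hu hb
      rcases hy with ⟨rfl, -⟩ | ⟨hy, -⟩
      · exact hC.inj u.2 q.2 (by omega) (by omega) he
      · exact hC.inj y u.2 (by omega) (by omega) he.symm
  have hq : q'.1 ≤ y ∧ y < q'.2 ∧ q'.1 ≤ q.1 ∧ q.2 ≤ q'.2 ∧ q'.2 - q'.1 ≤ mm I ∧
      (y = q'.1 ∨ y + 1 = q'.2) ∧ ∀ x, q'.1 ≤ x → x < q'.2 → x = y ∨ (q.1 ≤ x ∧ x < q.2) := by
    rcases hy with ⟨rfl, rfl⟩ | ⟨hy, rfl⟩
    · refine ⟨hle, ?_, le_rfl, ?_, ?_, Or.inr rfl, ?_⟩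
      · simp
      · simp
      · simp only
        omega
      · intro x h1 h2
        simp only at h1 h2
        omega
    · refine ⟨le_rfl, ?_, ?_, le_rfl, ?_, Or.inl rfl, ?_⟩
      · simp only
        omega
      · simp only
        omega
      · simp only
        omega
      · intro x h1 h2
        simp only at h1 h2
        omega
  obtain ⟨q1, q2, q3, q4, q5, q6, q7⟩ := hq
  constructor
  · omega
  · exact q5
  · omega
  · omega
  · intro v hv hb
    rw [List.mem_cons] at hv
    rcases hv with rfl | hv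
    · exact ⟨q1, q2⟩
    · have h1 := h.hull v hv hb
      omega
  · intro x h1 h2
    rcases q7 x h1 h2 with rfl | ⟨h3, h4⟩
    · exact List.mem_cons_self ..
    · exact List.mem_cons_of_mem _ (h.all x h3 h4)
  · intro v hv hb
    rw [List.mem_cons] at hv
    rcases hv with rfl | hv
    · simp at hb
    · exact h.int v hv hb
  · exact List.nodup_cons.2 ⟨hnm, h.nodup⟩
  · rw [List.map_cons]
    exact List.nodup_cons.2 ⟨hpn, h.ptn⟩
  · intro v hv
    rw [List.mem_cons] at hv
    rcases hv with rfl | hv
    · rw [pt_true]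
      exact hC.lt y
    · exact h.lt v hv
  · intro w r hw hb
    have h1 : (true, y) = w := (List.cons.inj hw).1
    subst h1
    exact q6

theorem step_int (I : In) (hC : HC I) (q : ℕ × ℕ) (l : List V) (h : RI I q l) (a : ℕ)
    (ha : a ∈ it I) (hv : a ∉ vis l) : RI I q ((false, a) :: l) := by
  have hnm : ((false, a) : V) ∉ l := fun hm => hv (mem_vis l a hm)
  have hpn : pt I (false, a) ∉ l.map (pt I) := by
    rw [List.mem_map]
    rintro ⟨u, hu, he⟩
    rw [pt_false] at he
    rcases hb : u.1 with _ | _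
    · rw [pt_of_false I u hb] at he
      apply hnm
      have : u = (false, a) := Prod.ext hb he
      rw [← this]
      exact hu
    · rw [pt_of_true I u hb] at he
      exact int_ne I hC a u.2 ha he
  constructor
  · exact h.le
  · exact h.len
  · exact h.low
  · exact h.high
  · intro v hv hb
    rw [List.mem_cons] at hv
    rcases hv with rfl | hv
    · simp at hb
    · exact h.hull v hv hb
  · intro x h1 h2
    exact List.mem_cons_of_mem _ (h.all x h1 h2)
  · intro v hv hb
    rw [List.mem_cons] at hv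
    rcases hv with rfl | hv
    · exact ha
    · exact h.int v hv hb
  · exact List.nodup_cons.2 ⟨hnm, h.nodup⟩
  · rw [List.map_cons]
    exact List.nodup_cons.2 ⟨hpn, h.ptn⟩
  · intro v hv
    rw [List.mem_cons] at hv
    rcases hv with rfl | hv
    · rw [pt_false]
      exact ((hC.int a).1 ha).1
    · exact h.lt v hv
  · intro w r hw hb
    have h1 : (false, a) = w := (List.cons.inj hw).1
    subst h1
    simp at hb

end IRn

theorem pr_Rn : St_Rn := by
  intro I _ hC q l hR
  induction hR with
  | nil x h1 h2 =>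
    constructor
    · exact le_rfl
    · simp
    · exact h1
    · exact h2
    · intro v hv
      simp at hv
    · intro y h3 h4
      simp only at h3 h4
      omega
    · intro v hv
      simp at hv
    · exact List.nodup_nil
    · exact List.nodup_nil
    · intro v hv
      simp at hv
    · intro w r hw
      simp at hw
  | cons q l v _ h2 _ ih =>
    rcases IRn.mem_cand I q l v h2 with ⟨hlt, h | h⟩ | ⟨a, ha, hav, rfl⟩
    · subst h
      have hn : nA q (true, q.2) = (q.1, q.2 + 1) := by simp [nA]
      rw [hn]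
      exact IRn.step_hull I hC q l ih q.2 _ hlt (Or.inl ⟨rfl, rfl⟩)
    · subst h
      have hlow := ih.low
      have hle := ih.le
      have hne : ¬ (q.1 - 1 = q.2) := by omega
      have hn : nA q (true, q.1 - 1) = (q.1 - 1, q.2) := by simp [nA, hne]
      rw [hn]
      exact IRn.step_hull I hC q l ih (q.1 - 1) _ hlt (Or.inr ⟨by omega, rfl⟩)
    · have hn : nA q (false, a) = q := by simp [nA]
      rw [hn]
      exact IRn.step_int I hC q l ih a ha hav

end Pool.Agent.Work.MP_c6c039_lc.FP
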