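import Pool.Agent.Work.MP_c6c039_lc.FP.StmtsC

/-!
# Block FP, item Rt: the tables under enlargement of the arc
-/

set_option autoImplicit false

namespace Pool.Agent.Work.MP_c6c039_lc.FP

open Pool.Agent.PT

namespace IRt

lemma right (I : In) (c : ℕ × ℕ) (x B : ℕ) (h : x ≤ B) : stR I c x (B + 1) =
    (stR I c x B && (chi I c.1 c.2 (hp I B) == chi I c.1 c.2 (hp I x))) := by
  have h1 : B + 1 - x = (B - x) + 1 := by omega
  have h2 : x + (B - x) = B := by omega
  unfold stR
  rw [h1, List.range_succ, List.all_append, List.all_cons, List.all_nil, Bool.and_true, h2]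

lemma left (I : In) (c : ℕ × ℕ) (A x : ℕ) (h1 : 1 ≤ A) (h2 : A ≤ x) : stL I c (A - 1) x =
    (stL I c A x && (chi I c.1 c.2 (hp I (A - 1)) == chi I c.1 c.2 (hp I x))) := by
  have h3 : x - (A - 1) = (x - A) + 1 := by omega
  have h4 : ∀ i, A - 1 + (i + 1) = A + i := fun i => by omega
  have h5 : ((List.range (x - A)).map Nat.succ).all
        (fun i => chi I c.1 c.2 (hp I (A - 1 + i)) == chi I c.1 c.2 (hp I x)) =
      (List.range (x - A)).all
        (fun i => chi I c.1 c.2 (hp I (A + i)) == chi I c.1 c.2 (hp I x)) := by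
    rw [List.all_map]
    congr 1
    funext i
    show (chi I c.1 c.2 (hp I (A - 1 + (i + 1))) == chi I c.1 c.2 (hp I x)) = _
    rw [h4]
  unfold stL
  rw [h3, List.range_succ_eq_map, List.all_cons, h5, Nat.add_zero, Bool.and_comm]

end IRt

theorem pr_Rt : St_Rt := fun I c =>
  ⟨fun x B h => IRt.right I c x B h, fun A x h1 h2 => IRt.left I c A x h1 h2⟩

end Pool.Agent.Work.MP_c6c039_lc.FP
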