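import Pool.Agent.Work.MP_c6c039_lc.FP.StmtsE

/-!
# Block FP, item SI: paths of numbers and paths of points
-/

set_option autoImplicit false

namespace Pool.Agent.Work.MP_c6c039_lc.FP

open Pool.Agent.PT Turing N487b59b3

namespace ISI

/-- the four Booleans of a crossing -/
theorem cr_iff {c1 c2 c3 c4 : Bool} {P1 P2 P3 P4 : Prop} (h1 : c1 = true ↔ P1)
    (h2 : c2 = true ↔ P2) (h3 : c3 = true ↔ P3) (h4 : c4 = true ↔ P4) :
    (!(c1 == c2) && !(c3 == c4)) = false ↔ ¬ (¬ (P1 ↔ P2) ∧ ¬ (P3 ↔ P4)) := by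
  rw [← h1, ← h2, ← h3, ← h4]
  revert c1 c2 c3 c4
  intro c1 c2 c3 c4 _ _ _ _
  cases c1 <;> cases c2 <;> cases c3 <;> cases c4 <;> simp

/-- colours -/
theorem co_iff {b c : Bool} {P Q P1 P2 Q1 Q2 : Prop} (hb : b = true ↔ P) (hc : c = true ↔ Q)
    (h1 : P1 ↔ P) (h2 : P2 ↔ ¬ P) (h3 : Q1 ↔ Q) (h4 : Q2 ↔ ¬ Q) :
    b ≠ c ↔ (P1 ∧ Q2 ∨ P2 ∧ Q1) := by
  rw [h1, h2, h3, h4, ← hb, ← hc]
  cases b <;> cases c <;> simp

theorem isPath_map {R B : Finset (ℝ × ℝ)} (p : List ℕ) (f : ℕ → ℝ × ℝ) :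
    IsPath R B (p.map f) ↔ (p.map f).Nodup ∧ (∀ q, q ∈ p.map f ↔ q ∈ R ∪ B) ∧
      (∀ i, i + 1 < p.length → (f (p.getD i 0) ∈ R ∧ f (p.getD (i + 1) 0) ∈ B ∨
        f (p.getD i 0) ∈ B ∧ f (p.getD (i + 1) 0) ∈ R)) ∧
      ∀ i j, i < j → j + 1 < p.length →
        segment ℝ (f (p.getD i 0)) (f (p.getD (i + 1) 0)) ∩
          segment ℝ (f (p.getD j 0)) (f (p.getD (j + 1) 0)) =
            if j = i + 1 then {f (p.getD j 0)} else ∅ := by
  have hlen : (p.map f).length = p.length := List.length_map ..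
  have hget : ∀ i (h : i < (p.map f).length), (p.map f)[i] = f (p.getD i 0) := by
    intro i h
    rw [List.getElem_map, List.getD_eq_getElem _ _ (by omega)]
  constructor
  · intro h
    refine ⟨h.nodup, h.span, ?_, ?_⟩
    · intro i hi
      have := h.alt i (by omega)
      rwa [hget, hget] at this
    · intro i j hij hj
      have := h.simp i j hij (by omega)
      rwa [hget, hget, hget, hget] at this
  · rintro ⟨h1, h2, h3, h4⟩
    refine ⟨h1, h2, ?_, ?_⟩
    · intro i hi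
      rw [hget, hget]
      exact h3 i (by omega)
    · intro i j hij hj
      rw [hget, hget, hget, hget]
      exact h4 i j hij (by omega)

end ISI

open ISI in
theorem pr_SI (hCT : St_CT) (hPI : St_PI) (hSX : St_SX) : St_SI := by
  intro I hI p hp
  obtain ⟨hnn, hchi, hco⟩ := hCT I
  obtain ⟨hinj, hspan, -, hR, hB, har⟩ := hPI I hI
  generalize full (bitEncode I) = F at hnn hchi hco ⊢
  have hgm : ∀ i, i < p.length → p.getD i 0 ∈ p := by
    intro i hi
    rw [List.getD_eq_getElem _ _ hi]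
    exact List.getElem_mem hi
  have hgn : ∀ i, i < p.length → p.getD i 0 < (I.1 ++ I.2).length := fun i hi => hp _ (hgm i hi)
  have hgi : p.Nodup → ∀ i j, i < p.length → j < p.length → i ≠ j → p.getD i 0 ≠ p.getD j 0 := by
    intro hnd i j hi hj hij h
    rw [List.getD_eq_getElem _ _ hi, List.getD_eq_getElem _ _ hj] at h
    exact hij ((List.Nodup.getElem_inj_iff hnd).1 h)
  have hcol : ∀ a b, a < (I.1 ++ I.2).length → b < (I.1 ++ I.2).length →
      (co F a ≠ co F b ↔ (pnt I a ∈ pts I.1 ∧ pnt I b ∈ pts I.2 ∨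
        pnt I a ∈ pts I.2 ∧ pnt I b ∈ pts I.1)) := fun a b ha hb =>
    co_iff (hco a ha) (hco b hb) (hR a ha) (hB a ha) (hR b hb) (hB b hb)
  have hcr : ∀ a b c d, a < (I.1 ++ I.2).length → b < (I.1 ++ I.2).length →
      c < (I.1 ++ I.2).length → d < (I.1 ++ I.2).length → a ≠ b → a ≠ c → a ≠ d → b ≠ c → b ≠ d →
      c ≠ d → (cr F a b c d = false ↔
        segment ℝ (pnt I a) (pnt I b) ∩ segment ℝ (pnt I c) (pnt I d) = ∅) := by
    intro a b c d ha hb hc hd h1 h2 h3 h4 h5 h6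
    rw [hSX _ _ _ _ (har a b c ha hb hc h1 h4 h2) (har a b d ha hb hd h1 h5 h3)
      (har c d a hc hd ha h6 h3.symm h2.symm) (har c d b hc hd hb h6 h5.symm h4.symm)]
    exact cr_iff (hchi a b c ha hb hc) (hchi a b d ha hb hd) (hchi c d a hc hd ha)
      (hchi c d b hc hd hb)
  have hnd : (p.map (pnt I)).Nodup ↔ p.Nodup := by
    constructor
    · exact List.Nodup.of_map _
    · intro h
      exact List.Nodup.map_on (fun x hx y hy => hinj x y (hp x hx) (hp y hy)) h
  have hsp : (∀ q, q ∈ p.map (pnt I) ↔ q ∈ pts I.1 ∪ pts I.2) ↔ ∀ i, i ∈ p ↔ i < nn F := by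
    rw [hnn]
    constructor
    · intro h i
      refine ⟨hp i, fun hi => ?_⟩
      have h1 := (h (pnt I i)).2 ((hspan _).2 ⟨i, hi, rfl⟩)
      obtain ⟨j, hj, hji⟩ := List.mem_map.1 h1
      rwa [hinj j i (hp j hj) hi hji] at hj
    · intro h q
      rw [List.mem_map, hspan]
      constructor
      · rintro ⟨i, hi, e⟩
        exact ⟨i, (h i).1 hi, e⟩
      · rintro ⟨i, hi, e⟩
        exact ⟨i, (h i).2 hi, e⟩
  rw [isPath_map, hnd, hsp]
  constructor
  · intro h
    refine ⟨h.nodup, h.span, ?_, ?_⟩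
    · intro i hi
      exact (hcol _ _ (hgn i (by omega)) (hgn (i + 1) hi)).1 (h.alt i hi)
    · intro i j hij hj
      have hne := hgi h.nodup
      by_cases hji : j = i + 1
      · subst hji
        rw [if_pos rfl]
        exact step_consecutive (har _ _ _ (hgn i (by omega)) (hgn (i + 1) (by omega)) (hgn _ hj)
          (hne _ _ (by omega) (by omega) (by omega)) (hne _ _ (by omega) (by omega) (by omega))
          (hne _ _ (by omega) (by omega) (by omega)))
      · rw [if_neg hji]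
        refine (hcr _ _ _ _ (hgn i (by omega)) (hgn (i + 1) (by omega)) (hgn j (by omega))
          (hgn (j + 1) hj) ?_ ?_ ?_ ?_ ?_ ?_).1 (h.nc i j (by omega) hj)
        all_goals exact hne _ _ (by omega) (by omega) (by omega)
  · rintro ⟨h1, h2, h3, h4⟩
    refine ⟨h1, h2, ?_, ?_⟩
    · intro i hi
      exact (hcol _ _ (hgn i (by omega)) (hgn (i + 1) hi)).2 (h3 i hi)
    · intro i j hij hj
      have hne := hgi h1
      have h5 := h4 i j (by omega) hj
      rw [if_neg (by omega)] at h5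
      refine (hcr _ _ _ _ (hgn i (by omega)) (hgn (i + 1) (by omega)) (hgn j (by omega))
        (hgn (j + 1) hj) ?_ ?_ ?_ ?_ ?_ ?_).2 h5
      all_goals exact hne _ _ (by omega) (by omega) (by omega)

end Pool.Agent.Work.MP_c6c039_lc.FP
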