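import Pool.Agent.Work.MP_c6c039_lc.FP.StmtsE

/-!
# [c6c039 FP SX] two segments
-/

set_option autoImplicit false

namespace Pool.Agent.Work.MP_c6c039_lc.FP

namespace ISX

theorem opp {u v : ℝ} (hu : u ≠ 0) (hv : v ≠ 0) (h : ¬ (0 < u ↔ 0 < v)) :
    (0 < u ∧ v < 0) ∨ (u < 0 ∧ 0 < v) := by
  rcases lt_or_gt_of_ne hu with h1 | h1
  · rcases lt_or_gt_of_ne hv with h2 | h2
    · exact absurd ⟨fun h3 => absurd h3 (not_lt.2 h1.le), fun h3 => absurd h3 (not_lt.2 h2.le)⟩ h
    · exact Or.inr ⟨h1, h2⟩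
  · rcases lt_or_gt_of_ne hv with h2 | h2
    · exact Or.inl ⟨h1, h2⟩
    · exact absurd ⟨fun _ => h2, fun _ => h1⟩ h

theorem coef {u v : ℝ} (h : (0 < u ∧ v < 0) ∨ (u < 0 ∧ 0 < v)) :
    0 ≤ -v / (u - v) ∧ 0 ≤ u / (u - v) ∧ -v / (u - v) + u / (u - v) = 1 := by
  rcases h with ⟨h1, h2⟩ | ⟨h1, h2⟩
  · have h3 : 0 < u - v := by linarith
    refine ⟨div_nonneg (by linarith) h3.le, div_nonneg h1.le h3.le, ?_⟩
    rw [← add_div, div_eq_one_iff_eq h3.ne']
    ring
  · have h3 : u - v < 0 := by linarith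
    refine ⟨div_nonneg_of_nonpos (by linarith) h3.le, div_nonneg_of_nonpos h1.le h3.le, ?_⟩
    rw [← add_div, div_eq_one_iff_eq h3.ne]
    ring

theorem mixed {u v s t : ℝ} (hs : 0 ≤ s) (ht : 0 ≤ t) (hst : s + t = 1) (hu : u ≠ 0) (hv : v ≠ 0)
    (h : s * u + t * v = 0) : ¬ (0 < u ↔ 0 < v) := by
  intro h1
  rcases lt_or_gt_of_ne hu with h2 | h2
  · have h3 : v < 0 := lt_of_le_of_ne (not_lt.1 fun h4 => absurd (h1.2 h4) (not_lt.2 h2.le)) hv
    rcases eq_or_lt_of_le hs with h4 | h4
    · have h5 : t = 1 := by linarith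
      rw [← h4, h5] at h
      linarith
    · nlinarith [mul_neg_of_pos_of_neg h4 h2, mul_nonpos_of_nonneg_of_nonpos ht h3.le]
  · have h3 : 0 < v := h1.1 h2
    rcases eq_or_lt_of_le hs with h4 | h4
    · have h5 : t = 1 := by linarith
      rw [← h4, h5] at h
      linarith
    · nlinarith [mul_pos h4 h2, mul_nonneg ht h3.le]

theorem lin (a b c d : ℝ × ℝ) {s t : ℝ} (hst : s + t = 1) :
    area a b (s • c + t • d) = s * area a b c + t * area a b d := by
  have h1 : s = 1 - t := by linarith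
  subst h1
  simp only [area, Prod.fst_add, Prod.snd_add, Prod.smul_fst, Prod.smul_snd, smul_eq_mul]
  ring

theorem zero (a b : ℝ × ℝ) {s t : ℝ} (hst : s + t = 1) : area a b (s • a + t • b) = 0 := by
  have h1 : s = 1 - t := by linarith
  subst h1
  simp only [area, Prod.fst_add, Prod.snd_add, Prod.smul_fst, Prod.smul_snd, smul_eq_mul]
  ring

theorem one (a b c d : ℝ × ℝ) (hc : area a b c ≠ 0) (hd : area a b d ≠ 0)
    (z : ℝ × ℝ) (h1 : z ∈ segment ℝ a b) (h2 : z ∈ segment ℝ c d) :
    ¬ (0 < area a b c ↔ 0 < area a b d) := by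
  obtain ⟨s, t, _, _, hst, rfl⟩ := h1
  obtain ⟨s', t', hs', ht', hst', h3⟩ := h2
  have h4 := zero a b hst
  rw [← h3, lin a b c d hst'] at h4
  exact mixed hs' ht' hst' hc hd h4

theorem dif (a b c d : ℝ × ℝ) :
    area c d a - area c d b = -(area a b c - area a b d) := by
  simp only [area]
  ring

theorem k1 (a b c d : ℝ × ℝ) : -area a b d * c.1 + area a b c * d.1 =
    area c d b * a.1 - area c d a * b.1 := by
  simp only [area]
  ring

theorem k2 (a b c d : ℝ × ℝ) : -area a b d * c.2 + area a b c * d.2 =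
    area c d b * a.2 - area c d a * b.2 := by
  simp only [area]
  ring

end ISX

open ISX in
theorem pr_SX : St_SX := by
  intro a b c d hc hd ha hb
  constructor
  · rintro hempty ⟨h1, h2⟩
    have o1 := opp hc hd h1
    have o2 := opp ha hb h2
    have hD : area a b c - area a b d ≠ 0 := by
      rcases o1 with ⟨h3, h4⟩ | ⟨h3, h4⟩
      · exact ne_of_gt (by linarith)
      · exact ne_of_lt (by linarith)
    obtain ⟨p1, p2, p3⟩ := coef o1
    obtain ⟨q1, q2, q3⟩ := coef o2
    have hz : (-area a b d / (area a b c - area a b d)) • c +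
        (area a b c / (area a b c - area a b d)) • d =
        (-area c d b / (area c d a - area c d b)) • a +
        (area c d a / (area c d a - area c d b)) • b := by
      rw [dif a b c d]
      apply Prod.ext
      · simp only [Prod.fst_add, Prod.smul_fst, smul_eq_mul]
        have h5 := k1 a b c d
        rw [div_neg, div_neg]
        field_simp
        linear_combination h5
      · simp only [Prod.snd_add, Prod.smul_snd, smul_eq_mul]
        have h5 := k2 a b c d
        rw [div_neg, div_neg]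
        field_simp
        linear_combination h5
    have hmem : (-area a b d / (area a b c - area a b d)) • c +
        (area a b c / (area a b c - area a b d)) • d ∈ segment ℝ a b ∩ segment ℝ c d := by
      refine ⟨?_, ⟨_, _, p1, p2, p3, rfl⟩⟩
      rw [hz]
      exact ⟨_, _, q1, q2, q3, rfl⟩
    rw [hempty] at hmem
    exact hmem
  · intro h
    rw [Set.eq_empty_iff_forall_notMem]
    rintro z ⟨h1, h2⟩
    exact h ⟨one a b c d hc hd z h1 h2, one c d a b ha hb z h2 h1⟩

end Pool.Agent.Work.MP_c6c039_lc.FP
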