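import Pool.Agent.Work.MP_c6c039_lc.FP.StmtsC

/-!
# Block FP, item Sc (helper22): the number of states
-/

set_option autoImplicit false

namespace Pool.Agent.Work.MP_c6c039_lc.FP

open Pool.Agent.PT

namespace ISc

theorem mem_vis {l : List V} {a : ℕ} (h : a ∈ vis l) : ∃ v ∈ l, v.1 = false ∧ v.2 = a := by
  unfold vis at h
  rw [List.mem_map] at h
  obtain ⟨v, hv, rfl⟩ := h
  rw [List.mem_filter] at hv
  refine ⟨v, hv.1, ?_, rfl⟩
  have := hv.2
  rcases hb : v.1 with _ | _
  · rfl
  · rw [hb] at this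
    simp at this

theorem vis_nodup {l : List V} (h : l.Nodup) : (vis l).Nodup := by
  unfold vis
  refine List.Nodup.map_on ?_ (h.filter _)
  intro x hx y hy hxy
  rw [List.mem_filter] at hx hy
  have h1 : x.1 = false := by
    have := hx.2
    rcases hb : x.1 with _ | _
    · rfl
    · rw [hb] at this
      simp at this
  have h2 : y.1 = false := by
    have := hy.2
    rcases hb : y.1 with _ | _
    · rfl
    · rw [hb] at this
      simp at this
  exact Prod.ext (h1.trans h2.symm) hxy

theorem vis_length {l : List V} {t : List ℕ} (h : l.Nodup) (hs : ∀ v ∈ l, v.1 = false → v.2 ∈ t) :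
    (vis l).length ≤ t.length := by
  have hsub : vis l ⊆ t := by
    intro a ha
    obtain ⟨v, hv, h1, rfl⟩ := mem_vis ha
    exact hs v hv h1
  exact (List.subperm_of_subset (vis_nodup h) hsub).length_le

theorem count (n m k a b c g : ℕ) (hmk : m + k = n) (ha : a ≤ 1 + 3 * m + k) (hb : b ≤ (k + 1) ^ k)
    (hg : g + 1 ≤ 2 ^ (2 * k + 3 * k ^ 2)) (hc : c ≤ (g + 1) ^ (2 * k)) :
    ((3 * n + 3) * (3 * n + 3)) * (a * (b * (c * 2))) ≤
      (3 * n + 3) ^ 3 * 2 ^ (20 * (k + 1) ^ 3) := by
  have h1 : a ≤ 3 * n + 3 := by omega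
  have h2 : b ≤ 2 ^ (k ^ 2) := by
    refine hb.trans ?_
    have h3 : k + 1 ≤ 2 ^ k := Nat.lt_two_pow_self
    calc (k + 1) ^ k ≤ (2 ^ k) ^ k := Nat.pow_le_pow_left h3 k
      _ = 2 ^ (k ^ 2) := by rw [← pow_mul, sq]
  have h3 : c ≤ 2 ^ (4 * k ^ 2 + 6 * k ^ 3) := by
    refine hc.trans ?_
    calc (g + 1) ^ (2 * k) ≤ (2 ^ (2 * k + 3 * k ^ 2)) ^ (2 * k) := Nat.pow_le_pow_left hg _
      _ = 2 ^ (4 * k ^ 2 + 6 * k ^ 3) := by rw [← pow_mul]; congr 1; ring
  have h4 : k ^ 2 + ((4 * k ^ 2 + 6 * k ^ 3) + 1) ≤ 20 * (k + 1) ^ 3 := by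
    have : 20 * (k + 1) ^ 3 = k ^ 2 + ((4 * k ^ 2 + 6 * k ^ 3) + 1) +
      (14 * k ^ 3 + 55 * k ^ 2 + 60 * k + 19) := by ring
    omega
  calc ((3 * n + 3) * (3 * n + 3)) * (a * (b * (c * 2)))
      ≤ ((3 * n + 3) * (3 * n + 3)) *
        ((3 * n + 3) * (2 ^ (k ^ 2) * (2 ^ (4 * k ^ 2 + 6 * k ^ 3) * 2))) := by
        refine Nat.mul_le_mul_left _ (Nat.mul_le_mul h1 (Nat.mul_le_mul h2 ?_))
        exact Nat.mul_le_mul_right _ h3
    _ = (3 * n + 3) ^ 3 * 2 ^ (k ^ 2 + ((4 * k ^ 2 + 6 * k ^ 3) + 1)) := by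
        ring
    _ ≤ (3 * n + 3) ^ 3 * 2 ^ (20 * (k + 1) ^ 3) :=
        Nat.mul_le_mul_left _ (Nat.pow_le_pow_right (by norm_num) h4)

end ISc

open ISc

theorem pr_Sc (hRn : St_Rn) (hEd : St_Ed) (hEc : St_Ec) (hLl : St_Ll) (hGc : St_Gc) : St_Sc := by
  classical
  intro I hI hC
  obtain ⟨G, hG1, hG2⟩ := hGc I
  obtain ⟨FV, hV1, hV2⟩ := hLl ℕ (it I).toFinset (it I).length
  obtain ⟨FR, hR1, hR2⟩ := hLl Rec G (2 * (it I).length)
  obtain ⟨HH, hHH⟩ : ∃ HH : Finset (Option V), HH = {none} ∪
      ((Finset.range (3 * mm I)).image (fun x => some ((true, x) : V)) ∪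
        ((it I).toFinset).image (fun a => some ((false, a) : V))) := ⟨_, rfl⟩
  have hHc : HH.card ≤ 1 + 3 * mm I + (it I).length := by
    rw [hHH]
    refine (Finset.card_union_le _ _).trans ?_
    have h1 := Finset.card_union_le
      ((Finset.range (3 * mm I)).image (fun x => some ((true, x) : V)))
      (((it I).toFinset).image (fun a => some ((false, a) : V)))
    have h2 : ((Finset.range (3 * mm I)).image (fun x => some ((true, x) : V))).card ≤ 3 * mm I := by
      refine Finset.card_image_le.trans ?_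
      rw [Finset.card_range]
    have h3 : (((it I).toFinset).image (fun a => some ((false, a) : V))).card ≤ (it I).length :=
      Finset.card_image_le.trans (List.toFinset_card_le _)
    rw [Finset.card_singleton]
    omega
  have hVc : FV.card ≤ ((it I).length + 1) ^ (it I).length :=
    hV1.trans (Nat.pow_le_pow_left (Nat.succ_le_succ (List.toFinset_card_le _)) _)
  refine ⟨((Finset.range (3 * nn I + 3)) ×ˢ (Finset.range (3 * nn I + 3))) ×ˢ
    (HH ×ˢ (FV ×ˢ (FR ×ˢ (Finset.univ : Finset Bool)))), ?_, ?_⟩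
  · rw [Finset.card_product, Finset.card_product, Finset.card_product, Finset.card_product,
      Finset.card_product, Finset.card_range, Finset.card_univ, Fintype.card_bool]
    unfold cap ee
    exact count (nn I) (mm I) (it I).length HH.card FV.card FR.card G.card hC.tot hHc hVc hG1 hR1
  · intro q l hrun
    have ri := hRn I hI hC q l hrun
    have htot := hC.tot
    have hle := ri.le
    have hlen := ri.len
    have hhigh := ri.high
    have hint : ∀ a ∈ vis l, a ∈ it I := by
      intro a ha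
      obtain ⟨v, hv, h1, rfl⟩ := mem_vis ha
      exact ri.int v hv h1
    have hvl : (vis l).length ≤ (it I).length := vis_length ri.nodup ri.int
    unfold abs
    rw [Finset.mem_product, Finset.mem_product, Finset.mem_product, Finset.mem_product,
      Finset.mem_product, Finset.mem_range, Finset.mem_range]
    refine ⟨⟨?_, ?_⟩, ?_, ?_, ?_, Finset.mem_univ _⟩
    · show q.1 < 3 * nn I + 3
      omega
    · show q.2 < 3 * nn I + 3
      omega
    · show l.head? ∈ HH
      rw [hHH]
      rcases l with _ | ⟨⟨b, x⟩, r⟩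
      · simp
      · rcases b with _ | _
        · have h1 := ri.int (false, x) List.mem_cons_self rfl
          rw [List.head?_cons, Finset.mem_union, Finset.mem_union]
          right
          right
          rw [Finset.mem_image]
          exact ⟨x, List.mem_toFinset.2 h1, rfl⟩
        · have h1 := ri.hull (true, x) List.mem_cons_self rfl
          rw [List.head?_cons, Finset.mem_union, Finset.mem_union]
          right
          left
          rw [Finset.mem_image]
          refine ⟨x, Finset.mem_range.2 ?_, rfl⟩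
          have h2 : x < q.2 := h1.2
          omega
    · show vis l ∈ FV
      exact hV2 _ hvl fun a ha => List.mem_toFinset.2 (hint a ha)
    · show (edg l).map (recOf I q) ∈ FR
      refine hR2 _ ?_ ?_
      · rw [List.length_map]
        exact (hEc l).trans (Nat.mul_le_mul_left _ hvl)
      · intro a ha
        rw [List.mem_map] at ha
        obtain ⟨e, he, rfl⟩ := ha
        obtain ⟨i, hi, he1, he2⟩ := ((hEd l e).1).1 he
        refine hG2 q e ⟨fun h => ri.int e.1 ?_ h, fun h => ri.int e.2 ?_ h⟩ he2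
        · rw [he1]
          exact List.getElem_mem _
        · rw [he1]
          exact List.getElem_mem _

end Pool.Agent.Work.MP_c6c039_lc.FP
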