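import Pool.Agent.Work.MP_c6c039_lc.FP.StmtsD

/-!
# Block FP, item So: soundness of the search
-/

set_option autoImplicit false

namespace Pool.Agent.Work.MP_c6c039_lc.FP

open Pool.Agent.PT

namespace ISo

theorem step (hTl : St_Tl) (I : In) (i : ℕ) : ∀ (q : ℕ × ℕ) (l : List V), Run I q l →
    ∀ hi : i + 1 < l.length, okF I (l[i + 1] :: l.drop (i + 2)) l[i] = true := by
  induction i with
  | zero =>
    intro q l h hi
    rcases l with _ | ⟨v, _ | ⟨w, r⟩⟩
    · simp at hi
    · simp at hi
    · obtain ⟨q', -, -, h3, -⟩ := hTl I q v (w :: r) h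
      simpa using h3
  | succ i ih =>
    intro q l h hi
    rcases l with _ | ⟨v, r⟩
    · simp at hi
    · obtain ⟨q', h1, -, -, -⟩ := hTl I q v r h
      have h4 : i + 1 < r.length := by simpa using hi
      have h5 := ih q' r h1 h4
      simpa using h5

theorem getD_pt (I : In) (l : List V) (i : ℕ) (hi : i < l.length) :
    (l.map (pt I)).getD i 0 = pt I l[i] := by
  rw [List.getD_eq_getElem _ _ (by simpa using hi), List.getElem_map]

theorem pt_inj (I : In) (l : List V) (hn : (l.map (pt I)).Nodup) (i j : ℕ) (hi : i < l.length)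
    (hj : j < l.length) (h : pt I l[i] = pt I l[j]) : i = j := by
  have h1 : (l.map (pt I))[i]'(by simpa using hi) = (l.map (pt I))[j]'(by simpa using hj) := by
    rw [List.getElem_map, List.getElem_map]
    exact h
  exact (List.Nodup.getElem_inj_iff hn).1 h1

theorem span (n : ℕ) (l : List ℕ) (hn : l.Nodup) (hl : l.length = n) (hlt : ∀ a ∈ l, a < n)
    (p : ℕ) : p ∈ l ↔ p < n := by
  constructor
  · exact hlt p
  · intro hp
    have h1 : l.toFinset = Finset.range n := by
      refine Finset.eq_of_subset_of_card_le (fun a ha => ?_) ?_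
      · rw [List.mem_toFinset] at ha
        exact Finset.mem_range.2 (hlt a ha)
      · rw [Finset.card_range, List.toFinset_card_of_nodup hn, hl]
    have h2 : p ∈ l.toFinset := by
      rw [h1]
      exact Finset.mem_range.2 hp
    exact List.mem_toFinset.1 h2

end ISo

theorem pr_So (hSy : St_Sy) (hRn : St_Rn) (hTl : St_Tl) (hOk : St_Ok) (hEd : St_Ed) : St_So := by
  intro I hG hH q l hR hlen
  have hRI := hRn I hG hH q l hR
  have hCH := hSy I hG.real
  have hmem : ∀ (i : ℕ) (hi : i < l.length), l[i] ∈ l := fun i hi => List.getElem_mem hi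
  have hOk' : ∀ (i : ℕ) (hi : i + 1 < l.length), _ := fun i hi =>
    (hOk I l[i + 1] l[i] (l.drop (i + 2)) (fun u hu => hRI.lt u (List.mem_of_mem_drop hu))).1
      (ISo.step hTl I i q l hR hi)
  refine ⟨hRI.ptn, ?_, ?_, ?_⟩
  · refine ISo.span (nn I) (l.map (pt I)) hRI.ptn (by simpa using hlen) ?_
    intro a ha
    obtain ⟨v, hv, rfl⟩ := List.mem_map.1 ha
    exact hRI.lt v hv
  · intro i hi
    rw [List.length_map] at hi
    rw [ISo.getD_pt I l i (by omega), ISo.getD_pt I l (i + 1) hi]
    exact (hOk' i hi).1
  · intro i j hij hj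
    rw [List.length_map] at hj
    have hi : i + 1 < l.length := by omega
    rw [ISo.getD_pt I l i (by omega), ISo.getD_pt I l (i + 1) hi, ISo.getD_pt I l j (by omega),
      ISo.getD_pt I l (j + 1) hj]
    have hne : ∀ (a b : ℕ) (ha : a < l.length) (hb : b < l.length), a ≠ b →
        pt I l[a] ≠ pt I l[b] := fun a b ha hb hab h => hab (ISo.pt_inj I l hRI.ptn a b ha hb h)
    have hDs : ∀ (a b c : ℕ) (ha : a < l.length) (hb : b < l.length) (hc : c < l.length),
        a ≠ b → a ≠ c → b ≠ c → Ds I [pt I l[a], pt I l[b], pt I l[c]] := by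
      intro a b c ha hb hc hab hac hbc
      constructor
      · have h1 := hne a b ha hb hab
        have h2 := hne a c ha hc hac
        have h3 := hne b c hb hc hbc
        simp [h1, h2, h3]
      · intro x hx
        simp only [List.mem_cons, List.not_mem_nil, or_false] at hx
        rcases hx with rfl | rfl | rfl
        · exact hRI.lt _ (hmem a ha)
        · exact hRI.lt _ (hmem b hb)
        · exact hRI.lt _ (hmem c hc)
    have hdrop : ∀ (m k : ℕ) (hk : k < l.length), m ≤ k → l[k] ∈ l.drop m := by
      intro m k hk hmk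
      rw [List.mem_iff_getElem]
      refine ⟨k - m, by rw [List.length_drop]; omega, ?_⟩
      rw [List.getElem_drop]
      congr 1
      omega
    by_cases c1 : (l[i]).1 = true ∧ (l[i + 1]).1 = true
    · have h1 := ((hOk' i hi).2.1 c1).1 (pt I l[j])
        (List.mem_map_of_mem (hdrop (i + 2) j (by omega) (by omega))) (pt I l[j + 1])
        (List.mem_map_of_mem (hdrop (i + 2) (j + 1) hj (by omega)))
      have h2 := hCH.anti _ _ _ (hDs (i + 1) i j hi (by omega) (by omega) (by omega) (by omega)
        (by omega))
      have h3 := hCH.anti _ _ _ (hDs (i + 1) i (j + 1) hi (by omega) hj (by omega) (by omega)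
        (by omega))
      unfold cr
      rw [h2, h3, h1]
      simp
    by_cases c2 : (l[j]).1 = true ∧ (l[j + 1]).1 = true
    · have hnot : ∀ (k : ℕ) (hk : k < l.length), k < j →
          pt I l[k] ∉ (l[j] :: l[j + 1] :: l.drop (j + 2)).map (pt I) := by
        intro k hk hkj hmem'
        have e1 : l[j] :: l[j + 1] :: l.drop (j + 2) = l.drop j := by
          rw [List.drop_eq_getElem_cons (show j < l.length by omega),
            List.drop_eq_getElem_cons hj]
        rw [e1] at hmem'
        obtain ⟨u, hu, hu2⟩ := List.mem_map.1 hmem'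
        obtain ⟨m, hm, hm2⟩ := List.mem_iff_getElem.1 hu
        rw [List.length_drop] at hm
        rw [List.getElem_drop] at hm2
        rw [← hm2] at hu2
        exact hne (j + m) k (by omega) hk (by omega) hu2
      have h1 := ((hOk' j hj).2.1 c2).2 (pt I l[i]) (pt I l[i + 1])
        (hRI.lt _ (hmem i (by omega))) (hRI.lt _ (hmem (i + 1) hi))
        (hnot i (by omega) (by omega)) (hnot (i + 1) hi (by omega))
      have h2 := hCH.anti _ _ _ (hDs (j + 1) j i hj (by omega) (by omega) (by omega) (by omega)
        (by omega))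
      have h3 := hCH.anti _ _ _ (hDs (j + 1) j (i + 1) hj (by omega) hi (by omega) (by omega)
        (by omega))
      unfold cr
      rw [h2, h3, h1]
      simp
    · have h1 := (hOk' i hi).2.2 c1
      rw [(hEd l (l[j], l[j + 1])).2] at h1
      have h2 : (l[j], l[j + 1]) ∈ edg (l.drop (i + 2)) := by
        rw [(hEd (l.drop (i + 2)) (l[j], l[j + 1])).1]
        refine ⟨j - (i + 2), by rw [List.length_drop]; omega, ?_, c2⟩
        rw [List.getElem_drop, List.getElem_drop]
        have e1 : i + 2 + (j - (i + 2)) = j := by omega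
        have e2 : i + 2 + (j - (i + 2) + 1) = j + 1 := by omega
        simp only [e1, e2]
      exact h1 _ h2

end Pool.Agent.Work.MP_c6c039_lc.FP
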