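import Pool.Agent.Work.MP_c6c039_lc.FP.StmtsG

/-!
# Block FP, item Sy (helper5): the rules for orientations hold for real points
-/

set_option autoImplicit false

namespace Pool.Agent.Work.MP_c6c039_lc.FP

open Pool.Agent.PT

namespace ISy

theorem chi_true {I : In} {X Y : ℕ → ℝ}
    (h : ∀ a b c, a < nn I → b < nn I → c < nn I → (chi I a b c = true ↔ 0 < ar X Y a b c))
    (a b c : ℕ) (ha : a < nn I) (hb : b < nn I) (hc : c < nn I) (hp : 0 < ar X Y a b c) :
    chi I a b c = true := (h a b c ha hb hc).2 hp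

theorem chi_false {I : In} {X Y : ℕ → ℝ}
    (h : ∀ a b c, a < nn I → b < nn I → c < nn I → (chi I a b c = true ↔ 0 < ar X Y a b c))
    (a b c : ℕ) (ha : a < nn I) (hb : b < nn I) (hc : c < nn I) (hp : ar X Y a b c ≤ 0) :
    chi I a b c = false := by
  rw [Bool.eq_false_iff]
  intro h1
  have := (h a b c ha hb hc).1 h1
  linarith

/-- sign of a product from the equality of two orientations -/
theorem mul_pos_of_beq {b1 b2 : Bool} {x y : ℝ} (hx : x ≠ 0) (hy : y ≠ 0) (h1 : b1 = true ↔ 0 < x)
    (h2 : b2 = true ↔ 0 < y) : (b1 == b2) = true ↔ 0 < x * y := by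
  rcases lt_or_gt_of_ne hx with hx' | hx' <;> rcases lt_or_gt_of_ne hy with hy' | hy'
  · have e1 : b1 = false := by
      rw [Bool.eq_false_iff]
      intro h
      have := h1.1 h
      linarith
    have e2 : b2 = false := by
      rw [Bool.eq_false_iff]
      intro h
      have := h2.1 h
      linarith
    rw [e1, e2]
    exact ⟨fun _ => mul_pos_of_neg_of_neg hx' hy', fun _ => rfl⟩
  · have e1 : b1 = false := by
      rw [Bool.eq_false_iff]
      intro h
      have := h1.1 h
      linarith
    have e2 : b2 = true := h2.2 hy'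
    rw [e1, e2]
    constructor
    · intro h
      exact absurd h (by decide)
    · intro h
      have := mul_neg_of_neg_of_pos hx' hy'
      linarith
  · have e1 : b1 = true := h1.2 hx'
    have e2 : b2 = false := by
      rw [Bool.eq_false_iff]
      intro h
      have := h2.1 h
      linarith
    rw [e1, e2]
    constructor
    · intro h
      exact absurd h (by decide)
    · intro h
      have := mul_neg_of_pos_of_neg hx' hy'
      linarith
  · have e1 : b1 = true := h1.2 hx'
    have e2 : b2 = true := h2.2 hy'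
    rw [e1, e2]
    exact ⟨fun _ => mul_pos hx' hy', fun _ => rfl⟩

end ISy

open ISy in
theorem pr_Sy : St_Sy := by
  rintro I ⟨X, Y, h, h0⟩
  have hv : ∀ a b c, Ds I [a, b, c] → a < nn I ∧ b < nn I ∧ c < nn I ∧ a ≠ b ∧ b ≠ c ∧ a ≠ c := by
    rintro a b c ⟨h1, h2⟩
    have h3 : (a ≠ b ∧ a ≠ c) ∧ b ≠ c := by simpa using h1
    exact ⟨h2 a (by simp), h2 b (by simp), h2 c (by simp), h3.1.1, h3.2, h3.1.2⟩
  constructor
  · intro a b c hd
    obtain ⟨ha, hb, hc, n1, n2, n3⟩ := hv a b c hd
    have e : ar X Y b c a = ar X Y a b c := by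
      unfold ar
      ring
    rw [Bool.eq_iff_iff, h b c a hb hc ha, h a b c ha hb hc, e]
  · intro a b c hd
    obtain ⟨ha, hb, hc, n1, n2, n3⟩ := hv a b c hd
    have e : ar X Y b a c = -ar X Y a b c := by
      unfold ar
      ring
    rcases lt_or_gt_of_ne (h0 a b c ha hb hc n1 n2 n3) with h1 | h1
    · rw [chi_false h a b c ha hb hc h1.le, chi_true h b a c hb ha hc (by rw [e]; linarith)]
      rfl
    · rw [chi_true h a b c ha hb hc h1, chi_false h b a c hb ha hc (by rw [e]; linarith)]
      rfl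
  · intro a b ha hb
    refine ⟨chi_false h a a b ha ha hb (le_of_eq ?_), chi_false h a b a ha hb ha (le_of_eq ?_),
      chi_false h a b b ha hb hb (le_of_eq ?_)⟩ <;> (unfold ar; ring)
  · intro a b c d s hd h1 h2 h3
    obtain ⟨hn, hl⟩ := hd
    have ha := hl a (by simp)
    have hb := hl b (by simp)
    have hc := hl c (by simp)
    have hdd := hl d (by simp)
    have hn' : (a ≠ b ∧ a ≠ c ∧ a ≠ d) ∧ (b ≠ c ∧ b ≠ d) ∧ c ≠ d := by simpa using hn
    obtain ⟨⟨n1, n2, n3⟩, ⟨n4, n5⟩, n6⟩ := hn'
    have e : ar X Y a b c = ar X Y a b d + ar X Y b c d + ar X Y c a d := by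
      unfold ar
      ring
    cases s
    · have g1 : ar X Y a b d ≤ 0 := by
        by_contra hg
        rw [chi_true h a b d ha hb hdd (not_le.1 hg)] at h1
        exact absurd h1 (by decide)
      have g2 : ar X Y b c d ≤ 0 := by
        by_contra hg
        rw [chi_true h b c d hb hc hdd (not_le.1 hg)] at h2
        exact absurd h2 (by decide)
      have g3 : ar X Y c a d ≤ 0 := by
        by_contra hg
        rw [chi_true h c a d hc ha hdd (not_le.1 hg)] at h3
        exact absurd h3 (by decide)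
      exact chi_false h a b c ha hb hc (by linarith)
    · have g1 := (h a b d ha hb hdd).1 h1
      have g2 := (h b c d hb hc hdd).1 h2
      have g3 := (h c a d hc ha hdd).1 h3
      exact chi_true h a b c ha hb hc (by linarith)
  · intro p a b c d hd
    obtain ⟨hn, hl⟩ := hd
    have hp := hl p (by simp)
    have ha := hl a (by simp)
    have hb := hl b (by simp)
    have hc := hl c (by simp)
    have hdd := hl d (by simp)
    have hn' : (p ≠ a ∧ p ≠ b ∧ p ≠ c ∧ p ≠ d) ∧ (a ≠ b ∧ a ≠ c ∧ a ≠ d) ∧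
        (b ≠ c ∧ b ≠ d) ∧ c ≠ d := by simpa using hn
    obtain ⟨⟨m1, m2, m3, m4⟩, ⟨n1, n2, n3⟩, ⟨n4, n5⟩, n6⟩ := hn'
    have e : ar X Y p a b * ar X Y p c d - ar X Y p a c * ar X Y p b d +
        ar X Y p a d * ar X Y p b c = 0 := by
      unfold ar
      ring
    have r1 := mul_pos_of_beq (h0 p a b hp ha hb m1 n1 m2) (h0 p c d hp hc hdd m3 n6 m4)
      (h p a b hp ha hb) (h p c d hp hc hdd)
    have r2 := mul_pos_of_beq (h0 p a c hp ha hc m1 n2 m3) (h0 p b d hp hb hdd m2 n5 m4)
      (h p a c hp ha hc) (h p b d hp hb hdd)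
    have r3 := mul_pos_of_beq (h0 p a d hp ha hdd m1 n3 m4) (h0 p b c hp hb hc m2 n4 m3)
      (h p a d hp ha hdd) (h p b c hp hb hc)
    rintro ⟨e1, e2⟩
    cases hq : (chi I p a c == chi I p b d)
    · rw [hq] at e1 e2 r2
      rw [e1] at r1
      rw [← e2] at r3
      have s1 := r1.1 rfl
      have s3 := r3.1 rfl
      have s2 : ¬ 0 < ar X Y p a c * ar X Y p b d := fun hh => absurd (r2.2 hh) (by decide)
      linarith [not_lt.1 s2]
    · rw [hq] at e1 e2 r2
      rw [e1] at r1
      rw [← e2] at r3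
      have s2 := r2.1 rfl
      have s1 : ¬ 0 < ar X Y p a b * ar X Y p c d := fun hh => absurd (r1.2 hh) (by decide)
      have s3 : ¬ 0 < ar X Y p a d * ar X Y p b c := fun hh => absurd (r3.2 hh) (by decide)
      linarith [not_lt.1 s1, not_lt.1 s3]

end Pool.Agent.Work.MP_c6c039_lc.FP
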