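import Pool.Agent.Work.MP_c6c039_lc.FP.StmtsE

/-!
# Block FP, item Sz: the sizes of the states are polynomially bounded
-/

set_option autoImplicit false

namespace Pool.Agent.Work.MP_c6c039_lc.FP

open Pool.Agent.PT Turing N487b59b3

namespace ISz

theorem sz_list_le {α : Type} [Enc α] (W : ℕ) (l : List α) (h : ∀ a ∈ l, sz a ≤ W) :
    sz l ≤ 1 + l.length * (W + 1) := by
  induction l with
  | nil => simp [sz_nil]
  | cons a l ih =>
    rw [sz_cons, List.length_cons]
    have h1 := h a List.mem_cons_self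
    have h2 := ih fun b hb => h b (List.mem_cons_of_mem _ hb)
    have h3 : (l.length + 1) * (W + 1) = l.length * (W + 1) + (W + 1) := by ring
    omega

theorem sum_le_sz (l : List ℕ) : l.sum ≤ sz l := by
  induction l with
  | nil => simp
  | cons a l ih =>
    rw [sz_cons, sz_nat, List.sum_cons]
    omega

theorem sz_tab (l : List Bool) (n z : ℕ) (h1 : l.length ≤ n) (h2 : n ≤ z) :
    sz l ≤ 4 * z + 1 := by
  have := sz_bits_le l
  omega

end ISz

open ISz in
/-- Sz: the sizes of the states are polynomially bounded. -/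
theorem pr_Sz : St_Sz := by
  refine ⟨fun I => 100 * (sz I + 1) ^ 3,
    (PB.const 100).mul ((PB.sz.add (PB.const 1)).pow 3), fun I t s ht hI => ?_⟩
  obtain ⟨T, C, H, N⟩ := I
  have e1 : sz ((T, C, H, N) : In) = sz T + (sz C + (sz H + sz N + 1) + 1) + 1 := by
    show sz (T, (C, (H, N))) = _
    rw [sz_pair, sz_pair, sz_pair]
  set z := sz ((T, C, H, N) : In) with hz
  have hm : mm ((T, C, H, N) : In) ≤ z := by
    have := length_le_sz H
    show H.length ≤ z
    omega
  have hn : nn ((T, C, H, N) : In) ≤ z := by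
    have := length_le_sz C
    show C.length ≤ z
    omega
  have hsum : (it ((T, C, H, N) : In)).sum ≤ z := by
    have := sum_le_sz N
    show N.sum ≤ z
    omega
  have hlen : (it ((T, C, H, N) : In)).length ≤ z := by
    have := length_le_sz N
    show N.length ≤ z
    omega
  have hbd : bd ((T, C, H, N) : In) ≤ 4 * z := by
    unfold bd
    omega
  have hprs : (prs ((T, C, H, N) : In)).length ≤ z * z := by
    have k : (prs ((T, C, H, N) : In)).length =
        (it ((T, C, H, N) : In)).length * (it ((T, C, H, N) : In)).length :=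
      List.length_product _ _
    rw [k]
    exact Nat.mul_le_mul hlen hlen
  obtain ⟨h1, h2, h3, h4, h5, h6, h7⟩ := hI
  obtain ⟨⟨A, B⟩, o, vs, rs, b⟩ := s
  simp only at h1 h2 h3 h4 h5 h6 h7
  have g1 : sz (A, B) ≤ 10 * z + 3 := by
    rw [sz_pair, sz_nat, sz_nat]
    omega
  have g2 : sz o ≤ 8 * z + 7 := by
    cases o with
    | none => rw [sz_none]; omega
    | some v =>
      obtain ⟨v1, v2⟩ := v
      have k := h3 _ rfl
      simp only at k
      rw [sz_some, sz_pair, sz_nat]
      have := sz_bool v1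
      omega
  have g3 : sz vs ≤ 1 + z * (8 * z + 2) := by
    have k := sz_list_le (8 * z + 1) vs fun a ha => by
      have := h5 a ha
      rw [sz_nat]
      omega
    have k2 : vs.length * (8 * z + 1 + 1) ≤ z * (8 * z + 2) :=
      Nat.mul_le_mul (h4.trans (ht.trans hn)) le_rfl
    omega
  have g4 : sz rs ≤ 1 + z * (12 * (z * z) + 16 * z + 12) := by
    have k := sz_list_le (12 * (z * z) + 16 * z + 11) rs fun r hr => by
      obtain ⟨r1, r2, t1, t2, t3⟩ := r
      obtain ⟨m1, m2, m3, m4, m5⟩ := h7 _ hr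
      simp only at m1 m2 m3 m4 m5
      rw [sz_pair, sz_pair, sz_pair, sz_pair, sz_nat, sz_nat]
      have p1 := sz_tab t1 _ (z * z) m3 hprs
      have p2 := sz_tab t2 _ (z * z) m4 hprs
      have p3 := sz_tab t3 _ (z * z) m5 hprs
      omega
    have k2 : rs.length * (12 * (z * z) + 16 * z + 11 + 1) ≤
        z * (12 * (z * z) + 16 * z + 12) :=
      Nat.mul_le_mul (h6.trans (ht.trans hn)) le_rfl
    omega
  have g5 := sz_bool b
  have e2 : sz (((A, B), (o, (vs, (rs, b)))) : St) =
      sz (A, B) + (sz o + (sz vs + (sz rs + sz b + 1) + 1) + 1) + 1 := by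
    rw [sz_pair (A, B), sz_pair o, sz_pair vs, sz_pair rs]
  show sz (((A, B), (o, (vs, (rs, b)))) : St) ≤ 100 * (z + 1) ^ 3
  rw [e2]
  have e3 : 100 * (z + 1) ^ 3 = 100 * (z * (z * z)) + 300 * (z * z) + 300 * z + 100 := by ring
  have e4 : z * (8 * z + 2) = 8 * (z * z) + 2 * z := by ring
  have e5 : z * (12 * (z * z) + 16 * z + 12) = 12 * (z * (z * z)) + 16 * (z * z) + 12 * z := by
    ring
  rw [e3]
  rw [e4] at g3
  rw [e5] at g4
  omega

end Pool.Agent.Work.MP_c6c039_lc.FP
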