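import Pool.Agent.Work.MP_c6c039_lc.FP.StmtsG

/-!
# Block FP, item T5: parity of the crossings of a segment with a triangle
-/

set_option autoImplicit false

namespace Pool.Agent.Work.MP_c6c039_lc.FP

open Pool.Agent.PT

namespace IT5

set_option maxRecDepth 100000 in
/-- the Boolean identity -/
theorem key : ∀ xyz xyu xyv xzu xzv xuv yzu yzv yuv zuv : Bool,
    ¬ ((xyz == xuv) = !(xyu == xzv) ∧ (!(xyu == xzv)) = (xyv == xzu)) →
    ¬ (((!xyz) == yuv) = !((!xyu) == yzv) ∧ (!((!xyu) == yzv)) = ((!xyv) == yzu)) →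
    ¬ ((xyz == zuv) = !((!xzu) == (!yzv)) ∧ (!((!xzu) == (!yzv))) = ((!xzv) == (!yzu))) →
    ¬ ((xyu == (!zuv)) = !(xzu == (!yuv)) ∧ (!(xzu == (!yuv))) = ((!xuv) == yzu)) →
    ¬ ((xyv == zuv) = !(xzv == yuv) ∧ (!(xzv == yuv)) = (xuv == yzv)) →
    xor (xor (!(xyu == xyv) && !(xuv == yuv)) (!(yzu == yzv) && !(yuv == zuv)))
      (!((!xzu) == (!xzv)) && !(zuv == xuv)) =
    xor ((xyu == yzu) && (yzu == (!xzu))) ((xyv == yzv) && (yzv == (!xzv))) := by
  decide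

end IT5

theorem pr_T5 : St_T5 := by
  intro I hI x y z u v hd
  obtain ⟨hn, hl⟩ := hd
  simp only [List.nodup_cons, List.mem_cons, List.not_mem_nil, or_false, not_or, List.nodup_nil,
    not_false_eq_true, and_true] at hn
  obtain ⟨⟨hxy, hxz, hxu, hxv⟩, ⟨hyz, hyu, hyv⟩, ⟨hzu, hzv⟩, huv⟩ := hn
  have lx : x < nn I := hl x (by simp)
  have ly : y < nn I := hl y (by simp)
  have lz : z < nn I := hl z (by simp)
  have lu : u < nn I := hl u (by simp)
  have lv : v < nn I := hl v (by simp)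
  have D3 : ∀ a b c : ℕ, a < nn I → b < nn I → c < nn I → a ≠ b → a ≠ c → b ≠ c →
      Ds I [a, b, c] := by
    intro a b c ha hb hc h1 h2 h3
    refine ⟨?_, ?_⟩
    · simp [h1, h2, h3]
    · intro d hd
      simp only [List.mem_cons, List.not_mem_nil, or_false] at hd
      rcases hd with rfl | rfl | rfl <;> assumption
  have D5 : ∀ a b c d e : ℕ, a < nn I → b < nn I → c < nn I → d < nn I → e < nn I →
      a ≠ b → a ≠ c → a ≠ d → a ≠ e → b ≠ c → b ≠ d → b ≠ e → c ≠ d → c ≠ e → d ≠ e →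
      Ds I [a, b, c, d, e] := by
    intro a b c d e ha hb hc hd' he h1 h2 h3 h4 h5 h6 h7 h8 h9 h10
    refine ⟨?_, ?_⟩
    · simp [h1, h2, h3, h4, h5, h6, h7, h8, h9, h10]
    · intro f hf
      simp only [List.mem_cons, List.not_mem_nil, or_false] at hf
      rcases hf with rfl | rfl | rfl | rfl | rfl <;> assumption
  -- the rules for one triple
  have rules : ∀ a b c : ℕ, a < nn I → b < nn I → c < nn I → a ≠ b → a ≠ c → b ≠ c →
      chi I b c a = chi I a b c ∧ chi I c a b = chi I a b c ∧ chi I b a c = !chi I a b c ∧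
      chi I a c b = !chi I a b c ∧ chi I c b a = !chi I a b c := by
    intro a b c ha hb hc h1 h2 h3
    have e1 := hI.cyc a b c (D3 a b c ha hb hc h1 h2 h3)
    have e2 := hI.cyc b c a (D3 b c a hb hc ha h3 h1.symm h2.symm)
    have e3 := hI.anti a b c (D3 a b c ha hb hc h1 h2 h3)
    have e4 := hI.anti c a b (D3 c a b hc ha hb h2.symm h3.symm h1)
    have e5 := hI.anti b c a (D3 b c a hb hc ha h3 h1.symm h2.symm)
    refine ⟨e1, e2.trans e1, e3, ?_, ?_⟩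
    · rw [e4, e2, e1]
    · rw [e5, e1]
  obtain ⟨a1, a2, a3, a4, a5⟩ := rules x y z lx ly lz hxy hxz hyz
  obtain ⟨b1, b2, b3, b4, b5⟩ := rules x y u lx ly lu hxy hxu hyu
  obtain ⟨c1, c2, c3, c4, c5⟩ := rules x y v lx ly lv hxy hxv hyv
  obtain ⟨d1, d2, d3, d4, d5⟩ := rules x z u lx lz lu hxz hxu hzu
  obtain ⟨e1, e2, e3, e4, e5⟩ := rules x z v lx lz lv hxz hxv hzv
  obtain ⟨f1, f2, f3, f4, f5⟩ := rules x u v lx lu lv hxu hxv huv
  obtain ⟨g1, g2, g3, g4, g5⟩ := rules y z u ly lz lu hyz hyu hzu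
  obtain ⟨h1, h2, h3, h4, h5⟩ := rules y z v ly lz lv hyz hyv hzv
  obtain ⟨i1, i2, i3, i4, i5⟩ := rules y u v ly lu lv hyu hyv huv
  obtain ⟨j1, j2, j3, j4, j5⟩ := rules z u v lz lu lv hzu hzv huv
  have p1 := hI.gp x y z u v (D5 x y z u v lx ly lz lu lv hxy hxz hxu hxv hyz hyu hyv hzu hzv huv)
  have p2 := hI.gp y x z u v (D5 y x z u v ly lx lz lu lv (Ne.symm hxy) hyz hyu hyv hxz hxu hxv hzu hzv
    huv)
  have p3 := hI.gp z x y u v (D5 z x y u v lz lx ly lu lv (Ne.symm hxz) (Ne.symm hyz) hzu hzv hxy hxu hxv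
    hyu hyv huv)
  have p4 := hI.gp u x y z v (D5 u x y z v lu lx ly lz lv (Ne.symm hxu) (Ne.symm hyu) (Ne.symm hzu) huv hxy hxz
    hxv hyz hyv hzv)
  have p5 := hI.gp v x y z u (D5 v x y z u lv lx ly lz lu (Ne.symm hxv) (Ne.symm hyv) (Ne.symm hzv) (Ne.symm huv) hxy
    hxz hxu hyz hyu hzu)
  rw [a3, b3, c3] at p2
  rw [a2, d3, h3, e3, g3] at p3
  rw [b2, j3, d2, i3, f3, g2] at p4
  rw [c2, j2, e2, i2, f2, h2] at p5
  simp only [cr, inT]
  rw [f1, i1, j1, d3, e3]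
  exact IT5.key _ _ _ _ _ _ _ _ _ _ p1 p2 p3 p4 p5

end Pool.Agent.Work.MP_c6c039_lc.FP
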