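import Pool.Agent.Work.MP_c6c039_lc.FP.StmtsE
import Pool.Agent.Work.PT.BitEnc

/-!
# Item TB of block FP: the machine (helper64)
-/

set_option autoImplicit false

namespace Pool.Agent.Work.MP_c6c039_lc.FP

open Pool.Agent.PT Turing N487b59b3

namespace ITB

/-- the arithmetic of the time bound -/
theorem arith (k K L s T : ℕ) (hK : 1 ≤ K) (hs : s ≤ 4 * L + 1)
    (hT : T ≤ (s + 2 * 2 ^ (20 * K) + 2 + 2) ^ k) :
    20 * T + 100 * s + 100 ≤
      2 ^ ((10 + 24 * (k + 1)) * K) * (L + 1) ^ (10 + 24 * (k + 1)) := by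
  have hN : 1 ≤ 2 ^ (20 * K) := Nat.one_le_two_pow
  have hY : s + 2 * 2 ^ (20 * K) + 2 + 2 ≤ 2 ^ 4 * 2 ^ (20 * K) * (L + 1) := by
    nlinarith [Nat.zero_le (2 ^ (20 * K) * L), Nat.mul_le_mul hN (le_refl L)]
  have hY1 : 1 ≤ 2 ^ 4 * 2 ^ (20 * K) * (L + 1) :=
    Nat.one_le_iff_ne_zero.2 (by positivity)
  set Y := 2 ^ 4 * 2 ^ (20 * K) * (L + 1) with hYdef
  have hT1 : T ≤ Y ^ (k + 1) :=
    (hT.trans (Nat.pow_le_pow_left hY k)).trans (Nat.pow_le_pow_right hY1 (Nat.le_succ k))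
  have hY2 : Y ≤ Y ^ (k + 1) := by
    calc Y = Y ^ 1 := (pow_one Y).symm
      _ ≤ Y ^ (k + 1) := Nat.pow_le_pow_right hY1 (by omega)
  have hs1 : 100 * s + 100 ≤ 40 * Y := by
    have h1 : 2 ^ 4 * (L + 1) ≤ Y := by
      rw [hYdef]
      nlinarith [Nat.mul_le_mul hN (le_refl (L + 1))]
    omega
  have h2 : 20 * T + 100 * s + 100 ≤ 2 ^ 6 * Y ^ (k + 1) := by
    have : (2 : ℕ) ^ 6 = 64 := by norm_num
    rw [this]
    omega
  refine h2.trans ?_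
  have h3 : Y ^ (k + 1) = 2 ^ ((4 + 20 * K) * (k + 1)) * (L + 1) ^ (k + 1) := by
    rw [hYdef, mul_pow, ← pow_add, ← pow_mul]
  rw [h3, ← mul_assoc, ← pow_add]
  refine Nat.mul_le_mul (Nat.pow_le_pow_right (by norm_num) ?_)
    (Nat.pow_le_pow_right (by omega) (by omega))
  nlinarith [Nat.mul_le_mul hK (le_refl (k + 1))]

end ITB

theorem pr_TB (hPA : St_PA) (hPF : St_PF) : St_TB := by
  have hf : PTF (fun p : List Bool × ℕ => [ans (full p.1) p.2]) := by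
    have h1 : PTF (fun p : List Bool × ℕ => (full p.1, p.2)) :=
      PTF.pair (PTF.comp hPF PTF.fst) PTF.snd
    have h2 : PTF (fun p : List Bool × ℕ => ans (full p.1) p.2) := PTF.comp hPA h1
    fun_prop
  have he : PTF (fun x : List Bool => ee (full x)) := ptf_ee hPF
  obtain ⟨B, ⟨k, hk⟩, hB⟩ := TimeF.fpt hf he
  obtain ⟨M, hM⟩ := hB.tm2_raw
  refine ⟨M, 10 + 24 * (k + 1), fun x => ?_⟩
  obtain ⟨⟨h4, h5⟩⟩ := hM x
  refine ⟨⟨h4, h5.trans ?_⟩⟩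
  have h6 := hk (x, 2 ^ ee (full x))
  rw [sz_pair, sz_nat] at h6
  unfold ee at h6
  refine ITB.arith k (((it (full x)).length + 1) ^ 3) x.length (sz x) _ (Nat.one_le_pow' _ _)
    (sz_bits_le x) ?_
  refine h6.trans (le_of_eq ?_)
  ring_nf

end Pool.Agent.Work.MP_c6c039_lc.FP
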