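import Pool.Agent.Work.MP_c6c039_lc.FP.StmtsD

/-!
# Block FP, item Tl: a suffix of a run is a run
-/

set_option autoImplicit false

namespace Pool.Agent.Work.MP_c6c039_lc.FP

open Pool.Agent.PT

theorem pr_Tl : St_Tl := by
  intro I q v r h
  cases h with
  | cons q' _ _ h1 h2 h3 => exact ⟨q', h1, h2, h3, rfl⟩

end Pool.Agent.Work.MP_c6c039_lc.FP
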