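import Pool.Agent.Work.MP_c6c039_lc.FP.StmtsC

set_option autoImplicit false

namespace Pool.Agent.Work.MP_c6c039_lc.FP

open Pool.Agent.PT

namespace IUp

/-- Look up a mapped table at a pair of the list. -/
theorem lookC (hLk : St_Lk) (I : In) (f : ℕ × ℕ → Bool) (c : ℕ × ℕ) (hc : c ∈ prs I) :
    look I ((prs I).map f) c.1 c.2 = f c := by
  have h : c.1 ∈ it I ∧ c.2 ∈ it I := by
    have := hc
    unfold prs at this
    exact List.mem_product.mp this
  exact hLk I f c.1 c.2 h.1 h.2

/-- Update of a record on the right. -/
theorem updRight (hLk : St_Lk) (hRt : St_Rt) (I : In) (q : ℕ × ℕ) (p x : ℕ) (h2 : x < q.2) :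
    recH I (q.1, q.2 + 1) p x = updR I true q.2 (recH I q p x) := by
  unfold updR recH
  simp only [if_true]
  refine Prod.ext rfl (Prod.ext rfl (Prod.ext rfl (Prod.ext ?_ ?_)))
  · simp only
    refine List.map_congr_left fun c hc => ?_
    rw [lookC hLk I _ c hc, lookC hLk I _ c hc, (hRt I c).1 x q.2 (by omega)]
    simp
  · simp only
    refine List.map_congr_left fun c hc => ?_
    rw [lookC hLk I _ c hc]
    simp

/-- Update of a record on the left. -/
theorem updLeft (hLk : St_Lk) (hRt : St_Rt) (I : In) (q : ℕ × ℕ) (p x : ℕ) (h1 : 1 ≤ q.1)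
    (h2 : q.1 ≤ x) :
    recH I (q.1 - 1, q.2) p x = updR I false (q.1 - 1) (recH I q p x) := by
  unfold updR recH
  simp only [if_true]
  refine Prod.ext rfl (Prod.ext rfl (Prod.ext rfl (Prod.ext ?_ ?_)))
  · simp only
    refine List.map_congr_left fun c hc => ?_
    rw [lookC hLk I _ c hc]
    simp
  · simp only
    refine List.map_congr_left fun c hc => ?_
    rw [lookC hLk I _ c hc, lookC hLk I _ c hc, (hRt I c).2 q.1 x h1 h2]
    simp

theorem updI (I : In) (b : Bool) (y p q : ℕ) : updR I b y (recI p q) = recI p q := by
  unfold updR recI
  simp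

theorem vis_cons (v : V) (l : List V) :
    vis (v :: l) = if v.1 then vis l else v.2 :: vis l := by
  unfold vis
  rw [List.filter_cons]
  cases h : v.1 <;> simp

end IUp

theorem pr_Up (hRn : St_Rn) (hEd : St_Ed) (hLk : St_Lk) (hRt : St_Rt) : St_Up := by
  intro I hG hH q l hrun v hv
  have hRI := hRn I hG hH q l hrun
  -- the records of the old edges for the new arc
  have key : (edg l).map (recOf I (nA q v)) =
      if v.1 then ((edg l).map (recOf I q)).map (updR I (decide (v.2 = q.2)) v.2)
      else (edg l).map (recOf I q) := by
    cases hv1 : v.1 with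
    | false =>
      have : nA q v = q := by unfold nA; simp [hv1]
      rw [this]
      simp
    | true =>
      rw [if_pos rfl, List.map_map]
      refine List.map_congr_left fun e he => ?_
      obtain ⟨i, hi, hei, hne⟩ := ((hEd l e).1).mp he
      have he1 : e.1 ∈ l := by rw [hei]; exact List.getElem_mem _
      have he2 : e.2 ∈ l := by rw [hei]; exact List.getElem_mem _
      -- the candidate
      have hcand : q.2 - q.1 < mm I ∧ (v = (true, q.2) ∨ v = (true, q.1 - 1)) := by
        unfold candF at hv
        rw [List.mem_append] at hv
        rcases hv with hv | hv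
        · by_cases hc : q.2 - q.1 < mm I
          · rw [if_pos hc] at hv
            refine ⟨hc, ?_⟩
            simpa using hv
          · rw [if_neg hc] at hv
            simp at hv
        · obtain ⟨a, _, ha⟩ := List.mem_map.mp hv
          rw [← ha] at hv1
          simp at hv1
      have hrec : ∀ p x : ℕ, q.1 ≤ x → x < q.2 →
          recH I (nA q v) p x = updR I (decide (v.2 = q.2)) v.2 (recH I q p x) := by
        intro p x hx1 hx2
        have hlow := hRI.low
        have hle := hRI.le
        rcases hcand with ⟨hc, rfl | rfl⟩
        · have hn : nA q (true, q.2) = (q.1, q.2 + 1) := by unfold nA; simp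
          rw [hn]
          simp only [decide_true]
          exact IUp.updRight hLk hRt I q p x hx2
        · have hneq : q.1 - 1 ≠ q.2 := by omega
          have hn : nA q (true, q.1 - 1) = (q.1 - 1, q.2) := by unfold nA; simp [hneq]
          rw [hn]
          simp only [hneq, decide_false]
          exact IUp.updLeft hLk hRt I q p x (by omega) hx1
      show recOf I (nA q v) e = updR I (decide (v.2 = q.2)) v.2 (recOf I q e)
      unfold recOf
      cases h1 : e.1.1 with
      | true =>
        simp only [if_true]
        obtain ⟨hx1, hx2⟩ := hRI.hull e.1 he1 h1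
        exact hrec e.2.2 e.1.2 hx1 hx2
      | false =>
        cases h2 : e.2.1 with
        | true =>
          simp only [if_true, Bool.false_eq_true, if_false]
          obtain ⟨hx1, hx2⟩ := hRI.hull e.2 he2 h2
          exact hrec e.1.2 e.2.2 hx1 hx2
        | false =>
          simp only [Bool.false_eq_true, if_false]
          exact (IUp.updI I _ _ _ _).symm
  unfold abs upd
  refine Prod.ext rfl (Prod.ext rfl (Prod.ext ?_ (Prod.ext ?_ ?_)))
  · exact IUp.vis_cons v l
  · simp only
    rw [← key]
    cases l with
    | nil => simp [edg]
    | cons w r =>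
      simp only [List.head?_cons, Option.map_some, Option.getD_some]
      rw [edg]
      by_cases hvw : (v.1 && w.1) = true
      · simp only [hvw, if_true, List.nil_append]
      · simp only [hvw, Bool.false_eq_true, if_false, List.map_cons, List.singleton_append]
  · simp only
    cases l with
    | nil => simp [fresh]
    | cons w r => simp [fresh]

end Pool.Agent.Work.MP_c6c039_lc.FP
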