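import Pool.Agent.Work.MP_c6c039_lc.FP.StmtsC

/-!
# Block FP, item Vi: the visited points seen from the state
-/

set_option autoImplicit false

namespace Pool.Agent.Work.MP_c6c039_lc.FP

open Pool.Agent.PT

namespace IVi

theorem mem_vis {l : List V} {j : ℕ} : j ∈ vis l ↔ (false, j) ∈ l := by
  unfold vis
  rw [List.mem_map]
  constructor
  · rintro ⟨v, hv, rfl⟩
    obtain ⟨h1, h2⟩ := List.mem_filter.1 hv
    obtain ⟨b, x⟩ := v
    cases b
    · exact h1
    · simp at h2
  · intro h
    exact ⟨(false, j), List.mem_filter.2 ⟨h, by simp⟩, rfl⟩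

theorem visC_iff {I : In} {q : ℕ × ℕ} {vs : List ℕ} {j : ℕ} :
    visC I q vs j = true ↔ (∃ x, q.1 ≤ x ∧ x < q.2 ∧ hp I x = j) ∨ j ∈ vs := by
  unfold visC
  rw [Bool.or_eq_true, List.any_eq_true, decide_eq_true_iff]
  constructor
  · rintro (⟨i, hi, h⟩ | h)
    · left
      have h1 := List.mem_range.1 hi
      exact ⟨q.1 + i, by omega, by omega, by simpa using h⟩
    · exact Or.inr h
  · rintro (⟨x, h1, h2, h3⟩ | h)
    · left
      refine ⟨x - q.1, List.mem_range.2 (by omega), ?_⟩
      have e : q.1 + (x - q.1) = x := by omega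
      rw [e]
      simpa using h3
    · exact Or.inr h

end IVi

open IVi in
theorem pr_Vi : St_Vi := by
  intro I q l h j
  rw [Bool.eq_iff_iff, visC_iff, decide_eq_true_iff, List.mem_map, mem_vis]
  constructor
  · rintro (⟨x, h1, h2, h3⟩ | h1)
    · exact ⟨(true, x), h.all x h1 h2, by simpa [pt] using h3⟩
    · exact ⟨(false, j), h1, by simp [pt]⟩
  · rintro ⟨⟨b, x⟩, hv, h1⟩
    cases b
    · right
      have e : x = j := by simpa [pt] using h1
      rw [← e]
      exact hv
    · left
      have h2 := h.hull (true, x) hv rfl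
      exact ⟨x, h2.1, h2.2, by simpa [pt] using h1⟩

end Pool.Agent.Work.MP_c6c039_lc.FP
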