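import Pool.Agent.Work.MP_c6c039_lc.FP.StmtsD

/-!
Item X0: if no extreme point is visited the first number can be changed.
-/

set_option autoImplicit false

namespace Pool.Agent.Work.MP_c6c039_lc.FP

namespace IX0

/-- an interior candidate is a candidate for every arc -/
theorem cand (I : In) (q : ℕ × ℕ) (y : ℕ) (l : List V) (v : V) (hv : v.1 = false)
    (h : v ∈ candF I q l) : v ∈ candF I (y, y) l := by
  unfold candF at h ⊢
  rw [List.mem_append] at h ⊢
  refine Or.inr ?_
  rcases h with h | h
  · exfalso
    split_ifs at h with hc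
    · rw [List.mem_cons, List.mem_singleton] at h
      rcases h with h | h
      · rw [h] at hv
        exact Bool.noConfusion hv
      · rw [h] at hv
        exact Bool.noConfusion hv
    · exact (List.not_mem_nil h)
  · exact h

theorem nAy (y : ℕ) (v : V) (hv : v.1 = false) : nA (y, y) v = (y, y) := by
  unfold nA
  rw [hv]
  rfl

theorem main (I : In) (y : ℕ) (h1 : mm I ≤ y) (h2 : y < 2 * mm I) (q : ℕ × ℕ) (l : List V)
    (h : Run I q l) : (∀ v ∈ l, v.1 = false) → Run I (y, y) l := by
  induction h with
  | nil x h3 h4 => exact fun _ => Run.nil y h1 h2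
  | cons q l v h3 h4 h5 ih =>
    intro hall
    have hv : v.1 = false := hall v List.mem_cons_self
    have h6 : Run I (y, y) l := ih fun w hw => hall w (List.mem_cons_of_mem v hw)
    have h7 := Run.cons (y, y) l v h6 (cand I q y l v hv h4) h5
    rw [nAy y v hv] at h7
    exact h7

end IX0

theorem pr_X0 (hRn : St_Rn) : St_X0 := by
  intro I hG hH x l hl y hy1 hy2
  have hR := hRn I hG hH (x, x) l hl
  refine IX0.main I y hy1 hy2 (x, x) l hl fun v hv => ?_
  cases hb : v.1 with
  | false => rfl
  | true =>
    have h := hR.hull v hv hb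
    exact absurd (lt_of_le_of_lt h.1 h.2) (lt_irrefl x)

end Pool.Agent.Work.MP_c6c039_lc.FP
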