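import Pool.Agent.Work.MP_c6c039_lc.FP.I_An
import Pool.Agent.Work.MP_c6c039_lc.FP.I_Aq
import Pool.Agent.Work.MP_c6c039_lc.FP.I_Ar
import Pool.Agent.Work.MP_c6c039_lc.FP.I_CA
import Pool.Agent.Work.MP_c6c039_lc.FP.I_CT
import Pool.Agent.Work.MP_c6c039_lc.FP.I_CW
import Pool.Agent.Work.MP_c6c039_lc.FP.I_Cd
import Pool.Agent.Work.MP_c6c039_lc.FP.I_Ch
import Pool.Agent.Work.MP_c6c039_lc.FP.I_Co
import Pool.Agent.Work.MP_c6c039_lc.FP.I_Cq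
import Pool.Agent.Work.MP_c6c039_lc.FP.I_Cs
import Pool.Agent.Work.MP_c6c039_lc.FP.I_Dd
import Pool.Agent.Work.MP_c6c039_lc.FP.I_EX
import Pool.Agent.Work.MP_c6c039_lc.FP.I_Ec
import Pool.Agent.Work.MP_c6c039_lc.FP.I_Ed
import Pool.Agent.Work.MP_c6c039_lc.FP.I_Ex
import Pool.Agent.Work.MP_c6c039_lc.FP.I_F2
import Pool.Agent.Work.MP_c6c039_lc.FP.I_G0
import Pool.Agent.Work.MP_c6c039_lc.FP.I_GD
import Pool.Agent.Work.MP_c6c039_lc.FP.I_Gc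
import Pool.Agent.Work.MP_c6c039_lc.FP.I_HC
import Pool.Agent.Work.MP_c6c039_lc.FP.I_Hl
import Pool.Agent.Work.MP_c6c039_lc.FP.I_Ho
import Pool.Agent.Work.MP_c6c039_lc.FP.I_Iv
import Pool.Agent.Work.MP_c6c039_lc.FP.I_Lb
import Pool.Agent.Work.MP_c6c039_lc.FP.I_Lk
import Pool.Agent.Work.MP_c6c039_lc.FP.I_Ll
import Pool.Agent.Work.MP_c6c039_lc.FP.I_Ly
import Pool.Agent.Work.MP_c6c039_lc.FP.I_NI
import Pool.Agent.Work.MP_c6c039_lc.FP.I_NM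
import Pool.Agent.Work.MP_c6c039_lc.FP.I_OW
import Pool.Agent.Work.MP_c6c039_lc.FP.I_Oc
import Pool.Agent.Work.MP_c6c039_lc.FP.I_Ok
import Pool.Agent.Work.MP_c6c039_lc.FP.I_P1
import Pool.Agent.Work.MP_c6c039_lc.FP.I_P2
import Pool.Agent.Work.MP_c6c039_lc.FP.I_P3
import Pool.Agent.Work.MP_c6c039_lc.FP.I_PA
import Pool.Agent.Work.MP_c6c039_lc.FP.I_PE
import Pool.Agent.Work.MP_c6c039_lc.FP.I_PF
import Pool.Agent.Work.MP_c6c039_lc.FP.I_PI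
import Pool.Agent.Work.MP_c6c039_lc.FP.I_PL
import Pool.Agent.Work.MP_c6c039_lc.FP.I_PO
import Pool.Agent.Work.MP_c6c039_lc.FP.I_PP
import Pool.Agent.Work.MP_c6c039_lc.FP.I_Pd
import Pool.Agent.Work.MP_c6c039_lc.FP.I_Rn
import Pool.Agent.Work.MP_c6c039_lc.FP.I_Rt
import Pool.Agent.Work.MP_c6c039_lc.FP.I_SI
import Pool.Agent.Work.MP_c6c039_lc.FP.I_SX
import Pool.Agent.Work.MP_c6c039_lc.FP.I_Sc
import Pool.Agent.Work.MP_c6c039_lc.FP.I_Sd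
import Pool.Agent.Work.MP_c6c039_lc.FP.I_So
import Pool.Agent.Work.MP_c6c039_lc.FP.I_Sy
import Pool.Agent.Work.MP_c6c039_lc.FP.I_Sz
import Pool.Agent.Work.MP_c6c039_lc.FP.I_T5
import Pool.Agent.Work.MP_c6c039_lc.FP.I_TB
import Pool.Agent.Work.MP_c6c039_lc.FP.I_Tl
import Pool.Agent.Work.MP_c6c039_lc.FP.I_Up
import Pool.Agent.Work.MP_c6c039_lc.FP.I_Vi
import Pool.Agent.Work.MP_c6c039_lc.FP.I_X0
import Pool.Agent.Work.MP_c6c039_lc.FP.I_Xt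
import Pool.Agent.Work.MP_c6c039_lc.FP.Final

/-!
# Block FP: assembly
-/

set_option autoImplicit false

namespace Pool.Agent.Work.MP_c6c039_lc.FP

open Turing N487b59b3

theorem c_Aq : St_Aq := pr_Aq

theorem c_Cq : St_Cq := pr_Cq

theorem c_Cs : St_Cs := pr_Cs

theorem c_Dd : St_Dd := pr_Dd

theorem c_Ec : St_Ec := pr_Ec

theorem c_Ed : St_Ed := pr_Ed

theorem c_Gc : St_Gc := pr_Gc

theorem c_Lk : St_Lk := pr_Lk

theorem c_Ll : St_Ll := pr_Ll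

theorem c_PE : St_PE := pr_PE

theorem c_PI : St_PI := pr_PI

theorem c_PO : St_PO := pr_PO

theorem c_PP : St_PP := pr_PP

theorem c_Pd : St_Pd := pr_Pd

theorem c_Rn : St_Rn := pr_Rn

theorem c_Rt : St_Rt := pr_Rt

theorem c_SX : St_SX := pr_SX

theorem c_Sy : St_Sy := pr_Sy

theorem c_Sz : St_Sz := pr_Sz

theorem c_T5 : St_T5 := pr_T5

theorem c_Tl : St_Tl := pr_Tl

theorem c_Vi : St_Vi := pr_Vi

theorem c_Xt : St_Xt := pr_Xt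

theorem c_CT : St_CT := pr_CT c_PE

theorem c_Ch : St_Ch := pr_Ch c_Xt

theorem c_Ex : St_Ex := pr_Ex c_Xt

theorem c_G0 : St_G0 := pr_G0 c_Xt

theorem c_Ho : St_Ho := pr_Ho c_Xt

theorem c_Iv : St_Iv := pr_Iv c_Dd

theorem c_Ok : St_Ok := pr_Ok c_Aq

theorem c_P1 : St_P1 := pr_P1 c_T5

theorem c_P3 : St_P3 := pr_P3 c_Xt c_Cs c_T5

theorem c_PF : St_PF := pr_PF c_PP c_PO

theorem c_Sc : St_Sc := pr_Sc c_Rn c_Ed c_Ec c_Ll c_Gc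

theorem c_Up : St_Up := pr_Up c_Rn c_Ed c_Lk c_Rt

theorem c_X0 : St_X0 := pr_X0 c_Rn

theorem c_F2 : St_F2 := pr_F2 c_Sy c_Xt c_G0

theorem c_GD : St_GD := pr_GD c_CT c_PI

theorem c_Hl : St_Hl := pr_Hl c_Ho

theorem c_NM : St_NM := pr_NM c_CT c_PI

theorem c_P2 : St_P2 := pr_P2 c_Xt c_Cs c_P1

theorem c_PL : St_PL := pr_PL c_Pd c_Iv c_Sz

theorem c_SI : St_SI := pr_SI c_CT c_PI c_SX

theorem c_Sd : St_Sd := pr_Sd c_Ch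

theorem c_So : St_So := pr_So c_Sy c_Rn c_Tl c_Ok c_Ed

theorem c_CA : St_CA := pr_CA c_Sy c_Cs c_Cq c_F2

theorem c_EX : St_EX := pr_EX c_CT c_PI c_SI

theorem c_HC : St_HC := pr_HC c_Sy c_Ex c_Hl

theorem c_NI : St_NI := pr_NI c_Ch c_P2 c_P3

theorem c_Oc : St_Oc := pr_Oc c_Sy c_Cs c_Ok c_Ed c_Sd c_Rn

theorem c_PA : St_PA := pr_PA c_PL

theorem c_Ar : St_Ar := pr_Ar c_Sy c_NI

theorem c_CW : St_CW := pr_CW c_Sy c_Cs c_CA c_Rn c_Ed c_Lk c_Rt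

theorem c_TB : St_TB := pr_TB c_PA c_PF

theorem c_Cd : St_Cd := pr_Cd c_Rn c_X0 c_Ar

theorem c_OW : St_OW := pr_OW c_Rn c_Ed c_Vi c_CW

theorem c_Co : St_Co := pr_Co c_Cd c_Oc

theorem c_Ly : St_Ly := pr_Ly c_OW c_Up

theorem c_Lb : St_Lb := pr_Lb c_Ly c_Sc c_Dd

theorem c_An : St_An := pr_An c_HC c_So c_Co c_Ly c_Lb

/-- The theorem. -/
theorem main_theorem :
    ∃ (M : TM2ComputableAux Bool Bool) (c : ℕ), ∀ I : List (ℚ × ℚ) × List (ℚ × ℚ), GenPos I →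
      ∀ b : Bool, (b = true ↔ ∃ l : List (ℝ × ℝ), IsPath (pts I.1) (pts I.2) l) →
        Nonempty (TM2OutputsInTime M.tm ((bitEncode I).map M.inputAlphabet.invFun)
          (some ((bitEncode b).map M.outputAlphabet.invFun))
          (2 ^ (c * (inner I + 1) ^ 3) * ((bitEncode I).length + 1) ^ c)) :=
  final c_An c_TB c_GD c_EX c_NM

end Pool.Agent.Work.MP_c6c039_lc.FP
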