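import Pool.Agent.Work.PT.Auto

/-!
# SSAP with few interior points: definitions (block FP, captain helper87)

Points are the numbers `0, .., n - 1`; `chi a b c` says that the triangle `a b c` is positively
oriented.  Extreme points are those which lie in no triangle of other points; `hp x` is the extreme
point with the (cyclic) number `x`.  A path is a list of `V`, newest vertex FIRST: `(true, x)` is the
extreme point `hp x`, `(false, a)` the interior point `a`.  The visited extreme points are
`hp x`, `A ≤ x < B`.
-/

set_option autoImplicit false

namespace Pool.Agent.Work.MP_c6c039_lc.FP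

open Pool.Agent.PT

/-! ## Types -/

/-- vertices of a path -/
abbrev V := Bool × ℕ
/-- records of edges with an interior end point -/
abbrev Rec := ℕ × (ℕ × (List Bool × (List Bool × List Bool)))
/-- states of the search -/
abbrev St := (ℕ × ℕ) × (Option V × (List ℕ × (List Rec × Bool)))
/-- instances: orientations, colours, hull (in cyclic order), interior points -/
abbrev In := List (List (List Bool)) × (List Bool × (List ℕ × List ℕ))

/-! ## Instances -/

def chi (I : In) (a b c : ℕ) : Bool := ((I.1.getD a []).getD b []).getD c false
/-- the number of points -/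
def nn (I : In) : ℕ := I.2.1.length
/-- colours -/
def co (I : In) (i : ℕ) : Bool := I.2.1.getD i false
/-- the extreme points in cyclic order -/
def hu (I : In) : List ℕ := I.2.2.1
/-- the interior points -/
def it (I : In) : List ℕ := I.2.2.2
/-- the number of extreme points -/
def mm (I : In) : ℕ := (hu I).length
/-- the extreme point with the number `x` -/
def hp (I : In) (x : ℕ) : ℕ := (hu I).getD (x % mm I) 0
/-- the point of a vertex -/
def pt (I : In) (v : V) : ℕ := if v.1 then hp I v.2 else v.2

/-- the segments `a b` and `c d` cross -/
def cr (I : In) (a b c d : ℕ) : Bool :=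
  !(chi I a b c == chi I a b d) && !(chi I c d a == chi I c d b)

/-- `p` lies in the triangle `a b c` -/
def inT (I : In) (a b c p : ℕ) : Bool :=
  (chi I a b p == chi I b c p) && (chi I b c p == chi I c a p)

/-- `p` is extreme: it lies in no triangle of other points -/
def ext (I : In) (p : ℕ) : Bool :=
  (List.range (nn I)).all fun a => (List.range (nn I)).all fun b => (List.range (nn I)).all fun c =>
    a == b || (b == c || (c == a || (a == p || (b == p || (c == p || !inT I a b c p)))))

/-- extreme points (unordered) -/
def exL (I : In) : List ℕ := (List.range (nn I)).filter fun p => ext I p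
/-- interior points -/
def inL (I : In) : List ℕ := (List.range (nn I)).filter fun p => !ext I p

/-- cyclic position of an extreme point, seen from the first one -/
def rk (I : In) (a : ℕ) : ℕ :=
  if a = (exL I).headD 0 then 0 else
    ((exL I).filter fun b => chi I ((exL I).headD 0) b a).length + 1

/-- the hull in cyclic order -/
def hullOf (I : In) : List ℕ :=
  (List.range (exL I).length).map fun r => ((exL I).find? fun a => rk I a == r).getD 0

/-- complete an instance -/
def mkIn (p : List (List (List Bool)) × List Bool) : In :=
  (p.1, (p.2, (hullOf (p.1, (p.2, ([], []))), inL (p.1, (p.2, ([], []))))))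

/-- twice the area of a triangle -/
def ar (X Y : ℕ → ℝ) (a b c : ℕ) : ℝ := (X b - X a) * (Y c - Y a) - (Y b - Y a) * (X c - X a)

/-- the orientations come from points of the plane in general position -/
def Rl (I : In) : Prop := ∃ X Y : ℕ → ℝ,
  (∀ a b c, a < nn I → b < nn I → c < nn I → (chi I a b c = true ↔ 0 < ar X Y a b c)) ∧
  ∀ a b c, a < nn I → b < nn I → c < nn I → a ≠ b → b ≠ c → a ≠ c → ar X Y a b c ≠ 0

/-- a complete instance in general position -/
structure Good (I : In) : Prop where
  real : Rl I
  hull : hu I = hullOf I
  inte : it I = inL I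

/-! ## Paths of points -/

/-- parity of the number of crossings of a segment with a polygonal path -/
def crP (I : In) (a b : ℕ) : List ℕ → Bool
  | [] => false
  | [_] => false
  | c :: d :: l => xor (cr I a b c d) (crP I a b (d :: l))

/-- parity of the number of crossings of two polygonal paths -/
def crPP (I : In) (l : List ℕ) : List ℕ → Bool
  | [] => false
  | [_] => false
  | a :: b :: k => xor (crP I a b l) (crPP I l (b :: k))

/-- no two edges without a common end point cross -/
def NC (I : In) (l : List ℕ) : Prop := ∀ i j, i + 1 < j → j + 1 < l.length →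
  cr I (l.getD i 0) (l.getD (i + 1) 0) (l.getD j 0) (l.getD (j + 1) 0) = false

/-- simple spanning alternating paths, combinatorial form -/
structure SP (I : In) (l : List ℕ) : Prop where
  nodup : l.Nodup
  span : ∀ p, p ∈ l ↔ p < nn I
  alt : ∀ i, i + 1 < l.length → co I (l.getD i 0) ≠ co I (l.getD (i + 1) 0)
  nc : NC I l

/-! ## Runs: paths built vertex by vertex -/

/-- the visited interior points -/
def vis (l : List V) : List ℕ := (l.filter fun v => !v.1).map Prod.snd

/-- the recorded edges: those with an interior end point, newest first -/
def edg : List V → List (V × V)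
  | [] => []
  | [_] => []
  | v :: w :: l => if v.1 && w.1 then edg (w :: l) else (v, w) :: edg (w :: l)

/-- the newest edge is recorded -/
def fresh : List V → Bool
  | [] => false
  | [_] => false
  | v :: w :: _ => !(v.1 && w.1)

/-- all equal -/
def allEq (b : List Bool) : Bool := b.all fun x => x == b.headD false

/-- the vertex `v` may be added to the path `l` -/
def okF (I : In) : List V → V → Bool
  | [], _ => true
  | w :: l, v => !(co I (pt I v) == co I (pt I w)) &&
      (if v.1 && w.1 then
        allEq (((List.range (nn I)).filter fun j => decide (j ∈ l.map (pt I))).map fun j =>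
          chi I (pt I w) (pt I v) j) &&
        allEq (((List.range (nn I)).filter fun j => !decide (j ∈ (v :: w :: l).map (pt I))).map
          fun j => chi I (pt I w) (pt I v) j)
      else (if fresh (w :: l) then (edg (w :: l)).tail else edg (w :: l)).all fun e =>
        !cr I (pt I v) (pt I w) (pt I e.1) (pt I e.2))

/-- the possible next vertices -/
def candF (I : In) (q : ℕ × ℕ) (l : List V) : List V :=
  (if q.2 - q.1 < mm I then [(true, q.2), (true, q.1 - 1)] else []) ++
    ((it I).filter fun a => !decide (a ∈ vis l)).map fun a => (false, a)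

/-- the new arc -/
def nA (q : ℕ × ℕ) (v : V) : ℕ × ℕ :=
  if v.1 then (if v.2 = q.2 then (q.1, q.2 + 1) else (v.2, q.2)) else q

/-- valid partial paths; the visited extreme points are `hp x`, `q.1 ≤ x < q.2` -/
inductive Run (I : In) : ℕ × ℕ → List V → Prop
  | nil (x : ℕ) (h1 : mm I ≤ x) (h2 : x < 2 * mm I) : Run I (x, x) []
  | cons (q : ℕ × ℕ) (l : List V) (v : V) (h1 : Run I q l) (h2 : v ∈ candF I q l)
      (h3 : okF I l v = true) : Run I (nA q v) (v :: l)

/-! ## Compressed states -/

/-- the pairs of interior points -/
def prs (I : In) : List (ℕ × ℕ) := List.product (it I) (it I)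

/-- look up a table -/
def look (I : In) (t : List Bool) (p q : ℕ) : Bool :=
  t.getD (@List.idxOf (ℕ × ℕ) instBEqOfDecidableEq (p, q) (prs I)) false

/-- the extreme points with the numbers `x, .., B - 1` are on the same side of the line `q` -/
def stR (I : In) (q : ℕ × ℕ) (x B : ℕ) : Bool :=
  (List.range (B - x)).all fun i => chi I q.1 q.2 (hp I (x + i)) == chi I q.1 q.2 (hp I x)

/-- the extreme points with the numbers `A, .., x` are on the same side of the line `q` -/
def stL (I : In) (q : ℕ × ℕ) (A x : ℕ) : Bool :=
  (List.range (x - A)).all fun i => chi I q.1 q.2 (hp I (A + i)) == chi I q.1 q.2 (hp I x)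

/-- record of the edge from the interior point `p` to `hp x` -/
def recH (I : In) (q : ℕ × ℕ) (p x : ℕ) : Rec :=
  (p, (0, ((prs I).map (fun c => chi I c.1 c.2 (hp I x)),
    ((prs I).map (fun c => stR I c x q.2), (prs I).map (fun c => stL I c q.1 x)))))

/-- record of the edge between two interior points -/
def recI (p q : ℕ) : Rec := (p, (q + 1, ([], ([], []))))

/-- record of an edge -/
def recOf (I : In) (q : ℕ × ℕ) (e : V × V) : Rec :=
  if e.1.1 then recH I q e.2.2 e.1.2 else if e.2.1 then recH I q e.1.2 e.2.2 else recI e.1.2 e.2.2

/-- the state of a path -/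
def abs (I : In) (q : ℕ × ℕ) (l : List V) : St :=
  (q, (l.head?, (vis l, ((edg l).map (recOf I q), fresh l))))

/-- `j` is visited -/
def visC (I : In) (q : ℕ × ℕ) (vs : List ℕ) (j : ℕ) : Bool :=
  ((List.range (q.2 - q.1)).any fun i => hp I (q.1 + i) == j) || decide (j ∈ vs)

/-- the new edge `v w` (`w` the current vertex, arc `(A, B)` before `v`) crosses the recorded edge -/
def crC (I : In) (B : ℕ) (v w : V) (r : Rec) : Bool :=
  if v.1 || w.1 then
    (if r.2.1 = 0 then
      (look I r.2.2.1 r.1 (if v.1 then w.2 else v.2) ==
        chi I r.1 (if v.1 then w.2 else v.2) (hp I (if v.1 then v.2 else w.2))) &&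
      (if (if v.1 then v.2 else w.2 + 1) = B then
        look I r.2.2.2.1 r.1 (if v.1 then w.2 else v.2) ==
          look I r.2.2.1 r.1 (if v.1 then w.2 else v.2)
      else !(look I r.2.2.2.2 r.1 (if v.1 then w.2 else v.2) ==
          look I r.2.2.1 r.1 (if v.1 then w.2 else v.2)))
    else cr I (if v.1 then w.2 else v.2) (hp I (if v.1 then v.2 else w.2)) r.1 (r.2.1 - 1))
  else
    (if r.2.1 = 0 then
      !(chi I v.2 w.2 r.1 == look I r.2.2.1 v.2 w.2) &&
        !(look I r.2.2.1 v.2 r.1 == look I r.2.2.1 w.2 r.1)
    else cr I v.2 w.2 r.1 (r.2.1 - 1))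

/-- `v` may be added after `w`, seen from the state -/
def okW (I : In) (s : St) (w v : V) : Bool :=
  !(co I (pt I v) == co I (pt I w)) &&
    (if v.1 && w.1 then
      allEq (((List.range (nn I)).filter fun j => visC I s.1 s.2.2.1 j && !(j == pt I w)).map
        fun j => chi I (pt I w) (pt I v) j) &&
      allEq (((List.range (nn I)).filter fun j => !visC I s.1 s.2.2.1 j && !(j == pt I v)).map
        fun j => chi I (pt I w) (pt I v) j)
    else (if s.2.2.2.2 then s.2.2.2.1.tail else s.2.2.2.1).all fun r => !crC I s.1.2 v w r)

/-- `v` may be added, seen from the state -/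
def okC (I : In) (s : St) (v : V) : Bool := (s.2.1.map fun w => okW I s w v).getD true

/-- candidates, seen from the state -/
def cand (I : In) (s : St) : List V :=
  (if s.1.2 - s.1.1 < mm I then [(true, s.1.2), (true, s.1.1 - 1)] else []) ++
    ((it I).filter fun a => !decide (a ∈ s.2.2.1)).map fun a => (false, a)

/-- update of a record when the extreme point `y` is added, on the right (`b`) or on the left -/
def updR (I : In) (b : Bool) (y : ℕ) (r : Rec) : Rec :=
  if r.2.1 = 0 then
    (r.1, (0, (r.2.2.1,
      ((prs I).map (fun c => look I r.2.2.2.1 c.1 c.2 &&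
          (!b || (chi I c.1 c.2 (hp I y) == look I r.2.2.1 c.1 c.2))),
        (prs I).map (fun c => look I r.2.2.2.2 c.1 c.2 &&
          (b || (chi I c.1 c.2 (hp I y) == look I r.2.2.1 c.1 c.2)))))))
  else r

/-- the new state -/
def upd (I : In) (s : St) (v : V) : St :=
  (nA s.1 v, (some v, ((if v.1 then s.2.2.1 else v.2 :: s.2.2.1),
    (((s.2.1.map fun w => if v.1 && w.1 then [] else [recOf I (nA s.1 v) (v, w)]).getD []) ++
        (if v.1 then s.2.2.2.1.map (updR I (decide (v.2 = s.1.2)) v.2) else s.2.2.2.1),
      (s.2.1.map fun w => !(v.1 && w.1)).getD false))))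

/-- successors of a state -/
def nx (I : In) (s : St) : List St := ((cand I s).filter fun v => okC I s v).map fun v => upd I s v

/-- initial states -/
def L0 (I : In) : List St :=
  (List.range (mm I)).map fun i => ((mm I + i, mm I + i), (none, ([], ([], false))))

/-- all states reachable in `t` steps -/
def lay (I : In) (t : ℕ) : List St := (fun L => L.flatMap fun s => nx I s)^[t] (L0 I)

/-- remove duplicates -/
def dd (l : List St) : List St := l.foldl (fun acc s => if s ∈ acc then acc else s :: acc) []

/-- the bound for the number of states -/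
def cap (I : In) (M : ℕ) : ℕ := (3 * nn I + 3) ^ 3 * M

/-- the search with bounded layers -/
def layB (I : In) (M t : ℕ) : List St :=
  (fun L => (dd (L.flatMap fun s => nx I s)).take (cap I M))^[t] ((L0 I).take (cap I M))

/-- the exponent -/
def ee (I : In) : ℕ := 20 * ((it I).length + 1) ^ 3

/-- the answer of the search -/
def ans (I : In) (M : ℕ) : Bool := decide (nn I = 0) || !(layB I M (nn I)).isEmpty

end Pool.Agent.Work.MP_c6c039_lc.FP
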