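import Pool.Agent.Work.MP_c6c039_lc.FP.StmtsC

/-! # Block FP, item An -/

set_option autoImplicit false

namespace Pool.Agent.Work.MP_c6c039_lc.FP

namespace IAn

/-- a path visits every point once -/
theorem len {I : In} {p : List ℕ} (h : SP I p) : p.length = nn I := by
  rw [← List.toFinset_card_of_nodup h.nodup]
  have h1 : p.toFinset = Finset.range (nn I) := by
    ext x
    rw [List.mem_toFinset, h.span, Finset.mem_range]
  rw [h1, Finset.card_range]

end IAn

theorem pr_An (hHC : St_HC) (hSo : St_So) (hCo : St_Co) (hLy : St_Ly) (hLb : St_Lb) : St_An := by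
  intro I hG
  by_cases h0 : nn I = 0
  · constructor
    · intro _
      refine ⟨[], List.nodup_nil, ?_, ?_, ?_⟩
      · intro p
        simp [h0]
      · intro i hi
        simp at hi
      · intro i j _ hj
        simp at hj
    · intro _
      simp [ans, h0]
  · have hH := hHC I hG (by omega)
    have h1 : ans I (2 ^ ee I) = true ↔ ∃ s, s ∈ layB I (2 ^ ee I) (nn I) := by
      rw [ans]
      cases h : layB I (2 ^ ee I) (nn I) with
      | nil => simp [h0]
      | cons a l => simp
    rw [h1]
    constructor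
    · rintro ⟨s, hs⟩
      obtain ⟨q, l, hr, hl, -⟩ := (hLy I hG hH (nn I) s).1 ((hLb I hG hH (nn I) s).1 hs)
      exact ⟨_, hSo I hG hH q l hr hl⟩
    · rintro ⟨p, hp⟩
      obtain ⟨q, l, hr, hl⟩ := hCo I hG hH p hp
      refine ⟨abs I q l, (hLb I hG hH (nn I) _).2 ((hLy I hG hH (nn I) _).2 ⟨q, l, hr, ?_, rfl⟩)⟩
      rw [← IAn.len hp, ← hl, List.length_map]

end Pool.Agent.Work.MP_c6c039_lc.FP
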