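import Pool.Agent.Work.MP_c6c039_lc.FP.StmtsG

/-!
# Block FP, item Cq: crossing segments, the ends of one are on one side of a side of the other
-/

set_option autoImplicit false

namespace Pool.Agent.Work.MP_c6c039_lc.FP

open Pool.Agent.PT

namespace ICq

theorem ds3 (I : In) {a b c : ℕ} (h1 : a ≠ b) (h2 : a ≠ c) (h3 : b ≠ c) (ha : a < nn I)
    (hb : b < nn I) (hc : c < nn I) : Ds I [a, b, c] := by
  refine ⟨?_, ?_⟩
  · simp [h1, h2, h3]
  · intro z hz
    simp only [List.mem_cons, List.not_mem_nil, or_false] at hz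
    rcases hz with rfl | rfl | rfl <;> assumption

end ICq

theorem pr_Cq : St_Cq := by
  intro I hI a b c d hD hcr
  have hn := hD.1
  simp only [List.nodup_cons, List.mem_cons, List.not_mem_nil, or_false, not_or,
    not_false_eq_true, List.nodup_nil, and_true] at hn
  obtain ⟨⟨hab, hac, had⟩, ⟨hbc, hbd⟩, hcd⟩ := hn
  have la : a < nn I := hD.2 a (by simp)
  have lb : b < nn I := hD.2 b (by simp)
  have lc : c < nn I := hD.2 c (by simp)
  have ld : d < nn I := hD.2 d (by simp)
  have e1 : chi I a c b = !chi I a b c := by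
    rw [← hI.cyc a c b (ICq.ds3 I hac hab (Ne.symm hbc) la lc lb),
      ← hI.cyc c b a (ICq.ds3 I (Ne.symm hbc) (Ne.symm hac) (Ne.symm hab) lc lb la),
      hI.anti a b c (ICq.ds3 I hab hac hbc la lb lc)]
  have e2 : chi I c d a = chi I a c d := hI.cyc a c d (ICq.ds3 I hac had hcd la lc ld)
  have e3 : chi I c d b = chi I b c d := hI.cyc b c d (ICq.ds3 I hbc hbd hcd lb lc ld)
  have e4 : chi I c a d = !chi I a c d := hI.anti a c d (ICq.ds3 I hac had hcd la lc ld)
  have h4 := hI.four a b c d
  unfold cr at hcr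
  rw [e2, e3] at hcr
  rw [e1]
  rw [e4] at h4
  have h5 := h4 (!chi I a b c) hD
  revert hcr h5
  cases chi I a b c <;> cases chi I a b d <;> cases chi I a c d <;> cases chi I b c d <;> simp

end Pool.Agent.Work.MP_c6c039_lc.FP
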