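import Pool.Agent.Work.MP_c6c039_lc.FP.StmtsC

/-!
# Block FP, item Gc: the number of records
-/

set_option autoImplicit false

namespace Pool.Agent.Work.MP_c6c039_lc.FP

open Pool.Agent.PT

namespace IGc

/-- the lists of Booleans of length `n` -/
def BL (n : ℕ) : Finset (List Bool) :=
  (Finset.univ : Finset (List.Vector Bool n)).image fun v => v.1

theorem card_BL (n : ℕ) : (BL n).card ≤ 2 ^ n := by
  unfold BL
  refine Finset.card_image_le.trans ?_
  rw [Finset.card_univ, card_vector, Fintype.card_bool]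

theorem mem_BL {n : ℕ} {l : List Bool} (h : l.length = n) : l ∈ BL n := by
  unfold BL
  exact Finset.mem_image.2 ⟨⟨l, h⟩, Finset.mem_univ _, rfl⟩

theorem pow_bound (k : ℕ) : k ^ 2 + k + 1 ≤ 4 ^ k := by
  induction k with
  | zero => norm_num
  | succ k ih =>
    rw [pow_succ 4]
    nlinarith

theorem final_bound (k : ℕ) : k * k + k * (2 ^ (k * k) * (2 ^ (k * k) * 2 ^ (k * k))) + 1 ≤
    2 ^ (2 * k + 3 * k ^ 2) := by
  have h1 : 2 ^ (2 * k + 3 * k ^ 2) = 4 ^ k * (2 ^ (k * k) * (2 ^ (k * k) * 2 ^ (k * k))) := by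
    rw [pow_add, pow_mul, ← pow_add, ← pow_add]
    congr 2
    ring
  have h2 := pow_bound k
  have h3 : 1 ≤ 2 ^ (k * k) * (2 ^ (k * k) * 2 ^ (k * k)) := Nat.one_le_iff_ne_zero.2 (by positivity)
  rw [h1]
  generalize 2 ^ (k * k) * (2 ^ (k * k) * 2 ^ (k * k)) = X at h3 ⊢
  calc k * k + k * X + 1 ≤ k * k * X + k * X + 1 * X := by
        have h4 : k * k ≤ k * k * X := Nat.le_mul_of_pos_right _ h3
        omega
    _ = (k ^ 2 + k + 1) * X := by ring
    _ ≤ 4 ^ k * X := Nat.mul_le_mul_right _ h2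

end IGc

theorem pr_Gc : St_Gc := by
  intro I
  obtain ⟨S, hS⟩ : ∃ S : Finset ℕ, S = (it I).toFinset := ⟨_, rfl⟩
  obtain ⟨k, hk⟩ : ∃ k : ℕ, k = (it I).length := ⟨_, rfl⟩
  have hSk : S.card ≤ k := by
    rw [hS, hk]
    exact List.toFinset_card_le _
  have hmem : ∀ p, p ∈ it I → p ∈ S := by
    intro p hp
    rw [hS, List.mem_toFinset]
    exact hp
  have hlen : (prs I).length = k * k := by
    show ((it I) ×ˢ (it I)).length = k * k
    rw [List.length_product, hk]
  let G1 : Finset Rec := (S ×ˢ S).image fun z => (z.1, (z.2 + 1, ([], ([], []))))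
  let G2 : Finset Rec := (S ×ˢ (IGc.BL (k * k) ×ˢ (IGc.BL (k * k) ×ˢ IGc.BL (k * k)))).image
    fun z => (z.1, (0, z.2))
  have hrecH : ∀ (q : ℕ × ℕ) (p x : ℕ), p ∈ it I → recH I q p x ∈ G1 ∪ G2 := by
    intro q p x hpI
    refine Finset.mem_union_right _ (Finset.mem_image.2 ⟨(p, ((prs I).map
      (fun c => chi I c.1 c.2 (hp I x)), ((prs I).map (fun c => stR I c x q.2),
        (prs I).map (fun c => stL I c q.1 x)))), ?_, rfl⟩)
    rw [Finset.mem_product, Finset.mem_product, Finset.mem_product]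
    exact ⟨hmem p hpI, IGc.mem_BL (by rw [List.length_map, hlen]),
      IGc.mem_BL (by rw [List.length_map, hlen]), IGc.mem_BL (by rw [List.length_map, hlen])⟩
  refine ⟨G1 ∪ G2, ?_, ?_⟩
  · rw [← hk]
    refine le_trans ?_ (IGc.final_bound k)
    refine Nat.succ_le_succ ((Finset.card_union_le _ _).trans (Nat.add_le_add ?_ ?_))
    · refine Finset.card_image_le.trans ?_
      rw [Finset.card_product]
      exact Nat.mul_le_mul hSk hSk
    · refine Finset.card_image_le.trans ?_
      rw [Finset.card_product, Finset.card_product, Finset.card_product]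
      exact Nat.mul_le_mul hSk (Nat.mul_le_mul (IGc.card_BL _)
        (Nat.mul_le_mul (IGc.card_BL _) (IGc.card_BL _)))
  · intro q e he hne
    unfold recOf
    cases h1 : e.1.1 with
    | true =>
      cases h2 : e.2.1 with
      | true => exact absurd ⟨h1, h2⟩ hne
      | false => exact hrecH q _ _ (he.2 h2)
    | false =>
      cases h2 : e.2.1 with
      | true => exact hrecH q _ _ (he.1 h1)
      | false =>
        refine Finset.mem_union_left _ (Finset.mem_image.2 ⟨(e.1.2, e.2.2), ?_, rfl⟩)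
        rw [Finset.mem_product]
        exact ⟨hmem _ (he.1 h1), hmem _ (he.2 h2)⟩

end Pool.Agent.Work.MP_c6c039_lc.FP
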