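import Pool.Agent.Work.MP_c6c039_lc.FP.StmtsE

/-!
# Block FP, item NM: the interior numbers are interior points
-/

set_option autoImplicit false

namespace Pool.Agent.Work.MP_c6c039_lc.FP

open Pool.Agent.PT Turing N487b59b3

namespace INM

/-- a point with barycentric coordinates of the same sign lies in the triangle -/
theorem tri {A B C P : ℝ × ℝ}
    (h : (0 < area B C P ∧ 0 < area C A P ∧ 0 < area A B P) ∨
      (area B C P < 0 ∧ area C A P < 0 ∧ area A B P < 0)) :
    P ∈ convexHull ℝ ({A, B, C} : Set (ℝ × ℝ)) := by
  have hs : area B C P + area C A P + area A B P ≠ 0 := by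
    rcases h with ⟨h1, h2, h3⟩ | ⟨h1, h2, h3⟩
    · exact (by linarith : 0 < area B C P + area C A P + area A B P).ne'
    · exact (by linarith : area B C P + area C A P + area A B P < 0).ne
  have hw : ∀ i : Fin 3, 0 ≤ (![area B C P, area C A P, area A B P] i) /
      (area B C P + area C A P + area A B P) := by
    rcases h with ⟨h1, h2, h3⟩ | ⟨h1, h2, h3⟩
    · intro i
      fin_cases i
      · exact div_nonneg h1.le (by linarith)
      · exact div_nonneg h2.le (by linarith)
      · exact div_nonneg h3.le (by linarith)
    · intro i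
      fin_cases i
      · exact div_nonneg_of_nonpos h1.le (by linarith)
      · exact div_nonneg_of_nonpos h2.le (by linarith)
      · exact div_nonneg_of_nonpos h3.le (by linarith)
  have key := (convex_convexHull ℝ ({A, B, C} : Set (ℝ × ℝ))).sum_mem
    (t := (Finset.univ : Finset (Fin 3)))
    (w := fun i => (![area B C P, area C A P, area A B P] i) /
      (area B C P + area C A P + area A B P)) (z := ![A, B, C])
    (fun i _ => hw i) (by
      rw [Fin.sum_univ_three]
      show area B C P / _ + area C A P / _ + area A B P / _ = 1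
      rw [← add_div, ← add_div, div_self hs])
    (by
      intro i _
      apply subset_convexHull
      fin_cases i
      · exact Or.inl rfl
      · exact Or.inr (Or.inl rfl)
      · exact Or.inr (Or.inr rfl))
  have e : (∑ i : Fin 3, ((![area B C P, area C A P, area A B P] i) /
      (area B C P + area C A P + area A B P)) • (![A, B, C] i)) = P := by
    rw [Fin.sum_univ_three]
    show (area B C P / _) • A + (area C A P / _) • B + (area A B P / _) • C = P
    refine Prod.ext ?_ ?_
    · simp only [Prod.fst_add, Prod.smul_fst, smul_eq_mul]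
      field_simp
      unfold area
      ring
    · simp only [Prod.snd_add, Prod.smul_snd, smul_eq_mul]
      field_simp
      unfold area
      ring
  rw [e] at key
  exact key

end INM

open INM in
theorem pr_NM (hCT : St_CT) (hPI : St_PI) : St_NM := by
  classical
  intro I hI
  obtain ⟨hn, hchi, -⟩ := hCT I
  obtain ⟨hinj, -, hall, -, -, hgen⟩ := hPI I hI
  set F := full (bitEncode I) with hF
  set n := (I.1 ++ I.2).length with hnn
  have hit : it F = (List.range (nn F)).filter fun p => !ext F p := rfl
  have hnd : (it F).Nodup := by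
    rw [hit]
    exact List.nodup_range.filter _
  have hlt : ∀ p ∈ it F, p < n := by
    intro p hp
    rw [hit, List.mem_filter, List.mem_range, hn] at hp
    exact hp.1
  have hmem : ∀ p ∈ it F, pnt I p ∈ {p : ℝ × ℝ | p ∈ allPts I ∧
      p ∈ convexHull ℝ ((↑(allPts I) : Set (ℝ × ℝ)) \ {p})} := by
    intro p hp
    have hpn := hlt p hp
    rw [hit, List.mem_filter] at hp
    have h1 : ext F p = false := by
      have := hp.2
      simpa using this
    refine ⟨(hall _).2 ⟨p, hpn, rfl⟩, ?_⟩
    have h2 : ∃ a b c, a < n ∧ b < n ∧ c < n ∧ a ≠ b ∧ b ≠ c ∧ c ≠ a ∧ a ≠ p ∧ b ≠ p ∧ c ≠ p ∧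
        inT F a b c p = true := by
      by_contra hno
      push Not at hno
      have h3 : ext F p = true := by
        unfold ext
        rw [List.all_eq_true]
        intro a ha
        rw [List.all_eq_true]
        intro b hb
        rw [List.all_eq_true]
        intro c hc
        rw [List.mem_range, hn] at ha hb hc
        simp only [Bool.or_eq_true, beq_iff_eq, Bool.not_eq_true']
        by_contra hcon
        push Not at hcon
        obtain ⟨q1, q2, q3, q4, q5, q6, q7⟩ := hcon
        exact hno a b c ha hb hc q1 q2 q3 q4 q5 q6 (by simpa using q7)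
      rw [h1] at h3
      exact Bool.false_ne_true h3
    obtain ⟨a, b, c, ha, hb, hc, hab, hbc, hca, hap, hbp, hcp, hT⟩ := h2
    unfold inT at hT
    rw [Bool.and_eq_true, beq_iff_eq, beq_iff_eq] at hT
    obtain ⟨t1, t2⟩ := hT
    have w1 : area (pnt I a) (pnt I b) (pnt I p) ≠ 0 := hgen a b p ha hb hpn hab hbp hap
    have w2 : area (pnt I b) (pnt I c) (pnt I p) ≠ 0 := hgen b c p hb hc hpn hbc hcp hbp
    have w3 : area (pnt I c) (pnt I a) (pnt I p) ≠ 0 := hgen c a p hc ha hpn hca hap hcp
    have k1 := hchi a b p ha hb hpn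
    have k2 := hchi b c p hb hc hpn
    have k3 := hchi c a p hc ha hpn
    have htri : pnt I p ∈ convexHull ℝ ({pnt I a, pnt I b, pnt I c} : Set (ℝ × ℝ)) := by
      apply tri
      by_cases hcase : chi F a b p = true
      · left
        refine ⟨k2.1 ?_, k3.1 ?_, k1.1 hcase⟩
        · rw [← t1]; exact hcase
        · rw [← t2, ← t1]; exact hcase
      · right
        have h4 : ¬ chi F b c p = true := by rw [← t1]; exact hcase
        have h5 : ¬ chi F c a p = true := by rw [← t2]; exact h4
        refine ⟨?_, ?_, ?_⟩
        · exact lt_of_le_of_ne (not_lt.1 fun h => h4 (k2.2 h)) w2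
        · exact lt_of_le_of_ne (not_lt.1 fun h => h5 (k3.2 h)) w3
        · exact lt_of_le_of_ne (not_lt.1 fun h => hcase (k1.2 h)) w1
    refine convexHull_mono ?_ htri
    have hone : ∀ i, i < n → i ≠ p → pnt I i ∈ (↑(allPts I) : Set (ℝ × ℝ)) \ {pnt I p} := by
      intro i hi hip
      refine ⟨Finset.mem_coe.2 ((hall _).2 ⟨i, hi, rfl⟩), ?_⟩
      intro h6
      exact hip (hinj i p hi hpn h6)
    rintro q (rfl | rfl | rfl)
    · exact hone a ha hap
    · exact hone b hb hbp
    · exact hone c hc hcp
  have hfin : {p : ℝ × ℝ | p ∈ allPts I ∧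
      p ∈ convexHull ℝ ((↑(allPts I) : Set (ℝ × ℝ)) \ {p})}.Finite :=
    (allPts I).finite_toSet.subset fun p hp => hp.1
  have hnd2 : ((it F).map (pnt I)).Nodup := by
    refine List.Nodup.map_on ?_ hnd
    intro x hx y hy hxy
    exact hinj x y (hlt x hx) (hlt y hy) hxy
  have hcard : (it F).length = ((it F).map (pnt I)).toFinset.card := by
    rw [List.toFinset_card_of_nodup hnd2, List.length_map]
  unfold inner
  rw [hcard, ← Set.ncard_coe_finset]
  refine Set.ncard_le_ncard ?_ hfin
  intro q hq
  rw [Finset.mem_coe, List.mem_toFinset, List.mem_map] at hq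
  obtain ⟨p, hp, rfl⟩ := hq
  exact hmem p hp

end Pool.Agent.Work.MP_c6c039_lc.FP
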