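import Pool.Agent.Work.MP_c6c039_lc.FP.StmtsE

/-!
# Block FP, item PI
-/

set_option autoImplicit false

namespace Pool.Agent.Work.MP_c6c039_lc.FP

namespace IPI

theorem toR_inj : Function.Injective toR := by
  rintro ⟨a, b⟩ ⟨c, d⟩ h
  unfold toR at h
  have h1 : (a : ℝ) = c := congrArg Prod.fst h
  have h2 : (b : ℝ) = d := congrArg Prod.snd h
  rw [Rat.cast_injective h1, Rat.cast_injective h2]

theorem mem_pts (l : List (ℚ × ℚ)) (q : ℝ × ℝ) : q ∈ pts l ↔ ∃ p ∈ l, toR p = q := by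
  unfold pts
  rw [List.mem_toFinset, List.mem_map]

theorem pnt_eq (I : List (ℚ × ℚ) × List (ℚ × ℚ)) (i : ℕ) (hi : i < (I.1 ++ I.2).length) :
    pnt I i = toR ((I.1 ++ I.2)[i]'hi) := by
  unfold pnt
  rw [List.getD_eq_getElem _ _ hi]

theorem pnt_inj (I : List (ℚ × ℚ) × List (ℚ × ℚ)) (h : (I.1 ++ I.2).Nodup) (i j : ℕ)
    (hi : i < (I.1 ++ I.2).length) (hj : j < (I.1 ++ I.2).length) (he : pnt I i = pnt I j) :
    i = j := by
  rw [pnt_eq I i hi, pnt_eq I j hj] at he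
  exact (List.Nodup.getElem_inj_iff h).1 (toR_inj he)

theorem mem_all (I : List (ℚ × ℚ) × List (ℚ × ℚ)) (q : ℝ × ℝ) :
    (∃ p ∈ I.1 ++ I.2, toR p = q) ↔ ∃ i, i < (I.1 ++ I.2).length ∧ pnt I i = q := by
  constructor
  · rintro ⟨p, hp, rfl⟩
    obtain ⟨i, hi, he⟩ := List.mem_iff_getElem.1 hp
    exact ⟨i, hi, by rw [pnt_eq I i hi, he]⟩
  · rintro ⟨i, hi, rfl⟩
    exact ⟨(I.1 ++ I.2)[i]'hi, List.getElem_mem hi, (pnt_eq I i hi).symm⟩

theorem left (I : List (ℚ × ℚ) × List (ℚ × ℚ)) (h : (I.1 ++ I.2).Nodup) (i : ℕ)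
    (hi : i < (I.1 ++ I.2).length) : pnt I i ∈ pts I.1 ↔ i < I.1.length := by
  constructor
  · intro hm
    obtain ⟨p, hp, he⟩ := (mem_pts _ _).1 hm
    obtain ⟨j, hj, he2⟩ := List.mem_iff_getElem.1 hp
    have hj' : j < (I.1 ++ I.2).length := by rw [List.length_append]; omega
    have h1 : pnt I j = toR p := by
      rw [pnt_eq I j hj', List.getElem_append_left hj, he2]
    have := pnt_inj I h j i hj' hi (h1.trans he)
    omega
  · intro hl
    rw [mem_pts]
    exact ⟨I.1[i]'hl, List.getElem_mem hl, by rw [pnt_eq I i hi, List.getElem_append_left hl]⟩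

theorem right (I : List (ℚ × ℚ) × List (ℚ × ℚ)) (h : (I.1 ++ I.2).Nodup) (i : ℕ)
    (hi : i < (I.1 ++ I.2).length) : pnt I i ∈ pts I.2 ↔ ¬ i < I.1.length := by
  constructor
  · intro hm
    obtain ⟨p, hp, he⟩ := (mem_pts _ _).1 hm
    obtain ⟨j, hj, he2⟩ := List.mem_iff_getElem.1 hp
    have hj' : I.1.length + j < (I.1 ++ I.2).length := by rw [List.length_append]; omega
    have h1 : pnt I (I.1.length + j) = toR p := by
      rw [pnt_eq I _ hj', List.getElem_append_right (Nat.le_add_right _ _)]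
      congr 1
      rw [← he2]
      congr 1
      omega
    have := pnt_inj I h _ i hj' hi (h1.trans he)
    omega
  · intro hl
    have hle : I.1.length ≤ i := not_lt.1 hl
    rw [mem_pts]
    have hi2 : i - I.1.length < I.2.length := by
      rw [List.length_append] at hi
      omega
    exact ⟨I.2[i - I.1.length]'hi2, List.getElem_mem hi2, by
      rw [pnt_eq I i hi, List.getElem_append_right hle]⟩

end IPI

open IPI in
theorem pr_PI : St_PI := by
  intro I hg
  obtain ⟨hnd, hcol⟩ := hg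
  have hall : ∀ q, q ∈ allPts I ↔ ∃ i, i < (I.1 ++ I.2).length ∧ pnt I i = q := fun q => by
    unfold allPts
    rw [mem_pts, mem_all]
  refine ⟨pnt_inj I hnd, fun q => ?_, hall, left I hnd, right I hnd, ?_⟩
  · rw [Finset.mem_union, mem_pts, mem_pts, ← mem_all]
    constructor
    · rintro (⟨p, hp, he⟩ | ⟨p, hp, he⟩)
      · exact ⟨p, List.mem_append.2 (Or.inl hp), he⟩
      · exact ⟨p, List.mem_append.2 (Or.inr hp), he⟩
    · rintro ⟨p, hp, he⟩
      rcases List.mem_append.1 hp with hp | hp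
      · exact Or.inl ⟨p, hp, he⟩
      · exact Or.inr ⟨p, hp, he⟩
  · intro i j k hi hj hk hij hjk hik hz
    have e1 : pnt I i ≠ pnt I j := fun e => hij (pnt_inj I hnd i j hi hj e)
    have e2 : pnt I j ≠ pnt I k := fun e => hjk (pnt_inj I hnd j k hj hk e)
    have e3 : pnt I i ≠ pnt I k := fun e => hik (pnt_inj I hnd i k hi hk e)
    exact hcol _ ((hall _).2 ⟨i, hi, rfl⟩) _ ((hall _).2 ⟨j, hj, rfl⟩) _ ((hall _).2 ⟨k, hk, rfl⟩)
      e1 e2 e3 (collinear_of_area e1 hz)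

end Pool.Agent.Work.MP_c6c039_lc.FP
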