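import Pool.Agent.Work.MP_c6c039_lc.FP.StmtsD

/-! Item Sd (helper86): all entries of a path which does not cross the chord are on one side. -/

set_option autoImplicit false

namespace Pool.Agent.Work.MP_c6c039_lc.FP

open Pool.Agent.PT

namespace ISd

theorem aux (hCh : St_Ch) (I : In) (hI : CH I) (a b : ℕ) (ha : ext I a = true)
    (hb : ext I b = true) : ∀ (r : List ℕ) (x : ℕ), Ds I (a :: b :: x :: r) →
    (∀ i, i + 1 < (x :: r).length →
      cr I a b ((x :: r).getD i 0) ((x :: r).getD (i + 1) 0) = false) →
    ∀ i ∈ x :: r, chi I a b i = chi I a b x := by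
  intro r
  induction r with
  | nil =>
    intro x _ _ i hi
    rw [List.mem_singleton] at hi
    rw [hi]
  | cons y r ih =>
    intro x hD hc i hi
    have hn := hD.1
    simp only [List.nodup_cons, List.mem_cons, not_or] at hn
    obtain ⟨⟨hab, hax, hay, har⟩, ⟨hbx, hby, hbr⟩, ⟨hxy, hxr⟩, hyr, hr⟩ := hn
    have hxy' : chi I a b x = chi I a b y := by
      by_contra hne
      have h4 : Ds I [a, b, x, y] := by
        refine ⟨?_, ?_⟩
        · simp [hab, hax, hay, hbx, hby, hxy]
        · intro z hz
          apply hD.2
          simp only [List.mem_cons, List.not_mem_nil, or_false] at hz ⊢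
          rcases hz with h | h | h | h
          · exact Or.inl h
          · exact Or.inr (Or.inl h)
          · exact Or.inr (Or.inr (Or.inl h))
          · exact Or.inr (Or.inr (Or.inr (Or.inl h)))
      have h5 := hCh I hI a b x y h4 ha hb hne
      have h6 := hc 0 (by simp)
      have h7 : cr I a b x y = false := h6
      rw [h5] at h7
      exact Bool.noConfusion h7
    rcases List.mem_cons.1 hi with h | h
    · rw [h]
    · rw [hxy']
      refine ih y ⟨?_, ?_⟩ ?_ i h
      · simp only [List.nodup_cons, List.mem_cons, not_or]
        exact ⟨⟨hab, hay, har⟩, ⟨hby, hbr⟩, hyr, hr⟩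
      · intro z hz
        apply hD.2
        rcases List.mem_cons.1 hz with h1 | h1
        · rw [h1]
          exact List.mem_cons_self
        · rcases List.mem_cons.1 h1 with h2 | h2
          · rw [h2]
            exact List.mem_cons_of_mem _ List.mem_cons_self
          · exact List.mem_cons_of_mem _ (List.mem_cons_of_mem _ (List.mem_cons_of_mem _ h2))
      · intro j hj
        have h1 := hc (j + 1) (by simp only [List.length_cons] at hj ⊢; omega)
        rw [List.getD_cons_succ, List.getD_cons_succ] at h1
        exact h1

end ISd

theorem pr_Sd (hCh : St_Ch) : St_Sd := by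
  intro I hI a b r hD ha hb hc i hi j hj
  cases r with
  | nil => exact absurd hi List.not_mem_nil
  | cons x r =>
    rw [ISd.aux hCh I hI a b ha hb r x hD hc i hi, ISd.aux hCh I hI a b ha hb r x hD hc j hj]

end Pool.Agent.Work.MP_c6c039_lc.FP
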