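import Pool.Agent.Work.MP_c6c039_lc.FP.StmtsG

/-!
# Block FP, item Xt: extreme points
-/

set_option autoImplicit false

namespace Pool.Agent.Work.MP_c6c039_lc.FP

open Pool.Agent.PT

namespace IXt

lemma ds4 (I : In) (a b c p : ℕ) : Ds I [a, b, c, p] ↔
    (a ≠ b ∧ b ≠ c ∧ c ≠ a ∧ a ≠ p ∧ b ≠ p ∧ c ≠ p) ∧
      (a < nn I ∧ b < nn I ∧ c < nn I ∧ p < nn I) := by
  unfold Ds
  simp only [List.nodup_cons, List.mem_cons, List.not_mem_nil, or_false, not_or, List.nodup_nil,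
    not_false_eq_true, and_true, forall_eq_or_imp, forall_eq]
  tauto

end IXt

open IXt in
/-- item Xt -/
theorem pr_Xt : St_Xt := by
  intro I p hp
  simp only [ext, List.all_eq_true, List.mem_range, Bool.or_eq_true, beq_iff_eq,
    Bool.not_eq_true']
  constructor
  · intro h a b c hd
    obtain ⟨⟨h1, h2, h3, h4, h5, h6⟩, ha, hb, hc, -⟩ := (ds4 I a b c p).1 hd
    have := h a ha b hb c hc
    tauto
  · intro h a ha b hb c hc
    by_cases h1 : a = b
    · exact Or.inl h1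
    by_cases h2 : b = c
    · exact Or.inr (Or.inl h2)
    by_cases h3 : c = a
    · exact Or.inr (Or.inr (Or.inl h3))
    by_cases h4 : a = p
    · exact Or.inr (Or.inr (Or.inr (Or.inl h4)))
    by_cases h5 : b = p
    · exact Or.inr (Or.inr (Or.inr (Or.inr (Or.inl h5))))
    by_cases h6 : c = p
    · exact Or.inr (Or.inr (Or.inr (Or.inr (Or.inr (Or.inl h6)))))
    exact Or.inr (Or.inr (Or.inr (Or.inr (Or.inr (Or.inr
      (h a b c ((ds4 I a b c p).2 ⟨⟨h1, h2, h3, h4, h5, h6⟩, ha, hb, hc, hp⟩)))))))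

end Pool.Agent.Work.MP_c6c039_lc.FP
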