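import Pool.Agent.Work.MP_c6c039_lc.FP.StmtsD

/-!
# Block FP, part C: compressed states, counting, the search (captain helper87)

Every docstring is the complete proof.  Item `X`: statement `St_X`, file `FP/I_X.lean`, theorem
`pr_X`, with the statements named after USES as hypotheses `(hA : St_A)`; namespace as here, auxiliary
lemmas in the NEW sub-namespace `IX`.
-/

set_option autoImplicit false

namespace Pool.Agent.Work.MP_c6c039_lc.FP

open Pool.Agent.PT

/-- Lk (EASY).  `(p, q) ∈ prs I` (`List.mem_product`), and the entry of `(prs I).map f` at the index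
`idxOf (p, q)` is `f (p, q)` (`List.getElem_idxOf`, `List.getD_eq_getElem`; the `BEq` instance in `look` is
`instBEqOfDecidableEq`). -/
def St_Lk : Prop := ∀ (I : In) (f : ℕ × ℕ → Bool) (p q : ℕ), p ∈ it I → q ∈ it I →
  look I ((prs I).map f) p q = f (p, q)

/-- Rt (EASY-MEDIUM).  The tables under enlargement of the arc.  `range (B + 1 - x)` is `range (B - x)` and the
element `B - x` (`x ≤ B`), with `x + (B - x) = B`.  `range (x - (A - 1))` is `0` and the shifted
`range (x - A)` (`A ≤ x`, `1 ≤ A`): `List.range_succ_eq_map`, `(A - 1) + (i + 1) = A + i`. -/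
def St_Rt : Prop := ∀ (I : In) (c : ℕ × ℕ),
  (∀ x B, x ≤ B → stR I c x (B + 1) =
    (stR I c x B && (chi I c.1 c.2 (hp I B) == chi I c.1 c.2 (hp I x)))) ∧
  ∀ A x, 1 ≤ A → A ≤ x → stL I c (A - 1) x =
    (stL I c A x && (chi I c.1 c.2 (hp I (A - 1)) == chi I c.1 c.2 (hp I x)))

/-- Vi (EASY-MEDIUM).  `visC I q (vis l) j = T` iff `j = hp x` for some `x ∈ [q.1, q.2)` (`List.any`,
`x = q.1 + i`) or `j ∈ vis l`, i.e. `(false, j) ∈ l`.  By `RI.all`, `RI.hull` the vertices of `l` with first
component `true` are exactly the `(true, x)`, `q.1 ≤ x < q.2`; so this is `j ∈ l.map (pt I)`. -/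
def St_Vi : Prop := ∀ (I : In) (q : ℕ × ℕ) (l : List V), RI I q l → ∀ j,
  visC I q (vis l) j = decide (j ∈ l.map (pt I))

/-- CW (MEDIUM).  THE CROSSING TEST ON RECORDS.  `e = (e1, e2)` is a recorded edge of `r` (Ed: consecutive
vertices of `r`, not both extreme), `w` the current vertex, `v` a candidate, `v, w` not both extreme; the four
points `pt v, pt w, pt e1, pt e2` are distinct (`RI.ptn` for `w :: r`, and the new vertex gives a new point,
as in Rn: `RI` for the run `v :: w :: r` if `okF` holds; the point of a candidate is new in any case, by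
`HC.inj`, `HC.ex`, `HC.int`).
Case `v, w` both interior.  `e` of interior points: `recI`, direct.  `e` with one extreme end `hp x` and the
interior end `p`: the record is `recH I q p x`, and `look` of its first table is `chi . . (hp x)` (Lk):
`cr v w p h = !(vwp == vwh) && !(phv == phw)`, `phv = vph` (`CH.cyc`).  Use Cs for the order of the ends.
Case `v = (true, y)` or `w = (true, y)`, the other one `(false, a)`.  `e` interior: direct (Cs).  `e` with
`hp x` and `p`: `x ∈ [q.1, q.2)` (`RI.hull`), `x ≠ y`, and the test is `B = q.2`.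
(1) `v = (true, q.2)`, `y = q.2`, `x < y < x + mm I` (`q.2 - q.1 < mm I`): CA first clause with `p`, `q := a`, and
`stR (p, a) x (y + 1) = stR (p, a) x y && (s y == s x)` (Rt); with the first factor `s x == s y` this is
the formula of `crC`.  (2) `v = (true, q.1 - 1)`: `y = q.1 - 1 ≠ q.2`, `y < x < y + mm I`: CA second clause, Rt.
(3) `w = (true, y)`, `y + 1 = q.2`: `x < y` (`x ≠ y`), CA first clause with `y + 1 = q.2`.  (4) `w = (true, y)`, `y = q.1`,
`y + 1 ≠ q.2`: `y < x`, CA second clause.  (`RI.head` for `w :: r`: (3) or `y = q.1`.)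
In all cases `p ≠ a` because the four points are distinct.  USES Sy Cs CA Rn Ed Lk Rt. -/
def St_CW : Prop := ∀ I : In, Good I → HC I → ∀ q w r, Run I q (w :: r) → ∀ v,
  v ∈ candF I q (w :: r) → ¬ (v.1 = true ∧ w.1 = true) → ∀ e ∈ edg r,
  crC I q.2 v w (recOf I q e) = cr I (pt I v) (pt I w) (pt I e.1) (pt I e.2)

/-- OW (EASY-MEDIUM).  THE TEST ON STATES IS THE TEST ON PATHS.  `l = []`: both `T`.  `l = w :: r`:
`okC I (abs I q l) v = okW I (abs I q l) w v`.  Both extreme: the filters agree on `range (nn I)`: by Vi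
`visC .. j && !(j == pt w)` is `decide (j ∈ r.map pt)` (`pt w ∉ r.map pt`, `RI.ptn`), and
`!visC .. j && !(j == pt v)` is `!decide (j ∈ (v :: w :: r).map pt)`.  Otherwise: `List.tail` of a map is the
map of the tail, so by Ed (second clause) both sides run over `edg r`; `List.all_map`, CW.
USES Rn Ed Vi CW. -/
def St_OW : Prop := ∀ I : In, Good I → HC I → ∀ q l, Run I q l → ∀ v, v ∈ candF I q l →
  okC I (abs I q l) v = okF I l v

/-- Up (MEDIUM).  THE NEW STATE.  Components: the arc by definition; `head?`; `vis (v :: l)`; `fresh`; and the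
records: `edg (v :: l)` is `edg l` with `(v, w)` in front if `l = w :: r` and not both are extreme (definition of
`edg`), its new first record is `recOf I (nA q v) (v, w)`; the old records have to be computed for the new arc:
if `v.1 = F` the arc is the same.  `v = (true, q.2)`, new arc `(q.1, q.2 + 1)`: for `e ∈ edg l` (Ed) with the
extreme end `hp x`, `q.1 ≤ x < q.2`, and the interior end `p`: `updR I T q.2 (recH I q p x) =
recH I (q.1, q.2 + 1) p x`: tables `1` and `3` are the same (`look` of a table of `prs I` at a pair of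
`prs I` is the entry: Lk, `List.map_congr_left`), table 2 by Rt.  `v = (true, q.1 - 1)` (`≠ q.2`,
`1 ≤ q.1` by `RI.low`): table 3 by Rt.  Records of two interior points are not changed (`q + 1 ≠ 0`).
USES Rn Ed Lk Rt. -/
def St_Up : Prop := ∀ I : In, Good I → HC I → ∀ q l, Run I q l → ∀ v, v ∈ candF I q l →
  abs I (nA q v) (v :: l) = upd I (abs I q l) v

/-- Ly (EASY-MEDIUM).  Induction on `t` (`Function.iterate_succ_apply'`).  `t = 0`: `L0 I` is the list of the
states of the runs `Run.nil`.  Step: `cand I (abs I q l) = candF I q l` (by definition), OW, Up; a run of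
length `t + 1` is `Run.cons`.  USES OW Up. -/
def St_Ly : Prop := ∀ I : In, Good I → HC I → ∀ t s,
  s ∈ lay I t ↔ ∃ q l, Run I q l ∧ l.length = t ∧ s = abs I q l

/-- Ec (EASY).  NUMBER OF RECORDED EDGES.  Induction on `l` of the two statements: `(edg l).length ≤
2 (vis l).length`, and `(edg l).length + 1 ≤ 2 (vis l).length` if the first vertex of `l` is interior.  Adding
an interior vertex adds at most 1 edge and 1 to `vis`; adding an extreme vertex adds an edge only if the
first vertex is interior. -/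
def St_Ec : Prop := ∀ l : List V, (edg l).length ≤ 2 * (vis l).length

/-- Ll (EASY-MEDIUM).  Lists of length at most `n` over a finite set `S`: induction on `n`: `n = 0`: `{[]}`;
`F (n + 1) = insert [] (image of (a, l) ↦ a :: l on S ×ˢ F n)`, with `card ≤ 1 + card S * (card S + 1)^n ≤
(card S + 1)^(n + 1)`. -/
def St_Ll : Prop := ∀ (α : Type) [DecidableEq α] (S : Finset α) (n : ℕ),
  ∃ F : Finset (List α), F.card ≤ (S.card + 1) ^ n ∧
    ∀ l : List α, l.length ≤ n → (∀ a ∈ l, a ∈ S) → l ∈ F

/-- Gc (EASY-MEDIUM).  THE RECORDS.  Let `k = (it I).length`, `S = (it I).toFinset`.  `G` = the union of the records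
`(p, q + 1, [], [], [])`, `p, q ∈ S` (at most `k²`) and `(p, 0, t1, t2, t3)`, `p ∈ S`, `t_i` lists of Booleans of
length `k²` (`(prs I).length = k²`; at most `k 2^(3 k²)`: the lists of length `n` are the images of
`List.Vector Bool n`, or use Ll-like induction; a bound `2^(k²)` for each table).  `k² + k 8^(k²) + 1 ≤
(k² + k + 1) 8^(k²) ≤ 4^k 8^(k²)`, as `k² + k + 1 ≤ 4^k` (induction). -/
def St_Gc : Prop := ∀ I : In, ∃ G : Finset Rec,
  G.card + 1 ≤ 2 ^ (2 * (it I).length + 3 * (it I).length ^ 2) ∧
  ∀ (q : ℕ × ℕ) (e : V × V), ((e.1.1 = false → e.1.2 ∈ it I) ∧ (e.2.1 = false → e.2.2 ∈ it I)) →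
    ¬ (e.1.1 = true ∧ e.2.1 = true) → recOf I q e ∈ G

/-- Sc (MEDIUM).  NUMBER OF STATES.  `k = (it I).length`, `m = mm I`, `m + k = nn I` (`HC.tot`).  For a run
(Rn): `q.1 < 2 m`, `q.2 ≤ q.1 + m < 3 m`, so at most `(3 nn + 3)²` arcs; `l.head?` is `none` or `some (true, x)` with
`x < 3 m` or `some (false, a)` with `a ∈ it I`: at most `1 + 3 m + k ≤ 3 nn + 3`; `vis l` is a list over `it I` without
duplicates, so of length `≤ k`: at most `(k + 1)^k ≤ 2^(k²)` (Ll; `k + 1 ≤ 2^k`); the records: a list of length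
`≤ 2 k` (Ec) over `G` (Gc, Ed): at most `(G.card + 1)^(2 k) ≤ 2^(4 k² + 6 k³)` (Ll); `fresh`: 2.  Product:
`(3 nn + 3)³ 2^(1 + 5 k² + 6 k³) ≤ cap I (2 ^ ee I)`, `ee I = 20 (k + 1)³`.  Take the product Finset.
USES Rn Ed Ec Ll Gc. -/
def St_Sc : Prop := ∀ I : In, Good I → HC I → ∃ F : Finset St,
  F.card ≤ cap I (2 ^ ee I) ∧ ∀ q l, Run I q l → abs I q l ∈ F

/-- Dd (EASY).  Induction over `List.foldl` with general accumulator: `(foldl .. acc l)` is nodup if `acc` is, and
its elements are those of `acc` and `l`. -/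
def St_Dd : Prop := ∀ l : List St, (dd l).Nodup ∧ ∀ s, s ∈ dd l ↔ s ∈ l

/-- Lb (EASY-MEDIUM).  THE BOUNDED SEARCH.  `M = 2 ^ ee I`.  Induction on `t`: `layB I M t` and `lay I t` have
the same elements.  `t = 0`: `(L0 I).length = mm I ≤ nn I ≤ cap I M`, so `take` does nothing
(`List.take_of_length_le`).  Step: the elements of `L.flatMap nx` are those of `lay I (t + 1)`, so by Ly in the set
`F` of Sc; `dd` of it has no duplicates (Dd), so its length is at most `F.card ≤ cap I M`
(`List.toFinset_card_of_nodup`).  USES Ly Sc Dd. -/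
def St_Lb : Prop := ∀ I : In, Good I → HC I → ∀ t s, s ∈ layB I (2 ^ ee I) t ↔ s ∈ lay I t

/-- An (EASY-MEDIUM).  CORRECTNESS.  `nn I = 0`: `ans = T`, and `SP I []`.  Otherwise `HC I` (HC).  `ans = T` iff
`layB I (2 ^ ee I) (nn I) ≠ []` iff (Lb, Ly) there is a run of length `nn I` iff there is `p` with `SP I p`: So, and Co
(`l.length = p.length = nn I`).  USES HC So Co Ly Lb. -/
def St_An : Prop := ∀ I : In, Good I → (ans I (2 ^ ee I) = true ↔ ∃ p, SP I p)

end Pool.Agent.Work.MP_c6c039_lc.FP
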