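import Pool.Agent.Work.MP_c6c039_lc.FP.StmtsG

/-!
# Block FP, part D: runs and paths (captain helper87)

Every docstring is the complete proof.  Item `X`: statement `St_X`, file `FP/I_X.lean`, theorem
`pr_X`, with the statements named after USES as hypotheses `(hA : St_A)`; namespace as here, auxiliary
lemmas in the NEW sub-namespace `IX`.  Paths of vertices are lists with the NEWEST vertex first.
-/

set_option autoImplicit false

namespace Pool.Agent.Work.MP_c6c039_lc.FP

open Pool.Agent.PT

/-- invariants of a run with the arc `q` -/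
structure RI (I : In) (q : ℕ × ℕ) (l : List V) : Prop where
  le : q.1 ≤ q.2
  len : q.2 - q.1 ≤ mm I
  low : mm I ≤ q.2
  high : q.1 < 2 * mm I
  hull : ∀ v ∈ l, v.1 = true → q.1 ≤ v.2 ∧ v.2 < q.2
  all : ∀ x, q.1 ≤ x → x < q.2 → (true, x) ∈ l
  int : ∀ v ∈ l, v.1 = false → v.2 ∈ it I
  nodup : l.Nodup
  ptn : (l.map (pt I)).Nodup
  lt : ∀ v ∈ l, pt I v < nn I
  head : ∀ w r, l = w :: r → w.1 = true → w.2 = q.1 ∨ w.2 + 1 = q.2

/-- Rn (EASY-MEDIUM).  Induction on the run.  `nil`: trivial (`HC.pos`).  `cons`: cases of `v ∈ candF I q l`.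
(R) `v = (true, q.2)`, `q.2 - q.1 < mm I`, new arc `(q.1, q.2 + 1)`.  (L) `v = (true, q.1 - 1)`,
`q.2 - q.1 < mm I`; by `low` `q.1 ≥ 1`, so `q.1 - 1 ≠ q.2` and the new arc is `(q.1 - 1, q.2)`.  (I)
`v = (false, a)`, `a ∈ it I`, `a ∉ vis l`, so `(false, a) ∉ l` (`vis` is a filter and a map), the arc does not
change.  The new vertex is not in `l` (`hull`).  `ptn`: the extreme points of `l` have numbers in `[q.1, q.2)`,
and the new number, within `mm I` of all of them, gives a new point by `HC.inj` (for L and R); interior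
points are not extreme (`HC.int`, `HC.ex`) and different for different `v.2`.  `lt`: `HC.lt`, `HC.int`. -/
def St_Rn : Prop := ∀ I : In, Good I → HC I → ∀ q l, Run I q l → RI I q l

/-- Tl (EASY).  A suffix of a run is a run: induction on `Run`. -/
def St_Tl : Prop := ∀ (I : In) (q : ℕ × ℕ) (v : V) (r : List V), Run I q (v :: r) →
  ∃ q', Run I q' r ∧ v ∈ candF I q' r ∧ okF I r v = true ∧ q = nA q' v

/-- Aq (EASY).  `allEq b = true` iff all elements are equal: if `b = []` trivial, otherwise `headD` is an
element. -/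
def St_Aq : Prop := ∀ b : List Bool, allEq b = true ↔ ∀ x ∈ b, ∀ y ∈ b, x = y

/-- Ok (EASY-MEDIUM).  Unfold `okF`; Aq for the two lists (`List.mem_map`, `List.mem_filter`,
`List.mem_range`); the entries of `r` are points `< nn I` by hypothesis.  USES Aq. -/
def St_Ok : Prop := ∀ (I : In) (w v : V) (r : List V), (∀ u ∈ r, pt I u < nn I) →
  (okF I (w :: r) v = true ↔
    co I (pt I v) ≠ co I (pt I w) ∧
    ((v.1 = true ∧ w.1 = true) →
      (∀ i ∈ r.map (pt I), ∀ j ∈ r.map (pt I),
        chi I (pt I w) (pt I v) i = chi I (pt I w) (pt I v) j) ∧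
      ∀ i j, i < nn I → j < nn I → i ∉ (v :: w :: r).map (pt I) → j ∉ (v :: w :: r).map (pt I) →
        chi I (pt I w) (pt I v) i = chi I (pt I w) (pt I v) j) ∧
    (¬ (v.1 = true ∧ w.1 = true) →
      ∀ e ∈ (if fresh (w :: r) then (edg (w :: r)).tail else edg (w :: r)),
        cr I (pt I v) (pt I w) (pt I e.1) (pt I e.2) = false))

/-- Ed (EASY).  The recorded edges are the pairs of consecutive vertices with an interior end.  Induction on
`l` (cases of the first two vertices).  For the second clause: if `fresh (w :: r)` the head of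
`edg (w :: r)` is `(w, r.head)` and the tail is `edg r`; otherwise `edg (w :: r) = edg r` (`r ≠ []`) or both
are `[]`. -/
def St_Ed : Prop := ∀ (l : List V) (e : V × V),
  (e ∈ edg l ↔ ∃ i, ∃ h : i + 1 < l.length, e = (l[i], l[i + 1]) ∧ ¬ (e.1.1 = true ∧ e.2.1 = true)) ∧
  ∀ (w : V) (r : List V), (if fresh (w :: r) then (edg (w :: r)).tail else edg (w :: r)) = edg r

/-- So (MEDIUM).  SOUNDNESS.  Let `P = l.map (pt I)`.  `P` has no duplicates, all entries are `< nn I` and its
length is `nn I`, so it contains all (`RI` from Rn; a `Finset` of `nn I` elements in the range).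
`alt`: Tl gives the step in which `l[i]` was added to `l.drop (i + 1) = l[i + 1] :: ..`; Ok.
`NC`: let `i + 1 < j`, `j + 1 < l.length`; `v = l[i]`, `w = l[i + 1]`, `r = l.drop (i + 2)`, `v' = l[j]`, `w' = l[j + 1]`.
(1) `v`, `w` both extreme: the step that added `v` (Tl, Ok, second condition): `pt v', pt w' ∈ r.map pt` are on the
same side of `pt w, pt v`; with `CH.anti` also of `pt v, pt w`; so `cr = F`.
(2) `v'`, `w'` both extreme: the step that added `v'`: `pt v`, `pt w` are not among the points of `l.drop j` (no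
duplicates), so they are on the same side of the line `pt w', pt v'` (Ok, second condition, second part); `cr = F`.
(3) otherwise `(v', w') ∈ edg r` (Ed; `v', w'` are consecutive in `r`), the step that added `v`, Ok (third
condition) and Ed: `cr = F`.  USES Sy Rn Tl Ok Ed. -/
def St_So : Prop := ∀ I : In, Good I → HC I → ∀ q l, Run I q l → l.length = nn I →
  SP I (l.map (pt I))

/-- X0 (EASY-MEDIUM).  If no extreme point is visited the first number can be changed.  All vertices of `l` are
interior (`RI.hull` from Rn: `q.1 = q.2`).  Induction on `l` (Tl): the arcs do not change, `(false, a) ∈ candF I q l`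
does not depend on `q`, `okF` does not depend on `q`.  USES Rn Tl. -/
def St_X0 : Prop := ∀ I : In, Good I → HC I → ∀ x l, Run I (x, x) l → ∀ y, mm I ≤ y →
  y < 2 * mm I → Run I (y, y) l

/-- Cd (MEDIUM).  THE NEXT VERTEX IS A CANDIDATE.  `c ∉ l.map pt` (no duplicates in `s ++ c :: ..`).
If `c` is not extreme take `v = (false, c)`, `q' = q`.  Let `c` be extreme.  `q = (A, B)`, invariants by Rn.
If `A = B`: `HC.sur` gives `y ∈ [mm I, 2 mm I)` with `hp y = c`; X0: `q' = (y, y)`, `v = (true, y)`.
If `A < B`: `HC.sur` gives `x ∈ [B, B + mm I)` with `hp x = c`.  If `x ≥ A + mm I` then `hp x = hp (x - mm I)` with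
`A ≤ x - mm I < B` is visited (`RI.all`): contradiction.  So `B ≤ x < A + mm I` and `B - A < mm I`.  If `x = B` take
`v = (true, B)`; if `x = A + mm I - 1` take `v = (true, A - 1)` (`A ≥ 1` by `low`; `HC.per`).  Otherwise
`B < x < A + mm I - 1`: Ar for the list `p = s ++ c :: l.map pt`, `t = s.length`, and the numbers
`B < x < A + mm I - 1 < A + mm I < B + mm I`: `hp B` and `hp (A + mm I - 1)` are not visited and not `c`
(`HC.inj`: their numbers are in `[A, A + mm I)`, different from `x` and not in `[A, B)`), so they are in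
`s = p.take t`; `hp x = c` and `hp (A + mm I) = hp A` are in `p.drop t`.  (Ar with the roles take, drop, take, drop.)
USES Rn X0 Ar. -/
def St_Cd : Prop := ∀ I : In, Good I → HC I → ∀ q l, Run I q l → ∀ (s : List ℕ) (c : ℕ),
  (s ++ c :: l.map (pt I)).Nodup → (∀ a, a ∈ s ++ c :: l.map (pt I) ↔ a < nn I) →
  NC I (s ++ c :: l.map (pt I)) →
  ∃ q' v, Run I q' l ∧ v ∈ candF I q' l ∧ pt I v = c

/-- Sd (EASY-MEDIUM).  ONE SIDE.  Suppose two entries of `r` are on different sides of the line `a b`: then two
consecutive entries `r[i], r[i + 1]` are (induction), and Ch gives `cr I a b r[i] r[i + 1] = T`, which the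
hypothesis excludes.  USES Ch. -/
def St_Sd : Prop := ∀ I : In, CH I → ∀ (a b : ℕ) (r : List ℕ), Ds I (a :: b :: r) →
  ext I a = true → ext I b = true →
  (∀ i, i + 1 < r.length → cr I a b (r.getD i 0) (r.getD (i + 1) 0) = false) →
  ∀ i ∈ r, ∀ j ∈ r, chi I a b i = chi I a b j

/-- Oc (MEDIUM).  THE STEPS OF A SIMPLE PATH ARE ALLOWED.  `l = []`: trivial.  `l = w :: r`; Ok.  `p = s ++ pt v ::
pt w :: r.map pt`, `n = s.length`.  Colours: `SP.alt` at `n`.  Both extreme (`ext` by `HC.ex`): Sd for the line
`pt w, pt v` and the list `r.map pt`: the edges of `r.map pt` are edges of `p` with indices `≥ n + 2`, `NC` at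
`(n, j)` and Cs; Sd for `s`: the edges of `s` have indices `i + 1 < n`, `NC` at `(i, n)` and Cs; the points `i, j`
not in `(v :: w :: r).map pt` are in `s` by `SP.span`.  Recorded edges: by Ed an element `e` of the list is a
pair of consecutive vertices of `r`, so of consecutive entries of `p` with index `≥ n + 2`; `NC` at `(n, j)`.
USES Sy Cs Ok Ed Sd Rn. -/
def St_Oc : Prop := ∀ I : In, Good I → HC I → ∀ q l, Run I q l → ∀ (s : List ℕ) (v : V),
  v ∈ candF I q l → SP I (s ++ pt I v :: l.map (pt I)) → okF I l v = true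

/-- Co (EASY-MEDIUM).  COMPLETENESS.  For every `t ≤ nn I` there is a run `l` with `l.map pt = p.drop (nn I - t)`
(`p.length = nn I` because `p` has no duplicates and contains exactly the numbers `< nn I`): induction on `t`;
`t = 0`: `Run.nil` with `x = mm I`; step: `p = s ++ c :: p.drop (nn I - t)`, Cd gives `q'`, `v` with
`pt I v = c`, Oc gives `okF`, `Run.cons`.  USES Cd Oc. -/
def St_Co : Prop := ∀ I : In, Good I → HC I → ∀ p : List ℕ, SP I p →
  ∃ q l, Run I q l ∧ l.map (pt I) = p

end Pool.Agent.Work.MP_c6c039_lc.FP
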