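import Pool.Agent.Work.MP_c6c039_lc.FP.Defs

/-!
# Block FP, part G: orientations, hull, parity of crossings (captain helper87)

Every docstring is the complete proof.  Item `X`: statement `St_X`, file `FP/I_X.lean`, theorem
`pr_X`, with the statements named after USES as hypotheses `(hA : St_A)`; namespace as here, auxiliary
lemmas in the NEW sub-namespace `IX`.  In the docstrings `abc` is `chi I a b c`, `T`/`F` are `true`/`false`.
-/

set_option autoImplicit false

namespace Pool.Agent.Work.MP_c6c039_lc.FP

open Pool.Agent.PT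

/-- distinct points of the instance -/
def Ds (I : In) (l : List ℕ) : Prop := l.Nodup ∧ ∀ a ∈ l, a < nn I

/-- the rules for orientations -/
structure CH (I : In) : Prop where
  cyc : ∀ a b c, Ds I [a, b, c] → chi I b c a = chi I a b c
  anti : ∀ a b c, Ds I [a, b, c] → chi I b a c = !chi I a b c
  deg : ∀ a b, a < nn I → b < nn I →
    chi I a a b = false ∧ chi I a b a = false ∧ chi I a b b = false
  four : ∀ (a b c d : ℕ) (s : Bool), Ds I [a, b, c, d] → chi I a b d = s → chi I b c d = s →
    chi I c a d = s → chi I a b c = s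
  gp : ∀ p a b c d, Ds I [p, a, b, c, d] →
    ¬ ((chi I p a b == chi I p c d) = !(chi I p a c == chi I p b d) ∧
      (!(chi I p a c == chi I p b d)) = (chi I p a d == chi I p b c))

/-- Sy (EASY).  With `[abc] = ar X Y a b c`: `[bca] = [abc]`, `[bac] = -[abc]`, `[aab] = [aba] = [abb] = 0`,
`[abd] + [bcd] + [cad] = [abc]`, `[pab][pcd] - [pac][pbd] + [pad][pbc] = 0` (all by `ring` after
unfolding `ar`); for distinct points all `[abc]` are not `0`, and `chi` is the test `0 < [abc]`.
`four`: if the three summands are positive (negative) then so is the sum.  `gp`: `chi p a b == chi p c d`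
says that the product `[pab][pcd]` is positive; if the three Booleans are `T` then the three summands
of the second identity are all positive, if they are `F` all negative. -/
def St_Sy : Prop := ∀ I : In, Rl I → CH I

/-- Xt (EASY).  Unfold `ext` (`List.all_eq_true`, `List.mem_range`). -/
def St_Xt : Prop := ∀ (I : In) (p : ℕ), p < nn I →
  (ext I p = true ↔ ∀ a b c, Ds I [a, b, c, p] → inT I a b c p = false)

/-- Cs (EASY).  Symmetries of `cr`: unfold, `CH.anti`. -/
def St_Cs : Prop := ∀ I : In, CH I → ∀ a b c d, Ds I [a, b, c, d] →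
  cr I b a c d = cr I a b c d ∧ cr I a b d c = cr I a b c d ∧ cr I c d a b = cr I a b c d

/-- T5 (EASY-MEDIUM).  Rewrite all orientations with `CH.cyc`, `CH.anti` in terms of the ten Booleans
`xyz, xyu, xyv, xzu, xzv, xuv, yzu, yzv, yuv, zuv`.  The five relations `CH.gp` (one for every first
point `p ∈ {x, y, z, u, v}`, the other four in any order) are Boolean conditions on these ten, and the
claim follows from them: generalize the ten Booleans and use `decide` (or `revert ...; decide`, or case
distinction).  [Checked by computer: among the 1024 cases the five relations imply the claim.] -/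
def St_T5 : Prop := ∀ I : In, CH I → ∀ x y z u v, Ds I [x, y, z, u, v] →
  xor (xor (cr I x y u v) (cr I y z u v)) (cr I z x u v) = xor (inT I x y z u) (inT I x y z v)

/-- Ch (EASY-MEDIUM).  By `cr` it remains to show `xya ≠ xyb`.  Let `s = abx`, `aby = !s`, and suppose
`xya = xyb = t`.  If `t = s` then `a` lies in the triangle `b x y`: `bxa = abx = s`, `xya = s`,
`yba = aby` negated (`yba = bay = !aby`) `= s`: contradiction to `ext a` (Xt).  If `t = !s` then `b` lies in
the triangle `a x y`: `axb = !abx = !s`, `xyb = !s`, `yab = aby = !s`: contradiction to `ext b`.  USES Xt. -/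
def St_Ch : Prop := ∀ I : In, CH I → ∀ a b x y, Ds I [a, b, x, y] → ext I a = true →
  ext I b = true → chi I a b x ≠ chi I a b y → cr I a b x y = true

/-- Cq (EASY).  Let `abc = s`, so `abd = !s`.  Suppose `acb ≠ acd`: `acb = !s`, so `acd = s`, `cda = s`,
`cdb = !s` (by `cr`), `bcd = !s`, `cad = !s`, and `CH.four` (for `a b c d`, value `!s`) gives `abc = !s`. -/
def St_Cq : Prop := ∀ I : In, CH I → ∀ a b c d, Ds I [a, b, c, d] → cr I a b c d = true →
  chi I a c b = chi I a c d

/-- G0 (MEDIUM).  Coordinates `X, Y` from `Rl`.  Let `p` be not extreme: by Xt there are `a, b, c` with `p` in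
the triangle `a b c`: `[abp], [bcp], [cap]` have the same sign `s`.  The linear form
`f r = [pqr]` satisfies `[bcp] f a + [cap] f b + [abp] f c = [abc] f p = 0` (ring), and `f` vanishes for
`r = p, q` only among the points, so at most one of `f a, f b, f c` is `0` and both signs occur among
them.  So the points `r < nn I` with `f r > 0` exist; take one, `h`, with `f h` maximal
(`Finset.exists_max_image` on the range).  `h` is extreme: if `h` lies in a triangle `d e g` of points
(Xt) then `[eg h] f d + [gd h] f e + [de h] f g = [deg] f h` with weights of one sign and sum `[deg]`, all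
different from 0, so `f d = f e = f g = f h` (all `≤ f h`), and then `[deg] = 0` because `f` is a nonconstant
affine function of the point (`[deg] (X q - X p)` and `[deg] (Y q - Y p)` are combinations of the differences
of `f`; `(X q, Y q) ≠ (X p, Y p)`).  The same for `-f` gives the second point; `≠ q` since `f q = 0`.
USES Sy Xt. -/
def St_G0 : Prop := ∀ I : In, Rl I → ∀ p q, p < nn I → q < nn I → p ≠ q → ext I p = false →
  (∃ h, h < nn I ∧ ext I h = true ∧ h ≠ q ∧ chi I p q h = true) ∧
    ∃ h, h < nn I ∧ ext I h = true ∧ h ≠ q ∧ chi I p q h = false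

/-- Ex (EASY-MEDIUM).  Let `h < nn I` have minimal `X h`.  If `h` lies in a triangle `a b c` then
`[bch] X a + [cah] X b + [abh] X c = [abc] X h` with weights of one sign, all different from 0, so
`X a = X b = X c` and `[abc] = 0`.  USES Xt. -/
def St_Ex : Prop := ∀ I : In, Rl I → 0 < nn I → ∃ h, h < nn I ∧ ext I h = true

/-- Ho (EASY).  If `hac = F` then `h` lies in the triangle `a b c` (`abh = hab = T`, `bch = hbc = T`,
`cah = hca = !hac = T`).  If `abc = F` then `b` lies in the triangle `h a c` (`hab = T`, `acb = !abc = T`,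
`chb = hbc = T`).  USES Xt. -/
def St_Ho : Prop := ∀ I : In, CH I → ∀ h a b c, Ds I [h, a, b, c] → ext I h = true →
  ext I b = true → chi I h a b = true → chi I h b c = true →
  chi I h a c = true ∧ chi I a b c = true

/-- Hl (MEDIUM).  Let `E = exL I` (nodup, the extreme points), `h = E.headD 0 ∈ E` (if `E ≠ []`),
`a < b :⇔ hab = T` for `a, b ∈ E` different from `h`: a strict total order (`CH.anti`, Ho).  `rk h = 0` and
`rk a` is one plus the number of predecessors of `a` (`hha = F`, `haa = F` by `CH.deg`), so `rk` is a bijection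
from `E` onto `range E.length` with `rk a < rk b ↔ a < b` for `a, b ≠ h` (a predecessor of `a` is one of
`b`, and `a` itself counts for `b`; injective, values `< E.length`, so bijective by counting).  So for
`r < E.length` the element found in `hullOf` is the unique `a ∈ E` with `rk a = r`.  Third clause:
`i = 0`: `h_0 = h`, and `h h_j h_l = T` because `rk h_j < rk h_l`; `i > 0`: `h h_i h_j = T`, `h h_j h_l = T`,
Ho.  USES Ho. -/
def St_Hl : Prop := ∀ I : In, CH I → hu I = hullOf I → (hu I).Nodup ∧
  (∀ p, p ∈ hu I ↔ p < nn I ∧ ext I p = true) ∧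
  ∀ i j l, i < j → j < l → l < mm I →
    chi I ((hu I).getD i 0) ((hu I).getD j 0) ((hu I).getD l 0) = true

/-- facts about the hull and the interior points -/
structure HC (I : In) : Prop where
  pos : 0 < mm I
  lt : ∀ x, hp I x < nn I
  ex : ∀ x, ext I (hp I x) = true
  per : ∀ x, hp I (x + mm I) = hp I x
  inj : ∀ x y, x < y → y < x + mm I → hp I x ≠ hp I y
  sur : ∀ A p, p < nn I → ext I p = true → ∃ x, A ≤ x ∧ x < A + mm I ∧ hp I x = p
  cyc : ∀ x y z, x < y → y < z → z < x + mm I → chi I (hp I x) (hp I y) (hp I z) = true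
  int : ∀ a, a ∈ it I ↔ a < nn I ∧ ext I a = false
  intN : (it I).Nodup
  tot : mm I + (it I).length = nn I

/-- HC (MEDIUM).  `mm I > 0` by Ex and Hl.  `hp I x = (hu I)[x % mm I]`; Hl gives `lt`, `ex`, `inj` (different
residues, nodup), `per` (`Nat.add_mod_right`), `sur` (index `i < mm I` of `p`; the number `x ≥ A` with
`x % mm I = i`: `x = A + (i + mm I - A % mm I) % mm I`).  `cyc`: the residues of `x < y < z < x + mm I` are
`i < j < l` or `j < l < i` or `l < i < j`; Hl and `CH.cyc`.  `it I = inL I` is a filter of the range;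
`tot`: the two filters have together `nn I` elements (`hu I` and `exL I` have the same length).
USES Sy Ex Hl. -/
def St_HC : Prop := ∀ I : In, Good I → 0 < nn I → HC I

/-- F2 (MEDIUM).  Write `x, y, z` for `hp I x, ..` in orientations.  `stR I (p, q) x (y + 1) = T` says:
`pqz = pqx` for all `z ∈ [x, y]`.
(<=) Let `pxy = T`, `x < z < y`.  `xzy = T` (`HC.cyc`).  If `pxz = F` then `x` lies in the triangle `p z y`:
`pzx = T`, `zyx = xzy = T`, `ypx = pxy = T`; contradiction.  If `pzy = F` then `y` lies in the triangle
`p x z`: `pxy = T`, `xzy = T`, `zpy = pyz = T`; contradiction.  So `pxz = pzy = pxy = T` and `pqx = pqy = s`;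
`CH.gp` for `p; q, x, z, y` gives `pqz = s`.
(=>) Suppose `pqz = s` for all `z ∈ [x, y]` and `pxy = F`.  Then `p y (x + mm I) = T`, and (<=) for the pair
`y < x + mm I` (`< y + mm I`) gives `pqz = s` for all `z ∈ [y, x + mm I]`, so for all extreme points
(`HC.sur`): contradiction to G0.  USES Sy Xt G0. -/
def St_F2 : Prop := ∀ I : In, Good I → HC I → ∀ p q x y, p ∈ it I → q ∈ it I → p ≠ q →
  x < y → y < x + mm I → chi I p q (hp I x) = chi I p q (hp I y) →
  (stR I (p, q) x (y + 1) = true ↔ chi I p (hp I x) (hp I y) = true)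

/-- CA (MEDIUM).  The crossing rule for two edges from interior points `p ≠ q` to extreme points
`hp x`, `hp y`.  Put `s x = chi p q (hp x)`.  First `x < y < x + mm I`.  If `s x ≠ s y`: the right side is `F`, and
the left side is `F` by Cq (for `p, hp x, q, hp y`, with Cs).  If `s x = s y = s` let
`c = stR (p, q) x (y + 1)`; it is also `stR (q, p) x (y + 1)` (`chi q p = !chi p q`), so F2 twice:
`c = chi p (hp x) (hp y) = chi q (hp x) (hp y)`.  `cr p (hp x) q (hp y)` is
`(chi p (hp x) q ≠ chi p (hp x) (hp y)) && (chi q (hp y) p ≠ chi q (hp y) (hp x))`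
`= (!s ≠ c) && (s ≠ !c) = (c == s)`; Cs.  The second clause is the first one for `(q, y), (p, x)`:
`chi q p = !chi p q`, and `stR (q, p) y (x + 1) = stL (p, q) y x` if `s x = s y`.
USES Sy Xt Cs Cq F2. -/
def St_CA : Prop := ∀ I : In, Good I → HC I → ∀ p q x y, p ∈ it I → q ∈ it I → p ≠ q →
  (x < y → y < x + mm I → cr I q (hp I y) p (hp I x) =
    ((chi I p q (hp I x) == chi I p q (hp I y)) &&
      (stR I (p, q) x (y + 1) == chi I p q (hp I x)))) ∧
  (y < x → x < y + mm I → cr I q (hp I y) p (hp I x) =
    ((chi I p q (hp I x) == chi I p q (hp I y)) &&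
      !(stL I (p, q) y x == chi I p q (hp I x))))

/-- P1 (EASY).  Induction on `l`.  `l = [c]`: both sides are `F`.  `l = c :: d :: l'`: T5 for the segment
`c d` and the induction hypothesis for `d :: l'`.  USES T5. -/
def St_P1 : Prop := ∀ I : In, CH I → ∀ (x y z : ℕ) (l : List ℕ), l ≠ [] →
  Ds I (x :: y :: z :: l) →
  xor (xor (crP I x y l) (crP I y z l)) (crP I z x l) =
    xor (inT I x y z (l.getD 0 0)) (inT I x y z (l.getD (l.length - 1) 0))

/-- P2 (EASY-MEDIUM).  Induction on `k`.  `k = [a, b]`: by definition.  `k = a :: b :: c :: k'`, `z` the last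
element: `crPP l k = xor (crP a b l) (crPP l (b :: c :: k')) = xor (crP a b l) (crP b z l)` by induction,
and P1 for `a, b, z` (distinct) gives `xor (xor (crP a b l) (crP b z l)) (crP z a l) = F` because the ends
of `l` are extreme (Xt), so it is `crP z a l = crP a z l` (`cr z a c d = cr a z c d`, Cs, induction on
`l`).  USES Xt Cs P1. -/
def St_P2 : Prop := ∀ I : In, CH I → ∀ k l : List ℕ, 2 ≤ k.length → l ≠ [] → Ds I (k ++ l) →
  ext I (l.getD 0 0) = true → ext I (l.getD (l.length - 1) 0) = true →
  crPP I l k = crP I (k.getD 0 0) (k.getD (k.length - 1) 0) l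

/-- P3 (EASY-MEDIUM).  Induction on `l`.  `l = [b, d]`: by definition.  `l = b :: d :: e :: l'`, `z` the last
element: `crP a c l = xor (cr a c b d) (cr a c d z)` by induction.  T5 for the triangle `b d z` and the
segment `a c` (`a`, `c` extreme, Xt) with Cs: `xor (xor (cr a c b d) (cr a c d z)) (cr a c z b) = F`; and
`cr a c z b = cr a c b z`.  USES Xt Cs T5. -/
def St_P3 : Prop := ∀ I : In, CH I → ∀ (a c : ℕ) (l : List ℕ), 2 ≤ l.length →
  Ds I (a :: c :: l) → ext I a = true → ext I c = true →
  crP I a c l = cr I a c (l.getD 0 0) (l.getD (l.length - 1) 0)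

/-- NI (EASY-MEDIUM).  P2, P3 and Ch (`cr (head k) (last k) (head l) (last l) = T`) give `crPP I l k = T`, so some
`crP` of an edge of `k` is `T`, so some `cr` is `T` (two inductions).  USES Ch P2 P3. -/
def St_NI : Prop := ∀ I : In, CH I → ∀ k l : List ℕ, 2 ≤ k.length → 2 ≤ l.length →
  Ds I (k ++ l) → ext I (k.getD 0 0) = true → ext I (k.getD (k.length - 1) 0) = true →
  ext I (l.getD 0 0) = true → ext I (l.getD (l.length - 1) 0) = true →
  chi I (k.getD 0 0) (k.getD (k.length - 1) 0) (l.getD 0 0) ≠
    chi I (k.getD 0 0) (k.getD (k.length - 1) 0) (l.getD (l.length - 1) 0) →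
  ∃ i j, i + 1 < k.length ∧ j + 1 < l.length ∧
    cr I (k.getD i 0) (k.getD (i + 1) 0) (l.getD j 0) (l.getD (j + 1) 0) = true

/-- Ar (MEDIUM).  THE VISITED EXTREME POINTS ARE AN ARC.  Suppose all four.  Let `i, i' < t` be the indices of
`hp x`, `hp z` in `p`, `j, j' ≥ t` those of `hp y`, `hp w` (the four points are different, `HC.inj`).
`k` = the part of `p` from `min i i'` to `max i i'` (`(p.take (max i i' + 1)).drop (min i i')`), `l` = the part
from `min j j'` to `max j j'`: disjoint parts of a list without duplicates, ends `{hp x, hp z}` and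
`{hp y, hp w}`, all extreme.  `chi (hp x) (hp z) (hp y) = F`, `chi (hp x) (hp z) (hp w) = T` by
`HC.cyc`, so the last condition of NI holds in each of the four arrangements of the ends (`CH.anti`).
NI gives crossing edges of `p` with indices `i₁`, `j₁`, `i₁ + 1 < t ≤ j₁`, contradiction to `NC`.
USES Sy NI. -/
def St_Ar : Prop := ∀ I : In, Good I → HC I → ∀ p : List ℕ, p.Nodup → (∀ a ∈ p, a < nn I) →
  NC I p → ∀ t x y z w, x < y → y < z → z < w → w < x + mm I →
  ¬ (hp I x ∈ p.take t ∧ hp I y ∈ p.drop t ∧ hp I z ∈ p.take t ∧ hp I w ∈ p.drop t)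

end Pool.Agent.Work.MP_c6c039_lc.FP
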